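import Pool.Agent.SOC.Drawing

/-! Project SOD (MP_66ba69_lc, drawings with a given cyclic order), module Defs: smooth walks, quartet structures,
cores, nodes, links. -/

set_option autoImplicit false

open Set

namespace Pool.Agent.SOC

namespace Drawing

variable {V : Type} {D : Drawing V}

/-- `p` is a smooth walk from the vertex `u` to the vertex `v`: a smooth path which may pass junctions repeatedly. -/
def IsSmoothWalk (u v : V) (p : List D.Dart) : Prop :=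
  p.IsChain Follows ∧ (p.head?.map beg = some (Sum.inl u)) ∧ (p.getLast?.map fin = some (Sum.inl v))

variable (D)

/-- no smooth walk between vertices passes a junction twice -/
def NoRevisit : Prop := ∀ u v, ∀ p : List D.Dart, IsSmoothWalk u v p → (p.tail.map beg).Nodup

/-- `D` represents `G`, with smooth walks -/
def RepresentsW (G : SimpleGraph V) : Prop :=
  ∀ u v, u ≠ v → (G.Adj u v ↔ ∃ p : List D.Dart, IsSmoothWalk u v p)

/-- `D` is strict, with smooth walks -/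
def StrictW (G : SimpleGraph V) : Prop :=
  (∀ u v, G.Adj u v → ∃! p : List D.Dart, IsSmoothWalk u v p) ∧
    ∀ u, ∀ p : List D.Dart, ¬ IsSmoothWalk u u p

end Drawing

end Pool.Agent.SOC

namespace Pool.Agent.SOD

open Pool.Agent.SOC

/-- `G` has a strict outerconfluent drawing with the vertices in the cyclic order `s` (smooth walks never revisit a
junction). -/
def FixedOrderW {V : Type} (G : SimpleGraph V) (s : List V) : Prop :=
  ∃ D : Drawing V, D.Represents G ∧ D.Strict G ∧ D.NoRevisit ∧ D.InDisc s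

/-- A quartet structure for `G`, where `cr a b c d` says that the chords `ab` and `cd` cross: `T a b c d` says that
the smooth paths a-c, a-d, b-c, b-d have a common junction, with `a`, `b` on one side and `c`, `d` on the other side. -/
structure QT {V : Type} (G : SimpleGraph V) (cr : V → V → V → V → Prop) (T : V → V → V → V → Prop) : Prop where
  swap₁ : ∀ {a b c d}, T a b c d → T b a c d
  swap₂ : ∀ {a b c d}, T a b c d → T c d a b
  ne : ∀ {a b c d}, T a b c d → a ≠ b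
  adj : ∀ {a b c d}, T a b c d → G.Adj a c
  nocross : ∀ {a b c d}, T a b c d → ¬ cr a b c d
  some : ∀ {a b c d}, G.Adj a c → G.Adj b d → a ≠ b → a ≠ d → b ≠ c → c ≠ d → cr a c b d →
    T a b c d ∨ T a d b c
  notboth : ∀ {a b c d}, T a b c d → ¬ T a d b c
  trans : ∀ {u w x y z}, T u w x y → T u w y z → x ≠ z → T u w x z
  ferrers : ∀ {a b x y x' y'}, T a x b y → T a x' b y' → T a x b y' ∨ T a x' b y

/-- the chords `ab`, `cd` cross, for a linear order -/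
def crL {V : Type} [LinearOrder V] (a b c d : V) : Prop :=
  ¬ (((a < c ∧ c < b) ∨ (b < c ∧ c < a)) ↔ ((a < d ∧ d < b) ∨ (b < d ∧ d < a)))

/-- an oriented node: the vertices on its left side and on its right side -/
abbrev Nd (V : Type) := Finset V × Finset V

/-- `C` is a system of (oriented) cores for `G`, w.r.t. the linear order of `V`. -/
structure Cor {V : Type} [LinearOrder V] (G : SimpleGraph V) (C : Nd V → Prop) : Prop where
  swap : ∀ {K}, C K → C K.swap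
  adj : ∀ {K}, C K → ∀ {x y}, x ∈ K.1 → y ∈ K.2 → G.Adj x y
  nt : ∀ {K}, C K → K.1.Nontrivial
  chain : ∀ {K K'}, C K → C K' → ∀ {a b}, a ∈ K.1 → a ∈ K'.1 → b ∈ K.2 → b ∈ K'.2 →
    (K.1 ⊆ K'.1 ∧ K'.2 ⊆ K.2) ∨ (K'.1 ⊆ K.1 ∧ K.2 ⊆ K'.2)
  strict : ∀ {K K'}, C K → C K' → K.1 = K'.1 → ∀ {b}, b ∈ K.2 → b ∈ K'.2 → K = K'
  noninter : ∀ {K}, C K → ∀ {x x' y y'}, x ∈ K.1 → x' ∈ K.1 → y ∈ K.2 → y' ∈ K.2 → x < y → y < x' → x' < y' → False
  int1 : ∀ {K}, C K → ∀ {x y y' z}, x ∈ K.1 → y ∈ K.2 → y' ∈ K.2 → G.Adj x z → y < z → z < y' →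
    (x < y ∨ y' < x) → z ∈ K.2
  int2 : ∀ {K}, C K → ∀ {x y y' z}, x ∈ K.1 → y ∈ K.2 → y' ∈ K.2 → G.Adj x z → y < x → x < y' →
    (z < y ∨ y' < z) → z ∈ K.2
  cross : ∀ {a b c d}, a < b → b < c → c < d → G.Adj a c → G.Adj b d →
    ∃ K, C K ∧ ((a ∈ K.1 ∧ b ∈ K.1 ∧ c ∈ K.2 ∧ d ∈ K.2) ∨ (a ∈ K.1 ∧ d ∈ K.1 ∧ b ∈ K.2 ∧ c ∈ K.2))

variable {V : Type} [LinearOrder V] [Fintype V]

open Classical in
/-- `v` and its neighbours -/
noncomputable def nb (G : SimpleGraph V) (v : V) : Finset V := Finset.univ.filter (fun w => w = v ∨ G.Adj v w)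

/-- the vertex `v` as an oriented node, leaving `v`. (`v` is put on both sides, to distinguish it from cores.) -/
noncomputable def out (G : SimpleGraph V) (v : V) : Nd V := ({v}, nb G v)

/-- the vertex `v` as an oriented node, arriving at `v` -/
noncomputable def inn (G : SimpleGraph V) (v : V) : Nd V := (nb G v, {v})

/-- the oriented nodes: cores and vertices -/
def Nod (G : SimpleGraph V) (C : Nd V → Prop) (K : Nd V) : Prop := C K ∨ ∃ v, K = out G v ∨ K = inn G v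

/-- the properties of the system of oriented nodes -/
structure Nds (G : SimpleGraph V) (N : Nd V → Prop) : Prop where
  swap : ∀ {K}, N K → N K.swap
  adj : ∀ {K}, N K → ∀ {x y}, x ∈ K.1 → y ∈ K.2 → x ≠ y → G.Adj x y
  ne : ∀ {K}, N K → K.1.Nonempty
  chain : ∀ {K K'}, N K → N K' → ∀ {a b}, a ≠ b → a ∈ K.1 → a ∈ K'.1 → b ∈ K.2 → b ∈ K'.2 →
    (K.1 ⊆ K'.1 ∧ K'.2 ⊆ K.2) ∨ (K'.1 ⊆ K.1 ∧ K.2 ⊆ K'.2)
  strict : ∀ {K K'}, N K → N K' → K.1 = K'.1 → ∀ {a b}, a ≠ b → a ∈ K.1 → b ∈ K.2 → b ∈ K'.2 → K = K'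
  noninter : ∀ {K}, N K → ∀ {x x' y y'}, x ∈ K.1 → x' ∈ K.1 → y ∈ K.2 → y' ∈ K.2 → x < y → y < x' → x' < y' → False
  int1 : ∀ {K}, N K → ∀ {x y y' z}, x ∈ K.1 → y ∈ K.2 → y' ∈ K.2 → G.Adj x z → y < z → z < y' →
    (x < y ∨ y' < x) → z ∈ K.2
  int2 : ∀ {K}, N K → ∀ {x y y' z}, x ∈ K.1 → y ∈ K.2 → y' ∈ K.2 → G.Adj x z → y < x → x < y' →
    (z < y ∨ y' < z) → z ∈ K.2
  cross : ∀ {a b c d}, a < b → b < c → c < d → G.Adj a c → G.Adj b d →
    ∃ K, N K ∧ ((a ∈ K.1 ∧ b ∈ K.1 ∧ c ∈ K.2 ∧ d ∈ K.2) ∨ (a ∈ K.1 ∧ d ∈ K.1 ∧ b ∈ K.2 ∧ c ∈ K.2))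
  out : ∀ v, N (out G v)
  both : ∀ {K}, N K → ∀ {v}, v ∈ K.1 → v ∈ K.2 → K = SOD.out G v ∨ K = inn G v

/-- the node is a vertex -/
def IsV (G : SimpleGraph V) (K : Nd V) : Prop := ∃ v, K = out G v ∨ K = inn G v

/-- `K'` is the next oriented node after `K` on some path -/
def Lk (N : Nd V → Prop) (K K' : Nd V) : Prop :=
  N K ∧ N K' ∧ K.1 ⊂ K'.1 ∧ K'.2 ⊂ K.2 ∧ (∃ a ∈ K.1, ∃ b ∈ K'.2, a ≠ b) ∧
    ∀ M, N M → K.1 ⊆ M.1 → M.1 ⊆ K'.1 → K'.2 ⊆ M.2 → M.2 ⊆ K.2 → M = K ∨ M = K'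

/-- `K` has a smallest element on its left side -/
def Can (K : Nd V) : Prop := ∃ x ∈ K.1, ∀ y ∈ K.2, x < y

/-- lower sets -/
def Low (D : Finset V) : Prop := ∀ a ∈ D, ∀ m, m ∉ D → a < m

/-- the nodes present at stage `D` -/
def St (N : Nd V → Prop) (D : Finset V) (K : Nd V) : Prop := N K ∧ (∃ x ∈ K.1, x ∈ D) ∧ ∃ y ∈ K.2, y ∈ D

/-- `K` is the last node of stage `D` on the path from `a` to `m` -/
def Top (N : Nd V → Prop) (D : Finset V) (a m : V) (K : Nd V) : Prop :=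
  N K ∧ a ∈ K.1 ∧ m ∈ K.2 ∧ (∃ y ∈ K.2, y ∈ D) ∧
    ∀ K', N K' → a ∈ K'.1 → m ∈ K'.2 → (∃ y ∈ K'.2, y ∈ D) → K'.1 ⊆ K.1

/-- the new nodes in the phase of the vertex `v`, oriented towards `v` -/
def Priv (G : SimpleGraph V) (N : Nd V → Prop) (D : Finset V) (v : V) (K : Nd V) : Prop :=
  N K ∧ v ∈ K.2 ∧ (∀ y ∈ K.2, y ∉ D) ∧ (K = inn G v ∨ ∃ x ∈ K.1, x ∈ D)

/-- `a` is the smallest neighbour of `v` in `D` -/
def MinNb (G : SimpleGraph V) (D : Finset V) (v a : V) : Prop := a ∈ D ∧ G.Adj v a ∧ ∀ b ∈ D, G.Adj v b → a ≤ b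

/-- the order of the visible nodes of stage `D` along the contour: `x` is the first coordinate -/
structure Ord (N : Nd V → Prop) (D : Finset V) (x : Nd V → ℝ) : Prop where
  r1 : ∀ {a a' m m' K K'}, a ∈ D → a' ∈ D → m ∉ D → m' ∉ D → a ≤ a' → m' ≤ m →
    Top N D a m K → Top N D a' m' K' → x K ≤ x K'
  r2 : ∀ {a a' m m' K K' K₀}, a ∈ D → a' ∈ D → m ∉ D → m' ∉ D → a < a' → m < m' →
    N K₀ → a ∈ K₀.1 → m' ∈ K₀.1 → a' ∈ K₀.2 → m ∈ K₀.2 →
    Top N D a m K → Top N D a' m' K' → x K' ≤ x K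

/-- how the first coordinates `x'` after the phase of `v` are related to the first coordinates `x` before -/
structure XStep (G : SimpleGraph V) (N : Nd V → Prop) (D : Finset V) (v : V) (x x' : Nd V → ℝ) : Prop where
  sw : ∀ K, x K.swap = x K
  sw' : ∀ K, x' K.swap = x' K
  old : ∀ {K}, St N D K → x' K = x K
  left : ∀ {a₁ h K}, MinNb G D v a₁ → Top N D a₁ v h → Priv G N D v K → a₁ ∈ K.1 → x h < x' K
  mono : ∀ {a₁ K K'}, MinNb G D v a₁ → Priv G N D v K → Priv G N D v K' → a₁ ∈ K.1 → K.1 ⊂ K'.1 → x' K < x' K'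
  max : ∀ {K}, St N (insert v D) K → x' K ≤ x' (inn G v)

/-- `z` is on the segment from `A` to `B` -/
def OnSeg (A B z : ℂ) : Prop := ∃ t : ℝ, 0 ≤ t ∧ t ≤ 1 ∧ z = A + t * (B - A)

/-- a finite plane configuration of points and segments without crossings -/
structure Conf (P : Set ℂ) (S : Set (ℂ × ℂ)) : Prop where
  finP : P.Finite
  finS : S.Finite
  mem : ∀ {s}, s ∈ S → s.1 ∈ P ∧ s.2 ∈ P
  pt : ∀ {s z}, s ∈ S → z ∈ P → OnSeg s.1 s.2 z → z = s.1 ∨ z = s.2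
  seg : ∀ {s s' z}, s ∈ S → s' ∈ S → OnSeg s.1 s.2 z → OnSeg s'.1 s'.2 z →
    (s = s' ∨ s = s'.swap) ∨ ((z = s.1 ∨ z = s.2) ∧ (z = s'.1 ∨ z = s'.2))

/-- nothing of the configuration is above the point `d` -/
def VisP (P : Set ℂ) (S : Set (ℂ × ℂ)) (d : ℂ) : Prop :=
  (∀ z ∈ P, z.re = d.re → z.im ≤ d.im) ∧ ∀ s ∈ S, ∀ z, OnSeg s.1 s.2 z → z.re = d.re → z.im ≤ d.im

/-- the segments from the points of `Δ` to `c`, in both directions -/
def star (Δ : Set ℂ) (c : ℂ) : Set (ℂ × ℂ) := {s | (s.1 ∈ Δ ∧ s.2 = c) ∨ (s.1 = c ∧ s.2 ∈ Δ)}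

/-- the positions of the nodes of `I` -/
def pts (I : Nd V → Prop) (p : Nd V → ℂ) : Set ℂ := {z | ∃ K, I K ∧ z = p K}

/-- the segments of the links between nodes of `I` -/
def sgs (N I : Nd V → Prop) (p : Nd V → ℂ) : Set (ℂ × ℂ) := {s | ∃ K K', I K ∧ I K' ∧ Lk N K K' ∧ s = (p K, p K')}

/-- the nodes of `I` and their links, drawn with positions `p` and straight segments, form a plane configuration -/
structure Pln (N I : Nd V → Prop) (p : Nd V → ℂ) : Prop where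
  inj : ∀ {K K'}, I K → I K' → p K = p K' → K' = K ∨ K' = K.swap
  conf : Conf (pts I p) (sgs N I p)

/-- the node `K` is visible from above -/
def Vis (N I : Nd V → Prop) (p : Nd V → ℂ) (K : Nd V) : Prop := VisP (pts I p) (sgs N I p) (p K)

/-- `K` is the last node of `I` on the path from `a` to `v` -/
def Tp (I : Nd V → Prop) (a v : V) (K : Nd V) : Prop :=
  I K ∧ a ∈ K.1 ∧ v ∈ K.2 ∧ ∀ K', I K' → a ∈ K'.1 → v ∈ K'.2 → K'.1 ⊆ K.1

/-- `u` is above `k` and, seen from `k` and in counterclockwise order from the horizontal direction, before `l` -/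
def Sep (k u l : ℂ) : Prop :=
  k.im < u.im ∧ (l.im < k.im ∨ (k.im < l.im ∧ 0 < (u.re - k.re) * (l.im - k.im) - (u.im - k.im) * (l.re - k.re)))

/-- all invariants of the straight line drawing at stage `D` -/
structure Stage (G : SimpleGraph V) (N : Nd V → Prop) (D : Finset V) (p : Nd V → ℂ) : Prop where
  sw : ∀ K, p K.swap = p K
  pln : Pln N (St N D) p
  par : ∀ {v}, v ∈ D → (p (out G v)).im = (p (out G v)).re ^ 2
  inc : ∀ {v w}, v ∈ D → w ∈ D → v < w → (p (out G v)).re < (p (out G w)).re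
  core : ∀ {K}, St N D K → ¬ IsV G K → (p K).re ^ 2 < (p K).im
  ht : ∀ {K K'}, St N D K → St N D K' → Lk N K K' → (∃ x ∈ K.1, ∀ y ∈ K'.2, x < y) → (p K).im < (p K').im
  ord : Ord N D (fun K => (p K).re)
  vis : ∀ {a m K}, a ∈ D → m ∉ D → Top N D a m K → Vis N (St N D) p K
  r3 : ∀ {a m K P}, a ∈ D → m ∉ D → Top N D a m K → St N D P → (Lk N K P ∨ Lk N P K) →
    (p K).im < (p P).im → (p K).re < (p P).re
  sep : ∀ {K P Q}, St N D K → St N D P → St N D Q → ¬ IsV G K → Can K → Lk N K P → Lk N Q K →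
    Sep (p K) (p P) (p Q)

/-- the result of the phase of the vertex `v`: new positions `p'` -/
structure PhaseOut (G : SimpleGraph V) (N : Nd V → Prop) (D : Finset V) (v : V) (p p' : Nd V → ℂ) : Prop where
  sw : ∀ K, p' K.swap = p' K
  old : ∀ {K}, St N D K → p' K = p K
  pln : Pln N (St N (insert v D)) p'
  par : (p' (inn G v)).im = (p' (inn G v)).re ^ 2
  core : ∀ {K}, Priv G N D v K → K ≠ inn G v → (p' K).re ^ 2 < (p' K).im
  xmax : ∀ {K}, St N (insert v D) K → K ≠ inn G v → K ≠ out G v → (p' K).re < (p' (inn G v)).re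
  vis0 : (∀ a ∈ D, ¬ G.Adj v a) → ∀ {K}, St N D K → Vis N (St N D) p K → Vis N (St N (insert v D)) p' K
  vis1 : ∀ {a₁ h}, MinNb G D v a₁ → Top N D a₁ v h → ∀ {K}, St N D K → Vis N (St N D) p K →
    (p K).re ≤ (p h).re → Vis N (St N (insert v D)) p' K
  left : ∀ {a₁ h}, MinNb G D v a₁ → Top N D a₁ v h → ∀ {K}, Priv G N D v K → a₁ ∈ K.1 →
    Vis N (St N (insert v D)) p' K ∧ (p h).re < (p' K).re ∧
      ∀ {K'}, Priv G N D v K' → K.1 ⊂ K'.1 → (p' K).re < (p' K').re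
  visv : Vis N (St N (insert v D)) p' (inn G v)
  htold : ∀ {K K'}, St N D K → Priv G N D v K' → (p' K).im < (p' K').im
  htnew : ∀ {K K'}, Priv G N D v K → Priv G N D v K' → K.1 ⊂ K'.1 → (p' K).im < (p' K').im
  steep : ∀ {K P R}, St N D K → Priv G N D v P → Lk N K P → St N D R → (p R).re ≠ (p K).re →
    ((p R).im - (p K).im) * |(p' P).re - (p K).re| < |(p R).re - (p K).re| * ((p' P).im - (p K).im)

/-- the intermediate state of the phase of the vertex `v`: the nodes of `I` have been placed, with positions `q` -/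
structure PhMid (G : SimpleGraph V) (N : Nd V → Prop) (D : Finset V) (v : V) (p q : Nd V → ℂ)
    (I : Nd V → Prop) : Prop where
  sw : ∀ K, q K.swap = q K
  isw : ∀ {K}, I K → I K.swap
  base : ∀ {K}, St N D K → I K
  only : ∀ {K}, I K → St N D K ∨ Priv G N D v K ∨ Priv G N D v K.swap
  noinn : ¬ I (inn G v)
  low : ∀ {K K'}, Priv G N D v K → Priv G N D v K' → I K' → K.1.card < K'.1.card → I K
  old : ∀ {K}, St N D K → q K = p K
  pln : Pln N I q
  core : ∀ {K}, Priv G N D v K → I K → (q K).re ^ 2 < (q K).im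
  tvis : ∀ {a K}, a ∈ D → G.Adj a v → Tp I a v K → Vis N I q K
  tmono : ∀ {a a' K K'}, a ∈ D → a' ∈ D → a ≤ a' → Tp I a v K → Tp I a' v K' → (q K).re ≤ (q K').re
  left1 : ∀ {a₁ h K}, MinNb G D v a₁ → Top N D a₁ v h → St N D K → Vis N (St N D) p K →
    (p K).re ≤ (p h).re → Vis N I q K
  left2 : ∀ {a₁ h K}, MinNb G D v a₁ → Top N D a₁ v h → Priv G N D v K → I K → a₁ ∈ K.1 →
    Vis N I q K ∧ (p h).re < (q K).re
  left3 : ∀ {a₁ K K'}, MinNb G D v a₁ → Priv G N D v K → I K → a₁ ∈ K.1 → Priv G N D v K' → I K' →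
    K.1 ⊂ K'.1 → (q K).re < (q K').re
  htold : ∀ {K K'}, St N D K → Priv G N D v K' → I K' → (q K).im < (q K').im
  htnew : ∀ {K K'}, Priv G N D v K → I K → Priv G N D v K' → I K' → K.1 ⊂ K'.1 → (q K).im < (q K').im
  steep : ∀ {K P R}, St N D K → Priv G N D v P → I P → Lk N K P → St N D R → (p R).re ≠ (p K).re →
    ((p R).im - (p K).im) * |(q P).re - (p K).re| < |(p R).re - (p K).re| * ((q P).im - (p K).im)

/-- a straight line drawing of the track in the region above the parabola -/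
structure SLine (G : SimpleGraph V) (N : Nd V → Prop) (p : Nd V → ℂ) : Prop where
  sw : ∀ K, p K.swap = p K
  pln : Pln N N p
  par : ∀ v, (p (out G v)).im = (p (out G v)).re ^ 2
  inc : ∀ {v w}, v < w → (p (out G v)).re < (p (out G w)).re
  core : ∀ {K}, N K → ¬ IsV G K → (p K).re ^ 2 < (p K).im
  ht : ∀ {K K'}, Lk N K K' → (∃ x ∈ K.1, ∀ y ∈ K'.2, x < y) → (p K).im < (p K').im
  sep : ∀ {K P Q}, N K → ¬ IsV G K → Can K → Lk N K P → Lk N Q K → Sep (p K) (p P) (p Q)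

end Pool.Agent.SOD
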