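import Pool.Agent.SOD.Main

/-! Project SOD, module NoRev (size 2): in a strict drawing (smooth walks) no smooth walk passes a junction twice. -/

set_option autoImplicit false

open Set

namespace Pool.Agent.SOD

open Pool.Agent.SOC Pool.Agent.SOC.Drawing

variable {V : Type} {G : SimpleGraph V}

private theorem NoRev_walk_iff {D : Drawing V} (hN : D.NoRevisit) {u v : V} {p : List D.Dart} :
    IsSmoothWalk u v p ↔ IsSmoothPath u v p :=
  ⟨fun h => ⟨h.1, h.2.1, h.2.2, hN u v p h⟩, fun h => ⟨h.1, h.2.1, h.2.2.1⟩⟩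

private theorem NoRev_dup {α β : Type*} (f : α → β) : ∀ l : List α, ¬ (l.map f).Nodup →
    ∃ l1 d l2 e l3, l = l1 ++ d :: (l2 ++ e :: l3) ∧ f d = f e
  | [], h => absurd List.nodup_nil h
  | x :: l, h => by
    by_cases hx : f x ∈ l.map f
    · obtain ⟨e, he, hfe⟩ := List.mem_map.1 hx
      obtain ⟨l2, l3, rfl⟩ := List.append_of_mem he
      exact ⟨[], x, l2, e, l3, rfl, hfe.symm⟩
    · have h1 : ¬ (l.map f).Nodup := by
        intro h2
        apply h
        rw [List.map_cons]
        exact List.nodup_cons.2 ⟨hx, h2⟩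
      obtain ⟨l1, d, l2, e, l3, rfl, h3⟩ := NoRev_dup f l h1
      exact ⟨x :: l1, d, l2, e, l3, rfl, h3⟩

/-- PROOF. Let p be a smooth walk from u to v with beg d = beg e = j for two different positions of d, e in p.tail: p = p1 ++ d :: p2 ++ e :: p3 (p1 not empty, let a be its last dart, let b be the last
dart of d :: p2): Follows a d, Follows b e, fin a = beg d = beg e = fin b. u ≠ v (hS.2). Walk_ray for (a, e): SameRay (vin a) (vout e): then p1 ++ e :: p3 is a smooth walk from u to v, shorter than p: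
contradiction to hS.1 (G.Adj u v by hR). Otherwise SameRay (vin a) (- vout e): with SameRay (vin b) (vout e) and all vectors nonzero (Walk_vin, Walk_vout): SameRay (vin b) (- vin a) = (vout (Walk_rv a)), so
Follows b (Walk_rv a), and p1 ++ d :: p2 ++ Walk_rev p1 is a smooth walk from u to u: contradiction to hS.2. -/
theorem noRevisit_of_strictW {D : Drawing V} (hR : D.RepresentsW G) (hS : D.StrictW G) : D.NoRevisit := by
  intro u v p hp
  by_contra hnd
  have hp0 := hp
  obtain ⟨hp1, hp2, hp3⟩ := hp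
  obtain ⟨d0, p', rfl⟩ : ∃ d0 p', p = d0 :: p' := by
    cases p with
    | nil => exact absurd hp2 (by simp)
    | cons d0 p' => exact ⟨d0, p', rfl⟩
  obtain ⟨l1, d, l2, e, l3, rfl, hde⟩ := NoRev_dup beg p' hnd
  have huv : u ≠ v := by
    intro he
    subst he
    exact hS.2 u _ hp0
  have hadj : G.Adj u v := (hR u v huv).2 ⟨_, hp0⟩
  obtain ⟨a, ha⟩ : ∃ a, (d0 :: l1).getLast? = some a := ⟨_, List.getLast?_eq_getLast_of_ne_nil (List.cons_ne_nil _ _)⟩
  obtain ⟨b, hb⟩ : ∃ b, (d :: l2).getLast? = some b := ⟨_, List.getLast?_eq_getLast_of_ne_nil (List.cons_ne_nil _ _)⟩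
  have hc1 : ((d0 :: l1) ++ ((d :: l2) ++ (e :: l3))).IsChain Follows := hp1
  obtain ⟨c1, c2, c3⟩ := List.isChain_append.1 hc1
  obtain ⟨c4, c5, c6⟩ := List.isChain_append.1 c2
  have f1 : Follows a d := c3 a ha d rfl
  have f2 : Follows b e := c6 b hb e rfl
  obtain ⟨j, hj⟩ := f1.2.1
  have hfa : fin a = Sum.inr j := f1.1.trans hj
  have hbe : beg e = Sum.inr j := hde.symm.trans hj
  have hfb : fin b = Sum.inr j := f2.1.trans hbe
  rcases Walk_ray hfa hbe with hray | hray
  · have hf : Follows a e := ⟨hfa.trans hbe.symm, ⟨j, hbe⟩, hray⟩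
    have hw : IsSmoothWalk u v ((d0 :: l1) ++ (e :: l3)) := by
      refine ⟨SndBasic_join c1 c5 ha rfl hf, hp2, ?_⟩
      rw [List.getLast?_append_of_ne_nil _ (List.cons_ne_nil _ _)]
      have h8 : ((d0 :: l1) ++ ((d :: l2) ++ (e :: l3))).getLast?.map fin = some (Sum.inl v) := hp3
      rw [← List.append_assoc, List.getLast?_append_of_ne_nil _ (List.cons_ne_nil _ _)] at h8
      exact h8
    have heq := (hS.1 u v hadj).unique hp0 hw
    have hlen := congrArg List.length heq
    simp only [List.length_cons, List.length_append] at hlen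
    omega
  · have n1 : vout e ≠ 0 := (Walk_vout hbe).1
    have hray2 : SameRay ℝ (vin b) (- vin a) := by
      have h5 : SameRay ℝ (vout e) (- vin a) := by
        have h6 : SameRay ℝ (- vin a) (- - vout e) := by
          rw [sameRay_neg_iff]
          exact hray
        rw [neg_neg] at h6
        exact h6.symm
      exact f2.2.2.trans h5 (fun h0 => absurd h0 n1)
    have hf : Follows b (Walk_rv a) := by
      refine ⟨?_, ⟨j, ?_⟩, ?_⟩
      · rw [Walk_beg_rv, hfb, hfa]
      · rw [Walk_beg_rv, hfa]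
      · rw [Walk_vout_rv]
        exact hray2
    have hhead : (Walk_rev (d0 :: l1)).head? = some (Walk_rv a) := by
      unfold Walk_rev
      rw [List.head?_reverse, List.getLast?_map, ha]
      rfl
    have hne : Walk_rev (d0 :: l1) ≠ [] := by
      intro h5
      rw [h5] at hhead
      exact absurd hhead (by simp)
    have hw : IsSmoothWalk u u (((d0 :: l1) ++ (d :: l2)) ++ Walk_rev (d0 :: l1)) := by
      refine ⟨?_, hp2, ?_⟩
      · refine SndBasic_join (SndBasic_join c1 c4 ha rfl f1) (Walk_rev_chain c1) ?_ hhead hf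
        rw [List.getLast?_append_of_ne_nil _ (List.cons_ne_nil _ _)]
        exact hb
      · rw [List.getLast?_append_of_ne_nil _ hne, Walk_rev_last]
        exact hp2
    exact hS.2 u _ hw

/-- `G` has a drawing in the disc with the vertices in the cyclic order `s` such that every edge has exactly one smooth walk, different not adjacent
vertices are not joined by a smooth walk, and there is no smooth walk from a vertex to itself -/
def FixedOrderS (G : SimpleGraph V) (s : List V) : Prop :=
  ∃ D : Drawing V, D.RepresentsW G ∧ D.StrictW G ∧ D.InDisc s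

/-- PROOF. (noRevisit_of_strictW): with NoRevisit smooth walks and smooth paths are the same (Main_walk_iff is private in SOD.Main: copy it), look at the proof of qt_of_drawing. -/
theorem fixedOrderS_iff {s : List V} : FixedOrderS G s ↔ FixedOrderW G s := by
  constructor
  · rintro ⟨D, hR, hS, hs⟩
    have hN := noRevisit_of_strictW hR hS
    refine ⟨D, ?_, ⟨?_, ?_⟩, hN, hs⟩
    · intro u v huv
      rw [hR u v huv]
      exact ⟨fun ⟨p, hp⟩ => ⟨p, (NoRev_walk_iff hN).1 hp⟩, fun ⟨p, hp⟩ => ⟨p, (NoRev_walk_iff hN).2 hp⟩⟩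
    · intro u v huv
      obtain ⟨p, hp, hu⟩ := hS.1 u v huv
      exact ⟨p, (NoRev_walk_iff hN).1 hp, fun q hq => hu q ((NoRev_walk_iff hN).2 hq)⟩
    · exact fun u p hp => hS.2 u p ((NoRev_walk_iff hN).2 hp)
  · rintro ⟨D, hR, hS, hN, hs⟩
    refine ⟨D, ?_, ⟨?_, ?_⟩, hs⟩
    · intro u v huv
      rw [hR u v huv]
      exact ⟨fun ⟨p, hp⟩ => ⟨p, (NoRev_walk_iff hN).2 hp⟩, fun ⟨p, hp⟩ => ⟨p, (NoRev_walk_iff hN).1 hp⟩⟩
    · intro u v huv
      obtain ⟨p, hp, hu⟩ := hS.1 u v huv
      exact ⟨p, (NoRev_walk_iff hN).2 hp, fun q hq => hu q ((NoRev_walk_iff hN).1 hq)⟩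
    · exact fun u p hp => hS.2 u p ((NoRev_walk_iff hN).1 hp)

end Pool.Agent.SOD
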