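import Pool.Agent.SOD.Cone

/-! Project SOD, module Add (size 3): adding a very high point, joined to visible points. -/

set_option autoImplicit false

open Set

namespace Pool.Agent.SOD

private theorem Add_coords {A B z : ℂ} {t : ℝ} (h : z = A + t * (B - A)) :
    z.re = A.re + t * (B.re - A.re) ∧ z.im = A.im + t * (B.im - A.im) := by
  subst h
  constructor <;> simp

private theorem Add_symm {A B z : ℂ} (h : OnSeg A B z) : OnSeg B A z := by
  obtain ⟨t, h0, h1, e⟩ := h
  refine ⟨1 - t, by linarith, by linarith, ?_⟩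
  rw [e]
  push_cast
  ring

private theorem Add_im_le {A B z : ℂ} {M : ℝ} (hA : A.im ≤ M) (hB : B.im ≤ M) (h : OnSeg A B z) : z.im ≤ M := by
  obtain ⟨t, h0, h1, e⟩ := h
  have e2 := (Add_coords e).2
  have h4 := mul_le_mul_of_nonneg_left hA (sub_nonneg.2 h1)
  have h5 := mul_le_mul_of_nonneg_left hB h0
  rw [e2]
  nlinarith

private theorem Add_star {Δ : Set ℂ} {c : ℂ} {s : ℂ × ℂ} (h : s ∈ star Δ c) :
    ∃ d ∈ Δ, s = (d, c) ∨ s = (c, d) := by
  rcases h with ⟨h1, h2⟩ | ⟨h1, h2⟩
  · exact ⟨s.1, h1, Or.inl (Prod.ext rfl h2)⟩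
  · exact ⟨s.2, h2, Or.inr (Prod.ext h1 rfl)⟩

private theorem Add_starfin {Δ : Set ℂ} {c : ℂ} (h : Δ.Finite) : (star Δ c).Finite := by
  refine ((h.image (fun d => (d, c))).union (h.image (fun d => (c, d)))).subset ?_
  intro s hs
  obtain ⟨d, hd, e | e⟩ := Add_star hs
  · exact Or.inl ⟨d, hd, e.symm⟩
  · exact Or.inr ⟨d, hd, e.symm⟩

private theorem Add_starseg {d c z : ℂ} {s : ℂ × ℂ} (h : s = (d, c) ∨ s = (c, d)) (hz : OnSeg s.1 s.2 z) :
    OnSeg d c z := by
  rcases h with e | e
  · rw [e] at hz; exact hz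
  · rw [e] at hz; exact Add_symm hz

private theorem Add_starend {d c z : ℂ} {s : ℂ × ℂ} (h : s = (d, c) ∨ s = (c, d)) (hz : z = d ∨ z = c) :
    z = s.1 ∨ z = s.2 := by
  rcases h with e | e
  · rw [e]; exact hz
  · rw [e]; exact hz.symm

private theorem Add_two {d d' c z : ℂ} (h : OnSeg d c z) (h' : OnSeg d' c z) (hz : z ≠ c) :
    OnSeg d c d' ∨ OnSeg d' c d := by
  obtain ⟨t, h0, h1, e⟩ := h
  obtain ⟨t', h0', h1', e'⟩ := h'
  have ht : t < 1 := by
    refine lt_of_le_of_ne h1 ?_
    intro e1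
    apply hz
    rw [e, e1]
    push_cast
    ring
  have ht' : t' < 1 := by
    refine lt_of_le_of_ne h1' ?_
    intro e1
    apply hz
    rw [e', e1]
    push_cast
    ring
  have e3 : (1 - (t : ℂ)) * (c - d) = (1 - (t' : ℂ)) * (c - d') := by
    have h2 : c - z = (1 - (t : ℂ)) * (c - d) := by rw [e]; ring
    have h3 : c - z = (1 - (t' : ℂ)) * (c - d') := by rw [e']; ring
    rw [← h2, ← h3]
  have hc : (1 - (t : ℂ)) ≠ 0 := by
    intro h2
    have : (1 : ℝ) - t = 0 := by exact_mod_cast h2
    linarith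
  have hc' : (1 - (t' : ℂ)) ≠ 0 := by
    intro h2
    have : (1 : ℝ) - t' = 0 := by exact_mod_cast h2
    linarith
  rcases le_total t t' with hle | hle
  · -- `1 - t' ≤ 1 - t`: `d` is on `[d', c]`
    right
    refine ⟨1 - (1 - t') / (1 - t), ?_, ?_, ?_⟩
    · have : (1 - t') / (1 - t) ≤ 1 := by
        rw [div_le_one (by linarith)]
        linarith
      linarith
    · have : 0 ≤ (1 - t') / (1 - t) := div_nonneg (by linarith) (by linarith)
      linarith
    · have e4 : c - d = (1 - (t' : ℂ)) / (1 - (t : ℂ)) * (c - d') := by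
        field_simp
        rw [mul_comm (c - d) _, e3]
      push_cast
      have : d = c - (1 - (t' : ℂ)) / (1 - (t : ℂ)) * (c - d') := by rw [← e4]; ring
      rw [this]
      ring
  · left
    refine ⟨1 - (1 - t) / (1 - t'), ?_, ?_, ?_⟩
    · have : (1 - t) / (1 - t') ≤ 1 := by
        rw [div_le_one (by linarith)]
        linarith
      linarith
    · have : 0 ≤ (1 - t) / (1 - t') := div_nonneg (by linarith) (by linarith)
      linarith
    · have e4 : c - d' = (1 - (t : ℂ)) / (1 - (t' : ℂ)) * (c - d) := by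
        field_simp
        rw [mul_comm (c - d') _, ← e3]
      push_cast
      have : d' = c - (1 - (t : ℂ)) / (1 - (t' : ℂ)) * (c - d) := by rw [← e4]; ring
      rw [this]
      ring

private theorem Add_unif {α : Type*} {S : Set α} (hS : S.Finite) (p : α → ℝ → Prop)
    (hp : ∀ s κ κ', κ ≤ κ' → p s κ → p s κ') (h : ∀ s ∈ S, ∃ κ, 0 ≤ κ ∧ p s κ) :
    ∃ κ : ℝ, 0 ≤ κ ∧ ∀ s ∈ S, p s κ := by
  induction S, hS using Set.Finite.induction_on with
  | empty => exact ⟨0, le_rfl, fun s hs => absurd hs (Set.notMem_empty s)⟩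
  | @insert a T _ _ ih =>
    obtain ⟨κ, hκ, h1⟩ := ih (fun s hs => h s (Set.mem_insert_of_mem a hs))
    obtain ⟨κ', hκ', h2⟩ := h a (Set.mem_insert a T)
    refine ⟨max κ κ', le_max_of_le_left hκ, ?_⟩
    intro s hs
    rcases hs with e | hs
    · rw [e]
      exact hp a κ' _ (le_max_right _ _) h2
    · exact hp s κ _ (le_max_left _ _) (h1 s hs)

/-- PROOF. Δ is finite (subset of P). For d ∈ Δ let κ_d be the constant of `cone`. Choose κ > 0 so large that for every c with
κ (1 + |c.re|) ≤ c.im: z.im < c.im for all z ∈ P (κ > all |z.im|), and c.im - d.im > κ_d |c.re - d.re| for all d ∈ Δ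
(κ ≥ κ_d + κ_d |d.re| + |d.im| + 1 is enough).
(*) for d ∈ Δ and z on the segment [d, c], z ≠ d: z.im - d.im > κ_d |z.re - d.re| (z = d + t (c - d), t > 0). So z is on no
old segment and z is no old point (P, S satisfy the cone inequalities).
Every old segment has im < c.im (its end points have), so c is not on an old segment; c ∉ P.
Conf of the new configuration: `pt`: an old point on a new segment [d, c] is d by (*); c on an old segment: no; c on [d, c]
is an end point. `seg`: old/old: h.seg. old/new: z on [d, c] and on an old segment: z = d by (*), and by h.pt d is an end point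
of the old segment (d ∈ P). new/new: [d, c], [d', c]: d = d': same segment (or swapped). d ≠ d': if z = c: fine. If z = d: then
d is an old point on [d', c], so d = d' by (*); contradiction; same for z = d'. Otherwise c - z is a positive multiple of c - d
and of c - d', so d' is on [d, c] or d is on [d', c]: contradiction to (*).
VisP of c: all points and segments have im ≤ c.im. Steepness: (z.im - d.im)|c.re - d.re| ≤ κ_d |z.re - d.re||c.re - d.re|
< |z.re - d.re| (c.im - d.im).
Visibility of an old point z with z.re ≠ c.re, z.re ≤ c.re, z.re ≤ d.re for all d ∈ Δ: a point u of a new segment [d, c]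
(u = d + t (c - d)) with u.re = z.re: (1-t)(d.re - z.re) + t(c.re - z.re) = 0, so t = 0, u = d, d.re = z.re and d.im ≤ z.im
since z is visible (d ∈ P). The point c has c.re ≠ z.re. The other case is symmetric. -/
theorem add {P : Set ℂ} {S : Set (ℂ × ℂ)} (h : Conf P S) {Δ : Set ℂ} (hΔ : Δ ⊆ P) (hv : ∀ d ∈ Δ, VisP P S d) :
    ∃ κ : ℝ, 0 < κ ∧ ∀ c : ℂ, κ * (1 + |c.re|) ≤ c.im →
      (∀ z ∈ P, z.im < c.im) ∧ Conf (insert c P) (S ∪ star Δ c) ∧ VisP (insert c P) (S ∪ star Δ c) c ∧
      (∀ d ∈ Δ, ∀ z ∈ P, z.re ≠ d.re → (z.im - d.im) * |c.re - d.re| < |z.re - d.re| * (c.im - d.im)) ∧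
      ∀ z ∈ P, VisP P S z → z.re ≠ c.re →
        ((z.re ≤ c.re ∧ ∀ d ∈ Δ, z.re ≤ d.re) ∨ (c.re ≤ z.re ∧ ∀ d ∈ Δ, d.re ≤ z.re)) →
        VisP (insert c P) (S ∪ star Δ c) z := by
  have hΔf : Δ.Finite := h.finP.subset hΔ
  obtain ⟨κ₀, hκ₀, hc⟩ := Add_unif hΔf
    (fun d κ => (∀ z ∈ P, z.im - d.im ≤ κ * |z.re - d.re|) ∧
      ∀ s ∈ S, ∀ z, OnSeg s.1 s.2 z → z.im - d.im ≤ κ * |z.re - d.re|)
    (fun s κ κ' hle hp =>
      ⟨fun z hz => (hp.1 z hz).trans (mul_le_mul_of_nonneg_right hle (abs_nonneg _)),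
        fun s hs z hz => (hp.2 s hs z hz).trans (mul_le_mul_of_nonneg_right hle (abs_nonneg _))⟩)
    (fun d hd => cone h.finP h.finS (hv d hd))
  obtain ⟨M, hM, hb⟩ := Add_unif h.finP (fun z κ => |z.im| ≤ κ ∧ |z.re| ≤ κ)
    (fun s κ κ' hle hp => ⟨hp.1.trans hle, hp.2.trans hle⟩)
    (fun z _ => ⟨max |z.im| |z.re|, le_max_of_le_left (abs_nonneg _), le_max_left _ _, le_max_right _ _⟩)
  have hκM : 0 ≤ κ₀ * M := mul_nonneg hκ₀ hM
  refine ⟨κ₀ + κ₀ * M + 2 * M + 1, by linarith, ?_⟩
  intro c hcc
  have hcr : 0 ≤ |c.re| := abs_nonneg _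
  have hcim : κ₀ + κ₀ * M + 2 * M + 1 + κ₀ * |c.re| ≤ c.im := by
    have h1 : 0 ≤ (κ₀ * M + 2 * M + 1) * |c.re| := mul_nonneg (by linarith) hcr
    nlinarith
  have hκc : 0 ≤ κ₀ * |c.re| := mul_nonneg hκ₀ hcr
  -- all old points are below `c`
  have hlow : ∀ z ∈ P, z.im < c.im := by
    intro z hz
    have h1 := (abs_le.1 (hb z hz).1).2
    linarith
  -- `c` is steep
  have hst : ∀ d ∈ Δ, κ₀ * |c.re - d.re| < c.im - d.im := by
    intro d hd
    have h1 := (abs_le.1 (hb d (hΔ hd)).1).2
    have h2 : |c.re - d.re| ≤ |c.re| + |d.re| := abs_sub _ _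
    have h3 := (hb d (hΔ hd)).2
    have h4 : κ₀ * |c.re - d.re| ≤ κ₀ * (|c.re| + M) := mul_le_mul_of_nonneg_left (by linarith) hκ₀
    nlinarith
  have k1 : ∀ d ∈ Δ, ∀ z, OnSeg d c z → z ≠ d → κ₀ * |z.re - d.re| < z.im - d.im := by
    rintro d hd z ⟨t, h0, h1, e⟩ hne
    obtain ⟨e1, e2⟩ := Add_coords e
    have ht : 0 < t := by
      refine lt_of_le_of_ne h0 ?_
      intro e3
      apply hne
      rw [e, ← e3]
      push_cast
      ring
    have e4 : z.re - d.re = t * (c.re - d.re) := by rw [e1]; ring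
    have e5 : z.im - d.im = t * (c.im - d.im) := by rw [e2]; ring
    rw [e4, e5, abs_mul, abs_of_pos ht]
    have := mul_lt_mul_of_pos_left (hst d hd) ht
    nlinarith
  have k2 : ∀ d ∈ Δ, ∀ z, OnSeg d c z → z ∈ P → z = d := by
    intro d hd z hz hzP
    by_contra hne
    have h1 := k1 d hd z hz hne
    have h2 := (hc d hd).1 z hzP
    linarith
  have k3 : ∀ d ∈ Δ, ∀ s ∈ S, ∀ z, OnSeg d c z → OnSeg s.1 s.2 z → z = d := by
    intro d hd s hs z hz hzs
    by_contra hne
    have h1 := k1 d hd z hz hne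
    have h2 := (hc d hd).2 s hs z hzs
    linarith
  have k4 : ∀ s ∈ S, ∀ z, OnSeg s.1 s.2 z → z.im < c.im := by
    intro s hs z hz
    have h1 := h.mem hs
    have h2 : z.im ≤ max s.1.im s.2.im := Add_im_le (le_max_left _ _) (le_max_right _ _) hz
    have h3 : max s.1.im s.2.im < c.im := max_lt (hlow _ h1.1) (hlow _ h1.2)
    linarith
  have k5 : c ∉ P := fun hcP => lt_irrefl _ (hlow c hcP)
  have k6 : ∀ d ∈ Δ, ∀ d' ∈ Δ, ∀ z, OnSeg d c z → OnSeg d' c z → z ≠ c → d = d' := by
    intro d hd d' hd' z hz hz' hne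
    rcases Add_two hz hz' hne with g | g
    · exact (k2 d hd d' g (hΔ hd')).symm
    · exact k2 d' hd' d g (hΔ hd)
  have hdc : ∀ d ∈ Δ, OnSeg d c d := by
    intro d _
    refine ⟨0, le_rfl, zero_le_one, ?_⟩
    push_cast
    ring
  refine ⟨hlow, ?_, ?_, ?_, ?_⟩
  · refine ⟨h.finP.insert c, h.finS.union (Add_starfin hΔf), ?_, ?_, ?_⟩
    · intro s hs
      rcases hs with hs | hs
      · exact ⟨Set.mem_insert_of_mem c (h.mem hs).1, Set.mem_insert_of_mem c (h.mem hs).2⟩
      · obtain ⟨d, hd, e | e⟩ := Add_star hs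
        · rw [e]
          exact ⟨Set.mem_insert_of_mem c (hΔ hd), Set.mem_insert c P⟩
        · rw [e]
          exact ⟨Set.mem_insert c P, Set.mem_insert_of_mem c (hΔ hd)⟩
    · intro s z hs hzP hz
      rcases hs with hs | hs
      · rcases hzP with e | hzP
        · exfalso
          have := k4 s hs z hz
          rw [e] at this
          exact lt_irrefl _ this
        · exact h.pt hs hzP hz
      · obtain ⟨d, hd, hsd⟩ := Add_star hs
        have hz' := Add_starseg hsd hz
        refine Add_starend hsd ?_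
        rcases hzP with e | hzP
        · exact Or.inr e
        · exact Or.inl (k2 d hd z hz' hzP)
    · intro s s' z hs hs' hz hz'
      rcases hs with hs | hs
      · rcases hs' with hs' | hs'
        · exact h.seg hs hs' hz hz'
        · obtain ⟨d, hd, hsd⟩ := Add_star hs'
          have hz'' := Add_starseg hsd hz'
          have e := k3 d hd s hs z hz'' hz
          refine Or.inr ⟨?_, Add_starend hsd (Or.inl e)⟩
          exact h.pt hs (e ▸ hΔ hd) hz
      · obtain ⟨d, hd, hsd⟩ := Add_star hs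
        have hz1 := Add_starseg hsd hz
        rcases hs' with hs' | hs'
        · have e := k3 d hd s' hs' z hz1 hz'
          exact Or.inr ⟨Add_starend hsd (Or.inl e), h.pt hs' (e ▸ hΔ hd) hz'⟩
        · obtain ⟨d', hd', hsd'⟩ := Add_star hs'
          have hz2 := Add_starseg hsd' hz'
          by_cases hzc : z = c
          · exact Or.inr ⟨Add_starend hsd (Or.inr hzc), Add_starend hsd' (Or.inr hzc)⟩
          · have e := k6 d hd d' hd' z hz1 hz2 hzc
            subst e
            left
            rcases hsd with e1 | e1 <;> rcases hsd' with e2 | e2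
            · left; rw [e1, e2]
            · right; rw [e1, e2]; rfl
            · right; rw [e1, e2]; rfl
            · left; rw [e1, e2]
  · refine ⟨?_, ?_⟩
    · intro z hz _
      rcases hz with e | hz
      · rw [e]
      · exact (hlow z hz).le
    · intro s hs z hz _
      rcases hs with hs | hs
      · exact (k4 s hs z hz).le
      · obtain ⟨d, hd, hsd⟩ := Add_star hs
        exact Add_im_le (hlow d (hΔ hd)).le le_rfl (Add_starseg hsd hz)
  · intro d hd z hz hne
    have h1 := (hc d hd).1 z hz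
    have h2 := hst d hd
    have h3 : 0 < |z.re - d.re| := abs_pos.2 (sub_ne_zero.2 hne)
    have h4 : (z.im - d.im) * |c.re - d.re| ≤ κ₀ * |z.re - d.re| * |c.re - d.re| :=
      mul_le_mul_of_nonneg_right h1 (abs_nonneg _)
    have h5 := mul_lt_mul_of_pos_left h2 h3
    nlinarith
  · intro z hz hvz hne hcase
    refine ⟨?_, ?_⟩
    · intro u hu hre
      rcases hu with e | hu
      · exfalso
        rw [e] at hre
        exact hne hre.symm
      · exact hvz.1 u hu hre
    · intro s hs u hu hre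
      rcases hs with hs | hs
      · exact hvz.2 s hs u hu hre
      · obtain ⟨d, hd, hsd⟩ := Add_star hs
        have hu' := Add_starseg hsd hu
        obtain ⟨t, h0, h1, e⟩ := hu'
        obtain ⟨e1, e2⟩ := Add_coords e
        have ht : t = 0 := by
          have h4 : (1 - t) * (d.re - z.re) + t * (c.re - z.re) = 0 := by
            have : u.re = z.re := hre
            rw [e1] at this
            linarith
          rcases hcase with ⟨g1, g2⟩ | ⟨g1, g2⟩
          · have g3 : z.re < c.re := lt_of_le_of_ne g1 hne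
            have g4 := g2 d hd
            have g5 : 0 ≤ (1 - t) * (d.re - z.re) := mul_nonneg (by linarith) (by linarith)
            by_contra hne0
            have g6 : 0 < t := lt_of_le_of_ne h0 (Ne.symm hne0)
            have g7 : 0 < t * (c.re - z.re) := mul_pos g6 (by linarith)
            linarith
          · have g3 : c.re < z.re := lt_of_le_of_ne g1 (Ne.symm hne)
            have g4 := g2 d hd
            have g5 : 0 ≤ (1 - t) * (z.re - d.re) := mul_nonneg (by linarith) (by linarith)
            by_contra hne0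
            have g6 : 0 < t := lt_of_le_of_ne h0 (Ne.symm hne0)
            have g7 : 0 < t * (z.re - c.re) := mul_pos g6 (by linarith)
            nlinarith
        have hud : u = d := by
          rw [e, ht]
          push_cast
          ring
        exact hvz.1 u (hud ▸ hΔ hd) hre

end Pool.Agent.SOD
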