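import Pool.Agent.SOD.Defs

/-! Project SOD, module Ang (size 2): angles in (0, 2π) of directions which are not horizontal. -/

set_option autoImplicit false

open Set

namespace Pool.Agent.SOD

/-- the angle in (0, 2π) of a direction `w` with w.im ≠ 0 -/
noncomputable def ang (w : ℂ) : ℝ := if 0 < w.im then Complex.arg w else Complex.arg w + 2 * Real.pi

/-- PROOF: 0 < w.im: 0 < arg w < π (Complex.arg_lt_pi_iff / arg_nonneg_iff; arg w = 0 or π only if w.im = 0). w.im < 0: -π <
arg w < 0. -/
theorem ang_pos {w : ℂ} (hw : w.im ≠ 0) : 0 < ang w ∧ ang w < 2 * Real.pi := by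
  have hpi := Real.pi_pos
  by_cases h : 0 < w.im
  · have e : ang w = Complex.arg w := if_pos h
    rw [e]
    have h1 : 0 ≤ Complex.arg w := Complex.arg_nonneg_iff.2 h.le
    have h2 : Complex.arg w ≠ 0 := fun h2 => hw (Complex.arg_eq_zero_iff.1 h2).2
    have h3 := Complex.arg_le_pi w
    exact ⟨lt_of_le_of_ne h1 (Ne.symm h2), by linarith⟩
  · have e : ang w = Complex.arg w + 2 * Real.pi := if_neg h
    rw [e]
    have h1 : w.im < 0 := lt_of_le_of_ne (not_lt.1 h) hw
    have h2 : Complex.arg w < 0 := Complex.arg_neg_iff.2 h1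
    have h3 := Complex.neg_pi_lt_arg w
    exact ⟨by linarith, by linarith⟩

theorem ang_lt_pi {w : ℂ} (hw : 0 < w.im) : ang w < Real.pi := by
  have e : ang w = Complex.arg w := if_pos hw
  rw [e]
  refine lt_of_le_of_ne (Complex.arg_le_pi w) ?_
  intro h
  exact hw.ne' (Complex.arg_eq_pi_iff.1 h).2

theorem pi_lt_ang {w : ℂ} (hw : w.im < 0) : Real.pi < ang w := by
  have e : ang w = Complex.arg w + 2 * Real.pi := if_neg (not_lt.2 hw.le)
  rw [e]
  have h3 := Complex.neg_pi_lt_arg w
  linarith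

theorem ang_eq {w : ℂ} (hw : w.im ≠ 0) : w = ‖w‖ * Complex.exp ((ang w : ℂ) * Complex.I) := by
  by_cases h : 0 < w.im
  · have e : ang w = Complex.arg w := if_pos h
    rw [e, Complex.norm_mul_exp_arg_mul_I]
  · have e : ang w = Complex.arg w + 2 * Real.pi := if_neg h
    rw [e]
    have e2 : ((Complex.arg w + 2 * Real.pi : ℝ) : ℂ) * Complex.I =
        (Complex.arg w : ℂ) * Complex.I + 2 * Real.pi * Complex.I := by
      push_cast
      ring
    rw [e2, Complex.exp_add, Complex.exp_two_pi_mul_I, mul_one, Complex.norm_mul_exp_arg_mul_I]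

/-- PROOF: u = |u| e^{iα}, l = |l| e^{iβ} with α, β ∈ (0, π): u.re l.im - u.im l.re = |u||l| sin (β - α) > 0, -π < β - α < π. -/
theorem ang_lt {u l : ℂ} (hu : 0 < u.im) (hl : 0 < l.im) (h : 0 < u.re * l.im - u.im * l.re) : ang u < ang l := by
  have eu : ang u = Complex.arg u := if_pos hu
  have el : ang l = Complex.arg l := if_pos hl
  have h1 := (ang_pos hu.ne').1
  have h2 := ang_lt_pi hu
  have h3 := (ang_pos hl.ne').1
  have h4 := ang_lt_pi hl
  by_contra hcon
  rw [not_lt] at hcon
  have h5 : Real.sin (ang l - ang u) ≤ 0 :=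
    Real.sin_nonpos_of_nonpos_of_neg_pi_le (by linarith) (by linarith)
  rw [eu, el, Real.sin_sub] at h5
  have e1 := Complex.norm_mul_cos_arg u
  have e2 := Complex.norm_mul_sin_arg u
  have e3 := Complex.norm_mul_cos_arg l
  have e4 := Complex.norm_mul_sin_arg l
  have h6 : u.re * l.im - u.im * l.re =
      ‖u‖ * ‖l‖ * (Real.sin (Complex.arg l) * Real.cos (Complex.arg u) -
        Real.cos (Complex.arg l) * Real.sin (Complex.arg u)) := by
    rw [← e1, ← e2, ← e3, ← e4]
    ring
  have h7 : u.re * l.im - u.im * l.re ≤ 0 := by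
    rw [h6]
    exact mul_nonpos_of_nonneg_of_nonpos (by positivity) h5
  linarith

theorem ang_sep {k u l : ℂ} (h : Sep k u l) : ang (u - k) < ang (l - k) := by
  obtain ⟨h1, h2 | ⟨h2, h3⟩⟩ := h
  · have h4 : ang (u - k) < Real.pi := ang_lt_pi (by rw [Complex.sub_im]; linarith)
    have h5 : Real.pi < ang (l - k) := pi_lt_ang (by rw [Complex.sub_im]; linarith)
    linarith
  · refine ang_lt (by rw [Complex.sub_im]; linarith) (by rw [Complex.sub_im]; linarith) ?_
    rw [Complex.sub_im, Complex.sub_im, Complex.sub_re, Complex.sub_re]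
    exact h3

theorem exp_inj {α β : ℝ} (h1 : 0 < α) (h2 : α < 2 * Real.pi) (h3 : 0 < β) (h4 : β < 2 * Real.pi)
    (h : Complex.exp ((α : ℂ) * Complex.I) = Complex.exp ((β : ℂ) * Complex.I)) : α = β := by
  have hpi := Real.pi_pos
  obtain ⟨n, hn⟩ := Complex.exp_eq_exp_iff_exists_int.1 h
  have e1 : (α : ℂ) = β + n * (2 * Real.pi) := by
    have h5 : (α : ℂ) * Complex.I = (β + n * (2 * Real.pi)) * Complex.I := by
      rw [hn]
      ring
    exact mul_right_cancel₀ Complex.I_ne_zero h5
  have e2 : α = β + n * (2 * Real.pi) := by exact_mod_cast e1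
  have h6 : (n : ℝ) < 1 := by
    by_contra hcon
    rw [not_lt] at hcon
    nlinarith
  have h7 : (-1 : ℝ) < n := by
    by_contra hcon
    rw [not_lt] at hcon
    nlinarith
  have h8 : n < 1 := by exact_mod_cast h6
  have h9 : -1 < n := by exact_mod_cast h7
  have h10 : n = 0 := by omega
  rw [e2, h10]
  simp

end Pool.Agent.SOD
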