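import Pool.Agent.SOD.Track

/-! Project SOD, module Disj (size 4): the bent curves are disjoint. -/

set_option autoImplicit false

open Set

namespace Pool.Agent.SOD

variable {V : Type} [LinearOrder V] [Fintype V] {G : SimpleGraph V} {N : Nd V → Prop}

/-- two links leaving the same point in the same direction. PROOF: p P - p K = s (p P' - p K) with s > 0 (ang_eq). If s ≤ 1 then p P
is on the segment from p K to p P', hp.pln.conf.pt: p P = p K or p P'; similarly s ≥ 1. So p P = p P', P' = P or P.swap, and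
lk_unique (with K' = K or K.swap). -/
theorem same_dir (hN : Nds G N) {p : Nd V → ℂ} (hp : SLine G N p) {K P K' P' : Nd V} (h : Lk N K P) (h' : Lk N K' P')
    (hK : K' = K ∨ K' = K.swap) (ha : ang (p P - p K) = ang (p P' - p K')) : K' = K ∧ P' = P := by
  have hpK : p K' = p K := by
    rcases hK with rfl | rfl
    · rfl
    · exact hp.sw K
  have hu : (p P - p K).im ≠ 0 := lk_im hN hp h
  have hu' : (p P' - p K').im ≠ 0 := lk_im hN hp h'
  have e1 := ang_eq hu
  have e2 := ang_eq hu'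
  rw [ha] at e1
  have n1 : 0 < ‖p P - p K‖ := norm_pos_iff.2 fun h0 => hu (by rw [h0]; rfl)
  have n2 : 0 < ‖p P' - p K'‖ := norm_pos_iff.2 fun h0 => hu' (by rw [h0]; rfl)
  have key : ∀ x y e u u' : ℂ, u = x * e → u' = y * e → y * u = x * u' := by
    intro x y e u u' k1 k2
    rw [k1, k2]
    ring
  have hprop : (‖p P' - p K'‖ : ℂ) * (p P - p K) = (‖p P - p K‖ : ℂ) * (p P' - p K') := key _ _ _ _ _ e1 e2
  have hpP : p P = p P' := by
    rcases le_total ‖p P - p K‖ ‖p P' - p K'‖ with hle | hle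
    · have h1 := hp.pln.conf.pt (s := (p K', p P')) (z := p P) ⟨K', P', h'.1, h'.2.1, h', rfl⟩ ⟨P, h.2.1, rfl⟩
        ⟨‖p P - p K‖ / ‖p P' - p K'‖, by positivity, (div_le_one n2).2 hle, by
          show p P = p K' + _ * (p P' - p K')
          push_cast
          have n2' : (‖p P' - p K'‖ : ℂ) ≠ 0 := by exact_mod_cast n2.ne'
          rw [div_mul_eq_mul_div, ← hprop, mul_div_cancel_left₀ _ n2', hpK]
          ring⟩
      rcases h1 with h1 | h1
      · exact absurd (show (p P - p K).im = 0 by rw [h1, hpK, sub_self]; rfl) hu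
      · exact h1
    · have h1 := hp.pln.conf.pt (s := (p K, p P)) (z := p P') ⟨K, P, h.1, h.2.1, h, rfl⟩ ⟨P', h'.2.1, rfl⟩
        ⟨‖p P' - p K'‖ / ‖p P - p K‖, by positivity, (div_le_one n1).2 hle, by
          show p P' = p K + _ * (p P - p K)
          push_cast
          have n1' : (‖p P - p K‖ : ℂ) ≠ 0 := by exact_mod_cast n1.ne'
          rw [div_mul_eq_mul_div, hprop, mul_div_cancel_left₀ _ n1', hpK]
          ring⟩
      rcases h1 with h1 | h1
      · exact absurd (show (p P' - p K').im = 0 by rw [h1, hpK]; simp) hu'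
      · exact h1.symm
  exact lk_unique hN h h' hK (hp.pln.inj h.2.1 h'.2.1 hpP)

/-- a convex combination of angles -/
theorem disj_comb {k θ τ b : ℝ} (h0 : 0 ≤ k) (h1 : k < 1) (hθ : 0 < θ ∧ θ < b) (hτ : 0 < τ ∧ τ < b) :
    0 < (1 - k) * θ + k * τ ∧ (1 - k) * θ + k * τ < b := by
  have h2 : 0 < 1 - k := by linarith
  constructor
  · have h3 := mul_pos h2 hθ.1
    have h4 := mul_nonneg h0 hτ.1.le
    linarith
  · have h3 := mul_pos h2 (sub_pos.2 hθ.2)
    have h4 := mul_nonneg h0 (sub_pos.2 hτ.2).le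
    nlinarith

/-- two links leave the same point; the points at distance ρ, 0 < ρ, are different. PROOF: both angles α = (1-k)θ + kτ, α' are in (0,
2π): exp_inj gives α = α'; k = kf (ρ/r) < 1. K' = K: τ = τ' if K is a core, τ = θ, τ' = θ' if K is a vertex: so θ = θ': same_dir.
K' = K.swap: K is not a vertex (lk_ne_inn: neither K = inn v nor K' = inn v). can_cases: if Can K: τ = π/2, τ' = 3π/2, and hp.sep with
Q = P'.swap (Lk P'.swap K by lk_swap) and ang_sep: θ < θ', so α < α': contradiction. If Can K.swap = Can K': symmetric. -/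
theorem half_inj (hN : Nds G N) {p : Nd V → ℂ} {r : ℝ} (hp : SLine G N p) {K P K' P' : Nd V}
    (h : Lk N K P) (h' : Lk N K' P') (hK : K' = K ∨ K' = K.swap) {ρ : ℝ} (hρ : 0 < ρ) (hr : 0 < r)
    (he : hf (p K) (ang (p P - p K)) (tau G K (ang (p P - p K))) r ρ =
      hf (p K') (ang (p P' - p K')) (tau G K' (ang (p P' - p K'))) r ρ) : K' = K ∧ P' = P := by
  have hpK : p K' = p K := by
    rcases hK with rfl | rfl
    · rfl
    · exact hp.sw K
  have hθ := ang_pos (lk_im hN hp h)
  have hθ' := ang_pos (lk_im hN hp h')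
  have hk0 := (kf_mem (ρ / r)).1
  have hk1 : kf (ρ / r) < 1 := kf_lt (div_pos hρ hr).ne'
  have hπ := Real.pi_pos
  have htau : ∀ (M : Nd V) (θ : ℝ), 0 < θ ∧ θ < 2 * Real.pi → 0 < tau G M θ ∧ tau G M θ < 2 * Real.pi := by
    intro M θ hθ
    unfold tau
    split_ifs
    · exact hθ
    · exact ⟨by linarith, by linarith⟩
    · exact ⟨by linarith, by linarith⟩
  have h1 := htau K _ hθ
  have h2 := htau K' _ hθ'
  have hang : (1 - kf (ρ / r)) * ang (p P - p K) + kf (ρ / r) * tau G K (ang (p P - p K)) =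
      (1 - kf (ρ / r)) * ang (p P' - p K') + kf (ρ / r) * tau G K' (ang (p P' - p K')) := by
    refine exp_inj (disj_comb hk0 hk1 hθ h1).1 (disj_comb hk0 hk1 hθ h1).2 (disj_comb hk0 hk1 hθ' h2).1
      (disj_comb hk0 hk1 hθ' h2).2 ?_
    unfold hf at he
    rw [hpK] at he
    rw [hpK]
    have h3 := add_left_cancel he
    have hρ' : (ρ : ℂ) ≠ 0 := by exact_mod_cast hρ.ne'
    exact mul_left_cancel₀ hρ' h3
  rcases hK with rfl | rfl
  · refine same_dir hN hp h h' (Or.inl rfl) ?_
    unfold tau at hang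
    split_ifs at hang
    · linarith
    · have h4 : (1 - kf (ρ / r)) * (ang (p P - p K') - ang (p P' - p K')) = 0 := by linarith
      rcases mul_eq_zero.1 h4 with h5 | h5
      · linarith
      · linarith
    · have h4 : (1 - kf (ρ / r)) * (ang (p P - p K') - ang (p P' - p K')) = 0 := by linarith
      rcases mul_eq_zero.1 h4 with h5 | h5
      · linarith
      · linarith
  · exfalso
    have hnV : ¬ IsV G K := by
      rintro ⟨v, rfl | rfl⟩
      · exact (lk_ne_inn hN h' v).1 rfl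
      · exact (lk_ne_inn hN h v).1 rfl
    have hnV' : ¬ IsV G K.swap := fun hh => hnV (isV_swap.1 hh)
    rcases can_cases hN h.1 hnV with ⟨hc, hc'⟩ | ⟨hc, hc'⟩
    · have hQ : Lk N P'.swap K := by
        have h3 := lk_swap (N := N) hN.swap h'
        rwa [Prod.swap_swap] at h3
      have h4 := ang_sep (hp.sep h.1 hnV hc h hQ)
      rw [hp.sw P'] at h4
      have e1 : tau G K (ang (p P - p K)) = Real.pi / 2 := by
        unfold tau
        rw [if_neg hnV, if_pos hc]
      have e2 : tau G K.swap (ang (p P' - p K.swap)) = 3 * Real.pi / 2 := by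
        unfold tau
        rw [if_neg hnV', if_neg hc']
      rw [e1, e2, hpK] at hang
      have h5 : 0 < (1 - kf (ρ / r)) * (ang (p P' - p K) - ang (p P - p K)) :=
        mul_pos (by linarith) (by linarith)
      have h6 : 0 ≤ kf (ρ / r) * Real.pi := mul_nonneg hk0 hπ.le
      nlinarith
    · have hQ : Lk N P.swap K.swap := lk_swap (N := N) hN.swap h
      have h4 := ang_sep (hp.sep h'.1 hnV' hc' h' hQ)
      rw [hp.sw P, hpK] at h4
      have e1 : tau G K (ang (p P - p K)) = 3 * Real.pi / 2 := by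
        unfold tau
        rw [if_neg hnV, if_neg hc]
      have e2 : tau G K.swap (ang (p P' - p K.swap)) = Real.pi / 2 := by
        unfold tau
        rw [if_neg hnV', if_pos hc']
      rw [e1, e2, hpK] at hang
      have h5 : 0 < (1 - kf (ρ / r)) * (ang (p P - p K) - ang (p P' - p K)) :=
        mul_pos (by linarith) (by linarith)
      have h6 : 0 ≤ kf (ρ / r) * Real.pi := mul_nonneg hk0 hπ.le
      nlinarith

/-- two curves leaving the same point, near that point -/
theorem disj_core (hN : Nds G N) {p : Nd V → ℂ} {r : ℝ} (hp : SLine G N p) (hr : RadOK G N p r) {K P K' P' : Nd V}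
    (h : Lk N K P) (h' : Lk N K' P') {t s : ℝ} (h0 : 0 ≤ t) (h1 : t ≤ 1 / 2) (h2 : 0 ≤ s) (h3 : s ≤ 1 / 2)
    (hpp : p K = p K') (hd : t * ‖p P - p K‖ = s * ‖p P' - p K'‖)
    (he : gam G p r K P t = gam G p r K' P' s) :
    (K' = K ∧ P' = P ∧ s = t) ∨ (t = 0 ∧ s = 0) := by
  have n1 : 0 < ‖p P - p K‖ := norm_pos_iff.2 (sub_ne_zero.2 (lk_data hN hp hr h).2.2.symm)
  have n2 : 0 < ‖p P' - p K'‖ := norm_pos_iff.2 (sub_ne_zero.2 (lk_data hN hp hr h').2.2.symm)
  rcases h0.eq_or_lt with h4 | h4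
  · right
    refine ⟨h4.symm, ?_⟩
    rw [← h4, zero_mul] at hd
    rcases mul_eq_zero.1 hd.symm with h5 | h5
    · exact h5
    · exact absurd h5 n2.ne'
  · left
    have hρ : 0 < t * ‖p P - p K‖ := mul_pos h4 n1
    rw [gam_left hN hp hr h h1, gam_left hN hp hr h' h3, ← hd] at he
    obtain ⟨c1, c2⟩ := half_inj hN hp h h' (hp.pln.inj h.1 h'.1 hpp) hρ hr.pos he
    refine ⟨c1, c2, ?_⟩
    rw [c1, c2] at hd
    exact (mul_right_cancel₀ n1.ne' hd).symm

/-- PROOF. z the common point. (1) ‖z - p M‖ < r for some M with N M: gam_near for both curves. Four cases; by gam_rev (reversing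
one or both links) reduce to p M = p K = p K', t, s ≤ 1/2, t ‖P-K‖ = s ‖P'-K'‖ = ρ. ρ = 0: t = s = 0: third alternative. ρ > 0: K' =
K or K.swap (hp.pln.inj), gam_left, half_inj: K' = K, P' = P, t = s.
(2) otherwise gam_far for both: z is on both segments. hp.pln.conf.seg: either z is an end point of the first segment, then its
distance to p K or p P is 0 < r: contradiction; or the segments are equal or reversed: hp.pln.inj, lk_unique (for the link or the
reversed link (lk_swap)): first or second alternative, the parameters agree since t ↦ K + t (P - K) is injective. -/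
theorem gam_inj (hN : Nds G N) {p : Nd V → ℂ} {r : ℝ} (hp : SLine G N p) (hr : RadOK G N p r) {K P K' P' : Nd V}
    (h : Lk N K P) (h' : Lk N K' P') {t s : ℝ} (h0 : 0 ≤ t) (h1 : t ≤ 1) (h2 : 0 ≤ s) (h3 : s ≤ 1)
    (he : gam G p r K P t = gam G p r K' P' s) :
    (K' = K ∧ P' = P ∧ s = t) ∨ (K' = P.swap ∧ P' = K.swap ∧ s = 1 - t) ∨ ((t = 0 ∨ t = 1) ∧ (s = 0 ∨ s = 1)) := by
  by_cases hM : ∃ M, N M ∧ ‖gam G p r K P t - p M‖ < r
  · obtain ⟨M, hM, hz⟩ := hM
    have hz' : ‖gam G p r K' P' s - p M‖ < r := he ▸ hz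
    rcases gam_near hN hp hr h hM h0 h1 hz with ⟨a1, a2, a3⟩ | ⟨a1, a2, a3⟩ <;>
      rcases gam_near hN hp hr h' hM h2 h3 hz' with ⟨b1, b2, b3⟩ | ⟨b1, b2, b3⟩
    · rcases disj_core hN hp hr h h' h0 a2 h2 b2 (a1.symm.trans b1) (by rw [a3, b3, he]) he with
        ⟨c1, c2, c3⟩ | ⟨c1, c2⟩
      · exact Or.inl ⟨c1, c2, c3⟩
      · exact Or.inr (Or.inr ⟨Or.inl c1, Or.inl c2⟩)
    · rcases disj_core hN hp hr h (lk_swap (N := N) hN.swap h') (t := t) (s := 1 - s) h0 a2 (by linarith) (by linarith)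
        (by rw [← a1, b1, hp.sw]) (by rw [a3, hp.sw, hp.sw, norm_sub_rev (p K') (p P'), b3, he])
        (by rw [gam_rev hp.sw, he]) with ⟨c1, c2, c3⟩ | ⟨c1, c2⟩
      · refine Or.inr (Or.inl ⟨?_, ?_, by linarith⟩)
        · rw [← c2, Prod.swap_swap]
        · rw [← c1, Prod.swap_swap]
      · exact Or.inr (Or.inr ⟨Or.inl c1, Or.inr (by linarith)⟩)
    · rcases disj_core hN hp hr (lk_swap (N := N) hN.swap h) h' (t := 1 - t) (s := s) (by linarith) (by linarith) h2 b2
        (by rw [← b1, a1, hp.sw]) (by rw [b3, hp.sw, hp.sw, norm_sub_rev (p K) (p P), a3, he])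
        (by rw [gam_rev hp.sw, he]) with ⟨c1, c2, c3⟩ | ⟨c1, c2⟩
      · exact Or.inr (Or.inl ⟨c1, c2, c3⟩)
      · exact Or.inr (Or.inr ⟨Or.inr (by linarith), Or.inl c2⟩)
    · rcases disj_core hN hp hr (lk_swap (N := N) hN.swap h) (lk_swap (N := N) hN.swap h') (t := 1 - t) (s := 1 - s) (by linarith)
        (by linarith) (by linarith) (by linarith) (by rw [hp.sw, hp.sw, ← a1, b1])
        (by rw [hp.sw, hp.sw, hp.sw, hp.sw, norm_sub_rev (p K) (p P), a3, norm_sub_rev (p K') (p P'), b3, he])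
        (by rw [gam_rev hp.sw, gam_rev hp.sw, he]) with ⟨c1, c2, c3⟩ | ⟨c1, c2⟩
      · refine Or.inl ⟨?_, ?_, by linarith⟩
        · exact Prod.swap_injective c2
        · exact Prod.swap_injective c1
      · exact Or.inr (Or.inr ⟨Or.inr (by linarith), Or.inr (by linarith)⟩)
  · push Not at hM
    have g1 := gam_far hN hp hr h h0 h1 (hM K h.1) (hM P h.2.1)
    have g2 := gam_far hN hp hr h' h2 h3 (he ▸ hM K' h'.1) (he ▸ hM P' h'.2.1)
    have hne : ∀ M, N M → gam G p r K P t ≠ p M := by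
      intro M hM' hh
      have h4 := hM M hM'
      rw [hh, sub_self, norm_zero] at h4
      exact absurd hr.pos (not_lt.2 h4)
    have hd := (lk_data hN hp hr h).2.2
    have hd' : p P - p K ≠ 0 := fun hh => hd (sub_eq_zero.1 hh).symm
    rcases hp.pln.conf.seg (s := (p K, p P)) (s' := (p K', p P')) (z := gam G p r K P t)
      ⟨K, P, h.1, h.2.1, h, rfl⟩ ⟨K', P', h'.1, h'.2.1, h', rfl⟩ ⟨t, h0, h1, g1⟩ ⟨s, h2, h3, he.trans g2⟩ with
      (h4 | h4) | ⟨h4 | h4, _⟩
    · have e1 : p K = p K' := congrArg Prod.fst h4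
      have e2 : p P = p P' := congrArg Prod.snd h4
      obtain ⟨c1, c2⟩ := lk_unique hN h h' (hp.pln.inj h.1 h'.1 e1) (hp.pln.inj h.2.1 h'.2.1 e2)
      refine Or.inl ⟨c1, c2, ?_⟩
      have h5 : (t : ℂ) * (p P - p K) = s * (p P - p K) := by
        have h6 : p K + t * (p P - p K) = p K + s * (p P - p K) := by
          rw [← g1, he, g2, e1, e2]
        exact add_left_cancel h6
      exact_mod_cast (mul_right_cancel₀ hd' h5).symm
    · have e1 : p K = p P' := congrArg Prod.fst h4
      have e2 : p P = p K' := congrArg Prod.snd h4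
      obtain ⟨c1, c2⟩ := lk_unique hN h (lk_swap (N := N) hN.swap h') (hp.pln.inj h.1 (lk_swap (N := N) hN.swap h').1 (by rw [hp.sw, e1]))
        (hp.pln.inj h.2.1 (lk_swap (N := N) hN.swap h').2.1 (by rw [hp.sw, e2]))
      refine Or.inr (Or.inl ⟨?_, ?_, ?_⟩)
      · rw [← c2, Prod.swap_swap]
      · rw [← c1, Prod.swap_swap]
      · have h5 : (t : ℂ) * (p P - p K) = (1 - s : ℂ) * (p P - p K) := by
          have h6 : p K + t * (p P - p K) = p K + (1 - s : ℂ) * (p P - p K) := by
            rw [← g1, he, g2, ← e1, ← e2]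
            ring
          exact add_left_cancel h6
        have h7 : (t : ℂ) = 1 - s := mul_right_cancel₀ hd' h5
        have h8 : t = 1 - s := by exact_mod_cast h7
        linarith
    · exact absurd h4 (hne K h.1)
    · exact absurd h4 (hne P h.2.1)

/-- PROOF: gam_near with M: the distance is 0, so t = 0 or t = 1. -/
theorem gam_avoid (hN : Nds G N) {p : Nd V → ℂ} {r : ℝ} (hp : SLine G N p) (hr : RadOK G N p r) {K P M : Nd V}
    (h : Lk N K P) (hM : N M) {t : ℝ} (h0 : 0 < t) (h1 : t < 1) : gam G p r K P t ≠ p M := by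
  intro hh
  have hd := norm_pos_iff.2 (sub_ne_zero.2 (lk_data hN hp hr h).2.2.symm)
  have hz : ‖gam G p r K P t - p M‖ = 0 := by
    rw [hh, sub_self, norm_zero]
  rcases gam_near hN hp hr h hM h0.le h1.le (hz ▸ hr.pos) with ⟨_, _, a3⟩ | ⟨_, _, a3⟩
  · rw [hz] at a3
    exact (mul_pos h0 hd).ne' a3
  · rw [hz] at a3
    exact (mul_pos (by linarith : 0 < 1 - t) hd).ne' a3

end Pool.Agent.SOD
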