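import Pool.Agent.SOD.Defs

/-! Project SOD, module Phi (size 3): the projective map from the region above the parabola to the unit disc. -/

set_option autoImplicit false

open Set

namespace Pool.Agent.SOD

/-- (x, y) ↦ ((1-y)/(1+y), 2x/(1+y)) -/
noncomputable def Phi (z : ℂ) : ℂ := (((1 - z.im) / (1 + z.im) : ℝ) : ℂ) + ((2 * z.re / (1 + z.im) : ℝ) : ℂ) * Complex.I

theorem Phi_re' (z : ℂ) : (Phi z).re = (1 - z.im) / (1 + z.im) := by
  unfold Phi
  rw [Complex.add_re, Complex.ofReal_re, Complex.re_ofReal_mul, Complex.I_re]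
  ring

theorem Phi_im' (z : ℂ) : (Phi z).im = 2 * z.re / (1 + z.im) := by
  unfold Phi
  rw [Complex.add_im, Complex.ofReal_im, Complex.im_ofReal_mul, Complex.I_im]
  ring

theorem dPhi_re' (z w : ℂ) : (((-2 * w.im / (1 + z.im) ^ 2 : ℝ) : ℂ) +
    ((2 * (w.re * (1 + z.im) - z.re * w.im) / (1 + z.im) ^ 2 : ℝ) : ℂ) * Complex.I).re =
      -2 * w.im / (1 + z.im) ^ 2 := by
  rw [Complex.add_re, Complex.ofReal_re, Complex.re_ofReal_mul, Complex.I_re]
  ring

theorem dPhi_im' (z w : ℂ) : (((-2 * w.im / (1 + z.im) ^ 2 : ℝ) : ℂ) +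
    ((2 * (w.re * (1 + z.im) - z.re * w.im) / (1 + z.im) ^ 2 : ℝ) : ℂ) * Complex.I).im =
      2 * (w.re * (1 + z.im) - z.re * w.im) / (1 + z.im) ^ 2 := by
  rw [Complex.add_im, Complex.ofReal_im, Complex.im_ofReal_mul, Complex.I_im]
  ring

/-- PROOF: (1-y)² + 4x² ≤ (1+y)² iff x² ≤ y. -/
theorem Phi_norm {z : ℂ} (h : z.re ^ 2 ≤ z.im) : ‖Phi z‖ ≤ 1 := by
  have hy : 0 ≤ z.im := (sq_nonneg _).trans h
  have h1 : 0 < 1 + z.im := by linarith
  have h2 : ‖Phi z‖ ^ 2 ≤ 1 := by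
    rw [Complex.sq_norm, Complex.normSq_apply, Phi_re', Phi_im']
    rw [div_mul_div_comm, div_mul_div_comm, ← add_div, div_le_one (by positivity)]
    nlinarith
  have h3 : 0 ≤ ‖Phi z‖ := norm_nonneg _
  nlinarith

theorem Phi_inj {z w : ℂ} (hz : 0 ≤ z.im) (hw : 0 ≤ w.im) (h : Phi z = Phi w) : z = w := by
  have h1 : 0 < 1 + z.im := by linarith
  have h2 : 0 < 1 + w.im := by linarith
  have hr : (1 - z.im) / (1 + z.im) = (1 - w.im) / (1 + w.im) := by
    rw [← Phi_re', ← Phi_re', h]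
  have hi : 2 * z.re / (1 + z.im) = 2 * w.re / (1 + w.im) := by
    rw [← Phi_im', ← Phi_im', h]
  rw [div_eq_div_iff h1.ne' h2.ne'] at hr hi
  have e1 : z.im = w.im := by nlinarith
  rw [e1] at hi
  have e2 : 2 * z.re = 2 * w.re := mul_right_cancel₀ h2.ne' hi
  exact Complex.ext (by linarith) e1

/-- PROOF: cos (2 arctan t) = (1-t²)/(1+t²), sin (2 arctan t) = 2t/(1+t²). -/
theorem Phi_par {z : ℂ} (h : z.im = z.re ^ 2) :
    Phi z = Complex.exp (((2 * Real.arctan z.re : ℝ) : ℂ) * Complex.I) := by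
  have h0 : (0 : ℝ) < 1 + z.re ^ 2 := by positivity
  have hc := Real.cos_sq_arctan z.re
  have hs : Real.sin (Real.arctan z.re) = z.re * Real.cos (Real.arctan z.re) := by
    rw [Real.sin_arctan, Real.cos_arctan]
    ring
  rw [Complex.exp_mul_I]
  apply Complex.ext
  · rw [Phi_re', Complex.add_re, ← Complex.ofReal_cos, ← Complex.ofReal_sin,
      Complex.ofReal_re, Complex.re_ofReal_mul, Complex.I_re, Real.cos_two_mul, hc, h]
    field_simp
    ring
  · rw [Phi_im', Complex.add_im, ← Complex.ofReal_cos, ← Complex.ofReal_sin,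
      Complex.ofReal_im, Complex.im_ofReal_mul, Complex.I_im, Real.sin_two_mul, hs, h]
    have e : 2 * (z.re * Real.cos (Real.arctan z.re)) * Real.cos (Real.arctan z.re) =
        2 * z.re * (Real.cos (Real.arctan z.re) ^ 2) := by ring
    rw [e, hc]
    field_simp
    ring

/-- the derivative of Phi at `z` in direction `w` -/
noncomputable def dPhi (z w : ℂ) : ℂ :=
  ((-2 * w.im / (1 + z.im) ^ 2 : ℝ) : ℂ) +
    ((2 * (w.re * (1 + z.im) - z.re * w.im) / (1 + z.im) ^ 2 : ℝ) : ℂ) * Complex.I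

theorem dPhi_smul (z w : ℂ) (s : ℝ) : dPhi z (s * w) = s * dPhi z w := by
  have h1 : ((s : ℂ) * w).re = s * w.re := Complex.re_ofReal_mul _ _
  have h2 : ((s : ℂ) * w).im = s * w.im := Complex.im_ofReal_mul _ _
  unfold dPhi
  rw [h1, h2]
  push_cast
  ring

theorem dPhi_ne {z w : ℂ} (hz : 0 ≤ z.im) (hw : w ≠ 0) : dPhi z w ≠ 0 := by
  intro h
  have h1 : 0 < 1 + z.im := by linarith
  have h1' : (1 + z.im) ^ 2 ≠ 0 := by positivity
  have hr : -2 * w.im / (1 + z.im) ^ 2 = 0 := by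
    rw [← dPhi_re' z w]
    unfold dPhi at h
    rw [h, Complex.zero_re]
  have hi : 2 * (w.re * (1 + z.im) - z.re * w.im) / (1 + z.im) ^ 2 = 0 := by
    rw [← dPhi_im' z w]
    unfold dPhi at h
    rw [h, Complex.zero_im]
  rw [div_eq_zero_iff] at hr hi
  have e1 : w.im = 0 := by
    rcases hr with hr | hr
    · linarith
    · exact absurd hr h1'
  have e2 : w.re = 0 := by
    rcases hi with hi | hi
    · rw [e1] at hi
      have e3 : w.re * (1 + z.im) = 0 := by linarith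
      rcases mul_eq_zero.1 e3 with e4 | e4
      · exact e4
      · exact absurd e4 h1.ne'
    · exact absurd hi h1'
  exact hw (Complex.ext e2 e1)

theorem Phi_deriv {c : ℝ → ℂ} {c' : ℂ} {S : Set ℝ} {t : ℝ} (h : HasDerivWithinAt c c' S t) (h0 : 0 ≤ (c t).im) :
    HasDerivWithinAt (fun x => Phi (c x)) (dPhi (c t) c') S t := by
  have h1 : 1 + (c t).im ≠ 0 := by linarith
  have hre : HasDerivWithinAt (fun x => (c x).re) c'.re S t :=
    (Complex.reCLM.hasFDerivAt (x := c t)).comp_hasDerivWithinAt t h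
  have him : HasDerivWithinAt (fun x => (c x).im) c'.im S t :=
    (Complex.imCLM.hasFDerivAt (x := c t)).comp_hasDerivWithinAt t h
  have hden : HasDerivWithinAt (fun x => 1 + (c x).im) c'.im S t := him.const_add 1
  have hA : HasDerivWithinAt (fun x => (1 - (c x).im) / (1 + (c x).im))
      (-2 * c'.im / (1 + (c t).im) ^ 2) S t := by
    have h2 := (him.const_sub 1).div hden h1
    refine h2.congr_deriv ?_
    congr 1
    ring
  have hB : HasDerivWithinAt (fun x => 2 * (c x).re / (1 + (c x).im))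
      (2 * (c'.re * (1 + (c t).im) - (c t).re * c'.im) / (1 + (c t).im) ^ 2) S t := by
    have h2 := (hre.const_mul 2).div hden h1
    refine h2.congr_deriv ?_
    congr 1
    ring
  have hA' : HasDerivWithinAt (fun x => (((1 - (c x).im) / (1 + (c x).im) : ℝ) : ℂ))
      ((-2 * c'.im / (1 + (c t).im) ^ 2 : ℝ) : ℂ) S t :=
    (Complex.ofRealCLM.hasFDerivAt (x := (1 - (c t).im) / (1 + (c t).im))).comp_hasDerivWithinAt t hA
  have hB' : HasDerivWithinAt (fun x => ((2 * (c x).re / (1 + (c x).im) : ℝ) : ℂ))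
      ((2 * (c'.re * (1 + (c t).im) - (c t).re * c'.im) / (1 + (c t).im) ^ 2 : ℝ) : ℂ) S t :=
    (Complex.ofRealCLM.hasFDerivAt (x := 2 * (c t).re / (1 + (c t).im))).comp_hasDerivWithinAt t hB
  exact hA'.add (hB'.mul_const Complex.I)

theorem Phi_contDiffOn {c : ℝ → ℂ} {S : Set ℝ} (h : ContDiffOn ℝ 1 c S) (h0 : ∀ t ∈ S, 0 ≤ (c t).im) :
    ContDiffOn ℝ 1 (fun x => Phi (c x)) S := by
  have hre : ContDiffOn ℝ 1 (fun x => (c x).re) S := Complex.reCLM.contDiff.comp_contDiffOn h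
  have him : ContDiffOn ℝ 1 (fun x => (c x).im) S := Complex.imCLM.contDiff.comp_contDiffOn h
  have h1 : ∀ t ∈ S, 1 + (c t).im ≠ 0 := fun t ht => by
    have := h0 t ht
    linarith
  have hden : ContDiffOn ℝ 1 (fun x => 1 + (c x).im) S := contDiffOn_const.add him
  have hA : ContDiffOn ℝ 1 (fun x => (1 - (c x).im) / (1 + (c x).im)) S :=
    (contDiffOn_const.sub him).div hden h1
  have hB : ContDiffOn ℝ 1 (fun x => 2 * (c x).re / (1 + (c x).im)) S :=
    (contDiffOn_const.mul hre).div hden h1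
  have hA' : ContDiffOn ℝ 1 (fun x => (((1 - (c x).im) / (1 + (c x).im) : ℝ) : ℂ)) S :=
    Complex.ofRealCLM.contDiff.comp_contDiffOn hA
  have hB' : ContDiffOn ℝ 1 (fun x => ((2 * (c x).re / (1 + (c x).im) : ℝ) : ℂ)) S :=
    Complex.ofRealCLM.contDiff.comp_contDiffOn hB
  exact hA'.add (hB'.mul contDiffOn_const)

end Pool.Agent.SOD
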