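import Pool.Agent.SOD.Defs

/-! Project SOD, module TrackOf: the interface between the drawing and the track. -/

set_option autoImplicit false

open Set

namespace Pool.Agent.SOD

open Pool.Agent.SOC

variable {V : Type} [LinearOrder V] [Fintype V] {G : SimpleGraph V}

/-- the darts of the drawing `D` are the oriented links of the track -/
structure TrackOf (G : SimpleGraph V) (C : Nd V → Prop) (D : Drawing V) (o : D.Dart → Nd V × Nd V) : Prop where
  lk : ∀ d, Lk (Nod G C) (o d).1 (o d).2
  inj : Function.Injective o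
  surj : ∀ {K K'}, Lk (Nod G C) K K' → ∃ d, o d = (K, K')
  begv : ∀ {d v}, Drawing.beg d = Sum.inl v ↔ (o d).1 = out G v
  finv : ∀ {d v}, Drawing.fin d = Sum.inl v ↔ (o d).2 = inn G v
  fol : ∀ {d e}, Drawing.Follows d e ↔ (o d).2 = (o e).1 ∧ C (o e).1

end Pool.Agent.SOD
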