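import Pool.Agent.SOD.CorNds
import Pool.Agent.SOD.Disj
import Pool.Agent.SOD.Phi
import Pool.Agent.SOD.TrackOf

/-! Project SOD, module Build (size 5): the drawing. -/

set_option autoImplicit false

open Set

namespace Pool.Agent.SOD

open Pool.Agent.SOC

variable {V : Type} [LinearOrder V] [Fintype V] {G : SimpleGraph V}

/-- the junctions: the cores in canonical orientation -/
abbrev build_J (C : Nd V → Prop) : Type := {K : Nd V // C K ∧ Can K}

/-- the arcs: the links, oriented upwards -/
abbrev build_A (G : SimpleGraph V) (C : Nd V → Prop) (p : Nd V → ℂ) : Type :=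
  {q : Nd V × Nd V // Lk (Nod G C) q.1 q.2 ∧ (p q.1).im < (p q.2).im}

/-- the oriented node of a vertex or junction -/
noncomputable def build_rep (G : SimpleGraph V) (C : Nd V → Prop) (z : V ⊕ build_J C) : Nd V :=
  Sum.elim (fun v => out G v) (fun j => j.1) z

theorem build_repN {C : Nd V → Prop} (z : V ⊕ build_J C) : Nod G C (build_rep G C z) := by
  rcases z with v | j
  · exact Or.inr ⟨v, Or.inl rfl⟩
  · exact Or.inl j.2.1

theorem build_ex {C : Nd V → Prop} (hC : Cor G C) {K : Nd V} (hK : Nod G C K) :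
    ∃ z : V ⊕ build_J C, K = build_rep G C z ∨ K = (build_rep G C z).swap := by
  rcases hK with h | ⟨v, h | h⟩
  · rcases can_cases (nds_of_cor hC) (Or.inl h) ((core_iff hC).1 h).2 with h1 | h1
    · exact ⟨Sum.inr ⟨K, h, h1.1⟩, Or.inl rfl⟩
    · exact ⟨Sum.inr ⟨K.swap, hC.swap h, h1.2⟩, Or.inr (Prod.swap_swap K).symm⟩
  · exact ⟨Sum.inl v, Or.inl h⟩
  · exact ⟨Sum.inl v, Or.inr h⟩

theorem build_uniq {C : Nd V → Prop} (hC : Cor G C) {z z' : V ⊕ build_J C}
    (h : build_rep G C z = build_rep G C z' ∨ build_rep G C z = (build_rep G C z').swap) :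
    z = z' := by
  rcases z with v | j
  · rcases z' with v' | j'
    · have hv : v = v' := by
        rcases h with h | h
        · have h1 : ({v} : Finset V) = {v'} := congrArg Prod.fst h
          exact Finset.singleton_injective h1
        · have h1 : ({v} : Finset V) = nb G v' := congrArg Prod.fst h
          have h2 : v' ∈ ({v} : Finset V) := by
            rw [h1]
            exact mem_nb.2 (Or.inl rfl)
          exact (Finset.mem_singleton.1 h2).symm
      rw [hv]
    · exfalso
      rcases h with h | h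
      · exact ((core_iff hC).1 j'.2.1).2 ⟨v, Or.inl h.symm⟩
      · exact ((core_iff hC).1 (hC.swap j'.2.1)).2 ⟨v, Or.inl h.symm⟩
  · rcases z' with v' | j'
    · exfalso
      rcases h with h | h
      · exact ((core_iff hC).1 j.2.1).2 ⟨v', Or.inl h⟩
      · exact ((core_iff hC).1 j.2.1).2 ⟨v', Or.inr h⟩
    · have h0 : ((j.1 : Nd V) = j'.1) ∨ (j.1 : Nd V) = (j'.1 : Nd V).swap := h
      rcases h0 with h0 | h0
      · rw [Subtype.ext h0]
      · exfalso
        have h1 : Can (j'.1 : Nd V).swap := by
          rw [← h0]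
          exact j.2.2
        rcases can_cases (nds_of_cor hC) (Or.inl j'.2.1) ((core_iff hC).1 j'.2.1).2 with h2 | h2
        · exact h2.2 h1
        · exact h2.1 j'.2.2

theorem build_p {C : Nd V → Prop} {p : Nd V → ℂ} (hp : SLine G (Nod G C) p) {K : Nd V}
    {z : V ⊕ build_J C} (h : K = build_rep G C z ∨ K = (build_rep G C z).swap) :
    p K = p (build_rep G C z) := by
  rcases h with h | h
  · rw [h]
  · rw [h, hp.sw]

theorem build_epi {C : Nd V → Prop} {p : Nd V → ℂ} (hp : SLine G (Nod G C) p)
    {K : Nd V} (hK : Nod G C K) : (p K).re ^ 2 ≤ (p K).im := by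
  by_cases h : IsV G K
  · obtain ⟨v, h | h⟩ := h
    · rw [h]
      exact (hp.par v).ge
    · rw [h, ← out_swap, hp.sw]
      exact (hp.par v).ge
  · exact (hp.core hK h).le

theorem build_im {C : Nd V → Prop} {p : Nd V → ℂ} (hp : SLine G (Nod G C) p)
    {K : Nd V} (hK : Nod G C K) : 0 ≤ (p K).im :=
  le_trans (sq_nonneg _) (build_epi hp hK)

/-- the velocity with which a link leaves its first node -/
noncomputable def build_vo (G : SimpleGraph V) (p : Nd V → ℂ) (K P : Nd V) : ℂ :=
  dPhi (p K) (‖p P - p K‖ * Complex.exp ((tau G K (ang (p P - p K)) : ℂ) * Complex.I))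

theorem build_neg (z w : ℂ) : dPhi z (-w) = - dPhi z w := by
  have h := dPhi_smul z w (-1)
  have e : (((-1 : ℝ) : ℂ)) = -1 := by push_cast; ring
  rw [e, neg_one_mul, neg_one_mul] at h
  exact h

section
variable {N : Nd V → Prop} {p : Nd V → ℂ} {r : ℝ} {K P : Nd V}

theorem build_hd (hN : Nds G N) (hp : SLine G N p) (hr : RadOK G N p r) (h : Lk N K P) {t : ℝ}
    (ht : t ∈ Icc (0 : ℝ) 1) :
    HasDerivWithinAt (fun x => Phi (gam G p r K P x))
      (dPhi (gam G p r K P t) (deriv (gam G p r K P) t)) (Icc 0 1) t := by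
  have h1 : ContDiff ℝ 1 (gam G p r K P) := crv_contDiff _ _ _ _ _
  have h2 : HasDerivAt (gam G p r K P) (deriv (gam G p r K P) t) t :=
    (h1.differentiable one_ne_zero t).hasDerivAt
  exact Phi_deriv h2.hasDerivWithinAt (le_trans (sq_nonneg _) (gam_epi hN hp hr h ht.1 ht.2))

theorem build_d0 (hN : Nds G N) (hp : SLine G N p) (hr : RadOK G N p r) (h : Lk N K P) :
    derivWithin (fun x => Phi (gam G p r K P x)) (Icc 0 1) 0 = build_vo G p K P := by
  obtain ⟨h1, h2, _⟩ := lk_data hN hp hr h
  have h3 : HasDerivAt (gam G p r K P)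
      (‖p P - p K‖ * Complex.exp ((tau G K (ang (p P - p K)) : ℂ) * Complex.I)) 0 :=
    crv_deriv0 _ _ h1 hr.pos h2
  have h4 : gam G p r K P 0 = p K := crv_zero _ _ h1 hr.pos h2
  have h5 := Phi_deriv (S := Icc 0 1) h3.hasDerivWithinAt
    (le_trans (sq_nonneg _) (gam_epi hN hp hr h (le_refl 0) zero_le_one))
  rw [h5.derivWithin (uniqueDiffOn_Icc zero_lt_one 0 ⟨le_refl _, zero_le_one⟩), h4]
  rfl

theorem build_d1 (hN : Nds G N) (hp : SLine G N p) (hr : RadOK G N p r) (h : Lk N K P) :
    derivWithin (fun x => Phi (gam G p r K P x)) (Icc 0 1) 1 =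
      - build_vo G p P.swap K.swap := by
  obtain ⟨h1, h2, _⟩ := lk_data hN hp hr h
  have h3 : HasDerivAt (gam G p r K P)
      (-(‖p P - p K‖ * Complex.exp ((tau G P.swap (ang (p K - p P)) : ℂ) * Complex.I))) 1 :=
    crv_deriv1 _ _ h1 hr.pos h2
  have h4 : gam G p r K P 1 = p P := crv_one _ _ h1 hr.pos h2
  have h5 := Phi_deriv (S := Icc 0 1) h3.hasDerivWithinAt
    (le_trans (sq_nonneg _) (gam_epi hN hp hr h zero_le_one (le_refl 1)))
  rw [h5.derivWithin (uniqueDiffOn_Icc zero_lt_one 1 ⟨zero_le_one, le_refl _⟩), h4]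
  unfold build_vo
  rw [hp.sw, hp.sw, build_neg, norm_sub_rev (p K) (p P)]

end

open Classical in
/-- the sign of a core -/
noncomputable def build_sg (K : Nd V) : ℝ := if Can K then 1 else -1

theorem build_exp1 : Complex.exp (((Real.pi / 2 : ℝ) : ℂ) * Complex.I) = Complex.I := by
  rw [Complex.exp_mul_I, ← Complex.ofReal_cos, ← Complex.ofReal_sin, Real.cos_pi_div_two,
    Real.sin_pi_div_two]
  simp

theorem build_exp2 : Complex.exp (((3 * Real.pi / 2 : ℝ) : ℂ) * Complex.I) = -Complex.I := by
  have e : 3 * Real.pi / 2 = Real.pi / 2 + Real.pi := by ring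
  rw [e, Complex.exp_mul_I, ← Complex.ofReal_cos, ← Complex.ofReal_sin, Real.cos_add_pi,
    Real.sin_add_pi, Real.cos_pi_div_two, Real.sin_pi_div_two]
  simp

theorem build_core {p : Nd V → ℂ} {K P : Nd V} (hK : ¬ IsV G K) :
    build_vo G p K P = ((build_sg K * ‖p P - p K‖ : ℝ) : ℂ) * dPhi (p K) Complex.I := by
  unfold build_vo build_sg tau
  rw [if_neg hK]
  by_cases h : Can K
  · rw [if_pos h, if_pos h, build_exp1, dPhi_smul, one_mul]
  · rw [if_neg h, if_neg h, build_exp2]
    have e : (‖p P - p K‖ : ℂ) * -Complex.I = ((-1 * ‖p P - p K‖ : ℝ) : ℂ) * Complex.I := by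
      push_cast
      ring
    rw [e, dPhi_smul]

theorem build_sg_swap {C : Nd V → Prop} (hC : Cor G C) {K : Nd V} (hK : C K) :
    build_sg K.swap = - build_sg K := by
  unfold build_sg
  rcases can_cases (nds_of_cor hC) (Or.inl hK) ((core_iff hC).1 hK).2 with h | h
  · rw [if_pos h.1, if_neg h.2]
  · rw [if_neg h.1, if_pos h.2, neg_neg]

omit [Fintype V] in
theorem build_sg_sq (K : Nd V) : build_sg K * build_sg K = 1 := by
  unfold build_sg
  split_ifs
  · norm_num
  · norm_num

theorem build_ray {w : ℂ} (hw : w ≠ 0) {s s' : ℝ} (hs : s ≠ 0) (hs' : s' ≠ 0) :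
    SameRay ℝ ((s : ℂ) * w) ((s' : ℂ) * w) ↔ 0 < s * s' := by
  constructor
  · rintro (h | h | ⟨r₁, r₂, h1, h2, h3⟩)
    · rcases mul_eq_zero.1 h with h | h
      · exact absurd (Complex.ofReal_eq_zero.1 h) hs
      · exact absurd h hw
    · rcases mul_eq_zero.1 h with h | h
      · exact absurd (Complex.ofReal_eq_zero.1 h) hs'
      · exact absurd h hw
    · have h4 : ((r₁ * s : ℝ) : ℂ) * w = ((r₂ * s' : ℝ) : ℂ) * w := by
        have h5 : (r₁ : ℂ) * ((s : ℂ) * w) = (r₂ : ℂ) * ((s' : ℂ) * w) := by
          rw [← Complex.real_smul, ← Complex.real_smul]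
          exact h3
        push_cast
        rw [mul_assoc, mul_assoc]
        exact h5
      have h6 := Complex.ofReal_injective (mul_right_cancel₀ hw h4)
      have h7 : r₁ * (s * s') = r₂ * s' ^ 2 := by
        rw [← mul_assoc, h6]
        ring
      have h8 : 0 < r₁ * (s * s') := by
        rw [h7]
        positivity
      exact pos_of_mul_pos_right h8 h1.le
  · intro h
    refine Or.inr (Or.inr ⟨s' ^ 2, s * s', by positivity, h, ?_⟩)
    rw [Complex.real_smul, Complex.real_smul]
    push_cast
    ring

/-- the drawing -/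
noncomputable def build_D {C : Nd V → Prop} (hC : Cor G C) {p : Nd V → ℂ}
    (hp : SLine G (Nod G C) p) {r : ℝ} (hr : RadOK G (Nod G C) p r) : Drawing V where
  J := build_J C
  A := build_A G C p
  finJ := inferInstance
  finA := inferInstance
  pos := fun z => Phi (p (build_rep G C z))
  pos_inj := by
    intro z z' h
    have h1 := Phi_inj (build_im hp (build_repN z)) (build_im hp (build_repN z')) h
    rcases hp.pln.inj (build_repN z) (build_repN z') h1 with h2 | h2
    · exact (build_uniq hC (Or.inl h2)).symm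
    · exact (build_uniq hC (Or.inr h2)).symm
  curve := fun a t => Phi (gam G p r a.1.1 a.1.2 t)
  src := fun a => Classical.choose (build_ex hC a.2.1.1)
  tgt := fun a => Classical.choose (build_ex hC a.2.1.2.1)
  smooth := by
    intro a
    have h1 : ContDiff ℝ 1 (gam G p r a.1.1 a.1.2) := crv_contDiff _ _ _ _ _
    exact Phi_contDiffOn h1.contDiffOn (fun t ht => le_trans (sq_nonneg _)
      (gam_epi (nds_of_cor hC) hp hr a.2.1 ht.1 ht.2))
  regular := by
    intro a t ht
    rw [(build_hd (nds_of_cor hC) hp hr a.2.1 ht).derivWithin (uniqueDiffOn_Icc zero_lt_one t ht)]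
    refine dPhi_ne (le_trans (sq_nonneg _)
      (gam_epi (nds_of_cor hC) hp hr a.2.1 ht.1 ht.2)) ?_
    obtain ⟨h1, h2, _⟩ := lk_data (nds_of_cor hC) hp hr a.2.1
    exact crv_deriv_ne _ _ h1 hr.pos h2
  start := by
    intro a
    obtain ⟨h1, h2, _⟩ := lk_data (nds_of_cor hC) hp hr a.2.1
    have h4 : gam G p r a.1.1 a.1.2 0 = p a.1.1 := crv_zero _ _ h1 hr.pos h2
    rw [h4]
    exact congrArg Phi (build_p hp (Classical.choose_spec (build_ex hC a.2.1.1)))
  finish := by
    intro a
    obtain ⟨h1, h2, _⟩ := lk_data (nds_of_cor hC) hp hr a.2.1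
    have h4 : gam G p r a.1.1 a.1.2 1 = p a.1.2 := crv_one _ _ h1 hr.pos h2
    rw [h4]
    exact congrArg Phi (build_p hp (Classical.choose_spec (build_ex hC a.2.1.2.1)))
  simple := by
    intro a s hs t ht h
    have h1 := Phi_inj (le_trans (sq_nonneg _)
      (gam_epi (nds_of_cor hC) hp hr a.2.1 hs.1.le hs.2.le)) (le_trans (sq_nonneg _)
      (gam_epi (nds_of_cor hC) hp hr a.2.1 ht.1 ht.2)) h
    rcases gam_inj (nds_of_cor hC) hp hr a.2.1 a.2.1 hs.1.le hs.2.le ht.1 ht.2 h1 with
      h2 | h2 | h2
    · exact h2.2.2.symm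
    · exfalso
      have h3 := a.2.2
      rw [h2.1, hp.sw] at h3
      exact lt_irrefl _ h3
    · exfalso
      rcases h2.1 with h3 | h3
      · exact absurd h3 hs.1.ne'
      · exact absurd h3 hs.2.ne
  disjoint := by
    intro a b hab s hs t ht h
    have h1 := Phi_inj (le_trans (sq_nonneg _)
      (gam_epi (nds_of_cor hC) hp hr a.2.1 hs.1 hs.2)) (le_trans (sq_nonneg _)
      (gam_epi (nds_of_cor hC) hp hr b.2.1 ht.1 ht.2)) h
    rcases gam_inj (nds_of_cor hC) hp hr a.2.1 b.2.1 hs.1 hs.2 ht.1 ht.2 h1 with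
      h2 | h2 | h2
    · exact absurd (Subtype.ext (Prod.ext h2.1.symm h2.2.1.symm)) hab
    · exfalso
      have h3 := b.2.2
      rw [h2.1, h2.2.1, hp.sw, hp.sw] at h3
      exact lt_asymm h3 a.2.2
    · exact h2
  avoid := by
    intro a t ht x h
    have h1 := Phi_inj (le_trans (sq_nonneg _)
      (gam_epi (nds_of_cor hC) hp hr a.2.1 ht.1.le ht.2.le))
      (build_im hp (build_repN x)) h
    exact gam_avoid (nds_of_cor hC) hp hr a.2.1 (build_repN x) ht.1 ht.2 h1
  line := fun j => dPhi (p j.1) Complex.I
  tangent_src := by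
    intro a j hj
    have hs := Classical.choose_spec (build_ex hC a.2.1.1)
    rw [hj] at hs
    have hK : ¬ IsV G a.1.1 := by
      rcases hs with hs | hs
      · rw [hs]
        exact ((core_iff hC).1 j.2.1).2
      · rw [hs]
        exact ((core_iff hC).1 (hC.swap j.2.1)).2
    refine ⟨build_sg a.1.1 * ‖p a.1.2 - p a.1.1‖, ?_⟩
    rw [build_d0 (nds_of_cor hC) hp hr a.2.1, build_core hK, build_p hp hs, Complex.real_smul]
    rfl
  tangent_tgt := by
    intro a j hj
    have hs := Classical.choose_spec (build_ex hC a.2.1.2.1)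
    rw [hj] at hs
    have hK : ¬ IsV G a.1.2.swap := by
      rcases hs with hs | hs
      · rw [hs]
        exact ((core_iff hC).1 (hC.swap j.2.1)).2
      · rw [hs, Prod.swap_swap]
        exact ((core_iff hC).1 j.2.1).2
    refine ⟨-(build_sg a.1.2.swap * ‖p a.1.1.swap - p a.1.2.swap‖), ?_⟩
    rw [build_d1 (nds_of_cor hC) hp hr a.2.1, build_core hK, Complex.real_smul, hp.sw a.1.2,
      build_p hp hs, Complex.ofReal_neg, neg_mul]
    rfl

section
variable {C : Nd V → Prop} (hC : Cor G C) {p : Nd V → ℂ} (hp : SLine G (Nod G C) p) {r : ℝ}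
  (hr : RadOK G (Nod G C) p r)

/-- the oriented link of a dart -/
noncomputable def build_o (d : (build_D hC hp hr).Dart) : Nd V × Nd V :=
  let a : build_A G C p := d.1
  if d.2 = true then (a.1.1, a.1.2) else (a.1.2.swap, a.1.1.swap)

theorem build_ot (a : build_A G C p) : build_o hC hp hr (a, true) = (a.1.1, a.1.2) := rfl

theorem build_of (a : build_A G C p) :
    build_o hC hp hr (a, false) = (a.1.2.swap, a.1.1.swap) := rfl

theorem build_lk (d : (build_D hC hp hr).Dart) :
    Lk (Nod G C) (build_o hC hp hr d).1 (build_o hC hp hr d).2 := by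
  obtain ⟨a, b⟩ := d
  have ha : Lk (Nod G C) (a : build_A G C p).1.1 (a : build_A G C p).1.2 :=
    (a : build_A G C p).2.1
  cases b
  · exact lk_swap (nds_of_cor hC).swap ha
  · exact ha

theorem build_beg (d : (build_D hC hp hr).Dart) :
    (build_o hC hp hr d).1 = build_rep G C (Drawing.beg d) ∨
      (build_o hC hp hr d).1 = (build_rep G C (Drawing.beg d)).swap := by
  obtain ⟨a, b⟩ := d
  cases b
  · have hs := Classical.choose_spec (build_ex hC (a : build_A G C p).2.1.2.1)
    rcases hs with hs | hs
    · right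
      exact congrArg Prod.swap hs
    · left
      have h2 := congrArg Prod.swap hs
      rw [Prod.swap_swap] at h2
      exact h2
  · exact Classical.choose_spec (build_ex hC (a : build_A G C p).2.1.1)

theorem build_fin (d : (build_D hC hp hr).Dart) :
    (build_o hC hp hr d).2 = build_rep G C (Drawing.fin d) ∨
      (build_o hC hp hr d).2 = (build_rep G C (Drawing.fin d)).swap := by
  obtain ⟨a, b⟩ := d
  cases b
  · have hs := Classical.choose_spec (build_ex hC (a : build_A G C p).2.1.1)
    rcases hs with hs | hs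
    · right
      exact congrArg Prod.swap hs
    · left
      have h2 := congrArg Prod.swap hs
      rw [Prod.swap_swap] at h2
      exact h2
  · exact Classical.choose_spec (build_ex hC (a : build_A G C p).2.1.2.1)

theorem build_vout (d : (build_D hC hp hr).Dart) :
    Drawing.vout d = build_vo G p (build_o hC hp hr d).1 (build_o hC hp hr d).2 := by
  obtain ⟨a, b⟩ := d
  have ha : Lk (Nod G C) (a : build_A G C p).1.1 (a : build_A G C p).1.2 :=
    (a : build_A G C p).2.1
  cases b
  · have h1 := build_d1 (nds_of_cor hC) hp hr ha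
    have h2 : Drawing.vout ((a, false) : (build_D hC hp hr).Dart) =
      - derivWithin (fun x => Phi (gam G p r (a : build_A G C p).1.1 (a : build_A G C p).1.2 x))
        (Icc 0 1) 1 := rfl
    rw [h2, h1, neg_neg]
    rfl
  · exact build_d0 (nds_of_cor hC) hp hr ha

theorem build_vin (d : (build_D hC hp hr).Dart) :
    Drawing.vin d =
      - build_vo G p (build_o hC hp hr d).2.swap (build_o hC hp hr d).1.swap := by
  obtain ⟨a, b⟩ := d
  have ha : Lk (Nod G C) (a : build_A G C p).1.1 (a : build_A G C p).1.2 :=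
    (a : build_A G C p).2.1
  cases b
  · have h1 := build_d0 (nds_of_cor hC) hp hr ha
    have h2 : Drawing.vin ((a, false) : (build_D hC hp hr).Dart) =
      - derivWithin (fun x => Phi (gam G p r (a : build_A G C p).1.1 (a : build_A G C p).1.2 x))
        (Icc 0 1) 0 := rfl
    rw [h2, h1]
    have h3 : build_o hC hp hr (a, false) =
      ((a : build_A G C p).1.2.swap, (a : build_A G C p).1.1.swap) := rfl
    rw [h3]
    show - _ = - build_vo G p ((a : build_A G C p).1.1.swap).swap
      ((a : build_A G C p).1.2.swap).swap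
    rw [Prod.swap_swap, Prod.swap_swap]
  · exact build_d1 (nds_of_cor hC) hp hr ha

theorem build_inj : Function.Injective (build_o hC hp hr) := by
  rintro ⟨a, b⟩ ⟨a', b'⟩ h
  have ha := (a : build_A G C p).2.2
  have ha' := (a' : build_A G C p).2.2
  cases b <;> cases b'
  · have h1 : ((a : build_A G C p).1.2.swap, (a : build_A G C p).1.1.swap) =
      ((a' : build_A G C p).1.2.swap, (a' : build_A G C p).1.1.swap) := h
    have h2 := (Prod.ext_iff.1 h1).1
    have h3 := (Prod.ext_iff.1 h1).2
    have h4 : (a : build_A G C p) = a' :=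
      Subtype.ext (Prod.ext (Prod.swap_injective h3) (Prod.swap_injective h2))
    rw [h4]
  · exfalso
    have h1 : ((a : build_A G C p).1.2.swap, (a : build_A G C p).1.1.swap) =
      ((a' : build_A G C p).1.1, (a' : build_A G C p).1.2) := h
    have h2 := (Prod.ext_iff.1 h1).1
    have h3 := (Prod.ext_iff.1 h1).2
    simp only at h2 h3
    rw [← h2, ← h3, hp.sw, hp.sw] at ha'
    exact lt_asymm ha ha'
  · exfalso
    have h1 : ((a : build_A G C p).1.1, (a : build_A G C p).1.2) =
      ((a' : build_A G C p).1.2.swap, (a' : build_A G C p).1.1.swap) := h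
    have h2 := (Prod.ext_iff.1 h1).1
    have h3 := (Prod.ext_iff.1 h1).2
    simp only at h2 h3
    rw [h2, h3, hp.sw, hp.sw] at ha
    exact lt_asymm ha ha'
  · have h1 : ((a : build_A G C p).1.1, (a : build_A G C p).1.2) =
      ((a' : build_A G C p).1.1, (a' : build_A G C p).1.2) := h
    have h4 : (a : build_A G C p) = a' :=
      Subtype.ext (Prod.ext (Prod.ext_iff.1 h1).1 (Prod.ext_iff.1 h1).2)
    rw [h4]

theorem build_surj {K K' : Nd V} (h : Lk (Nod G C) K K') :
    ∃ d, build_o hC hp hr d = (K, K') := by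
  have h1 := lk_im (nds_of_cor hC) hp h
  rw [Complex.sub_im] at h1
  rcases lt_or_gt_of_ne (sub_ne_zero.1 h1) with h2 | h2
  · refine ⟨((⟨(K'.swap, K.swap), lk_swap (nds_of_cor hC).swap h, ?_⟩ : build_A G C p), false), ?_⟩
    · show (p K'.swap).im < (p K.swap).im
      rw [hp.sw, hp.sw]
      exact h2
    · show (K.swap.swap, K'.swap.swap) = (K, K')
      rw [Prod.swap_swap, Prod.swap_swap]
  · exact ⟨((⟨(K, K'), h, h2⟩ : build_A G C p), true), rfl⟩

theorem build_fol (d e : (build_D hC hp hr).Dart) :
    Drawing.Follows d e ↔ (build_o hC hp hr d).2 = (build_o hC hp hr e).1 ∧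
      C (build_o hC hp hr e).1 := by
  have hd := build_lk hC hp hr d
  have he := build_lk hC hp hr e
  have hb := build_beg hC hp hr e
  have hf := build_fin hC hp hr d
  have hvo := build_vout hC hp hr e
  have hvi := build_vin hC hp hr d
  generalize (build_o hC hp hr d).1 = K at hd hf hvi ⊢
  generalize (build_o hC hp hr d).2 = P at hd hf hvi ⊢
  generalize (build_o hC hp hr e).1 = K' at he hb hvo ⊢
  generalize (build_o hC hp hr e).2 = P' at he hb hvo ⊢
  have hKP : p K ≠ p P := (lk_data (nds_of_cor hC) hp hr hd).2.2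
  have hKP' : p K' ≠ p P' := (lk_data (nds_of_cor hC) hp hr he).2.2
  have hw : dPhi (p K') Complex.I ≠ 0 := dPhi_ne (build_im hp he.1) Complex.I_ne_zero
  have hn' : 0 < ‖p P' - p K'‖ := norm_pos_iff.2 (sub_ne_zero.2 hKP'.symm)
  have hn : 0 < ‖p K.swap - p P.swap‖ := by
    rw [hp.sw, hp.sw]
    exact norm_pos_iff.2 (sub_ne_zero.2 hKP)
  have hsg : build_sg K' ≠ 0 := by
    intro h
    have := build_sg_sq K'
    rw [h] at this
    norm_num at this
  have key : C K' → ∀ s : ℝ, build_sg P.swap = s * build_sg K' → s ≠ 0 → P = K' ∨ P = K'.swap →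
      (SameRay ℝ (Drawing.vin d) (Drawing.vout e) ↔ 0 < -s) := by
    intro hc s hs hs0 hPK
    have hP : ¬ IsV G P.swap := by
      rcases hPK with h | h
      · rw [h]
        exact ((core_iff hC).1 (hC.swap hc)).2
      · rw [h, Prod.swap_swap]
        exact ((core_iff hC).1 hc).2
    have hpP : p P.swap = p K' := by
      rcases hPK with h | h
      · rw [h, hp.sw]
      · rw [h, Prod.swap_swap]
    rw [hvi, hvo, build_core hP, build_core ((core_iff hC).1 hc).2, hs, hpP]
    rw [hpP] at hn
    have e1 : -(((s * build_sg K' * ‖p K.swap - p K'‖ : ℝ) : ℂ) * dPhi (p K') Complex.I) =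
        ((-(s * build_sg K' * ‖p K.swap - p K'‖) : ℝ) : ℂ) * dPhi (p K') Complex.I := by
      push_cast
      ring
    rw [e1, build_ray hw (neg_ne_zero.2 (mul_ne_zero (mul_ne_zero hs0 hsg) hn.ne'))
      (mul_ne_zero hsg hn'.ne')]
    have e2 : -(s * build_sg K' * ‖p K.swap - p K'‖) * (build_sg K' * ‖p P' - p K'‖) =
        (-s) * (‖p K.swap - p K'‖ * ‖p P' - p K'‖) := by
      have := build_sg_sq K'
      linear_combination (-s * ‖p K.swap - p K'‖ * ‖p P' - p K'‖) * this
    rw [e2]
    have h3 : 0 < ‖p K.swap - p K'‖ * ‖p P' - p K'‖ := mul_pos hn hn'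
    constructor
    · intro h
      exact pos_of_mul_pos_left h h3.le
    · intro h
      exact mul_pos h h3
  constructor
  · rintro ⟨h1, ⟨j, hj⟩, h3⟩
    rw [h1, hj] at hf
    rw [hj] at hb
    have hc : C K' := by
      rcases hb with hb | hb
      · rw [hb]
        exact j.2.1
      · rw [hb]
        exact hC.swap j.2.1
    have hPK : P = K' ∨ P = K'.swap := by
      rcases hb with hb | hb
      · rw [hb]
        exact hf
      · rw [hb, Prod.swap_swap]
        exact hf.symm
    refine ⟨?_, hc⟩
    rcases hPK with h | h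
    · exact h
    · exfalso
      have h4 := (key hc 1 (by rw [h, Prod.swap_swap, one_mul]) one_ne_zero (Or.inr h)).1 h3
      norm_num at h4
  · rintro ⟨h1, h2⟩
    refine ⟨?_, ?_, ?_⟩
    · apply build_uniq hC
      rw [h1] at hf
      rcases hf with hf | hf
      · rw [← hf]
        exact hb
      · rcases hb with hb | hb
        · right
          rw [← hb, hf, Prod.swap_swap]
        · left
          rw [hf] at hb
          exact Prod.swap_injective hb
    · rcases hbe : Drawing.beg e with v | j
      · exfalso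
        rw [hbe] at hb
        exact ((core_iff hC).1 h2).2 ⟨v, hb⟩
      · exact ⟨j, rfl⟩
    · refine (key h2 (-1) ?_ (by norm_num) (Or.inl h1)).2 (by norm_num)
      rw [h1, build_sg_swap hC h2]
      ring

theorem build_track : TrackOf G C (build_D hC hp hr) (build_o hC hp hr) where
  lk := build_lk hC hp hr
  inj := build_inj hC hp hr
  surj := build_surj hC hp hr
  begv := by
    intro d v
    have hb := build_beg hC hp hr d
    have hl := build_lk hC hp hr d
    constructor
    · intro h
      rw [h] at hb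
      rcases hb with hb | hb
      · exact hb
      · exact absurd hb (lk_ne_inn (nds_of_cor hC) hl v).1
    · intro h
      apply build_uniq hC
      rw [h] at hb
      rcases hb with hb | hb
      · exact Or.inl hb.symm
      · right
        have h2 := congrArg Prod.swap hb
        rw [Prod.swap_swap] at h2
        exact h2.symm
  finv := by
    intro d v
    have hb := build_fin hC hp hr d
    have hl := build_lk hC hp hr d
    constructor
    · intro h
      rw [h] at hb
      rcases hb with hb | hb
      · exact absurd hb (lk_ne_inn (nds_of_cor hC) hl v).2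
      · exact hb
    · intro h
      apply build_uniq hC
      rw [h] at hb
      rcases hb with hb | hb
      · exact Or.inr hb.symm
      · left
        have h2 : (out G v).swap = (build_rep G C (Drawing.fin d)).swap := hb
        exact (Prod.swap_injective h2).symm
  fol := by
    intro d e
    exact build_fol hC hp hr d e

end

/-- PROOF. N := Nod G C, hN := nds_of_cor hC; r from rad_exists.
J := {K : Nd V // C K ∧ Can K}, A := {q : Nd V × Nd V // Lk N q.1 q.2 ∧ (p q.1).im < (p q.2).im} (finite).
pos (inl v) = Phi (p (out v)), pos (inr K) = Phi (p K). Say z : V ⊕ J represents K (N K) if z = inl v, K = out v or inn v, or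
z = inr j, K = j or j.swap; every node is represented by exactly one z (can_cases, core_iff), pos z = Phi (p K); pos is injective
(Phi_inj; the points are in the region 0 ≤ re² ≤ im; hp.pln.inj). src q, tgt q := the z which represents q.1, q.2 (choose).
curve q t := Phi (gam G p r q.1 q.2 t). smooth: Phi_contDiffOn, crv_contDiff, gam_epi. regular: Phi_deriv, dPhi_ne, crv_deriv_ne
(derivWithin on Icc 0 1 by uniqueDiffOn). start, finish: crv_zero, crv_one. simple, disjoint: Phi_inj, gam_inj (for q ≠ q' the second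
alternative K' = P.swap, P' = K.swap is excluded by the heights: im (p K) < im (p P) and im (p K') < im (p P')); for `simple`:
third alternative excluded as 0 < s < 1, in the second alternative K = P.swap is excluded by the heights. avoid: gam_avoid.
line K := dPhi (p K) I. tangent_src: derivWithin at 0 is dPhi (p K) (‖..‖ e^{iτ}) with τ = π/2 or 3π/2 (cores), e^{iτ} = ± i: crv_deriv0,
dPhi_smul; tangent_tgt: crv_deriv1.
o (q, true) = (q.1, q.2), o (q, false) = (q.2.swap, q.1.swap). lk, inj, surj: heights (lk_im: exactly one of the two orientations has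
im (first) < im (second)), lk_swap. begv: beg = inl v iff the first node is out v or inn v, and it is not inn v (lk_ne_inn). finv
similarly. fol: (K, P) = o d, (K', P') = o e: vin d is a positive multiple of dPhi (p P) (- e^{iτ'}) with τ' the direction of P.swap
(tau G P.swap ..), vout e a positive multiple of dPhi (p K') (e^{iτ(K')}). fin d = beg e is a junction iff P is a core and K' = P or
P.swap; - e^{iτ(P.swap)} = e^{iτ(P)} for cores (can_cases); so the rays agree iff K' = P (if K' = P.swap they are opposite and not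
zero by dPhi_ne). -/
theorem build {C : Nd V → Prop} (hC : Cor G C) {p : Nd V → ℂ} (hp : SLine G (Nod G C) p) :
    ∃ (D : Drawing V) (o : D.Dart → Nd V × Nd V), TrackOf G C D o ∧
      (∀ a, ∀ t ∈ Icc (0 : ℝ) 1, ‖D.curve a t‖ ≤ 1) ∧ ∀ v, D.pos (Sum.inl v) = Phi (p (out G v)) := by
  obtain ⟨r, hr⟩ := rad_exists (nds_of_cor hC) hp
  exact ⟨build_D hC hp hr, build_o hC hp hr, build_track hC hp hr,
    fun a t ht => Phi_norm (gam_epi (nds_of_cor hC) hp hr (a : build_A G C p).2.1 ht.1 ht.2),
    fun v => rfl⟩

end Pool.Agent.SOD
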