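import Pool.Agent.SOD.TopCases

/-! Project SOD, module Child (size 2): the links of the next new node `c` of the phase of `v` to the nodes of `I`. -/

set_option autoImplicit false

open Set

namespace Pool.Agent.SOD

variable {V : Type} [LinearOrder V] [Fintype V] {G : SimpleGraph V} {N : Nd V → Prop} {D : Finset V}

/-- the situation: `I` consists of the nodes of stage `D` and some new nodes; `c` is a new node which is not in `I`, all new
nodes with smaller left side are in `I`, no new node with a larger left side is in `I`. -/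
structure Next (G : SimpleGraph V) (N : Nd V → Prop) (D : Finset V) (v : V) (I : Nd V → Prop) (c : Nd V) : Prop where
  vD : v ∉ D
  isw : ∀ {K}, I K → I K.swap
  base : ∀ {K}, St N D K → I K
  only : ∀ {K}, I K → St N D K ∨ Priv G N D v K ∨ Priv G N D v K.swap
  noinn : ¬ I (inn G v)
  priv : Priv G N D v c
  cI : ¬ I c
  small : ∀ {K}, Priv G N D v K → K.1.card < c.1.card → I K
  large : ∀ {K}, Priv G N D v K → I K → ¬ c.1.card < K.1.card

/-- no node of `I` has `v` on both sides (it would be inn v or out v) -/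
theorem Next.notv {v : V} {I : Nd V → Prop} {c : Nd V} (hN : Nds G N) (h : Next G N D v I c) {K : Nd V} (hK : I K)
    (h1 : v ∈ K.1) (h2 : v ∈ K.2) : False := by
  have hk : N K := by
    rcases h.only hK with h3 | h3 | h3
    · exact h3.1
    · exact h3.1
    · have := hN.swap h3.1
      rw [Prod.swap_swap] at this
      exact this
  rcases hN.both hk h1 h2 with h3 | h3
  · have := h.isw hK
    rw [h3, out_swap] at this
    exact h.noinn this
  · rw [h3] at hK
    exact h.noinn hK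

theorem Next.nod {v : V} {I : Nd V → Prop} {c : Nd V} (hN : Nds G N) (h : Next G N D v I c) {K : Nd V} (hK : I K) :
    N K := by
  rcases h.only hK with h3 | h3 | h3
  · exact h3.1
  · exact h3.1
  · have := hN.swap h3.1
    rw [Prod.swap_swap] at this
    exact this

/-- PROOF: if I K with (a; v) in K and c.1 ⊆ K.1, K.2 ⊆ c.2: K.2 does not meet D, so K is not in St N D; Priv K: K.1 = c.1 gives
K = c (strict), otherwise the card of K.1 is larger: `large`; Priv K.swap: v ∈ K.1 and v ∈ K.2: notv. -/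
theorem Next.notabove {v : V} {I : Nd V → Prop} {c : Nd V} (hN : Nds G N) (h : Next G N D v I c) {K : Nd V} (hK : I K)
    {a : V} (ha : a ∈ K.1) (hac : a ∈ c.1) (hav : a ≠ v) (hvK : v ∈ K.2) : ¬ c.1 ⊆ K.1 := by
  intro hc
  have hKN := h.nod hN hK
  have hne : K ≠ c := fun h' => h.cI (h' ▸ hK)
  have hcv : v ∈ c.2 := h.priv.2.1
  have hn1 : K.1 ≠ c.1 := fun h' => hne (hN.strict hKN h.priv.1 h' hav ha hvK hcv)
  rcases hN.chain hKN h.priv.1 hav ha hac hvK hcv with ⟨h1, _⟩ | ⟨_, h2⟩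
  · exact hn1 (Finset.Subset.antisymm h1 hc)
  · rcases h.only hK with h3 | h3 | h3
    · obtain ⟨y, hy, hy'⟩ := h3.2.2
      exact h.priv.2.2.1 y (h2 hy) hy'
    · have h4 : c.1 ⊂ K.1 := Finset.ssubset_iff_subset_ne.2 ⟨hc, fun h' => hn1 h'.symm⟩
      exact h.large h3 hK (Finset.card_lt_card h4)
    · exact h.notv hN hK h3.2.1 hvK

/-- PROOF: K.1 ⊆ c.1, v ∈ c.2 ⊆ K.2. I K: St N D K: K.1 meets D. Priv K: K ≠ inn v by noinn, so K.1 meets D. Priv K.swap: v ∈
K.1: notv. So there is a ∈ K.1 ∩ D, a ≠ v. For every such a: Tp: K' ∈ I with (a; v): hN.chain (K', c; a, v): c.1 ⊆ K'.1 is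
excluded by notabove; K'.1 ⊆ c.1, c.2 ⊆ K'.2; hN.chain (K, K'; a, v): K'.1 ⊆ K.1 done, or K.1 ⊆ K'.1, K'.2 ⊆ K.2: K' = K or K' =
c by the link; K' = c is not in I. -/
theorem Next.child {v : V} {I : Nd V → Prop} {c : Nd V} (hN : Nds G N) (h : Next G N D v I c) {K : Nd V} (hK : I K)
    (hl : Lk N K c) : (∃ a ∈ K.1, a ∈ D) ∧ ∀ a ∈ K.1, a ∈ D → a ∈ c.1 ∧ G.Adj a v ∧ Tp I a v K := by
  have hKN := h.nod hN hK
  have hcv : v ∈ c.2 := h.priv.2.1
  have hKv : v ∈ K.2 := hl.2.2.2.1.1 hcv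
  refine ⟨?_, ?_⟩
  · rcases h.only hK with h3 | h3 | h3
    · exact h3.2.1
    · rcases h3.2.2.2 with h4 | h4
      · rw [h4] at hK
        exact absurd hK h.noinn
      · exact h4
    · exact absurd (h.notv hN hK h3.2.1 hKv) id
  · intro a ha haD
    have hav : a ≠ v := fun h' => h.vD (h' ▸ haD)
    have hac : a ∈ c.1 := hl.2.2.1.1 ha
    refine ⟨hac, hN.adj h.priv.1 hac hcv hav, hK, ha, hKv, ?_⟩
    intro K' hK' ha' hv'
    have hKN' := h.nod hN hK'
    have h1 : K'.1 ⊆ c.1 ∧ c.2 ⊆ K'.2 := by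
      rcases hN.chain hKN' h.priv.1 hav ha' hac hv' hcv with h1 | h1
      · exact h1
      · exact absurd h1.1 (h.notabove hN hK' ha' hac hav hv')
    rcases hN.chain hKN hKN' hav ha ha' hKv hv' with h2 | h2
    · rcases hl.2.2.2.2.2 K' hKN' h2.1 h1.1 h1.2 h2.2 with h3 | h3
      · rw [h3]
      · rw [h3] at hK'
        exact absurd hK' h.cI
    · exact h2.1

/-- PROOF: hN.chain (K, c; a, v): c.1 ⊆ K.1 is excluded (notabove); so K.1 ⊆ c.1, c.2 ⊆ K.2, both strict (strict, also for the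
swapped nodes, as K ≠ c). Witness: a ∈ K.1, v ∈ c.2. Between: M with K.1 ⊆ M.1 ⊆ c.1, c.2 ⊆ M.2 ⊆ K.2, M ≠ c: M.1 ≠ c.1 (strict),
so the card of M.1 is smaller; M contains (a; v), a ∈ D: if M.2 meets D then St N D M, I M; otherwise Priv M and `small` gives I M.
Then M.1 ⊆ K.1 by hK, so M = K (strict). -/
theorem Next.link {v : V} {I : Nd V → Prop} {c : Nd V} (hN : Nds G N) (h : Next G N D v I c) {K : Nd V} {a : V}
    (ha : a ∈ D) (hac : a ∈ c.1) (hK : Tp I a v K) : Lk N K c := by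
  obtain ⟨hKI, haK, hvK, hmax⟩ := hK
  have hKN := h.nod hN hKI
  have hcv : v ∈ c.2 := h.priv.2.1
  have hav : a ≠ v := fun h' => h.vD (h' ▸ ha)
  have hne : K ≠ c := fun h' => h.cI (h' ▸ hKI)
  have hn1 : K.1 ≠ c.1 := fun h' => hne (hN.strict hKN h.priv.1 h' hav haK hvK hcv)
  have hn2 : c.2 ≠ K.2 := by
    intro h'
    have h1 : K.swap.1 = c.swap.1 := h'.symm
    have h2 : K.swap = c.swap :=
      hN.strict (hN.swap hKN) (hN.swap h.priv.1) h1 (Ne.symm hav) hvK haK hac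
    exact hne (Prod.swap_injective h2)
  have h1 : K.1 ⊆ c.1 ∧ c.2 ⊆ K.2 := by
    rcases hN.chain hKN h.priv.1 hav haK hac hvK hcv with h1 | h1
    · exact h1
    · exact absurd h1.1 (h.notabove hN hKI haK hac hav hvK)
  refine ⟨hKN, h.priv.1, Finset.ssubset_iff_subset_ne.2 ⟨h1.1, hn1⟩,
    Finset.ssubset_iff_subset_ne.2 ⟨h1.2, hn2⟩, ⟨a, haK, v, hcv, hav⟩, ?_⟩
  intro M hM h2 h3 h4 h5
  by_cases hMc : M = c
  · exact Or.inr hMc
  · left
    have haM : a ∈ M.1 := h2 haK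
    have hvM : v ∈ M.2 := h4 hcv
    have hn3 : M.1 ≠ c.1 := fun h' => hMc (hN.strict hM h.priv.1 h' hav haM hvM hcv)
    have hcard : M.1.card < c.1.card :=
      Finset.card_lt_card (Finset.ssubset_iff_subset_ne.2 ⟨h3, hn3⟩)
    have hIM : I M := by
      by_cases hD : ∃ y ∈ M.2, y ∈ D
      · exact h.base ⟨hM, ⟨a, haM, ha⟩, hD⟩
      · refine h.small ⟨hM, hvM, ?_, Or.inr ⟨a, haM, ha⟩⟩ hcard
        intro y hy hy'
        exact hD ⟨y, hy, hy'⟩
    have h6 := hmax M hIM haM hvM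
    exact hN.strict hM hKN (Finset.Subset.antisymm h6 h2) hav haM hvM hvK

/-- PROOF: c.1 ⊂ K.1, K.2 ⊂ c.2: K.2 does not meet D: not St. Priv K: card larger: `large`. Priv K.swap: v ∈ K.1, K.1 does not
meet D, so c.1 does not meet D, c = inn v (Priv c), c.2 = {v}, K.2 ⊂ {v} is empty: but K.2 is nonempty (link witness). -/
theorem Next.noup {v : V} {I : Nd V → Prop} {c : Nd V} (hN : Nds G N) (h : Next G N D v I c) {K : Nd V} (hK : I K) :
    ¬ Lk N c K := by
  rintro ⟨_, _, h1, h2, ⟨a, ha, b, hb, hab⟩, _⟩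
  rcases h.only hK with h3 | h3 | h3
  · obtain ⟨y, hy, hy'⟩ := h3.2.2
    exact h.priv.2.2.1 y (h2.1 hy) hy'
  · exact h.large h3 hK (Finset.card_lt_card h1)
  · rcases h.priv.2.2.2 with h4 | ⟨x, hx, hx'⟩
    · have h5 : c.2 = {v} := by rw [h4]; rfl
      rw [h5] at h2
      have hb' := h2.1 hb
      rw [Finset.mem_singleton] at hb'
      rw [hb'] at hb
      refine h2.2 ?_
      intro y hy
      rw [Finset.mem_singleton] at hy
      rw [hy]
      exact hb
    · exact h3.2.2.1 x (h1.1 hx) hx' 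

/-- existence of the last node in `I` on the path from a ∈ D to v. PROOF: as top_exists: out a is in I; maximal card. -/
theorem tp_exists (hN : Nds G N) {v : V} {I : Nd V → Prop} (base : ∀ {K}, St N D K → I K) (nod : ∀ {K}, I K → N K)
    {a : V} (ha : a ∈ D) (hv : v ∉ D) (hav : G.Adj a v) : ∃ K, Tp I a v K := by
  classical
  have h0 : I (out G a) :=
    base ⟨hN.out a, ⟨a, Finset.mem_singleton_self a, ha⟩, ⟨a, mem_nb.2 (Or.inl rfl), ha⟩⟩
  have hne : (Finset.univ.filter (fun K : Nd V => I K ∧ a ∈ K.1 ∧ v ∈ K.2)).Nonempty :=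
    ⟨out G a, Finset.mem_filter.2 ⟨Finset.mem_univ _, h0, Finset.mem_singleton_self a,
      mem_nb.2 (Or.inr hav)⟩⟩
  obtain ⟨K, hK, hmax⟩ := Finset.exists_max_image _ (fun K : Nd V => K.1.card) hne
  obtain ⟨_, hKI, haK, hvK⟩ := Finset.mem_filter.1 hK
  refine ⟨K, hKI, haK, hvK, ?_⟩
  intro K' hK' ha' hv'
  have hane : a ≠ v := fun h => hv (h ▸ ha)
  rcases hN.chain (nod hKI) (nod hK') hane haK ha' hvK hv' with h1 | h1
  · have h2 := hmax K' (Finset.mem_filter.2 ⟨Finset.mem_univ _, hK', ha', hv'⟩)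
    rw [Finset.eq_of_subset_of_card_le h1.1 h2]
  · exact h1.1

theorem tp_unique (hN : Nds G N) {v : V} {I : Nd V → Prop} (nod : ∀ {K}, I K → N K) {a : V} (hav : a ≠ v)
    {K K' : Nd V} (h : Tp I a v K) (h' : Tp I a v K') : K = K' := by
  obtain ⟨h1, h2, h3, h4⟩ := h
  obtain ⟨h1', h2', h3', h4'⟩ := h'
  exact hN.strict (nod h1) (nod h1')
    (Finset.Subset.antisymm (h4' K h1 h2 h3) (h4 K' h1' h2' h3')) hav h2 h3 h3' 

/-- the left side of a new node is an interval among the neighbours of v. PROOF: hN.int1 for c.swap with x = v ∈ c.2,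
y = a, y' = b ∈ c.1, z: a < z < b < v. -/
theorem priv_int (hN : Nds G N) {v : V} (hD : Low D) (hv : v ∉ D) {c : Nd V} (hc : N c) (hvc : v ∈ c.2) {a b z : V}
    (ha : a ∈ c.1) (hb : b ∈ c.1) (hb' : b ∈ D) (hz : G.Adj v z) (h1 : a < z) (h2 : z < b) : z ∈ c.1 := by
  have h3 : N c.swap := hN.swap hc
  have h4 : b < v := hD b hb' v hv
  exact hN.int1 h3 (x := v) (y := a) (y' := b) hvc ha hb hz h1 h2 (Or.inr h4)

end Pool.Agent.SOD
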