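import Pool.Agent.SOD.Defs

/-! Project SOD, module Cone (size 2): above a visible point there is a free cone. -/

set_option autoImplicit false

open Set

namespace Pool.Agent.SOD

private theorem Cone_coords {A B z : ℂ} {t : ℝ} (h : z = A + t * (B - A)) :
    z.re = A.re + t * (B.re - A.re) ∧ z.im = A.im + t * (B.im - A.im) := by
  subst h
  constructor <;> simp

private theorem Cone_far (A B d : ℂ) {δ : ℝ} (hδ : 0 < δ) (h : ∀ z, OnSeg A B z → δ ≤ |z.re - d.re|) :
    ∃ κ : ℝ, 0 ≤ κ ∧ ∀ z, OnSeg A B z → z.im - d.im ≤ κ * |z.re - d.re| := by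
  refine ⟨|max A.im B.im - d.im| / δ, by positivity, ?_⟩
  intro z hz
  have h1 := h z hz
  obtain ⟨t, ht0, ht1, e⟩ := hz
  obtain ⟨_, e2⟩ := Cone_coords e
  have h2 : z.im ≤ max A.im B.im := by
    have hA : A.im ≤ max A.im B.im := le_max_left _ _
    have hB : B.im ≤ max A.im B.im := le_max_right _ _
    have e3 : z.im = (1 - t) * A.im + t * B.im := by rw [e2]; ring
    have h4 := mul_le_mul_of_nonneg_left hA (sub_nonneg.2 ht1)
    have h5 := mul_le_mul_of_nonneg_left hB ht0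
    rw [e3]
    nlinarith
  have h3 : |max A.im B.im - d.im| / δ * δ ≤ |max A.im B.im - d.im| / δ * |z.re - d.re| :=
    mul_le_mul_of_nonneg_left h1 (by positivity)
  rw [div_mul_cancel₀ _ hδ.ne'] at h3
  have h4 := le_abs_self (max A.im B.im - d.im)
  linarith

private theorem Cone_unif {α : Type*} {S : Set α} (hS : S.Finite) (p : α → ℝ → Prop)
    (hp : ∀ s κ κ', κ ≤ κ' → p s κ → p s κ') (h : ∀ s ∈ S, ∃ κ, 0 ≤ κ ∧ p s κ) :
    ∃ κ : ℝ, 0 ≤ κ ∧ ∀ s ∈ S, p s κ := by
  induction S, hS using Set.Finite.induction_on with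
  | empty => exact ⟨0, le_rfl, fun s hs => absurd hs (Set.notMem_empty s)⟩
  | @insert a T _ _ ih =>
    obtain ⟨κ, hκ, h1⟩ := ih (fun s hs => h s (Set.mem_insert_of_mem a hs))
    obtain ⟨κ', hκ', h2⟩ := h a (Set.mem_insert a T)
    refine ⟨max κ κ', le_max_of_le_left hκ, ?_⟩
    intro s hs
    rcases hs with e | hs
    · rw [e]
      exact hp a κ' _ (le_max_right _ _) h2
    · exact hp s κ _ (le_max_left _ _) (h1 s hs)

/-- one segment. PROOF: let w = B - A; z = A + t w, t ∈ [0,1].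
(1) A.re = B.re: z.re = A.re. If A.re = d.re then z.im ≤ d.im by `h`: any κ works (κ = 0). If A.re ≠ d.re, |z.re - d.re| =
|A.re - d.re| =: δ > 0 and z.im ≤ max A.im B.im: κ = |max A.im B.im - d.im| / δ.
(2) A.re ≠ B.re. If d.re is between A.re and B.re (weakly): let t₀ ∈ [0,1] with A.re + t₀ w.re = d.re; the point z₀ of
parameter t₀ has z₀.im ≤ d.im; z.im - d.im ≤ z.im - z₀.im = (t - t₀) w.im = (w.im / w.re) (z.re - d.re) ≤ |w.im / w.re| |z.re - d.re|.
Otherwise |z.re - d.re| ≥ δ := min |A.re - d.re| |B.re - d.re| > 0 and κ = |max A.im B.im - d.im| / δ. -/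
theorem cone_seg (A B d : ℂ) (h : ∀ z, OnSeg A B z → z.re = d.re → z.im ≤ d.im) :
    ∃ κ : ℝ, 0 ≤ κ ∧ ∀ z, OnSeg A B z → z.im - d.im ≤ κ * |z.re - d.re| := by
  by_cases hAB : A.re = B.re
  · by_cases hAd : A.re = d.re
    · refine ⟨0, le_rfl, ?_⟩
      intro z hz
      have h1 : z.re = d.re := by
        obtain ⟨t, ht0, ht1, e⟩ := hz
        rw [(Cone_coords e).1, hAB, hAB.symm, hAd]
        ring
      have h2 := h z hz h1
      linarith
    · refine Cone_far A B d (abs_pos.2 (sub_ne_zero.2 hAd)) ?_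
      rintro z ⟨t, ht0, ht1, e⟩
      have h1 : z.re = A.re := by
        rw [(Cone_coords e).1, hAB]
        ring
      rw [h1]
  · have hw : B.re - A.re ≠ 0 := sub_ne_zero.2 (Ne.symm hAB)
    have hwp : 0 < |B.re - A.re| := abs_pos.2 hw
    obtain ⟨t₀, ht₀⟩ : ∃ t₀ : ℝ, d.re = A.re + t₀ * (B.re - A.re) :=
      ⟨(d.re - A.re) / (B.re - A.re), by field_simp; ring⟩
    have key : ∀ z (t : ℝ), z = A + t * (B - A) → |z.re - d.re| = |t - t₀| * |B.re - A.re| := by
      intro z t e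
      rw [(Cone_coords e).1, ht₀, ← abs_mul]
      congr 1
      ring
    rcases lt_or_ge t₀ 0 with h0 | h0
    · refine Cone_far A B d (δ := (-t₀) * |B.re - A.re|) (mul_pos (by linarith) hwp) ?_
      rintro z ⟨t, ht0, ht1, e⟩
      rw [key z t e]
      refine mul_le_mul_of_nonneg_right ?_ hwp.le
      exact le_trans (by linarith) (le_abs_self _)
    · rcases lt_or_ge 1 t₀ with h1 | h1
      · refine Cone_far A B d (δ := (t₀ - 1) * |B.re - A.re|) (mul_pos (by linarith) hwp) ?_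
        rintro z ⟨t, ht0, ht1, e⟩
        rw [key z t e]
        refine mul_le_mul_of_nonneg_right ?_ hwp.le
        rw [abs_sub_comm]
        exact le_trans (by linarith) (le_abs_self _)
      · have hz0 : (A + t₀ * (B - A)).im ≤ d.im := by
          refine h _ ⟨t₀, h0, h1, rfl⟩ ?_
          rw [(Cone_coords (rfl : A + t₀ * (B - A) = A + t₀ * (B - A))).1, ← ht₀]
        rw [(Cone_coords (rfl : A + t₀ * (B - A) = A + t₀ * (B - A))).2] at hz0
        refine ⟨|B.im - A.im| / |B.re - A.re|, by positivity, ?_⟩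
        rintro z ⟨t, ht0, ht1, e⟩
        rw [key z t e, (Cone_coords e).2]
        have e3 : |B.im - A.im| / |B.re - A.re| * (|t - t₀| * |B.re - A.re|) = |(t - t₀) * (B.im - A.im)| := by
          rw [abs_mul]
          field_simp
        rw [e3]
        have h4 := le_abs_self ((t - t₀) * (B.im - A.im))
        nlinarith

/-- PROOF: cone_seg for every segment (S finite), and for every z ∈ P (finite): if z.re = d.re then z.im ≤ d.im, otherwise
κ = |z.im - d.im| / |z.re - d.re|; take the maximum (or the sum) over the finite sets P and S. -/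
theorem cone {P : Set ℂ} {S : Set (ℂ × ℂ)} (hP : P.Finite) (hS : S.Finite) {d : ℂ} (h : VisP P S d) :
    ∃ κ : ℝ, 0 ≤ κ ∧ (∀ z ∈ P, z.im - d.im ≤ κ * |z.re - d.re|) ∧
      ∀ s ∈ S, ∀ z, OnSeg s.1 s.2 z → z.im - d.im ≤ κ * |z.re - d.re| := by
  obtain ⟨κ₁, hκ₁, h1⟩ := Cone_unif hP (fun z κ => z.im - d.im ≤ κ * |z.re - d.re|)
    (fun s κ κ' hle hp => hp.trans (mul_le_mul_of_nonneg_right hle (abs_nonneg _)))
    (by
      intro z hz
      by_cases e : z.re = d.re
      · exact ⟨0, le_rfl, by have := h.1 z hz e; simp only [zero_mul]; linarith⟩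
      · have hp : 0 < |z.re - d.re| := abs_pos.2 (sub_ne_zero.2 e)
        refine ⟨|z.im - d.im| / |z.re - d.re|, by positivity, ?_⟩
        show z.im - d.im ≤ |z.im - d.im| / |z.re - d.re| * |z.re - d.re|
        rw [div_mul_cancel₀ _ hp.ne']
        exact le_abs_self _)
  obtain ⟨κ₂, hκ₂, h2⟩ := Cone_unif hS (fun s κ => ∀ z, OnSeg s.1 s.2 z → z.im - d.im ≤ κ * |z.re - d.re|)
    (fun s κ κ' hle hp z hz => (hp z hz).trans (mul_le_mul_of_nonneg_right hle (abs_nonneg _)))
    (fun s hs => cone_seg s.1 s.2 d (fun z hz e => h.2 s hs z hz e))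
  refine ⟨max κ₁ κ₂, le_max_of_le_left hκ₁, ?_, ?_⟩
  · intro z hz
    exact (h1 z hz).trans (mul_le_mul_of_nonneg_right (le_max_left _ _) (abs_nonneg _))
  · intro s hs z hz
    exact (h2 s hs z hz).trans (mul_le_mul_of_nonneg_right (le_max_right _ _) (abs_nonneg _))

end Pool.Agent.SOD
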