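import Pool.Agent.SOD.Defs

/-! Project SOD, module CorNds (size 2): cores and vertices together form a system of oriented nodes. -/

set_option autoImplicit false

open Set

namespace Pool.Agent.SOD

variable {V : Type} [LinearOrder V] [Fintype V] {G : SimpleGraph V}

theorem cornds_mem_nb {v w : V} : w ∈ nb G v ↔ w = v ∨ G.Adj v w := by
  classical
  unfold nb
  simp

theorem cornds_adj {C : Nd V → Prop} (hC : Cor G C) {K : Nd V} (hK : Nod G C K) {x y : V} (hx : x ∈ K.1) (hy : y ∈ K.2)
    (hxy : x ≠ y) : G.Adj x y := by
  rcases hK with hK | ⟨v, rfl | rfl⟩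
  · exact hC.adj hK hx hy
  · have e : x = v := Finset.mem_singleton.1 hx
    subst e
    rcases cornds_mem_nb.1 hy with h | h
    · exact absurd h.symm hxy
    · exact h
  · have e : y = v := Finset.mem_singleton.1 hy
    subst e
    rcases cornds_mem_nb.1 hx with h | h
    · exact absurd h hxy
    · exact h.symm

theorem cornds_sub_out {C : Nd V → Prop} (hC : Cor G C) {K : Nd V} (hK : Nod G C K) {a : V} (ha : a ∈ K.1) :
    K.2 ⊆ nb G a := by
  intro y hy
  rw [cornds_mem_nb]
  by_cases h : y = a
  · exact Or.inl h
  · exact Or.inr (cornds_adj hC hK ha hy (fun h' => h h'.symm))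

theorem cornds_sub_inn {C : Nd V → Prop} (hC : Cor G C) {K : Nd V} (hK : Nod G C K) {b : V} (hb : b ∈ K.2) :
    K.1 ⊆ nb G b := by
  intro x hx
  rw [cornds_mem_nb]
  by_cases h : x = b
  · exact Or.inl h
  · exact Or.inr (cornds_adj hC hK hx hb h).symm

theorem cornds_self (v : V) : v ∈ nb G v := cornds_mem_nb.2 (Or.inl rfl)

/-- PROOF: case distinctions. chain for out a and K' containing (a; b): {a} ⊆ K'.1 and K'.2 ⊆ nb a, as all elements of K'.2 are
adjacent to a or equal to a (K' = core, out a, inn b); K' = inn w contains (a; b) only for w = b, and then a ~ b as a ≠ b. strict: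
K.1 = K'.1: if both are cores hC.strict; a core has a nontrivial left side and no element in common with its right side (adj),
out w has the left side {w}, inn w has w on both sides: compare. noninter, int1, int2 for out w, inn w: one of the sides is
a singleton {w}: noninter would need two different elements; int1, int2 for out w: x = w and z ~ w gives z ∈ nb w; for inn w:
y = y' = w, contradiction. cross: hC.cross. both: a core has disjoint sides. -/
theorem nds_of_cor {C : Nd V → Prop} (hC : Cor G C) : Nds G (Nod G C) := by
  refine ⟨?_, ?_, ?_, ?_, ?_, ?_, ?_, ?_, ?_, ?_, ?_⟩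
  · intro K hK
    rcases hK with hK | ⟨v, rfl | rfl⟩
    · exact Or.inl (hC.swap hK)
    · exact Or.inr ⟨v, Or.inr rfl⟩
    · exact Or.inr ⟨v, Or.inl rfl⟩
  · intro K hK x y hx hy hxy
    exact cornds_adj hC hK hx hy hxy
  · intro K hK
    rcases hK with hK | ⟨v, rfl | rfl⟩
    · exact (hC.nt hK).nonempty
    · exact ⟨v, Finset.mem_singleton_self v⟩
    · exact ⟨v, cornds_self v⟩
  · intro K K' hK hK' a b hab ha ha' hb hb'
    rcases id hK with hc | ⟨v, rfl | rfl⟩
    · rcases id hK' with hc' | ⟨v, rfl | rfl⟩
      · exact hC.chain hc hc' ha ha' hb hb'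
      · have e : a = v := Finset.mem_singleton.1 ha'
        subst e
        exact Or.inr ⟨Finset.singleton_subset_iff.2 ha, cornds_sub_out hC hK ha⟩
      · have e : b = v := Finset.mem_singleton.1 hb'
        subst e
        exact Or.inl ⟨cornds_sub_inn hC hK hb, Finset.singleton_subset_iff.2 hb⟩
    · have e : a = v := Finset.mem_singleton.1 ha
      subst e
      exact Or.inl ⟨Finset.singleton_subset_iff.2 ha', cornds_sub_out hC hK' ha'⟩
    · have e : b = v := Finset.mem_singleton.1 hb
      subst e
      exact Or.inr ⟨cornds_sub_inn hC hK' hb', Finset.singleton_subset_iff.2 hb'⟩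
  · intro K K' hK hK' he a b hab ha hb hb'
    rcases hK with hc | ⟨v, rfl | rfl⟩
    · rcases hK' with hc' | ⟨v, rfl | rfl⟩
      · exact hC.strict hc hc' he hb hb'
      · exfalso
        obtain ⟨x, hx, y, hy, hxy⟩ := hC.nt hc
        have hx' : x ∈ (SOD.out G v).1 := by
          rw [← he]
          exact hx
        have hy' : y ∈ (SOD.out G v).1 := by
          rw [← he]
          exact hy
        exact hxy ((Finset.mem_singleton.1 hx').trans (Finset.mem_singleton.1 hy').symm)
      · exfalso
        have e : b = v := Finset.mem_singleton.1 hb'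
        subst e
        have h1 : b ∈ K.1 := by
          rw [he]
          exact cornds_self b
        exact (hC.adj hc h1 hb).ne rfl
    · have e : a = v := Finset.mem_singleton.1 ha
      subst e
      rcases hK' with hc' | ⟨w, rfl | rfl⟩
      · exfalso
        obtain ⟨x, hx, y, hy, hxy⟩ := hC.nt hc'
        rw [← he] at hx hy
        exact hxy ((Finset.mem_singleton.1 hx).trans (Finset.mem_singleton.1 hy).symm)
      · have h1 : a ∈ (SOD.out G w).1 := by
          rw [← he]
          exact Finset.mem_singleton_self a
        have e : a = w := Finset.mem_singleton.1 h1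
        subst e
        rfl
      · exfalso
        have e : b = w := Finset.mem_singleton.1 hb'
        subst e
        have h1 : b ∈ (SOD.out G a).1 := by
          rw [he]
          exact cornds_self b
        exact hab (Finset.mem_singleton.1 h1).symm
    · have e : b = v := Finset.mem_singleton.1 hb
      subst e
      rcases hK' with hc' | ⟨w, rfl | rfl⟩
      · exfalso
        have h1 : b ∈ K'.1 := by
          rw [← he]
          exact cornds_self b
        exact (hC.adj hc' h1 hb').ne rfl
      · exfalso
        have h1 : b ∈ (SOD.out G w).1 := by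
          rw [← he]
          exact cornds_self b
        have h2 : a ∈ (SOD.out G w).1 := by
          rw [← he]
          exact ha
        exact hab ((Finset.mem_singleton.1 h2).trans (Finset.mem_singleton.1 h1).symm)
      · have e : b = w := Finset.mem_singleton.1 hb'
        subst e
        rfl
  · intro K hK x x' y y' hx hx' hy hy' h1 h2 h3
    rcases hK with hc | ⟨v, rfl | rfl⟩
    · exact hC.noninter hc hx hx' hy hy' h1 h2 h3
    · have e : x = x' := (Finset.mem_singleton.1 hx).trans (Finset.mem_singleton.1 hx').symm
      subst e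
      exact lt_irrefl _ (h1.trans h2)
    · have e : y = y' := (Finset.mem_singleton.1 hy).trans (Finset.mem_singleton.1 hy').symm
      subst e
      exact lt_irrefl _ (h2.trans h3)
  · intro K hK x y y' z hx hy hy' hz h1 h2 h3
    rcases hK with hc | ⟨v, rfl | rfl⟩
    · exact hC.int1 hc hx hy hy' hz h1 h2 h3
    · have e : x = v := Finset.mem_singleton.1 hx
      subst e
      exact cornds_mem_nb.2 (Or.inr hz)
    · have e : y = y' := (Finset.mem_singleton.1 hy).trans (Finset.mem_singleton.1 hy').symm
      subst e
      exact absurd (h1.trans h2) (lt_irrefl _)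
  · intro K hK x y y' z hx hy hy' hz h1 h2 h3
    rcases hK with hc | ⟨v, rfl | rfl⟩
    · exact hC.int2 hc hx hy hy' hz h1 h2 h3
    · have e : x = v := Finset.mem_singleton.1 hx
      subst e
      exact cornds_mem_nb.2 (Or.inr hz)
    · have e : y = y' := (Finset.mem_singleton.1 hy).trans (Finset.mem_singleton.1 hy').symm
      subst e
      exact absurd (h1.trans h2) (lt_irrefl _)
  · intro a b c d h1 h2 h3 h4 h5
    obtain ⟨K, hK, h⟩ := hC.cross h1 h2 h3 h4 h5
    exact ⟨K, Or.inl hK, h⟩
  · intro v
    exact Or.inr ⟨v, Or.inl rfl⟩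
  · intro K hK v hv hv'
    rcases hK with hc | ⟨w, rfl | rfl⟩
    · exact absurd rfl (hC.adj hc hv hv').ne
    · have e : v = w := Finset.mem_singleton.1 hv
      subst e
      exact Or.inl rfl
    · have e : v = w := Finset.mem_singleton.1 hv'
      subst e
      exact Or.inr rfl

/-- the cores among the nodes. PROOF: C K and K = out v or inn v: v is on both sides, but hC.adj gives G.Adj v v. -/
theorem core_iff {C : Nd V → Prop} (hC : Cor G C) {K : Nd V} : C K ↔ Nod G C K ∧ ¬ IsV G K := by
  constructor
  · intro h
    refine ⟨Or.inl h, ?_⟩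
    rintro ⟨v, rfl | rfl⟩
    · exact (hC.adj h (Finset.mem_singleton_self v) (cornds_self v)).ne rfl
    · exact (hC.adj h (cornds_self v) (Finset.mem_singleton_self v)).ne rfl
  · rintro ⟨h | ⟨v, h⟩, h'⟩
    · exact h
    · exact absurd ⟨v, h⟩ h'

end Pool.Agent.SOD
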