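import Pool.Agent.SOD.Defs

/-! Project SOD, module Half (size 3): one bent end of a segment. -/

set_option autoImplicit false

open Set

namespace Pool.Agent.SOD

/-- smooth cut-off: 1 at 0, less than 1 elsewhere, 0 for |x| ≥ 1 -/
noncomputable def kf (x : ℝ) : ℝ := Real.smoothTransition (1 - x ^ 2)

theorem kf_zero : kf 0 = 1 := by
  unfold kf
  exact Real.smoothTransition.one_of_one_le (by norm_num)

theorem kf_far {x : ℝ} (h : 1 ≤ x) : kf x = 0 := by
  unfold kf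
  exact Real.smoothTransition.zero_of_nonpos (by nlinarith)

theorem kf_mem (x : ℝ) : 0 ≤ kf x ∧ kf x ≤ 1 :=
  ⟨Real.smoothTransition.nonneg _, Real.smoothTransition.le_one _⟩

/-- PROOF: Real.smoothTransition.lt_one_of_lt_one -/
theorem kf_lt {x : ℝ} (h : x ≠ 0) : kf x < 1 := by
  unfold kf
  refine Real.smoothTransition.lt_one_of_lt_one ?_
  have : 0 < x ^ 2 := by positivity
  linarith

theorem kf_contDiff : ContDiff ℝ 1 kf := by
  unfold kf
  exact Real.smoothTransition.contDiff.comp (contDiff_const.sub (contDiff_id.pow 2))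

/-- the curve from `a` with distance `ρ` from `a`, which starts in direction `τ` and has direction `θ` from distance `r` on -/
noncomputable def hf (a : ℂ) (θ τ r ρ : ℝ) : ℂ :=
  a + ρ * Complex.exp ((((1 - kf (ρ / r)) * θ + kf (ρ / r) * τ : ℝ) : ℂ) * Complex.I)

private noncomputable def Half_phi (θ τ r ρ : ℝ) : ℝ := (1 - kf (ρ / r)) * θ + kf (ρ / r) * τ

private theorem Half_phi_contDiff (θ τ r : ℝ) : ContDiff ℝ 1 (Half_phi θ τ r) := by
  unfold Half_phi
  have h : ContDiff ℝ 1 (fun ρ : ℝ => kf (ρ / r)) := kf_contDiff.comp (contDiff_id.div_const r)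
  exact ((contDiff_const.sub h).mul contDiff_const).add (h.mul contDiff_const)

private theorem Half_hf_eq (a : ℂ) (θ τ r ρ : ℝ) :
    hf a θ τ r ρ = a + ρ * Complex.exp ((Half_phi θ τ r ρ : ℂ) * Complex.I) := rfl

private theorem Half_deriv (a : ℂ) (θ τ r ρ : ℝ) :
    HasDerivAt (hf a θ τ r) (Complex.exp ((Half_phi θ τ r ρ : ℂ) * Complex.I) *
      (1 + ρ * (deriv (Half_phi θ τ r) ρ * Complex.I))) ρ := by
  have h1 : HasDerivAt (Half_phi θ τ r) (deriv (Half_phi θ τ r) ρ) ρ :=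
    (((Half_phi_contDiff θ τ r).differentiable (by norm_num)) ρ).hasDerivAt
  have h2 : HasDerivAt (fun x : ℝ => (Half_phi θ τ r x : ℂ)) ((deriv (Half_phi θ τ r) ρ : ℝ) : ℂ) ρ := h1.ofReal_comp
  have h3 := (h2.mul_const Complex.I).cexp
  have h4 : HasDerivAt (fun x : ℝ => (x : ℂ)) 1 ρ := Complex.ofRealCLM.hasDerivAt
  have h5 := (h4.mul h3).const_add a
  refine HasDerivAt.congr_deriv h5 ?_
  ring

theorem hf_contDiff (a : ℂ) (θ τ r : ℝ) : ContDiff ℝ 1 (hf a θ τ r) := by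
  have h1 : ContDiff ℝ 1 (fun x : ℝ => (x : ℂ)) := Complex.ofRealCLM.contDiff
  have h2 : ContDiff ℝ 1 (fun x : ℝ => (Half_phi θ τ r x : ℂ)) := h1.comp (Half_phi_contDiff θ τ r)
  exact contDiff_const.add (h1.mul (h2.mul contDiff_const).cexp)

theorem hf_zero (a : ℂ) (θ τ r : ℝ) : hf a θ τ r 0 = a := by
  rw [Half_hf_eq]
  simp

theorem hf_norm (a : ℂ) (θ τ r ρ : ℝ) : ‖hf a θ τ r ρ - a‖ = |ρ| := by
  rw [Half_hf_eq, add_sub_cancel_left, norm_mul, Complex.norm_exp_ofReal_mul_I, mul_one]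
  simp

theorem hf_far (a : ℂ) (θ τ : ℝ) {r ρ : ℝ} (hr : 0 < r) (h : r ≤ ρ) :
    hf a θ τ r ρ = a + ρ * Complex.exp ((θ : ℂ) * Complex.I) := by
  rw [Half_hf_eq]
  have h1 : kf (ρ / r) = 0 := kf_far (by rw [le_div_iff₀ hr]; linarith)
  have h2 : Half_phi θ τ r ρ = θ := by
    unfold Half_phi
    rw [h1]
    ring
  rw [h2]

theorem hf_straight (a : ℂ) (θ r ρ : ℝ) : hf a θ θ r ρ = a + ρ * Complex.exp ((θ : ℂ) * Complex.I) := by
  rw [Half_hf_eq]
  have h2 : Half_phi θ θ r ρ = θ := by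
    unfold Half_phi
    ring
  rw [h2]

/-- PROOF: (hf ρ - a) / ρ → e^{iτ} as kf is continuous, kf 0 = 1; or product rule: derivative at ρ is
e^{iφ(ρ)} (1 + i ρ φ'(ρ)), φ = (1-k)θ + kτ. -/
theorem hf_deriv_zero (a : ℂ) (θ τ : ℝ) {r : ℝ} (hr : 0 < r) :
    HasDerivAt (hf a θ τ r) (Complex.exp ((τ : ℂ) * Complex.I)) 0 := by
  have h := Half_deriv a θ τ r 0
  have h2 : Half_phi θ τ r 0 = τ := by
    unfold Half_phi
    rw [zero_div, kf_zero]
    ring
  rw [h2] at h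
  simpa using h

/-- PROOF: the derivative is e^{iφ(ρ)} (1 + i ρ φ'(ρ)) with φ real, so the second factor has real part 1. -/
theorem hf_deriv_ne (a : ℂ) (θ τ r ρ : ℝ) : deriv (hf a θ τ r) ρ ≠ 0 := by
  rw [(Half_deriv a θ τ r ρ).deriv]
  refine mul_ne_zero (Complex.exp_ne_zero _) ?_
  intro h
  have := congrArg Complex.re h
  simp at this

end Pool.Agent.SOD
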