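import Pool.Agent.SOD.Ang
import Pool.Agent.SOD.Half

/-! Project SOD, module Curve (size 3): a segment bent at both ends. -/

set_option autoImplicit false

open Set

namespace Pool.Agent.SOD

/-- the segment from `a` to `b`, bent near `a` to leave `a` in direction `τ`, and bent near `b` such that the reversed curve
leaves `b` in direction `τ'` -/
noncomputable def crv (a b : ℂ) (τ τ' r t : ℝ) : ℂ :=
  hf a (ang (b - a)) τ r (t * ‖b - a‖) + hf b (ang (a - b)) τ' r ((1 - t) * ‖b - a‖) - (a + t * (b - a))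

/-- PROOF: algebra, ‖a - b‖ = ‖b - a‖ -/
theorem crv_symm (a b : ℂ) (τ τ' r t : ℝ) : crv b a τ' τ r (1 - t) = crv a b τ τ' r t := by
  unfold crv
  rw [norm_sub_rev a b, sub_sub_cancel]
  push_cast
  ring

theorem crv_contDiff (a b : ℂ) (τ τ' r : ℝ) : ContDiff ℝ 1 (crv a b τ τ' r) := by
  unfold crv
  have h1 : ContDiff ℝ 1 (fun t : ℝ => hf a (ang (b - a)) τ r (t * ‖b - a‖)) :=
    (hf_contDiff a (ang (b - a)) τ r).comp (contDiff_id.mul contDiff_const)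
  have h2 : ContDiff ℝ 1 (fun t : ℝ => hf b (ang (a - b)) τ' r ((1 - t) * ‖b - a‖)) :=
    (hf_contDiff b (ang (a - b)) τ' r).comp ((contDiff_const.sub contDiff_id).mul contDiff_const)
  have h3 : ContDiff ℝ 1 (fun t : ℝ => (t : ℂ)) := Complex.ofRealCLM.contDiff
  exact (h1.add h2).sub (contDiff_const.add (h3.mul contDiff_const))

private theorem Curve_end {a b : ℂ} {r ρ : ℝ} (τ : ℝ) (hab : (b - a).im ≠ 0) (hr : 0 < r) (h : r ≤ ρ * ‖b - a‖) :
    hf a (ang (b - a)) τ r (ρ * ‖b - a‖) = a + ρ * (b - a) := by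
  rw [hf_far a _ τ hr h]
  conv_rhs => rw [ang_eq hab]
  push_cast
  ring

private theorem Curve_im {a b : ℂ} (hab : (b - a).im ≠ 0) : (a - b).im ≠ 0 := by
  intro h
  apply hab
  rw [Complex.sub_im] at h ⊢
  linarith

/-- PROOF: (1-t) ‖b-a‖ ≥ r, so by hf_far and ang_eq the second term is b + (1-t)(a-b) = a + t (b-a). -/
theorem crv_left {a b : ℂ} {r t : ℝ} (τ τ' : ℝ) (hab : (b - a).im ≠ 0) (hr : 0 < r) (h2 : 2 * r ≤ ‖b - a‖)
    (ht : t ≤ 1 / 2) : crv a b τ τ' r t = hf a (ang (b - a)) τ r (t * ‖b - a‖) := by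
  have h3 : r ≤ (1 - t) * ‖a - b‖ := by
    rw [norm_sub_rev a b]
    have h4 := norm_nonneg (b - a)
    nlinarith
  have h5 := Curve_end (a := b) (b := a) τ' (Curve_im hab) hr h3
  unfold crv
  rw [norm_sub_rev a b] at h5
  rw [h5]
  push_cast
  ring

/-- PROOF: crv_left and crv_symm -/
theorem crv_right {a b : ℂ} {r t : ℝ} (τ τ' : ℝ) (hab : (b - a).im ≠ 0) (hr : 0 < r) (h2 : 2 * r ≤ ‖b - a‖)
    (ht : 1 / 2 ≤ t) : crv a b τ τ' r t = hf b (ang (a - b)) τ' r ((1 - t) * ‖b - a‖) := by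
  rw [← crv_symm, crv_left τ' τ (Curve_im hab) hr (by rw [norm_sub_rev]; exact h2) (by linarith), norm_sub_rev a b]

theorem crv_mid {a b : ℂ} {r t : ℝ} (τ τ' : ℝ) (hab : (b - a).im ≠ 0) (hr : 0 < r)
    (h1 : r ≤ t * ‖b - a‖) (h3 : r ≤ (1 - t) * ‖b - a‖) : crv a b τ τ' r t = a + t * (b - a) := by
  have h5 := Curve_end (a := b) (b := a) τ' (Curve_im hab) hr (ρ := 1 - t) (by rw [norm_sub_rev]; exact h3)
  unfold crv
  rw [norm_sub_rev a b] at h5
  rw [h5, Curve_end τ hab hr h1]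
  push_cast
  ring

/-- not bent at `a`. PROOF: hf_straight, ang_eq and crv_left -/
theorem crv_straight {a b : ℂ} {r t : ℝ} (τ' : ℝ) (hab : (b - a).im ≠ 0) (hr : 0 < r) (h2 : 2 * r ≤ ‖b - a‖)
    (ht : t ≤ 1 / 2) : crv a b (ang (b - a)) τ' r t = a + t * (b - a) := by
  rw [crv_left _ τ' hab hr h2 ht, hf_straight]
  conv_rhs => rw [ang_eq hab]
  push_cast
  ring

theorem crv_zero {a b : ℂ} {r : ℝ} (τ τ' : ℝ) (hab : (b - a).im ≠ 0) (hr : 0 < r) (h2 : 2 * r ≤ ‖b - a‖) :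
    crv a b τ τ' r 0 = a := by
  rw [crv_left τ τ' hab hr h2 (by norm_num), zero_mul, hf_zero]

theorem crv_one {a b : ℂ} {r : ℝ} (τ τ' : ℝ) (hab : (b - a).im ≠ 0) (hr : 0 < r) (h2 : 2 * r ≤ ‖b - a‖) :
    crv a b τ τ' r 1 = b := by
  rw [crv_right τ τ' hab hr h2 (by norm_num), sub_self, zero_mul, hf_zero]

private theorem Curve_chain (a b : ℂ) (θ τ r t : ℝ) {d : ℂ} (h : HasDerivAt (hf a θ τ r) d (t * ‖b - a‖)) :
    HasDerivAt (fun s : ℝ => hf a θ τ r (s * ‖b - a‖)) (‖b - a‖ * d) t := by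
  have h1 : HasDerivAt (fun s : ℝ => s * ‖b - a‖) ‖b - a‖ t := by
    simpa using (hasDerivAt_id t).mul_const ‖b - a‖
  have h2 := HasDerivAt.scomp (h := fun s : ℝ => s * ‖b - a‖) (g₁ := hf a θ τ r) t h h1
  have h3 : ‖b - a‖ • d = (‖b - a‖ : ℂ) * d := Complex.real_smul
  rw [← h3]
  exact h2

/-- PROOF: near t = 0 the curve is hf a .. (t ‖b-a‖) (crv_left); hf_deriv_zero and the chain rule. -/
theorem crv_deriv0 {a b : ℂ} {r : ℝ} (τ τ' : ℝ) (hab : (b - a).im ≠ 0) (hr : 0 < r) (h2 : 2 * r ≤ ‖b - a‖) :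
    HasDerivAt (crv a b τ τ' r) (‖b - a‖ * Complex.exp ((τ : ℂ) * Complex.I)) 0 := by
  have h1 : HasDerivAt (hf a (ang (b - a)) τ r) (Complex.exp ((τ : ℂ) * Complex.I)) (0 * ‖b - a‖) := by
    rw [zero_mul]
    exact hf_deriv_zero a _ τ hr
  refine (Curve_chain a b _ τ r 0 h1).congr_of_eventuallyEq ?_
  filter_upwards [Iio_mem_nhds (show (0 : ℝ) < 1 / 2 by norm_num)] with t ht
  exact crv_left τ τ' hab hr h2 (le_of_lt ht)

private theorem Curve_rev (a b : ℂ) (τ τ' r t : ℝ) {d : ℂ} (h : HasDerivAt (crv b a τ' τ r) d (1 - t)) :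
    HasDerivAt (crv a b τ τ' r) (-d) t := by
  have h1 : HasDerivAt (fun s : ℝ => 1 - s) (-1) t := (hasDerivAt_id t).const_sub 1
  have h2 := HasDerivAt.scomp (h := fun s : ℝ => 1 - s) (g₁ := crv b a τ' τ r) t h h1
  rw [neg_one_smul] at h2
  refine h2.congr_of_eventuallyEq (Filter.Eventually.of_forall fun s => ?_)
  exact (crv_symm a b τ τ' r s).symm

theorem crv_deriv1 {a b : ℂ} {r : ℝ} (τ τ' : ℝ) (hab : (b - a).im ≠ 0) (hr : 0 < r) (h2 : 2 * r ≤ ‖b - a‖) :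
    HasDerivAt (crv a b τ τ' r) (-(‖b - a‖ * Complex.exp ((τ' : ℂ) * Complex.I))) 1 := by
  have h1 := crv_deriv0 τ' τ (Curve_im hab) hr (by rw [norm_sub_rev]; exact h2)
  rw [norm_sub_rev a b] at h1
  refine Curve_rev a b τ τ' r 1 ?_
  rw [sub_self]
  exact h1

private theorem Curve_ne_left {a b : ℂ} {r t : ℝ} (τ τ' : ℝ) (hab : (b - a).im ≠ 0) (hr : 0 < r) (h2 : 2 * r ≤ ‖b - a‖)
    (ht : t ≤ 1 / 2) {d : ℂ} (hd : HasDerivAt (crv a b τ τ' r) d t) : d ≠ 0 := by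
  have h1 : HasDerivAt (hf a (ang (b - a)) τ r) (deriv (hf a (ang (b - a)) τ r) (t * ‖b - a‖)) (t * ‖b - a‖) :=
    (((hf_contDiff a (ang (b - a)) τ r).differentiable (by norm_num)) _).hasDerivAt
  have h3 := (Curve_chain a b _ τ r t h1).hasDerivWithinAt (s := Iic (1 / 2 : ℝ))
  have h4 : HasDerivWithinAt (crv a b τ τ' r) (‖b - a‖ * deriv (hf a (ang (b - a)) τ r) (t * ‖b - a‖)) (Iic (1 / 2 : ℝ)) t := by
    refine h3.congr (fun s hs => ?_) ?_
    · exact crv_left τ τ' hab hr h2 hs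
    · exact crv_left τ τ' hab hr h2 ht
  have h5 : UniqueDiffWithinAt ℝ (Iic (1 / 2 : ℝ)) t := uniqueDiffOn_Iic (1 / 2 : ℝ) t ht
  have h6 := h5.eq_deriv _ hd.hasDerivWithinAt h4
  rw [h6]
  refine mul_ne_zero ?_ (hf_deriv_ne _ _ _ _ _)
  have h7 : ‖b - a‖ ≠ 0 := by
    have : 0 < ‖b - a‖ := by linarith
    exact this.ne'
  exact_mod_cast h7

/-- PROOF: for t < 1/2 the curve is locally hf a .. (t ‖b-a‖), for t > 1/2 locally hf b .. ((1-t)‖b-a‖): hf_deriv_ne and the chain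
rule. Near t = 1/2 the curve is also a + t (b-a) if 2r < ‖b-a‖; in general (h2 with equality) use: the curve is C^1, and on
(-∞, 1/2] it is hf a .. (t ‖b-a‖): the derivative at 1/2 is the left derivative, = ‖b-a‖ deriv (hf a ..) (‖b-a‖/2) ≠ 0. -/
theorem crv_deriv_ne {a b : ℂ} {r t : ℝ} (τ τ' : ℝ) (hab : (b - a).im ≠ 0) (hr : 0 < r) (h2 : 2 * r ≤ ‖b - a‖) :
    deriv (crv a b τ τ' r) t ≠ 0 := by
  rcases le_total t (1 / 2) with ht | ht
  · exact Curve_ne_left τ τ' hab hr h2 ht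
      ((((crv_contDiff a b τ τ' r).differentiable (by norm_num)) _).hasDerivAt)
  · have h1 : HasDerivAt (crv b a τ' τ r) (deriv (crv b a τ' τ r) (1 - t)) (1 - t) :=
      (((crv_contDiff b a τ' τ r).differentiable (by norm_num)) _).hasDerivAt
    have h3 := Curve_ne_left τ' τ (Curve_im hab) hr (by rw [norm_sub_rev]; exact h2) (by linarith) h1
    rw [(Curve_rev a b τ τ' r t h1).deriv]
    exact neg_ne_zero.2 h3

end Pool.Agent.SOD
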