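import Pool.Agent.SOD.Defs

/-! Project SOD, module TopBasic (size 2): existence, uniqueness and transfer of the last node of stage `D` on a path;
small facts about nodes. -/

set_option autoImplicit false

open Set

namespace Pool.Agent.SOD

variable {V : Type} [LinearOrder V] [Fintype V] {G : SimpleGraph V} {N : Nd V → Prop} {D : Finset V}

theorem mem_nb {v w : V} : w ∈ nb G v ↔ w = v ∨ G.Adj v w := by
  simp [nb]

theorem out_swap (v : V) : (out G v).swap = inn G v := rfl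

theorem inn_swap (v : V) : (inn G v).swap = out G v := rfl

/-- a node with elements `a ≠ v` on the left and `b ≠ v` on the right does not have `v` on both sides.
PROOF: `hN.both`: K = out v has K.1 = {v}, K = inn v has K.2 = {v}. -/
theorem not_both (hN : Nds G N) {K : Nd V} (hK : N K) {v a b : V} (ha : a ∈ K.1) (hav : a ≠ v) (hb : b ∈ K.2)
    (hbv : b ≠ v) : ¬ (v ∈ K.1 ∧ v ∈ K.2) := by
  rintro ⟨h1, h2⟩
  rcases hN.both hK h1 h2 with h | h
  · rw [h] at ha
    exact hav (by simpa [out] using ha)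
  · rw [h] at hb
    exact hbv (by simpa [inn] using hb)

/-- PROOF: the set of all K with N K, a ∈ K.1, m ∈ K.2, (∃ y ∈ K.2, y ∈ D) contains out a (y = a) and is finite (Nd V
is a finite type); take one with K.1.card maximal; K' in the set is comparable with K by hN.chain (a ≠ m), and
K.1 ⊆ K'.1 gives K.1 = K'.1 by the cardinality. -/
theorem top_exists (hN : Nds G N) {a m : V} (ha : a ∈ D) (hm : m ∉ D) (ham : G.Adj a m) :
    ∃ K, Top N D a m K := by
  classical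
  have ham' : a ≠ m := ham.ne
  let S : Finset (Nd V) := Finset.univ.filter
    (fun K => N K ∧ a ∈ K.1 ∧ m ∈ K.2 ∧ ∃ y ∈ K.2, y ∈ D)
  have hS : S.Nonempty := by
    refine ⟨out G a, ?_⟩
    simp only [S, Finset.mem_filter, Finset.mem_univ, true_and]
    refine ⟨hN.out a, by simp [out], ?_, a, ?_, ha⟩
    · exact mem_nb.2 (Or.inr ham)
    · exact mem_nb.2 (Or.inl rfl)
  obtain ⟨K, hK, hmax⟩ := Finset.exists_max_image S (fun K => K.1.card) hS
  simp only [S, Finset.mem_filter, Finset.mem_univ, true_and] at hK hmax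
  refine ⟨K, hK.1, hK.2.1, hK.2.2.1, hK.2.2.2, ?_⟩
  intro K' hK' ha' hm' hy'
  rcases hN.chain hK.1 hK' ham' hK.2.1 ha' hK.2.2.1 hm' with h | h
  · have := Finset.eq_of_subset_of_card_le h.1 (hmax K' ⟨hK', ha', hm', hy'⟩)
    exact this.symm.subset
  · exact h.1

/-- PROOF: K.1 ⊆ K'.1 ⊆ K.1, then hN.strict with a ≠ m. -/
theorem top_unique (hN : Nds G N) {a m : V} (ham : a ≠ m) {K K' : Nd V} (h : Top N D a m K) (h' : Top N D a m K') :
    K = K' := by
  obtain ⟨h1, h2, h3, h4, h5⟩ := h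
  obtain ⟨g1, g2, g3, g4, g5⟩ := h'
  have e : K.1 = K'.1 := Finset.Subset.antisymm (g5 K h1 h2 h3 h4) (h5 K' g1 g2 g3 g4)
  exact hN.strict h1 g1 e ham h2 h3 g3

/-- PROOF: let K' contain (a'; m) with K'.2 meeting D. hN.chain for K, K' and (a', m): either K'.1 ⊆ K.1, done, or
K.1 ⊆ K'.1, then a ∈ K'.1 and `h` gives K'.1 ⊆ K.1. -/
theorem top_transfer (hN : Nds G N) {a a' m : V} {K : Nd V} (h : Top N D a m K) (ha' : a' ∈ K.1) (hne : a' ≠ m) :
    Top N D a' m K := by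
  obtain ⟨h1, h2, h3, h4, h5⟩ := h
  refine ⟨h1, ha', h3, h4, ?_⟩
  intro K' hK' ha'' hm' hy'
  rcases hN.chain h1 hK' hne ha' ha'' h3 hm' with h | h
  · exact h5 K' hK' (h.1 h2) hm' hy'
  · exact h.1

theorem top_st {a m : V} {K : Nd V} (h : Top N D a m K) (ha : a ∈ D) : St N D K :=
  ⟨h.1, ⟨a, h.2.1, ha⟩, h.2.2.2.1⟩

/-- existence of the smallest neighbour -/
theorem minNb_exists {v a : V} (ha : a ∈ D) (hav : G.Adj v a) : ∃ a₁, MinNb G D v a₁ ∧ a₁ ≤ a := by
  classical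
  have hS : (D.filter (fun b => G.Adj v b)).Nonempty := ⟨a, Finset.mem_filter.2 ⟨ha, hav⟩⟩
  obtain ⟨b, hb, hmin⟩ := Finset.exists_min_image _ id hS
  refine ⟨b, ⟨(Finset.mem_filter.1 hb).1, (Finset.mem_filter.1 hb).2, ?_⟩, ?_⟩
  · intro c hc hvc
    exact hmin c (Finset.mem_filter.2 ⟨hc, hvc⟩)
  · exact hmin a (Finset.mem_filter.2 ⟨ha, hav⟩)

theorem minNb_unique {v a b : V} (ha : MinNb G D v a) (hb : MinNb G D v b) : a = b :=
  le_antisymm (ha.2.2 b hb.1 hb.2.1) (hb.2.2 a ha.1 ha.2.1)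

theorem lk_swap {K K' : Nd V} (hN : ∀ {K}, N K → N K.swap) (h : Lk N K K') : Lk N K'.swap K.swap := by
  obtain ⟨h1, h2, h3, h4, ⟨a, ha, b, hb, hab⟩, h5⟩ := h
  refine ⟨hN h2, hN h1, h4, h3, ⟨b, hb, a, ha, hab.symm⟩, ?_⟩
  intro M hM g1 g2 g3 g4
  have := h5 M.swap (hN hM) g3 g4 g1 g2
  rcases this with h | h
  · right
    rw [← h, Prod.swap_swap]
  · left
    rw [← h, Prod.swap_swap]

/-- no node is linked to its reversal. PROOF: K.1 ⊆ K.2; the witnesses a, b ∈ K.1 with a ≠ b are in both sides, so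
K = out a or inn a by hN.both, and K.1 = {a} or K.2 = {a} does not contain b. -/
theorem lk_self (hN : Nds G N) {K : Nd V} : ¬ Lk N K K.swap := by
  rintro ⟨h1, h2, h3, h4, ⟨a, ha, b, hb, hab⟩, h5⟩
  have hb' : b ∈ K.1 := hb
  have ha2 : a ∈ K.2 := h3.1 ha
  have hb2 : b ∈ K.2 := h3.1 hb'
  exact not_both hN h1 (v := a) (a := b) (b := b) hb' hab.symm hb2 hab.symm ⟨ha, ha2⟩

/-- a node which is new in the phase of `v`: PROOF: if K.2 does not meet D, then v ∈ K.2; if K.1 meets D then Priv K;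
otherwise v ∈ K.1 as well, so K is out v or inn v by hN.both: inn v is Priv, and out v = (inn v).swap. If K.2 meets D
then K.1 does not, v ∈ K.1, and K.swap is Priv. -/
theorem new_cases (hN : Nds G N) {v : V} (hv : v ∉ D) {K : Nd V} (hK : St N (insert v D) K) (h : ¬ St N D K) :
    Priv G N D v K ∨ Priv G N D v K.swap := by
  obtain ⟨h1, ⟨x, hx, hxD⟩, ⟨y, hy, hyD⟩⟩ := hK
  by_cases h2 : ∃ z ∈ K.2, z ∈ D
  · -- then `K.1` does not meet `D`
    have h3 : ∀ z ∈ K.1, z ∉ D := by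
      intro z hz hzD
      exact h ⟨h1, ⟨z, hz, hzD⟩, h2⟩
    right
    have hxv : x = v := by
      rcases Finset.mem_insert.1 hxD with e | e
      · exact e
      · exact absurd e (h3 x hx)
    refine ⟨hN.swap h1, hxv ▸ hx, h3, Or.inr h2⟩
  · have h3 : ∀ z ∈ K.2, z ∉ D := by
      intro z hz hzD
      exact h2 ⟨z, hz, hzD⟩
    have hyv : y = v := by
      rcases Finset.mem_insert.1 hyD with e | e
      · exact e
      · exact absurd e (h3 y hy)
    have hvK : v ∈ K.2 := hyv ▸ hy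
    by_cases h4 : ∃ z ∈ K.1, z ∈ D
    · left
      exact ⟨h1, hvK, h3, Or.inr h4⟩
    · have h5 : ∀ z ∈ K.1, z ∉ D := by
        intro z hz hzD
        exact h4 ⟨z, hz, hzD⟩
      have hxv : x = v := by
        rcases Finset.mem_insert.1 hxD with e | e
        · exact e
        · exact absurd e (h5 x hx)
      have hvK1 : v ∈ K.1 := hxv ▸ hx
      rcases hN.both h1 hvK1 hvK with e | e
      · right
        refine ⟨hN.swap h1, hvK1, h5, Or.inl ?_⟩
        rw [e, out_swap]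
      · left
        exact ⟨h1, hvK, h3, Or.inl e⟩

theorem priv_st (hN : Nds G N) {v : V} {K : Nd V} (hK : Priv G N D v K) : St N (insert v D) K := by
  obtain ⟨h1, h2, h3, h4⟩ := hK
  refine ⟨h1, ?_, ⟨v, h2, Finset.mem_insert_self v D⟩⟩
  rcases h4 with e | ⟨x, hx, hxD⟩
  · refine ⟨v, ?_, Finset.mem_insert_self v D⟩
    rw [e]
    exact mem_nb.2 (Or.inl rfl)
  · exact ⟨x, hx, Finset.mem_insert_of_mem hxD⟩

theorem priv_not_st {v : V} {K : Nd V} (hK : Priv G N D v K) : ¬ St N D K := by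
  rintro ⟨_, _, ⟨y, hy, hyD⟩⟩
  exact hK.2.2.1 y hy hyD

theorem st_swap (hN : Nds G N) {K : Nd V} (hK : St N D K) : St N D K.swap :=
  ⟨hN.swap hK.1, hK.2.2, hK.2.1⟩

theorem st_mono {D' : Finset V} (h : D ⊆ D') {K : Nd V} (hK : St N D K) : St N D' K := by
  obtain ⟨h1, ⟨x, hx, hxD⟩, ⟨y, hy, hyD⟩⟩ := hK
  exact ⟨h1, ⟨x, hx, h hxD⟩, ⟨y, hy, h hyD⟩⟩

end Pool.Agent.SOD
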