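import Pool.Agent.SOD.Add
import Pool.Agent.SOD.TopBasic

/-! Project SOD, module Ins (size 3): insertion of one node `c` into a straight line drawing of the nodes of `I`. -/

set_option autoImplicit false

open Set

namespace Pool.Agent.SOD

variable {V : Type} [LinearOrder V] [Fintype V] {G : SimpleGraph V} {N : Nd V → Prop} {D : Finset V}

/-- the node set with `c` -/
def insI (I : Nd V → Prop) (c : Nd V) (K : Nd V) : Prop := I K ∨ K = c ∨ K = c.swap

open Classical in
/-- the positions with `c` at the point `z` -/
noncomputable def insP (q : Nd V → ℂ) (c : Nd V) (z : ℂ) (K : Nd V) : ℂ := if K = c ∨ K = c.swap then z else q K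

omit [LinearOrder V] [Fintype V] in
theorem ins_irr {K : Nd V} (h : Lk N K K) : False := h.2.2.1.2 (Finset.Subset.refl _)

/-- PROOF. Δ := {q K | I K, Lk N K c} (visible points). New segments: sgs N I' q' = sgs N I q ∪ star Δ z: a link K - K' with
K' = c: I K, Lk K c (K = c, c.swap excluded by lk_self and strictness): (q K, z). K' = c.swap: Lk K c.swap gives Lk c K.swap
(lk_swap), excluded by hup for K.swap. K = c: excluded by hup. K = c.swap: Lk c.swap K' gives Lk K'.swap c: (z, q K'.swap) =
(z, q K'). pts N I' q' = insert z (pts). Then `add` gives everything; injectivity: z.im is larger than the im of all old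
points. -/
theorem ins (hN : Nds G N) {I : Nd V → Prop} {q : Nd V → ℂ} (hI : ∀ K, I K → I K.swap) (hIN : ∀ K, I K → N K)
    (hq : ∀ K, q K.swap = q K) (h : Pln N I q) {c : Nd V} (hc : N c) (hcI : ¬ I c)
    (hup : ∀ K, I K → ¬ Lk N c K) (hvis : ∀ K, I K → Lk N K c → Vis N I q K) :
    ∃ κ : ℝ, 0 < κ ∧ ∀ z : ℂ, κ * (1 + |z.re|) ≤ z.im →
      (∀ K, insP q c z K.swap = insP q c z K) ∧
      (∀ K, I K → insP q c z K = q K) ∧ insP q c z c = z ∧
      (∀ K, I K → (q K).im < z.im) ∧ Pln N (insI I c) (insP q c z) ∧ Vis N (insI I c) (insP q c z) c ∧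
      (∀ K R, I K → Lk N K c → I R → (q R).re ≠ (q K).re →
        ((q R).im - (q K).im) * |z.re - (q K).re| < |(q R).re - (q K).re| * (z.im - (q K).im)) ∧
      ∀ K, I K → Vis N I q K → (q K).re ≠ z.re →
        (((q K).re ≤ z.re ∧ ∀ M, I M → Lk N M c → (q K).re ≤ (q M).re) ∨
          (z.re ≤ (q K).re ∧ ∀ M, I M → Lk N M c → (q M).re ≤ (q K).re)) →
        Vis N (insI I c) (insP q c z) K := by
  set Δ : Set ℂ := {w | ∃ K, I K ∧ Lk N K c ∧ w = q K} with hΔ
  have hΔP : Δ ⊆ pts I q := by
    rintro w ⟨K, hK, -, rfl⟩
    exact ⟨K, hK, rfl⟩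
  have hv : ∀ d ∈ Δ, VisP (pts I q) (sgs N I q) d := by
    rintro d ⟨K, hK, hl, rfl⟩
    exact hvis K hK hl
  obtain ⟨κ, hκ, hadd⟩ := add h.conf hΔP hv
  refine ⟨κ, hκ, ?_⟩
  intro z hz
  obtain ⟨H1, H2, H3, H4, H5⟩ := hadd z hz
  have hIc : ∀ K, I K → ¬ (K = c ∨ K = c.swap) := by
    rintro K hK (rfl | rfl)
    · exact hcI hK
    · have := hI _ hK
      rw [Prod.swap_swap] at this
      exact hcI this
  have hold : ∀ K, I K → insP q c z K = q K := fun K hK => if_neg (hIc K hK)
  have hcz : insP q c z c = z := if_pos (Or.inl rfl)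
  have hcz' : insP q c z c.swap = z := if_pos (Or.inr rfl)
  have hsw : ∀ K, insP q c z K.swap = insP q c z K := by
    intro K
    by_cases hK : K = c ∨ K = c.swap
    · have hK' : K.swap = c ∨ K.swap = c.swap := by
        rcases hK with rfl | rfl
        · exact Or.inr rfl
        · exact Or.inl (Prod.swap_swap c)
      rw [insP, insP, if_pos hK, if_pos hK']
    · have hK' : ¬ (K.swap = c ∨ K.swap = c.swap) := by
        rintro (h' | h')
        · apply hK
          right
          rw [← h', Prod.swap_swap]
        · apply hK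
          left
          have := congrArg Prod.swap h'
          rwa [Prod.swap_swap, Prod.swap_swap] at this
      rw [insP, insP, if_neg hK, if_neg hK', hq]
  have him : ∀ K, I K → (q K).im < z.im := fun K hK => H1 _ ⟨K, hK, rfl⟩
  have hlk : ∀ {K K' : Nd V}, Lk N K K' → Lk N K'.swap K.swap := fun h => lk_swap (fun h => hN.swap h) h
  have epts : pts (insI I c) (insP q c z) = insert z (pts I q) := by
    ext w
    constructor
    · rintro ⟨K, hK | rfl | rfl, rfl⟩
      · right
        exact ⟨K, hK, hold K hK⟩
      · left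
        exact hcz
      · left
        exact hcz'
    · rintro (rfl | ⟨K, hK, rfl⟩)
      · exact ⟨c, Or.inr (Or.inl rfl), hcz.symm⟩
      · exact ⟨K, Or.inl hK, (hold K hK).symm⟩
  have esgs : sgs N (insI I c) (insP q c z) = sgs N I q ∪ star Δ z := by
    ext s
    constructor
    · rintro ⟨K, K', hK, hK', hl, rfl⟩
      rcases hK with hK | rfl | rfl
      · rcases hK' with hK' | rfl | rfl
        · left
          exact ⟨K, K', hK, hK', hl, by rw [hold K hK, hold K' hK']⟩
        · right
          left
          exact ⟨⟨K, hK, hl, hold K hK⟩, hcz⟩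
        · exfalso
          have := hlk hl
          rw [Prod.swap_swap] at this
          exact hup _ (hI _ hK) this
      · rcases hK' with hK' | rfl | rfl
        · exact absurd hl (hup _ hK')
        · exact (ins_irr hl).elim
        · exact absurd hl (lk_self hN)
      · rcases hK' with hK' | rfl | rfl
        · right
          right
          have h1 := hlk hl
          rw [Prod.swap_swap] at h1
          refine ⟨hcz', K'.swap, hI _ hK', h1, ?_⟩
          rw [hq]
          exact hold K' hK'
        · exfalso
          have h1 := lk_self (G := G) hN (K := K'.swap)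
          rw [Prod.swap_swap] at h1
          exact h1 hl
        · exact (ins_irr hl).elim
    · rintro (⟨K, K', hK, hK', hl, rfl⟩ | ⟨⟨K, hK, hl, e1⟩, e2⟩ | ⟨e1, K, hK, hl, e2⟩)
      · exact ⟨K, K', Or.inl hK, Or.inl hK', hl, by rw [hold K hK, hold K' hK']⟩
      · refine ⟨K, c, Or.inl hK, Or.inr (Or.inl rfl), hl, ?_⟩
        rw [hold K hK, hcz]
        exact Prod.ext e1 e2
      · refine ⟨c.swap, K.swap, Or.inr (Or.inr rfl), Or.inl (hI _ hK), hlk hl, ?_⟩
        rw [hold _ (hI _ hK), hcz', hq]
        exact Prod.ext e1 e2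
  refine ⟨hsw, hold, hcz, him, ?_, ?_, ?_, ?_⟩
  · constructor
    · intro K K' hK hK' he
      rcases hK with hK | hK
      · rcases hK' with hK' | hK'
        · rw [hold K hK, hold K' hK'] at he
          exact h.inj hK hK' he
        · exfalso
          have e : insP q c z K' = z := if_pos hK'
          rw [hold K hK, e] at he
          have := him K hK
          rw [he] at this
          exact lt_irrefl _ this
      · rcases hK' with hK' | hK'
        · exfalso
          have e : insP q c z K = z := if_pos hK
          rw [hold K' hK', e] at he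
          have := him K' hK'
          rw [← he] at this
          exact lt_irrefl _ this
        · rcases hK with rfl | rfl
          · exact hK'
          · rcases hK' with rfl | rfl
            · right
              exact (Prod.swap_swap _).symm
            · left
              rfl
    · rw [epts, esgs]
      exact H2
  · unfold Vis
    rw [epts, esgs, hcz]
    exact H3
  · intro K R hK hl hR hne
    exact H4 (q K) ⟨K, hK, hl, rfl⟩ (q R) ⟨R, hR, rfl⟩ hne
  · intro K hK hV hne hcond
    unfold Vis
    rw [epts, esgs, hold K hK]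
    refine H5 (q K) ⟨K, hK, rfl⟩ hV hne ?_
    rcases hcond with ⟨h1, h2⟩ | ⟨h1, h2⟩
    · left
      refine ⟨h1, ?_⟩
      rintro d ⟨M, hM, hl, rfl⟩
      exact h2 M hM hl
    · right
      refine ⟨h1, ?_⟩
      rintro d ⟨M, hM, hl, rfl⟩
      exact h2 M hM hl

end Pool.Agent.SOD
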