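import Pool.Agent.SOD.TopBasic

/-! Project SOD, module LinkUniq (size 2): a link is determined by its two (unoriented) ends; heights; canonical
orientation. -/

set_option autoImplicit false

open Set

namespace Pool.Agent.SOD

variable {V : Type} [LinearOrder V] [Fintype V] {G : SimpleGraph V} {N : Nd V → Prop}

/-- the ends of a link: elements a ∈ K.1 ⊂ K'.1, b ∈ K'.2 ⊂ K.2 with a ≠ b; never K = inn v (K'.2 ⊂ {v} nonempty), never K' = out v. -/
theorem lk_ne_inn (hN : Nds G N) {K K' : Nd V} (h : Lk N K K') (v : V) : K ≠ inn G v ∧ K' ≠ out G v := by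
  obtain ⟨h1, h2, h3, h4, -, -⟩ := h
  constructor
  · rintro rfl
    have h5 : K'.2 = ∅ := Finset.ssubset_singleton_iff.1 h4
    have h6 : K'.2.Nonempty := hN.ne (hN.swap h2)
    rw [h5] at h6
    exact Finset.not_nonempty_empty h6
  · rintro rfl
    have h5 : K.1 = ∅ := Finset.ssubset_singleton_iff.1 h3
    have h6 : K.1.Nonempty := hN.ne h1
    rw [h5] at h6
    exact Finset.not_nonempty_empty h6

/-- no element is in K.1 and in K'.2. PROOF: v ∈ K.1 ⊆ K'.1, v ∈ K'.2 ⊆ K.2: hN.both: K, K' ∈ {out v, inn v}; by lk_ne_inn K = out v,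
K' = inn v: then the witnesses a ∈ {v}, b ∈ {v}, a ≠ b are contradictory. -/
theorem lk_disj (hN : Nds G N) {K K' : Nd V} (h : Lk N K K') {v : V} (h1 : v ∈ K.1) (h2 : v ∈ K'.2) : False := by
  have hv := lk_ne_inn hN h v
  obtain ⟨hK, hK', h3, h4, ⟨a, ha, b, hb, hab⟩, -⟩ := h
  have e1 : K = out G v := (hN.both hK h1 (h4.1 h2)).resolve_right hv.1
  have e2 : K' = inn G v := (hN.both hK' (h3.1 h1) h2).resolve_left hv.2
  subst e1 e2
  exact hab ((Finset.mem_singleton.1 ha).trans (Finset.mem_singleton.1 hb).symm)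

/-- PROOF. (A, B.swap): A.1 ⊂ B.1 and A.1 ⊂ B.2: v ∈ A.1 is on both sides of B: B = inn v or out v: A.1 ⊂ {v} is empty. (A.swap, B):
B.2 ⊂ A.2 and B.2 ⊂ A.1: v ∈ B.2 is on both sides of A: A = out v or inn v: B.2 ⊂ {v} is empty. (A.swap, B.swap): B.2 ⊂ A.2 and
A.2 ⊂ B.2. -/
theorem lk_unique (hN : Nds G N) {A B A' B' : Nd V} (h : Lk N A B) (h' : Lk N A' B') (hA : A' = A ∨ A' = A.swap)
    (hB : B' = B ∨ B' = B.swap) : A' = A ∧ B' = B := by
  obtain ⟨h1, h2, h3, h4, -, -⟩ := h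
  obtain ⟨-, -, h3', h4', -, -⟩ := h'
  rcases hA with rfl | rfl
  · rcases hB with rfl | rfl
    · exact ⟨rfl, rfl⟩
    · exfalso
      obtain ⟨v, hv⟩ := hN.ne h1
      have hv1 : v ∈ B.1 := h3.1 hv
      have hv2 : v ∈ B.2 := h3'.1 hv
      rcases hN.both h2 hv1 hv2 with rfl | rfl
      · have h5 : A'.1 = ∅ := Finset.ssubset_singleton_iff.1 h3
        rw [h5] at hv
        exact Finset.notMem_empty _ hv
      · have h5 : A'.1 = ∅ := Finset.ssubset_singleton_iff.1 h3'
        rw [h5] at hv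
        exact Finset.notMem_empty _ hv
  · rcases hB with rfl | rfl
    · exfalso
      obtain ⟨v, hv⟩ := hN.ne (hN.swap h2)
      have hv1 : v ∈ A.2 := h4.1 hv
      have hv2 : v ∈ A.1 := h4'.1 hv
      rcases hN.both h1 hv2 hv1 with rfl | rfl
      · have h5 : B'.2 = ∅ := Finset.ssubset_singleton_iff.1 h4'
        exact absurd hv (by simp only [Prod.fst_swap]; rw [h5]; exact Finset.notMem_empty _)
      · have h5 : B'.2 = ∅ := Finset.ssubset_singleton_iff.1 h4
        exact absurd hv (by simp only [Prod.fst_swap]; rw [h5]; exact Finset.notMem_empty _)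
    · exfalso
      have h5 : A.2 ⊂ B.2 := h3'
      exact (h5.trans h4).ne rfl

/-- PROOF: the smallest elements x of K.1 and y of K'.2 are different (lk_disj). x < y: hx. y < x: the same for the link K'.swap →
K.swap (lk_swap). -/
theorem lk_im (hN : Nds G N) {p : Nd V → ℂ} (hp : SLine G N p) {K K' : Nd V} (h : Lk N K K') :
    (p K' - p K).im ≠ 0 := by
  have n1 : K.1.Nonempty := hN.ne h.1
  have n2 : K'.2.Nonempty := hN.ne (hN.swap h.2.1)
  have hx := Finset.min'_mem _ n1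
  have hy := Finset.min'_mem _ n2
  rw [Complex.sub_im]
  rcases lt_trichotomy (K.1.min' n1) (K'.2.min' n2) with h1 | h1 | h1
  · have h2 := hp.ht h ⟨_, hx, fun y' hy' => lt_of_lt_of_le h1 (Finset.min'_le _ _ hy')⟩
    exact (sub_pos.2 h2).ne'
  · rw [← h1] at hy
    exact (lk_disj hN h hx hy).elim
  · have h2 := hp.ht (lk_swap (fun h => hN.swap h) h) ⟨_, hy, fun y' hy' => lt_of_lt_of_le h1 (Finset.min'_le _ _ hy')⟩
    rw [hp.sw, hp.sw] at h2
    exact (sub_neg.2 h2).ne

/-- exactly one orientation of a core is canonical. PROOF: no element is on both sides (hN.both); compare the smallest elements of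
the two sides. -/
theorem can_cases (hN : Nds G N) {K : Nd V} (hK : N K) (hc : ¬ IsV G K) : (Can K ∧ ¬ Can K.swap) ∨ (¬ Can K ∧ Can K.swap) := by
  have n1 : K.1.Nonempty := hN.ne hK
  have n2 : K.2.Nonempty := hN.ne (hN.swap hK)
  have hx := Finset.min'_mem _ n1
  have hy := Finset.min'_mem _ n2
  rcases lt_trichotomy (K.1.min' n1) (K.2.min' n2) with h1 | h1 | h1
  · left
    refine ⟨⟨_, hx, fun y' hy' => lt_of_lt_of_le h1 (Finset.min'_le _ _ hy')⟩, ?_⟩
    rintro ⟨z, hz, h2⟩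
    have h3 : z < K.1.min' n1 := h2 _ hx
    have h4 : K.2.min' n2 ≤ z := Finset.min'_le _ _ hz
    exact lt_irrefl _ (h3.trans (h1.trans_le h4))
  · exfalso
    rw [← h1] at hy
    exact hc ⟨_, hN.both hK hx hy⟩
  · right
    refine ⟨?_, ⟨_, hy, fun y' hy' => lt_of_lt_of_le h1 (Finset.min'_le _ _ hy')⟩⟩
    rintro ⟨z, hz, h2⟩
    have h3 : z < K.2.min' n2 := h2 _ hy
    have h4 : K.1.min' n1 ≤ z := Finset.min'_le _ _ hz
    exact lt_irrefl _ (h3.trans (h1.trans_le h4))

theorem isV_swap {K : Nd V} : IsV G K.swap ↔ IsV G K := by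
  constructor
  · rintro ⟨v, h | h⟩
    · exact ⟨v, Or.inr (by rw [← Prod.swap_swap K, h]; rfl)⟩
    · exact ⟨v, Or.inl (by rw [← Prod.swap_swap K, h]; rfl)⟩
  · rintro ⟨v, h | h⟩
    · exact ⟨v, Or.inr (by rw [h]; rfl)⟩
    · exact ⟨v, Or.inl (by rw [h]; rfl)⟩

end Pool.Agent.SOD
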