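import Pool.Agent.SOD.SndPt

/-! Project SOD, module SndSplit (size 3): the two parts of a smooth path at a junction meet only there. -/

set_option autoImplicit false

open Set

namespace Pool.Agent.SOD

open Pool.Agent.SOC Pool.Agent.SOC.Drawing

variable {V : Type} {D : Drawing V}

/-- the nodes of a smooth path are different. PROOF: p.map beg = inl u :: junctions p (Walk_inr: junctions are inr). -/
theorem nodes_nodup {u v : V} {p : List D.Dart} (h : IsSmoothPath u v p) (huv : u ≠ v) :
    (p.map beg ++ [Sum.inl v]).Nodup := by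
  obtain ⟨h1, h2, h3, h4⟩ := h
  cases p with
  | nil => simp
  | cons d l =>
    have h5 : beg d = Sum.inl u := Option.some_injective _ h2
    have h6 := Walk_inr h1
    change ∀ x ∈ l.map beg, ∃ j, x = Sum.inr j at h6
    change (l.map beg).Nodup at h4
    rw [List.map_cons, h5, List.cons_append, List.nodup_cons, List.nodup_append]
    refine ⟨?_, h4, List.nodup_singleton _, ?_⟩
    · intro h7
      rcases List.mem_append.1 h7 with h7 | h7
      · obtain ⟨j, hj⟩ := h6 _ h7
        exact absurd hj (by simp)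
      · rw [List.mem_singleton] at h7
        exact huv (Sum.inl_injective h7)
    · intro a ha b hb
      rw [List.mem_singleton] at hb
      obtain ⟨j, hj⟩ := h6 _ ha
      rw [hj, hb]
      simp

/-- the dart number `i` goes from the node number `i` to the node number `i + 1` -/
theorem SndSplit_get : ∀ {p : List D.Dart} {y : V ⊕ D.J}, p.IsChain Follows → p.getLast?.map fin = some y →
    ∀ (i : ℕ) (x : D.Dart), p[i]? = some x →
      (p.map beg ++ [y])[i]? = some (beg x) ∧ (p.map beg ++ [y])[i + 1]? = some (fin x)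
  | [], y, _, _, i, x, hx => by simp at hx
  | [d], y, _, hy, i, x, hx => by
    have hy' : fin d = y := Option.some_injective _ hy
    cases i with
    | zero =>
      have hx' : d = x := Option.some_injective _ hx
      subst hx'
      refine ⟨rfl, ?_⟩
      rw [hy']
      rfl
    | succ i => simp at hx
  | d :: e :: l, y, h, hy, i, x, hx => by
    rw [List.isChain_cons_cons] at h
    have hy' : (e :: l).getLast?.map fin = some y := by
      rw [List.getLast?_cons_cons] at hy
      exact hy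
    cases i with
    | zero =>
      have hx' : d = x := Option.some_injective _ hx
      subst hx'
      refine ⟨rfl, ?_⟩
      rw [h.1.1]
      rfl
    | succ i =>
      have hx' : (e :: l)[i]? = some x := by
        rw [List.getElem?_cons_succ] at hx
        exact hx
      have ih := SndSplit_get h.2 hy' i x hx'
      refine ⟨?_, ?_⟩
      · rw [List.map_cons, List.cons_append, List.getElem?_cons_succ]
        exact ih.1
      · rw [List.map_cons, List.cons_append, List.getElem?_cons_succ]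
        exact ih.2

/-- equal nodes have equal numbers -/
theorem SndSplit_inj {N : List (V ⊕ D.J)} (h : N.Nodup) {i j : ℕ} {a : V ⊕ D.J} (hi : N[i]? = some a)
    (hj : N[j]? = some a) : i = j := by
  obtain ⟨hi', _⟩ := List.getElem?_eq_some_iff.1 hi
  exact (List.getElem?_inj hi' h).1 (by rw [hi, hj])

theorem SndSplit_left {α : Type} {l₁ l₂ : List α} {x : α} (hx : x ∈ l₁) :
    ∃ i, i < l₁.length ∧ (l₁ ++ l₂)[i]? = some x := by
  obtain ⟨i, hi, hx'⟩ := List.getElem_of_mem hx
  refine ⟨i, hi, ?_⟩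
  rw [List.getElem?_append_left hi, List.getElem?_eq_some_iff]
  exact ⟨hi, hx'⟩

theorem SndSplit_right {α : Type} {l₁ l₂ : List α} {x : α} (hx : x ∈ l₂) :
    ∃ i, l₁.length ≤ i ∧ (l₁ ++ l₂)[i]? = some x := by
  obtain ⟨i, hi, hx'⟩ := List.getElem_of_mem hx
  refine ⟨l₁.length + i, by omega, ?_⟩
  rw [List.getElem?_append_right (by omega), Nat.add_sub_cancel_left, List.getElem?_eq_some_iff]
  exact ⟨hi, hx'⟩

theorem SndSplit_mid {α : Type} {l₁ l₂ : List α} {e : α} : (l₁ ++ e :: l₂)[l₁.length]? = some e := by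
  rw [List.getElem?_append_right (le_refl _), Nat.sub_self]
  rfl

/-- a node on the curve of a dart is an end of the dart -/
theorem SndSplit_end (x : D.Dart) {s : ℝ} (hs : s ∈ Icc (0 : ℝ) 1) {n : V ⊕ D.J}
    (h : D.curve x.1 s = D.pos n) : n = beg x ∨ n = fin x := by
  obtain ⟨a, b⟩ := x
  rcases eq_or_lt_of_le hs.1 with h0 | h0
  · subst h0
    have h1 : n = D.src a := D.pos_inj (by rw [← h]; exact D.start a)
    cases b
    · right; exact h1
    · left; exact h1
  · rcases eq_or_lt_of_le hs.2 with h2 | h2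
    · subst h2
      have h1 : n = D.tgt a := D.pos_inj (by rw [← h]; exact D.finish a)
      cases b
      · left; exact h1
      · right; exact h1
    · exact absurd h (D.avoid a s ⟨h0, h2⟩ n)

theorem SndSplit_ends {x y : D.Dart} (h : x.1 = y.1) : beg x = beg y ∨ beg x = fin y := by
  obtain ⟨a, b⟩ := x
  obtain ⟨a', b'⟩ := y
  change a = a' at h
  subst h
  cases b <;> cases b'
  · left; rfl
  · right; rfl
  · right; rfl
  · left; rfl

/-- PROOF. Nodes of the path n₀, .., n_k all different (nodes_nodup); the dart number i goes from n_i to n_{i+1}. x ∈ l₁ has number i,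
y ∈ e :: l₂ has number k > i. If x.1 = y.1 the ends agree as sets: impossible. Otherwise D.disjoint: z is an end point of both: z = pos n
with n ∈ {n_i, n_{i+1}} ∩ {n_k, n_{k+1}} (pos_inj), so k = i + 1, n = n_k = beg e (as x is in l₁ and y in e :: l₂, x is the last of l₁
and y = e). -/
theorem split_meet {u v : V} {l₁ l₂ : List D.Dart} {e : D.Dart} (hp : IsSmoothPath u v (l₁ ++ e :: l₂)) (huv : u ≠ v)
    {z : ℂ} (h1 : ∃ x ∈ l₁, ∃ s ∈ Icc (0 : ℝ) 1, z = D.curve x.1 s)
    (h2 : ∃ x ∈ e :: l₂, ∃ s ∈ Icc (0 : ℝ) 1, z = D.curve x.1 s) : z = D.pos (beg e) := by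
  obtain ⟨x, hx, s, hs, hz⟩ := h1
  obtain ⟨y, hy, t, ht, hz'⟩ := h2
  have hN := nodes_nodup hp huv
  obtain ⟨i, hi, hxi⟩ := SndSplit_left (l₂ := e :: l₂) hx
  obtain ⟨k, hk, hyk⟩ := SndSplit_right (l₁ := l₁) hy
  have gx := SndSplit_get hp.1 hp.2.2.1 i x hxi
  have gy := SndSplit_get hp.1 hp.2.2.1 k y hyk
  have ge := SndSplit_get hp.1 hp.2.2.1 l₁.length e SndSplit_mid
  by_cases hxy : x.1 = y.1
  · exfalso
    rcases SndSplit_ends hxy with h | h
    · have h3 := gx.1
      rw [h] at h3
      have := SndSplit_inj hN h3 gy.1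
      omega
    · have h3 := gx.1
      rw [h] at h3
      have := SndSplit_inj hN h3 gy.2
      omega
  · obtain ⟨h3, h4⟩ := D.disjoint x.1 y.1 hxy s hs t ht (by rw [← hz, ← hz'])
    -- the node
    obtain ⟨n, hn⟩ : ∃ n, z = D.pos n := by
      rcases h3 with h3 | h3
      · exact ⟨D.src x.1, by rw [hz, h3, D.start]⟩
      · exact ⟨D.tgt x.1, by rw [hz, h3, D.finish]⟩
    have h5 := SndSplit_end x hs (n := n) (by rw [← hz, hn])
    have h6 := SndSplit_end y ht (n := n) (by rw [← hz', hn])
    rcases h5 with h5 | h5 <;> rcases h6 with h6 | h6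
    · have h7 := gx.1
      rw [← h5, h6] at h7
      have := SndSplit_inj hN h7 gy.1
      omega
    · have h7 := gx.1
      rw [← h5, h6] at h7
      have := SndSplit_inj hN h7 gy.2
      omega
    · have h7 := gx.2
      rw [← h5, h6] at h7
      have h8 := SndSplit_inj hN h7 gy.1
      have h9 : k = l₁.length := by omega
      have h10 := gy.1
      rw [h9, ge.1] at h10
      rw [hn, h6, ← Option.some_injective _ h10]
    · have h7 := gx.2
      rw [← h5, h6] at h7
      have := SndSplit_inj hN h7 gy.2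
      omega

/-- PROOF: the node beg e is not an end of the other darts; inside a dart there is no node (D.avoid). -/
theorem not_through_left {u v : V} {l₀ l₂ : List D.Dart} {d e : D.Dart} (hp : IsSmoothPath u v (l₀ ++ d :: e :: l₂))
    (huv : u ≠ v) : (∀ x ∈ l₀, ∀ s ∈ Icc (0 : ℝ) 1, D.curve x.1 s ≠ D.pos (beg e)) ∧
      ∀ s, 0 ≤ s → s < 1 → pt d s ≠ D.pos (beg e) := by
  have hN := nodes_nodup hp huv
  have hd := SndSplit_get hp.1 hp.2.2.1 l₀.length d SndSplit_mid
  have he' : (l₀ ++ d :: e :: l₂)[l₀.length + 1]? = some e := by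
    rw [List.getElem?_append_right (by omega), Nat.add_sub_cancel_left]
    rfl
  have he := SndSplit_get hp.1 hp.2.2.1 (l₀.length + 1) e he'
  refine ⟨?_, ?_⟩
  · intro x hx s hs h
    obtain ⟨i, hi, hxi⟩ := SndSplit_left (l₂ := d :: e :: l₂) hx
    have gx := SndSplit_get hp.1 hp.2.2.1 i x hxi
    rcases SndSplit_end x hs h with h3 | h3
    · have h4 := he.1
      rw [h3] at h4
      have := SndSplit_inj hN gx.1 h4
      omega
    · have h4 := he.1
      rw [h3] at h4
      have := SndSplit_inj hN gx.2 h4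
      omega
  · intro s h0 h1 h
    rcases eq_or_lt_of_le h0 with h2 | h2
    · subst h2
      rw [pt_zero] at h
      have h3 := D.pos_inj h
      have h4 := he.1
      rw [← h3] at h4
      have := SndSplit_inj hN hd.1 h4
      omega
    · exact pt_avoid d ⟨h2, h1⟩ _ h

theorem not_through_right {u v : V} {l₁ l₂ : List D.Dart} {e : D.Dart} (hp : IsSmoothPath u v (l₁ ++ e :: l₂))
    (huv : u ≠ v) : (∀ x ∈ l₂, ∀ s ∈ Icc (0 : ℝ) 1, D.curve x.1 s ≠ D.pos (beg e)) ∧
      ∀ s, 0 < s → s ≤ 1 → pt e s ≠ D.pos (beg e) := by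
  have hN := nodes_nodup hp huv
  have he := SndSplit_get hp.1 hp.2.2.1 l₁.length e SndSplit_mid
  refine ⟨?_, ?_⟩
  · intro x hx s hs h
    have hx' : ∃ i, l₁.length + 1 ≤ i ∧ (l₁ ++ e :: l₂)[i]? = some x := by
      obtain ⟨i, hi, hxi⟩ := List.getElem_of_mem hx
      refine ⟨l₁.length + (i + 1), by omega, ?_⟩
      rw [List.getElem?_append_right (by omega), Nat.add_sub_cancel_left, List.getElem?_cons_succ,
        List.getElem?_eq_some_iff]
      exact ⟨hi, hxi⟩
    obtain ⟨i, hi, hxi⟩ := hx'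
    have gx := SndSplit_get hp.1 hp.2.2.1 i x hxi
    rcases SndSplit_end x hs h with h3 | h3
    · have h4 := he.1
      rw [h3] at h4
      have := SndSplit_inj hN gx.1 h4
      omega
    · have h4 := he.1
      rw [h3] at h4
      have := SndSplit_inj hN gx.2 h4
      omega
  · intro s h0 h1 h
    rcases eq_or_lt_of_le h1 with h2 | h2
    · subst h2
      rw [pt_one] at h
      have h3 := D.pos_inj h
      have h4 := he.2
      rw [h3] at h4
      have := SndSplit_inj hN he.1 h4
      omega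
    · exact pt_avoid e ⟨h0, h2⟩ _ h

/-- near the junction the second part is on the side of its direction. PROOF: δ from dir_out for e; the set {pt e s | δ/2 ≤ s ≤ 1}
and the curves of l₂ are compact and do not contain pos (beg e) (not_through_right): positive distance η. A point of the second part
at distance < η is pt e s with s < δ/2: dot > 0, or s = 0: dot = 0. -/
theorem half_out {u v : V} {l₁ l₂ : List D.Dart} {e : D.Dart} (hp : IsSmoothPath u v (l₁ ++ e :: l₂)) (huv : u ≠ v) :
    ∃ η : ℝ, 0 < η ∧ ∀ z, (∃ x ∈ e :: l₂, ∃ s ∈ Icc (0 : ℝ) 1, z = D.curve x.1 s) → ‖z - D.pos (beg e)‖ < η →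
      0 ≤ Meet_dot (z - D.pos (beg e)) (vout e) := by
  obtain ⟨δ, hδ, hδ1, hdir⟩ := dir_out e
  obtain ⟨hn1, hn2⟩ := not_through_right hp huv
  have hK1 : IsCompact (pt e '' Icc (δ / 2) 1) := by
    apply isCompact_Icc.image_of_continuousOn
    exact (pt_cont e).mono (Icc_subset_Icc (by linarith) le_rfl)
  have hK2 : IsCompact (⋃ x ∈ {x : D.Dart | x ∈ l₂}, D.curve x.1 '' Icc (0 : ℝ) 1) := by
    apply Set.Finite.isCompact_biUnion (List.finite_toSet l₂)
    intro x _
    exact isCompact_Icc.image_of_continuousOn (D.smooth x.1).continuousOn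
  have hK := (hK1.union hK2).isClosed
  have hmem : D.pos (beg e) ∉ (pt e '' Icc (δ / 2) 1) ∪
      (⋃ x ∈ {x : D.Dart | x ∈ l₂}, D.curve x.1 '' Icc (0 : ℝ) 1) := by
    intro h
    rcases h with h | h
    · obtain ⟨s, hs, h⟩ := h
      exact hn2 s (by linarith [hs.1]) hs.2 h
    · rw [Set.mem_iUnion₂] at h
      obtain ⟨x, hx, s, hs, h⟩ := h
      exact hn1 x hx s hs h
  obtain ⟨η, hη, hball⟩ := Metric.isOpen_iff.1 hK.isOpen_compl _ hmem
  refine ⟨η, hη, ?_⟩
  rintro z ⟨x, hx, s, hs, hz⟩ hdist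
  have hz' : z ∈ Metric.ball (D.pos (beg e)) η := by
    rw [Metric.mem_ball, dist_eq_norm]
    exact hdist
  have hnot := hball hz'
  rcases List.mem_cons.1 hx with rfl | hx'
  · obtain ⟨s', hs', h3⟩ := mem_pt x hs
    rw [← hz] at h3
    rcases lt_or_ge s' (δ / 2) with h4 | h4
    · rcases eq_or_lt_of_le hs'.1 with h5 | h5
      · rw [← h5, pt_zero] at h3
        rw [← h3, sub_self]
        unfold Meet_dot
        simp
      · have := hdir s' h5 (by linarith)
        rw [h3] at this
        exact this.le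
    · exact absurd (Or.inl ⟨s', ⟨h4, hs'.2⟩, h3⟩) hnot
  · refine absurd (Or.inr ?_) hnot
    rw [Set.mem_iUnion₂]
    exact ⟨x, hx', s, hs, hz.symm⟩

/-- the first part of a dart as a path -/
theorem SndSplit_dart (d : D.Dart) {c : ℝ} (h0 : 0 ≤ c) (h1 : c ≤ 1) :
    ∃ g : Path (D.pos (beg d)) (pt d c), ∀ t, ∃ s, 0 ≤ s ∧ s ≤ c ∧ g t = pt d s := by
  have hm : ∀ t : unitInterval, c * (t : ℝ) ∈ Icc (0 : ℝ) 1 := fun t =>
    ⟨mul_nonneg h0 t.2.1, le_trans (mul_le_of_le_one_right h0 t.2.2) h1⟩
  have hc : Continuous (fun t : unitInterval => pt d (c * (t : ℝ))) := by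
    apply (pt_cont d).comp_continuous (by fun_prop)
    exact hm
  refine ⟨{ toFun := fun t => pt d (c * (t : ℝ)), continuous_toFun := hc, source' := ?_, target' := ?_ }, ?_⟩
  · rw [Set.Icc.coe_zero, mul_zero, pt_zero]
  · rw [Set.Icc.coe_one, mul_one]
  · intro t
    exact ⟨c * (t : ℝ), (hm t).1, mul_le_of_le_one_right h0 t.2.2, rfl⟩

/-- a path along the first part which stops shortly before the junction. PROOF: Walk_path for l₀ (if nonempty) from pos (inl u) to pos
(beg d), then s ↦ pt d s for s from 0 to 1 - ε, with ε so small that dir_in holds at 1 - ε and the distance to pos (fin d) = pos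
(beg e) is < η (pt_cont). -/
theorem cut_path {u v : V} {l₀ l₂ : List D.Dart} {d e : D.Dart} (hp : IsSmoothPath u v (l₀ ++ d :: e :: l₂))
    (huv : u ≠ v) {η : ℝ} (hη : 0 < η) :
    ∃ (z₁ : ℂ) (g : Path (D.pos (Sum.inl u)) z₁), ‖z₁ - D.pos (beg e)‖ < η ∧
      Meet_dot (z₁ - D.pos (beg e)) (vin d) < 0 ∧
      ∀ t, (∃ x ∈ l₀ ++ [d], ∃ s ∈ Icc (0 : ℝ) 1, g t = D.curve x.1 s) ∧ g t ≠ D.pos (beg e) := by
  obtain ⟨hn1, hn2⟩ := not_through_left hp huv
  obtain ⟨δ, hδ, hδ1, hdir⟩ := dir_in d
  have hch := hp.1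
  rw [List.isChain_append] at hch
  obtain ⟨hch1, hch2, hch3⟩ := hch
  rw [List.isChain_cons_cons] at hch2
  have hfin : fin d = beg e := hch2.1.1
  -- the first piece
  obtain ⟨g₀, hg₀⟩ : ∃ g₀ : Path (D.pos (Sum.inl u)) (D.pos (beg d)),
      ∀ t, (∃ x ∈ l₀ ++ [d], ∃ s ∈ Icc (0 : ℝ) 1, g₀ t = D.curve x.1 s) ∧ g₀ t ≠ D.pos (beg e) := by
    rcases List.eq_nil_or_concat l₀ with h | ⟨l, a, h⟩
    · subst h
      have h5 : beg d = Sum.inl u := Option.some_injective _ hp.2.1
      rw [h5]
      refine ⟨Path.refl _, fun t => ?_⟩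
      have h6 : (Path.refl (D.pos (Sum.inl u))) t = pt d 0 := by
        rw [pt_zero, h5]
        rfl
      rw [h6]
      refine ⟨?_, hn2 0 le_rfl zero_lt_one⟩
      obtain ⟨s, hs, h7⟩ := pt_mem d (s := 0) ⟨le_rfl, zero_le_one⟩
      exact ⟨d, by simp, s, hs, h7⟩
    · have hne : l₀ ≠ [] := by
        rw [h]
        simp
      have hhead : l₀.head?.map beg = some (Sum.inl u) := by
        have h5 := hp.2.1
        rw [List.head?_append_of_ne_nil _ hne] at h5
        exact h5
      have hlast : l₀.getLast?.map fin = some (beg d) := by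
        have h5 : l₀.getLast? = some a := by
          rw [h, List.concat_eq_append, List.getLast?_append]
          rfl
        rw [h5]
        have h6 := hch3 a (by rw [h5]; rfl) d (by rfl)
        change some (fin a) = some (beg d)
        rw [h6.1]
      obtain ⟨g, hg⟩ := Walk_path l₀ (Sum.inl u) (beg d) hch1 hhead hlast
      refine ⟨g, fun t => ?_⟩
      obtain ⟨x, hx, s, hs, h7⟩ := hg t
      refine ⟨⟨x, List.mem_append_left _ hx, s, hs, h7⟩, ?_⟩
      rw [h7]
      exact hn1 x hx s hs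
  -- the parameter
  obtain ⟨c, hc0, hc1, hc2, hc3⟩ : ∃ c : ℝ, 0 ≤ c ∧ c < 1 ∧ 1 - δ < c ∧ ‖pt d c - D.pos (beg e)‖ < η := by
    have h5 : ContinuousWithinAt (pt d) (Icc 0 1) 1 := pt_cont d 1 ⟨zero_le_one, le_rfl⟩
    rw [Metric.continuousWithinAt_iff] at h5
    obtain ⟨ε, hε, h6⟩ := h5 η hη
    refine ⟨1 - min (ε / 2) (δ / 2), ?_, ?_, ?_, ?_⟩
    · have := min_le_right (ε / 2) (δ / 2)
      linarith
    · have : 0 < min (ε / 2) (δ / 2) := lt_min (by linarith) (by linarith)
      linarith
    · have := min_le_right (ε / 2) (δ / 2)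
      linarith
    · have h7 : 0 < min (ε / 2) (δ / 2) := lt_min (by linarith) (by linarith)
      have h8 := min_le_right (ε / 2) (δ / 2)
      have h9 := min_le_left (ε / 2) (δ / 2)
      have h10 := h6 (x := 1 - min (ε / 2) (δ / 2)) ⟨by linarith, by linarith⟩ (by
        rw [Real.dist_eq, abs_lt]
        constructor <;> linarith)
      rw [dist_eq_norm, pt_one, hfin] at h10
      exact h10
  obtain ⟨g₁, hg₁⟩ := SndSplit_dart d hc0 hc1.le
  refine ⟨pt d c, g₀.trans g₁, hc3, ?_, ?_⟩
  · have := hdir c hc2 hc1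
    rw [hfin] at this
    exact this
  · intro t
    have ht : (g₀.trans g₁) t ∈ range (g₀.trans g₁) := mem_range_self t
    rw [Path.trans_range] at ht
    rcases ht with ⟨s, hs⟩ | ⟨s, hs⟩
    · rw [← hs]
      exact hg₀ s
    · rw [← hs]
      obtain ⟨r, hr0, hrc, h5⟩ := hg₁ s
      rw [h5]
      refine ⟨?_, hn2 r hr0 (lt_of_le_of_lt hrc hc1)⟩
      obtain ⟨w, hw, h7⟩ := pt_mem d (s := r) ⟨hr0, by linarith⟩
      exact ⟨d, by simp, w, hw, h7⟩

end Pool.Agent.SOD
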