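import Pool.Agent.SOD.SndBasic
import Pool.Agent.SOD.SndSplit

/-! Project SOD, module SndNon (size 3): the sides of a quartet do not interleave. -/

set_option autoImplicit false

open Set

namespace Pool.Agent.SOD

open Pool.Agent.SOC Pool.Agent.SOC.Drawing

variable {V : Type} {G : SimpleGraph V} {D : Drawing V}

theorem SndNon_walk {a c : V} {d e : D.Dart} {p q : List D.Dart} (h1 : (p ++ [d]).IsChain Follows)
    (h2 : (p ++ [d]).head?.map beg = some (Sum.inl a)) (h3 : (e :: q).IsChain Follows)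
    (h4 : (e :: q).getLast?.map fin = some (Sum.inl c)) (h : Follows d e) :
    IsSmoothWalk a c ((p ++ [d]) ++ e :: q) := by
  have hlast : (p ++ [d]).getLast? = some d := by simp
  refine ⟨?_, ?_, ?_⟩
  · rw [List.isChain_append]
    refine ⟨h1, h3, ?_⟩
    intro x hx y hy
    have h6 : x = d := Option.some_injective _ (hx.symm.trans hlast)
    have h7 : y = e := Option.some_injective _ (Eq.symm hy)
    rw [h6, h7]
    exact h
  · rw [List.head?_append_of_ne_nil _ (by simp)]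
    exact h2
  · rw [List.getLast?_append_of_ne_nil _ (List.cons_ne_nil _ _)]
    exact h4

theorem SndNon_sign {x y : ℂ} (h : SameRay ℝ x y) (hx : x ≠ 0) (hy : y ≠ 0) :
    ∃ r : ℝ, 0 < r ∧ ∀ z, Meet_dot z y = r * Meet_dot z x := by
  obtain ⟨r, hr, hrx⟩ := h.exists_pos_left hx hy
  refine ⟨r, hr, fun z => ?_⟩
  rw [← hrx]
  unfold Meet_dot
  rw [Complex.smul_re, Complex.smul_im, smul_eq_mul, smul_eq_mul]
  ring

theorem SndNon_seg (z₁ z₂ : ℂ) : ∃ g : Path z₁ z₂, ∀ t, g t = z₁ + ((t : ℝ) : ℂ) * (z₂ - z₁) :=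
  ⟨{ toFun := fun t => z₁ + ((t : ℝ) : ℂ) * (z₂ - z₁)
     continuous_toFun := by fun_prop
     source' := by simp
     target' := by simp }, fun _ => rfl⟩

theorem SndNon_dot (x y w : ℂ) (t : ℝ) :
    Meet_dot (x + (t : ℂ) * (y - x)) w = (1 - t) * Meet_dot x w + t * Meet_dot y w := by
  unfold Meet_dot
  rw [Complex.add_re, Complex.add_im, Complex.re_ofReal_mul, Complex.im_ofReal_mul, Complex.sub_re,
    Complex.sub_im]
  ring

theorem SndNon_norm {x y : ℂ} {t : ℝ} (h0 : 0 ≤ t) (h1 : t ≤ 1) :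
    ‖x + (t : ℂ) * (y - x)‖ ≤ (1 - t) * ‖x‖ + t * ‖y‖ := by
  have e : x + (t : ℂ) * (y - x) = ((1 - t : ℝ) : ℂ) * x + (t : ℂ) * y := by
    push_cast
    ring
  rw [e]
  refine (norm_add_le _ _).trans ?_
  rw [norm_mul, norm_mul, Complex.norm_of_nonneg (by linarith), Complex.norm_of_nonneg h0]

/-- PROOF. TD a b c d by (d₁, d₂, e₁, e₂); `concat`: lists p₁ (a), p₂ (b), q₁ (c), q₂ (d); the four lists p_i ++ d_i :: e_k :: q_k are smooth
walks (Follows d_i e_k; rebuild them from the chains p_i ++ [d_i] and e_k :: q_k), hence smooth paths (hN). beg e₁ = beg e₂ = inr j, z₀ :=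
pos (inr j). a ≠ c, a ≠ d, b ≠ c, b ≠ d by hS.2. Suppose Cross s a b c d: alt_of_cross: Alt (pos a) (pos c) (pos b) (pos d).
η := the minimum of the two η of half_out for e₁ (path a-c) and e₂ (path a-d). cut_path for a (path a-c): z₁, g₁; for b (path b-d): z₂, g₂.
w := vin d₁; vin d₂, vout e₁, vout e₂ are on the same ray as w: so dot (z₁ - z₀) w < 0, dot (z₂ - z₀) w < 0, and points z of the second
parts with ‖z - z₀‖ < η have dot (z - z₀) w ≥ 0. Path from pos a to pos b: g₁, the segment from z₁ to z₂, g₂ reversed; all of norm ≤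
1 (InDisc; the unit disc is convex). Path from pos c to pos d: Walk_path for the reversed list of e₁ :: q₁ and for e₂ :: q₂.
paths_meet: a common point z. If z is on the segment: ‖z - z₀‖ < η and dot (z - z₀) w < 0 (convexity): contradiction. If z is on g₁
or g₂: z ≠ z₀, but split_meet for the path a-c, a-d, b-c or b-d gives z = z₀. -/
theorem snd_nocross [DecidableEq V] {s : List V} (hS : D.StrictW G) (hN : D.NoRevisit) (hs : D.InDisc s)
    {a b c d : V} (h : TD D a b c d) : ¬ Cross s a b c d := by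
  intro hcr
  obtain ⟨hab, hcd, d₁, d₂, e₁, e₂, ⟨p₁, a1, a2⟩, ⟨p₂, b1, b2⟩, ⟨q₁, c1, c2⟩, ⟨q₂, c3, c4⟩, f11, f12, f21,
    f22⟩ := h
  have w11 := SndNon_walk a1 a2 c1 c2 f11
  have w12 := SndNon_walk a1 a2 c3 c4 f12
  have w21 := SndNon_walk b1 b2 c1 c2 f21
  have w22 := SndNon_walk b1 b2 c3 c4 f22
  have hac : a ≠ c := by
    rintro rfl
    exact hS.2 _ _ w11
  have had : a ≠ d := by
    rintro rfl
    exact hS.2 _ _ w12
  have hbc : b ≠ c := by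
    rintro rfl
    exact hS.2 _ _ w21
  have hbd : b ≠ d := by
    rintro rfl
    exact hS.2 _ _ w22
  have s11 : IsSmoothPath a c ((p₁ ++ [d₁]) ++ e₁ :: q₁) := ⟨w11.1, w11.2.1, w11.2.2, hN _ _ _ w11⟩
  have s12 : IsSmoothPath a d ((p₁ ++ [d₁]) ++ e₂ :: q₂) := ⟨w12.1, w12.2.1, w12.2.2, hN _ _ _ w12⟩
  have s21 : IsSmoothPath b c ((p₂ ++ [d₂]) ++ e₁ :: q₁) := ⟨w21.1, w21.2.1, w21.2.2, hN _ _ _ w21⟩
  have s22 : IsSmoothPath b d ((p₂ ++ [d₂]) ++ e₂ :: q₂) := ⟨w22.1, w22.2.1, w22.2.2, hN _ _ _ w22⟩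
  have hee : beg e₂ = beg e₁ := f12.1.symm.trans f11.1
  obtain ⟨z₀, hz₀⟩ : ∃ z₀, z₀ = D.pos (beg e₁) := ⟨_, rfl⟩
  have hz₀' : z₀ = D.pos (beg e₂) := by rw [hz₀, hee]
  have hA := alt_of_cross hs (a := a) (b := c) (c := b) (d := d) hab hcd hac had hbc hbd hcr
  obtain ⟨η₁, hη₁, H1⟩ := half_out s11 hac
  obtain ⟨η₂, hη₂, H2⟩ := half_out s12 had
  rw [← hz₀] at H1
  rw [← hz₀'] at H2
  obtain ⟨η, hη⟩ : ∃ η, η = min η₁ η₂ := ⟨_, rfl⟩
  have hη0 : 0 < η := by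
    rw [hη]
    exact lt_min hη₁ hη₂
  have t11 : IsSmoothPath a c (p₁ ++ d₁ :: e₁ :: q₁) := by
    have h5 := s11
    rw [List.append_assoc] at h5
    exact h5
  have t21 : IsSmoothPath b c (p₂ ++ d₂ :: e₁ :: q₁) := by
    have h5 := s21
    rw [List.append_assoc] at h5
    exact h5
  obtain ⟨z₁, g₁, n1, m1, G1⟩ := cut_path t11 hac hη0
  obtain ⟨z₂, g₂, n2, m2, G2⟩ := cut_path t21 hbc hη0
  rw [← hz₀] at n1 m1 n2 m2
  simp only [← hz₀] at G1 G2
  obtain ⟨r1, hr1, R1⟩ := SndNon_sign f11.2.2 (vin_ne d₁) (vout_ne e₁)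
  obtain ⟨r2, hr2, R2⟩ := SndNon_sign f12.2.2 (vin_ne d₁) (vout_ne e₂)
  obtain ⟨r3, hr3, R3⟩ := SndNon_sign f21.2.2 (vin_ne d₂) (vout_ne e₁)
  have m1' : Meet_dot (z₁ - z₀) (vout e₁) < 0 := by
    rw [R1]
    exact mul_neg_of_pos_of_neg hr1 m1
  have m2' : Meet_dot (z₂ - z₀) (vout e₁) < 0 := by
    rw [R3]
    exact mul_neg_of_pos_of_neg hr3 m2
  have H2' : ∀ z, (∃ x ∈ e₂ :: q₂, ∃ s ∈ Icc (0 : ℝ) 1, z = D.curve x.1 s) → ‖z - z₀‖ < η₂ →
      0 ≤ Meet_dot (z - z₀) (vout e₁) := by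
    intro z hz hz'
    have h5 := H2 z hz hz'
    rw [R2] at h5
    rw [R1]
    exact mul_nonneg hr1.le (nonneg_of_mul_nonneg_right h5 hr2)
  obtain ⟨sg, hsg⟩ := SndNon_seg z₁ z₂
  obtain ⟨k₁, K1⟩ := Walk_path (e₁ :: q₁) (beg e₁) (Sum.inl c) c1 rfl c2
  obtain ⟨k₂, K2⟩ := Walk_path (e₂ :: q₂) (beg e₁) (Sum.inl d) c3 (by rw [← hee]; rfl) c4
  obtain ⟨hle, hE, θ, hθ, -, -⟩ := hs
  have hnorm : ∀ w, ‖D.pos (Sum.inl w)‖ = 1 := by
    intro w
    rw [hθ]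
    exact Complex.norm_exp_ofReal_mul_I _
  have hinj : ∀ {w w' : V}, w ≠ w' → D.pos (Sum.inl w) ≠ D.pos (Sum.inl w') := by
    intro w w' hw e
    exact hw (Sum.inl_injective (D.pos_inj e))
  have N1 : ∀ t, ‖g₁ t‖ ≤ 1 := by
    intro t
    obtain ⟨x, _, s', hs', e5⟩ := (G1 t).1
    rw [e5]
    exact hle _ _ hs'
  have N2 : ∀ t, ‖g₂ t‖ ≤ 1 := by
    intro t
    obtain ⟨x, _, s', hs', e5⟩ := (G2 t).1
    rw [e5]
    exact hle _ _ hs'
  have Nz1 : ‖z₁‖ ≤ 1 := by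
    have h5 := N1 1
    rwa [g₁.target] at h5
  have Nz2 : ‖z₂‖ ≤ 1 := by
    have h5 := N2 1
    rwa [g₂.target] at h5
  have NS : ∀ t, ‖sg t‖ ≤ 1 := by
    intro t
    rw [hsg]
    refine (SndNon_norm t.2.1 t.2.2).trans ?_
    have h5 := t.2.1
    have h6 := t.2.2
    nlinarith
  have Ga : ∀ t, (∃ t', ((g₁.trans sg).trans g₂.symm) t = g₁ t') ∨
      (∃ t', ((g₁.trans sg).trans g₂.symm) t = sg t') ∨
      (∃ t', ((g₁.trans sg).trans g₂.symm) t = g₂ t') := by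
    intro t
    have ht : ((g₁.trans sg).trans g₂.symm) t ∈ range ((g₁.trans sg).trans g₂.symm) := mem_range_self t
    rw [Path.trans_range, Path.trans_range] at ht
    rcases ht with (⟨t', ht'⟩ | ⟨t', ht'⟩) | ⟨t', ht'⟩
    · exact Or.inl ⟨t', ht'.symm⟩
    · exact Or.inr (Or.inl ⟨t', ht'.symm⟩)
    · exact Or.inr (Or.inr ⟨unitInterval.symm t', ht'.symm⟩)
  have Ka : ∀ t, (∃ t', (k₁.symm.trans k₂) t = k₁ t') ∨ (∃ t', (k₁.symm.trans k₂) t = k₂ t') := by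
    intro t
    have ht : (k₁.symm.trans k₂) t ∈ range (k₁.symm.trans k₂) := mem_range_self t
    rw [Path.trans_range] at ht
    rcases ht with ⟨t', ht'⟩ | ⟨t', ht'⟩
    · exact Or.inl ⟨unitInterval.symm t', ht'.symm⟩
    · exact Or.inr ⟨t', ht'.symm⟩
  obtain ⟨t, t', ht⟩ := paths_meet (hnorm a) (hnorm c) (hnorm b) (hnorm d) (hinj hab) (hinj hcd)
    (hinj hac) (hinj hbc.symm) hA ((g₁.trans sg).trans g₂.symm) (k₁.symm.trans k₂)
    (fun t => by
      rcases Ga t with ⟨t', e5⟩ | ⟨t', e5⟩ | ⟨t', e5⟩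
      · rw [e5]; exact N1 t'
      · rw [e5]; exact NS t'
      · rw [e5]; exact N2 t')
    (fun t => by
      rcases Ka t with ⟨t', e5⟩ | ⟨t', e5⟩
      · obtain ⟨x, _, s', hs', e6⟩ := K1 t'
        rw [e5, e6]
        exact hle _ _ hs'
      · obtain ⟨x, _, s', hs', e6⟩ := K2 t'
        rw [e5, e6]
        exact hle _ _ hs')
  have KZ : (∃ x ∈ e₁ :: q₁, ∃ s ∈ Icc (0 : ℝ) 1, (k₁.symm.trans k₂) t' = D.curve x.1 s) ∨
      (∃ x ∈ e₂ :: q₂, ∃ s ∈ Icc (0 : ℝ) 1, (k₁.symm.trans k₂) t' = D.curve x.1 s) := by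
    rcases Ka t' with ⟨t'', e5⟩ | ⟨t'', e5⟩
    · left
      rw [e5]
      exact K1 t''
    · right
      rw [e5]
      exact K2 t''
  obtain ⟨z, hz⟩ : ∃ z, z = (k₁.symm.trans k₂) t' := ⟨_, rfl⟩
  rw [← hz] at KZ ht
  rcases Ga t with ⟨t'', e5⟩ | ⟨t'', e5⟩ | ⟨t'', e5⟩
  · rw [ht] at e5
    obtain ⟨h6, h7⟩ := G1 t''
    rw [← e5] at h6 h7
    rcases KZ with h8 | h8
    · exact h7 ((split_meet s11 hac h6 h8).trans hz₀.symm)
    · exact h7 ((split_meet s12 had h6 h8).trans hz₀'.symm)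
  · rw [ht, hsg] at e5
    have t0 : (0 : ℝ) ≤ (t'' : ℝ) := t''.2.1
    have t1 : (t'' : ℝ) ≤ 1 := t''.2.2
    have e6 : z - z₀ = (z₁ - z₀) + ((t'' : ℝ) : ℂ) * ((z₂ - z₀) - (z₁ - z₀)) := by
      rw [e5]
      ring
    have h6 : ‖z - z₀‖ < η := by
      rw [e6]
      refine (SndNon_norm t0 t1).trans_lt ?_
      rcases eq_or_lt_of_le t0 with h7 | h7
      · rw [← h7]
        linarith
      · have h8 : (t'' : ℝ) * ‖z₂ - z₀‖ < (t'' : ℝ) * η := mul_lt_mul_of_pos_left n2 h7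
        have h9 : (1 - (t'' : ℝ)) * ‖z₁ - z₀‖ ≤ (1 - (t'' : ℝ)) * η :=
          mul_le_mul_of_nonneg_left n1.le (by linarith)
        linarith
    have h7 : Meet_dot (z - z₀) (vout e₁) < 0 := by
      rw [e6, SndNon_dot]
      rcases eq_or_lt_of_le t0 with h7 | h7
      · rw [← h7]
        linarith
      · have h8 : (t'' : ℝ) * Meet_dot (z₂ - z₀) (vout e₁) < 0 := mul_neg_of_pos_of_neg h7 m2'
        have h9 : (1 - (t'' : ℝ)) * Meet_dot (z₁ - z₀) (vout e₁) ≤ 0 :=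
          mul_nonpos_of_nonneg_of_nonpos (by linarith) m1'.le
        linarith
    rcases KZ with h8 | h8
    · have h9 := H1 z h8 (h6.trans_le (by rw [hη]; exact min_le_left _ _))
      linarith
    · have h9 := H2' z h8 (h6.trans_le (by rw [hη]; exact min_le_right _ _))
      linarith
  · rw [ht] at e5
    obtain ⟨h6, h7⟩ := G2 t''
    rw [← e5] at h6 h7
    rcases KZ with h8 | h8
    · exact h7 ((split_meet s21 hbc h6 h8).trans hz₀.symm)
    · exact h7 ((split_meet s22 hbd h6 h8).trans hz₀'.symm)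

end Pool.Agent.SOD
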