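import Pool.Agent.SOD.SndBasic

/-! Project SOD, module SndQ (size 3): the properties (b), (c) and exclusivity for the quartets of a drawing. -/

set_option autoImplicit false

open Set

namespace Pool.Agent.SOD

open Pool.Agent.SOC Pool.Agent.SOC.Drawing

variable {V : Type} {G : SimpleGraph V} {D : Drawing V}

/-- there is no closed smooth walk -/
private theorem SndQ_noloop (hS : D.StrictW G) {b : V} {d e : D.Dart} (h1 : From b d) (h : Follows d e)
    (h2 : To e b) : False := by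
  obtain ⟨p, q, hw, -⟩ := concat h1 h2 h
  exact hS.2 b _ hw

/-- PROOF. TD a b c d by (d₁, d₂, e₁, e₂), TD a d b c by (f₁, f₂, g₁, g₂). split_cases on the walk from a to c (a ≠ c by td_adj): (d₁,
e₁), (f₁, g₂). Equal: follows_trans (Follows d₂ e₁, Follows d₁ e₁, Follows d₁ = f₁ g₁): Follows d₂ g₁, `concat` From b d₂, To g₁ b:
closed walk, hS.2. Conn e₁ f₁: from_conn: From b f₁, Follows f₁ g₁, To g₁ b: closed walk. Conn g₂ d₁: from_conn (From d f₂, Follows f₂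
g₂): From d d₁, Follows d₁ e₂, To e₂ d: closed walk. -/
theorem td_notboth (hR : D.RepresentsW G) (hS : D.StrictW G) {a b c d : V} (h : TD D a b c d) : ¬ TD D a d b c := by
  intro h'
  have hac : a ≠ c := (td_adj hR hS h).ne
  obtain ⟨-, -, d₁, d₂, e₁, e₂, had, hbd, hec, hed, h11, h12, h21, h22⟩ := h
  obtain ⟨-, -, f₁, f₂, g₁, g₂, haf, hdf, hgb, hgc, k11, k12, k21, k22⟩ := h'
  rcases split_cases hR hS hac had hec h11 haf hgc k12 with ⟨rfl, rfl⟩ | hc | hc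
  · exact SndQ_noloop hS hbd (follows_trans h21 h11 k11) hgb
  · exact SndQ_noloop hS (from_conn hbd h21 hc) k11 hgb
  · exact SndQ_noloop hS (from_conn hdf k22 hc) h12 hed

/-- PROOF. TD u w x y by (d₁, d₂, e₁, e₂), TD u w y z by (d₁', d₂', e₁', e₂'). split_cases on the walk from u to y: (d₁, e₂), (d₁', e₁').
Equal: (d₁, d₂, e₁, e₂') with follows_trans for d₂. Conn e₂ d₁': conn_to: To e₂ z: (d₁, d₂, e₁, e₂). Conn e₁' d₁: conn_to: To e₁' x: (d₁',
d₂', e₁', e₂'). -/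
theorem td_trans (hR : D.RepresentsW G) (hS : D.StrictW G) {u w x y z : V} (h : TD D u w x y) (h' : TD D u w y z)
    (hxz : x ≠ z) : TD D u w x z := by
  have huy : u ≠ y := (td_adj hR hS h').ne
  obtain ⟨huw, -, d₁, d₂, e₁, e₂, hud, hwd, hex, hey, h11, h12, h21, h22⟩ := h
  obtain ⟨-, -, f₁, f₂, g₁, g₂, huf, hwf, hgy, hgz, k11, k12, k21, k22⟩ := h'
  rcases split_cases hR hS huy hud hey h12 huf hgy k11 with ⟨rfl, rfl⟩ | hc | hc
  · exact ⟨huw, hxz, d₁, d₂, e₁, g₂, hud, hwd, hex, hgz, h11, k12, h21, follows_trans h22 h12 k12⟩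
  · exact ⟨huw, hxz, d₁, d₂, e₁, e₂, hud, hwd, hex, conn_to hc k12 hgz, h11, h12, h21, h22⟩
  · exact ⟨huw, hxz, f₁, f₂, g₁, g₂, huf, hwf, conn_to hc h11 hex, hgz, k11, k12, k21, k22⟩

/-- PROOF. TD a x b y by (d₁, d₂, e₁, e₂), TD a x' b y' by (d₁', d₂', e₁', e₂'). split_cases on the walk from a to b: (d₁, e₁), (d₁', e₁').
Equal: TD a x b y' by (d₁, d₂, e₁, e₂') (follows_trans). Conn e₁ d₁': from_conn: From x d₁': TD a x b y' by (d₁', d₁', e₁', e₂'). Conn e₁'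
d₁: From x' d₁: TD a x' b y by (d₁, d₁, e₁, e₂). -/
theorem td_ferrers (hR : D.RepresentsW G) (hS : D.StrictW G) {a b x y x' y' : V} (h : TD D a x b y)
    (h' : TD D a x' b y') : TD D a x b y' ∨ TD D a x' b y := by
  have hab : a ≠ b := (td_adj hR hS h).ne
  obtain ⟨hax, hby, d₁, d₂, e₁, e₂, had, hxd, heb, hey, h11, h12, h21, h22⟩ := h
  obtain ⟨hax', hby', f₁, f₂, g₁, g₂, haf, hxf, hgb, hgy, k11, k12, k21, k22⟩ := h'
  rcases split_cases hR hS hab had heb h11 haf hgb k11 with ⟨rfl, rfl⟩ | hc | hc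
  · exact Or.inl ⟨hax, hby', d₁, d₂, e₁, g₂, had, hxd, heb, hgy, h11, k12, h21,
      follows_trans h21 h11 k12⟩
  · exact Or.inl ⟨hax, hby', f₁, f₁, g₁, g₂, haf, from_conn hxd h21 hc, hgb, hgy, k11, k12, k11, k12⟩
  · exact Or.inr ⟨hax', hby, d₁, d₁, e₁, e₂, had, from_conn hxf k21 hc, heb, hey, h11, h12, h11, h12⟩

end Pool.Agent.SOD
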