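import Pool.Agent.SOD.SndBasic

/-! Project SOD, module SndSome (size 3): two crossing edges give a quartet. -/

set_option autoImplicit false

open Set

namespace Pool.Agent.SOD

open Pool.Agent.SOC Pool.Agent.SOC.Drawing

variable {V : Type} {G : SimpleGraph V} {D : Drawing V}

/-- cut a smooth walk at a junction -/
theorem sndsome_split {a c : V} {p : List D.Dart} (hp : IsSmoothWalk a c p) {x : V ⊕ D.J} (hx : x ∈ junctions p) :
    ∃ d e : D.Dart, beg e = x ∧ From a d ∧ To e c ∧ Follows d e := by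
  obtain ⟨hp1, hp2, hp3⟩ := hp
  obtain ⟨d0, p', rfl⟩ : ∃ d0 p', p = d0 :: p' := by
    cases p with
    | nil => exact absurd hp2 (by simp)
    | cons d0 p' => exact ⟨d0, p', rfl⟩
  obtain ⟨e, he, hex⟩ := List.mem_map.1 hx
  obtain ⟨l1, l2, h1⟩ := List.append_of_mem (show e ∈ p' from he)
  subst h1
  obtain ⟨d, hd⟩ : ∃ d, (d0 :: l1).getLast? = some d := ⟨_, List.getLast?_eq_getLast_of_ne_nil (List.cons_ne_nil _ _)⟩
  have hpc : ((d0 :: l1) ++ (e :: l2)).IsChain Follows := hp1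
  rw [List.isChain_append] at hpc
  obtain ⟨c1, c2, c3⟩ := hpc
  have hdl : (d0 :: l1).dropLast ++ [d] = d0 :: l1 := List.dropLast_append_getLast? d hd
  refine ⟨d, e, hex, ⟨(d0 :: l1).dropLast, ?_, ?_⟩, ⟨l2, c2, ?_⟩, c3 d hd e rfl⟩
  · rw [hdl]
    exact c1
  · rw [hdl]
    exact hp2
  · have h8 : ((d0 :: l1) ++ (e :: l2)).getLast?.map fin = some (Sum.inl c) := hp3
    rw [List.getLast?_append_of_ne_nil _ (List.cons_ne_nil _ _)] at h8
    exact h8

/-- PROOF. The common junction x = inr j. x is beg of some element e of p.tail: p = p₁ ++ d' :: e :: p₂ with fin d' = x; q = q₁ ++ f :: g ::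
q₂ with beg g = x. So From a d', To e c, From b f, To g d. Walk_ray etc.: vin d' and vin f are on the same ray or on opposite rays. Same:
Follows d' g, Follows f e: TD a b c d by (d', f, e, g). Opposite: the reversed darts: From d (Walk_rv g) (to_rv), To (Walk_rv f) b
(from_rv): TD a d b c by (d', Walk_rv g, Walk_rv f, e): Follows d' (Walk_rv f) as vout (Walk_rv f) = - vin f ∥ vin d', Follows
(Walk_rv g) e as vin (Walk_rv g) = - vout g ∥ - vin f ∥ vin d' ∥ vout e. -/
theorem td_of_common {a b c d : V} (hab : a ≠ b) (had : a ≠ d) (hbc : b ≠ c) (hcd : c ≠ d)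
    {p q : List D.Dart} (hp : IsSmoothWalk a c p) (hq : IsSmoothWalk b d q)
    (h : ∃ x ∈ junctions p, x ∈ junctions q) : TD D a b c d ∨ TD D a d b c := by
  obtain ⟨x, hx1, hx2⟩ := h
  obtain ⟨d', e, he, hFa, hTc, hf1⟩ := sndsome_split hp hx1
  obtain ⟨f, g, hg, hFb, hTd, hf2⟩ := sndsome_split hq hx2
  obtain ⟨j, hj⟩ := hf1.2.1
  have hbg : beg g = Sum.inr j := hg.trans (he.symm.trans hj)
  have hfd : fin d' = Sum.inr j := hf1.1.trans hj
  have hff : fin f = Sum.inr j := hf2.1.trans hbg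
  have n1 := (Walk_vin hfd).1
  have n2 := (Walk_vin hff).1
  have n3 := (Walk_vout hj).1
  have n4 := (Walk_vout hbg).1
  rcases Walk_ray hfd hbg with hray | hray
  · left
    have k1 : Follows d' g := ⟨hfd.trans hbg.symm, ⟨j, hbg⟩, hray⟩
    have r1 : SameRay ℝ (vin f) (vin d') := hf2.2.2.trans hray.symm fun h0 => absurd h0 n4
    have r2 : SameRay ℝ (vin f) (vout e) := r1.trans hf1.2.2 fun h0 => absurd h0 n1
    have k2 : Follows f e := ⟨hff.trans hj.symm, ⟨j, hj⟩, r2⟩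
    exact ⟨hab, hcd, d', f, e, g, hFa, hFb, hTc, hTd, hf1, k1, k2, hf2⟩
  · right
    have r0 : SameRay ℝ (- vout g) (- vin f) := (sameRay_neg_iff.2 hf2.2.2).symm
    have r1 : SameRay ℝ (vin d') (- vin f) := hray.trans r0 fun h0 => absurd (neg_eq_zero.1 h0) n4
    have k1 : Follows d' (Walk_rv f) := by
      refine ⟨?_, ⟨j, ?_⟩, ?_⟩
      · rw [Walk_beg_rv, hfd, hff]
      · rw [Walk_beg_rv, hff]
      · rw [Walk_vout_rv]
        exact r1
    have r2 : SameRay ℝ (- vout g) (vout e) := hray.symm.trans hf1.2.2 fun h0 => absurd h0 n1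
    have k2 : Follows (Walk_rv g) e := by
      refine ⟨?_, ⟨j, hj⟩, ?_⟩
      · rw [Walk_fin_rv, hbg, hj]
      · rw [Walk_vin_rv]
        exact r2
    exact ⟨had, hbc, d', Walk_rv g, Walk_rv f, e, hFa, to_rv hTd, from_rv hFb, hTc, k1, hf1,
      Walk_follows_rv hf2, k2⟩

/-- PROOF: as Sound_claim in SOC/Sound.lean: walks p, q by hR (they are smooth paths by hN); alt_of_cross, paths_meet, exists_path,
common_junction; then td_of_common. -/
theorem snd_some [DecidableEq V] {s : List V} (hR : D.RepresentsW G) (hN : D.NoRevisit) (hs : D.InDisc s) {a b c d : V}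
    (hac : G.Adj a c) (hbd : G.Adj b d) (hab : a ≠ b) (had : a ≠ d) (hbc : b ≠ c) (hcd : c ≠ d)
    (hcr : Cross s a c b d) : TD D a b c d ∨ TD D a d b c := by
  have hA := alt_of_cross hs (a := a) (b := b) (c := c) (d := d) hac.ne hbd.ne hab had hbc.symm hcd hcr
  obtain ⟨p, hp⟩ := (hR a c hac.ne).1 hac
  obtain ⟨q, hq⟩ := (hR b d hbd.ne).1 hbd
  have hp' : IsSmoothPath a c p := ⟨hp.1, hp.2.1, hp.2.2, hN _ _ _ hp⟩
  have hq' : IsSmoothPath b d q := ⟨hq.1, hq.2.1, hq.2.2, hN _ _ _ hq⟩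
  obtain ⟨g, hg⟩ := Drawing.exists_path hp'
  obtain ⟨g', hg'⟩ := Drawing.exists_path hq'
  obtain ⟨hle, hE, θ, hθ, -, -⟩ := hs
  have hnorm : ∀ w, ‖D.pos (Sum.inl w)‖ = 1 := by
    intro w
    rw [hθ]
    exact Complex.norm_exp_ofReal_mul_I _
  have hinj : ∀ {w w' : V}, w ≠ w' → D.pos (Sum.inl w) ≠ D.pos (Sum.inl w') := by
    intro w w' hw e
    exact hw (Sum.inl_injective (D.pos_inj e))
  obtain ⟨t, t', ht⟩ := paths_meet (hnorm a) (hnorm b) (hnorm c) (hnorm d) (hinj hac.ne) (hinj hbd.ne)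
    (hinj hab) (hinj hbc) hA g g'
    (fun t => by obtain ⟨e, _, z, hz, e1⟩ := hg t; rw [e1]; exact hle _ _ hz)
    (fun t => by obtain ⟨e, _, z, hz, e1⟩ := hg' t; rw [e1]; exact hle _ _ hz)
  have hj := Drawing.common_junction hp' hq' hab had hbc.symm hcd ⟨g t, hg t, by rw [ht]; exact hg' t'⟩
  exact td_of_common hab had hbc hcd hp hq hj

end Pool.Agent.SOD
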