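import Pool.Agent.SOD.Realize
import Pool.Agent.SOD.SndQ
import Pool.Agent.SOD.SndSome
import Pool.Agent.SOD.SndNon

/-! Project SOD, module Main (size 1): the fixed order theorem. -/

set_option autoImplicit false

open Set

namespace Pool.Agent.SOD

open Pool.Agent.SOC Pool.Agent.SOC.Drawing

variable {V : Type} {G : SimpleGraph V}

private theorem Main_walk_iff {D : Drawing V} (hN : D.NoRevisit) {u v : V} {p : List D.Dart} :
    IsSmoothWalk u v p ↔ IsSmoothPath u v p :=
  ⟨fun h => ⟨h.1, h.2.1, h.2.2, hN u v p h⟩, fun h => ⟨h.1, h.2.1, h.2.2.1⟩⟩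

theorem qt_of_drawing [DecidableEq V] {s : List V} (h : FixedOrderW G s) : ∃ T, QT G (Cross s) T := by
  obtain ⟨D, hR, hS, hN, hs⟩ := h
  have hRW : D.RepresentsW G := by
    intro u v huv
    rw [hR u v huv]
    exact ⟨fun ⟨p, hp⟩ => ⟨p, (Main_walk_iff hN).2 hp⟩, fun ⟨p, hp⟩ => ⟨p, (Main_walk_iff hN).1 hp⟩⟩
  have hSW : D.StrictW G := by
    refine ⟨fun u v huv => ?_, fun u p hp => hS.2 u p ((Main_walk_iff hN).1 hp)⟩
    obtain ⟨p, hp, hu⟩ := hS.1 u v huv
    exact ⟨p, (Main_walk_iff hN).2 hp, fun q hq => hu q ((Main_walk_iff hN).1 hq)⟩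
  refine ⟨TD D, ?_⟩
  exact
    { swap₁ := fun h => td_swap1 h
      swap₂ := fun h => td_swap2 h
      ne := fun h => h.1
      adj := fun h => td_adj hRW hSW h
      nocross := fun h => snd_nocross hSW hN hs h
      some := fun hac hbd hab had hbc hcd hcr => snd_some hRW hN hs hac hbd hab had hbc hcd hcr
      notboth := fun h => td_notboth hRW hSW h
      trans := fun h h' hxz => td_trans hRW hSW h h' hxz
      ferrers := fun h h' => td_ferrers hRW hSW h h' }

/-- the fixed order theorem -/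
theorem fixed_order_iff [DecidableEq V] {s : List V} (hs : IsEnum s) :
    FixedOrderW G s ↔ ∃ T, QT G (Cross s) T :=
  ⟨qt_of_drawing, fun ⟨_, h⟩ => realize_list hs h⟩

end Pool.Agent.SOD
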