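import Pool.Agent.SOD.TopCases

/-! Project SOD, module R1b (size 4): the invariant r1 at stage `insert v D`, case a' = v. -/

set_option autoImplicit false

open Set

namespace Pool.Agent.SOD

variable {V : Type} [LinearOrder V] [Fintype V] {G : SimpleGraph V} {N : Nd V → Prop} {D : Finset V}

/-- PROOF (case a = v). If K' = out v: x' (out v) = x' (inn v) (hX.sw') and hX.max. Otherwise top_right for K': v ∉ K'.2,
a₁ ∈ K'.2. m ∈ K'.2: m = m' or hN.int2 (x = v, y = a₁, y' = m', z = m > m'; v ~ m as v ∈ K.1, m ∈ K.2). So K' contains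
(v; m) and K'.2 meets insert v D: K'.1 ⊆ K.1. K ≠ out v (otherwise K'.1 = {v} = K.1, K' = K by strict). top_right
for K: a₁ ∈ K.2. hN.chain (K', K; v, m): K.2 ⊆ K'.2 (or K.1 ⊆ K'.1, then K = K', done). If K'.1 does not meet D, then
K'.swap is private. If moreover K.1 does not meet D: K.swap is private with K.swap.1 = K.2 ⊆ K'.2 = K'.swap.1, equal (then
K = K' by strict) or hX.mono; use hX.sw'. If K.1 meets D: x K ≤ x h by bound_v, x h < x' K'.swap by hX.left, x' K = x K.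
If K'.1 meets D in x₀: x₀ ∈ K.1 too; Top N D x₀ m' K', Top N D x₀ m K by top_x0; hO.r1 (a = a' = x₀). -/
theorem r1b_eq (hN : Nds G N) {v : V} (hD : Low D) (hD' : Low (insert v D)) (hv : v ∉ D) {x x' : Nd V → ℝ}
    (hO : Ord N D x) (hX : XStep G N D v x x') {m m' : V} {K K' : Nd V}
    (hm : m ∉ insert v D) (hm' : m' ∉ insert v D) (hmm : m' ≤ m)
    (hK : Top N (insert v D) v m K) (hK' : Top N (insert v D) v m' K') : x' K ≤ x' K' := by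
  by_cases hne' : K' = out G v
  · rw [hne', ← inn_swap, hX.sw']
    exact hX.max (top_st hK (Finset.mem_insert_self v D))
  obtain ⟨hvK', a₁, ha₁, ha₁K'⟩ := top_right hN hD hD' hv hm' hK' hne'
  have hNK := hK.1
  have hvK := hK.2.1
  have hmK := hK.2.2.1
  have hNK' := hK'.1
  have hvK'1 := hK'.2.1
  have hmK' := hK'.2.2.1
  have hvm : v < m := hD' v (Finset.mem_insert_self v D) m hm
  have hvm' : v < m' := hD' v (Finset.mem_insert_self v D) m' hm'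
  have ha₁v : a₁ < v := hD a₁ ha₁.1 v hv
  have hadj : G.Adj v m := hN.adj hNK hvK hmK hvm.ne
  have hmK'2 : m ∈ K'.2 := by
    rcases hmm.eq_or_lt with h | h
    · rw [← h]; exact hmK'
    · exact hN.int2 hNK' hvK'1 ha₁K' hmK' hadj ha₁v hvm' (Or.inr h)
  have hsub : K'.1 ⊆ K.1 := hK.2.2.2.2 K' hNK' hvK'1 hmK'2 ⟨a₁, ha₁K', Finset.mem_insert_of_mem ha₁.1⟩
  have heq : K.1 ⊆ K'.1 → K = K' := fun h =>
    hN.strict hNK hNK' (h.antisymm hsub) hvm.ne hvK hmK hmK'2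
  have hne : K ≠ out G v := by
    intro h
    have h1 : K.1 ⊆ K'.1 := by
      rw [h]
      show ({v} : Finset V) ⊆ K'.1
      rw [Finset.singleton_subset_iff]
      exact hvK'1
    exact hne' (by rw [← heq h1]; exact h)
  obtain ⟨hvK2, a₁', ha₁', ha₁K⟩ := top_right hN hD hD' hv hm hK hne
  rw [minNb_unique ha₁' ha₁] at ha₁K
  have hoK : (∃ y ∈ K.1, y ∈ D) → x' K = x K := fun h => hX.old ⟨hNK, h, a₁, ha₁K, ha₁.1⟩
  have hoK' : (∃ y ∈ K'.1, y ∈ D) → x' K' = x K' := fun h => hX.old ⟨hNK', h, a₁, ha₁K', ha₁.1⟩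
  rcases hN.chain hNK' hNK hvm.ne hvK'1 hvK hmK'2 hmK with ⟨-, h2⟩ | ⟨h1, -⟩
  swap
  · rw [heq h1]
  by_cases hd' : ∃ y ∈ K'.1, y ∈ D
  · obtain ⟨x₀, hx₀, hx₀D⟩ := hd'
    rw [hoK ⟨x₀, hsub hx₀, hx₀D⟩, hoK' ⟨x₀, hx₀, hx₀D⟩]
    have t1 := (top_x0 hN hD hD' hv hm hK hne (hsub hx₀) hx₀D).1
    have t2 := (top_x0 hN hD hD' hv hm' hK' hne' hx₀ hx₀D).1
    exact hO.r1 hx₀D hx₀D (fun h => hm (Finset.mem_insert_of_mem h)) (fun h => hm' (Finset.mem_insert_of_mem h))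
      le_rfl hmm t1 t2
  · have hp' : Priv G N D v K'.swap :=
      ⟨hN.swap hNK', hvK'1, fun y hy hyD => hd' ⟨y, hy, hyD⟩, Or.inr ⟨a₁, ha₁K', ha₁.1⟩⟩
    by_cases hd : ∃ y ∈ K.1, y ∈ D
    · obtain ⟨x₀, hx₀, hx₀D⟩ := hd
      obtain ⟨h, hh⟩ := top_exists hN ha₁.1 hv ha₁.2.1.symm
      rw [hoK ⟨x₀, hx₀, hx₀D⟩, ← hX.sw' K']
      exact (bound_v hN hD hD' hv hO hm hK hne hx₀ hx₀D ha₁ hh).trans (hX.left ha₁ hh hp' ha₁K').le
    · have hp : Priv G N D v K.swap :=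
        ⟨hN.swap hNK, hvK, fun y hy hyD => hd ⟨y, hy, hyD⟩, Or.inr ⟨a₁, ha₁K, ha₁.1⟩⟩
      rcases h2.eq_or_ssubset with h | h
      · have he : K.swap = K'.swap := hN.strict (hN.swap hNK) (hN.swap hNK') h hvm.ne' hmK hvK hvK'1
        rw [← hX.sw' K, he, hX.sw' K']
      · rw [← hX.sw' K, ← hX.sw' K']
        exact (hX.mono ha₁ hp hp' ha₁K h).le

/-- PROOF (case a ∈ D). If K' = out v: hX.max. Otherwise a₁ ∈ K'.2, v ∈ K'.1, v ∉ K'.2 (top_right); v < m' ≤ m.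
Observation (*): if K is private (v ∈ K.2, K.2 does not meet D; a₁ ∈ K.1 by priv_left) then K.1 ⊆ K'.2 and K'.1 ⊆ K.2: by
 hN.chain (K, K'.swap; a₁, v), as K'.2 ⊆ K.1, K.2 ⊆ K'.1 is impossible: m ∈ K'.1, m' ∈ K'.2; if m = m': not_both; if
 m' < m: a₁ < v < m' < m with a₁, m' ∈ K'.2; v, m ∈ K'.1: hN.noninter for K'.swap.
(A) K'.1 does not meet D: K'.swap is private, a₁ ∈ K'.swap.1. K old (K.2 meets D): x K ≤ x h (`bound`) < x' K'.swap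
 (hX.left). K private: by (*) K.1 ⊆ K'.swap.1: equal (then K = K'.swap by strict (a₁, v)) or hX.mono.
(B) K'.1 meets D. K private is impossible: (*) gives x₀ ∈ K'.1 ∩ D in K.2. So K is old, Top N D a m K (top_old).
 If there is x₀ ∈ K'.1 ∩ D with a ≤ x₀: Top N D x₀ m' K' (top_x0), hO.r1 (a ≤ x₀, m' ≤ m).
 Otherwise a ∉ K'.1; take x₀ ∈ K'.1 ∩ D, x₀ < a < v; a₁ < x₀ (top_x0); a ~ m. Contradiction:
  m = m': hN.int1 for K'.swap (x = m' ∈ K'.2; y = x₀, y' = v ∈ K'.1; z = a; v < m'): a ∈ K'.1.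
  m' < m: hN.cross for a₁ < a < v < m (a₁ ~ v, a ~ m): K₀.
   Type 1 (a₁, a ∈ K₀.1; v, m ∈ K₀.2), hN.chain (K₀, K'.swap; a₁, v): K₀.1 ⊆ K'.2: a ∈ K'.2, x₀ < a < v < m' with x₀, v ∈
     K'.1, a, m' ∈ K'.2: noninter. K'.2 ⊆ K₀.1: m' ∈ K₀.1, a < v < m' < m with a, m' ∈ K₀.1; v, m ∈ K₀.2: noninter.
   Type 2 (a₁, m ∈ K₀.1; a, v ∈ K₀.2), hN.chain (K₀, K'.swap; a₁, v): K₀.1 ⊆ K'.2: m ∈ K'.2, then hN.int1 for K'.swap
     (x = m; y = x₀, y' = v; z = a): a ∈ K'.1. K'.2 ⊆ K₀.1, K₀.2 ⊆ K'.1: a ∈ K'.1. -/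
theorem r1b_lt (hN : Nds G N) {v : V} (hD : Low D) (hD' : Low (insert v D)) (hv : v ∉ D) {x x' : Nd V → ℝ}
    (hO : Ord N D x) (hX : XStep G N D v x x') {a m m' : V} {K K' : Nd V} (ha : a ∈ D)
    (hm : m ∉ insert v D) (hm' : m' ∉ insert v D) (hmm : m' ≤ m)
    (hK : Top N (insert v D) a m K) (hK' : Top N (insert v D) v m' K') : x' K ≤ x' K' := by
  by_cases hne' : K' = out G v
  · rw [hne', ← inn_swap, hX.sw']
    exact hX.max (top_st hK (Finset.mem_insert_of_mem ha))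
  obtain ⟨hvK', a₁, ha₁, ha₁K'⟩ := top_right hN hD hD' hv hm' hK' hne'
  have hNK := hK.1
  have haK := hK.2.1
  have hmK := hK.2.2.1
  have hNK' := hK'.1
  have hvK'1 := hK'.2.1
  have hmK' := hK'.2.2.1
  have hvm : v < m := hD' v (Finset.mem_insert_self v D) m hm
  have hvm' : v < m' := hD' v (Finset.mem_insert_self v D) m' hm'
  have ha₁v : a₁ < v := hD a₁ ha₁.1 v hv
  have hav : a < v := hD a ha v hv
  have ham : a < m := hav.trans hvm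
  have hmD : m ∉ D := fun h => hm (Finset.mem_insert_of_mem h)
  have hmD' : m' ∉ D := fun h => hm' (Finset.mem_insert_of_mem h)
  -- the case that `K` is private
  have hpriv : (¬ ∃ y ∈ K.2, y ∈ D) → Priv G N D v K ∧ v ∈ K.2 ∧ a₁ ∈ K.1 ∧ K.1 ⊆ K'.2 ∧ K'.1 ⊆ K.2 := by
    intro hno
    have hvK : v ∈ K.2 := by
      obtain ⟨y, hy, hyD⟩ := hK.2.2.2.1
      rcases Finset.mem_insert.1 hyD with h | h
      · rw [← h]; exact hy
      · exact absurd ⟨y, hy, h⟩ hno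
    obtain ⟨a₁', ha₁', ha₁K⟩ := priv_left hN hD hD' hv ha hm hK hvK
    rw [minNb_unique ha₁' ha₁] at ha₁K
    refine ⟨⟨hNK, hvK, fun y hy hyD => hno ⟨y, hy, hyD⟩, Or.inr ⟨a, haK, ha⟩⟩, hvK, ha₁K, ?_⟩
    rcases hN.chain hNK (hN.swap hNK') ha₁v.ne ha₁K ha₁K' hvK hvK'1 with h | ⟨h1, h2⟩
    · exact h
    · exfalso
      have hmK'1 : m ∈ K'.1 := h2 hmK
      rcases hmm.eq_or_lt with h | h
      · rw [h] at hmK'
        exact not_both hN hNK' hvK'1 hvm.ne ha₁K' (ha₁v.trans hvm).ne ⟨hmK'1, hmK'⟩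
      · exact hN.noninter (hN.swap hNK') (x := a₁) (x' := m') (y := v) (y' := m) ha₁K' hmK' hvK'1 hmK'1 ha₁v hvm' h
  by_cases hd' : ∃ y ∈ K'.1, y ∈ D
  · obtain ⟨x₁, hx₁, hx₁D⟩ := hd'
    have hold : ∃ y ∈ K.2, y ∈ D := by
      by_contra hno
      obtain ⟨-, -, -, -, h2⟩ := hpriv hno
      exact hno ⟨x₁, h2 hx₁, hx₁D⟩
    have hT := top_old hK hold
    rw [hX.old (top_st hT ha), hX.old (⟨hNK', ⟨x₁, hx₁, hx₁D⟩, a₁, ha₁K', ha₁.1⟩ : St N D K')]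
    by_cases hle : ∃ x₀ ∈ K'.1, x₀ ∈ D ∧ a ≤ x₀
    · obtain ⟨x₀, hx₀, hx₀D, hax₀⟩ := hle
      exact hO.r1 ha hx₀D hmD hmD' hax₀ hmm hT (top_x0 hN hD hD' hv hm' hK' hne' hx₀ hx₀D).1
    · exfalso
      have haK' : a ∉ K'.1 := fun h => hle ⟨a, h, ha, le_rfl⟩
      have hx₁a : x₁ < a := lt_of_not_ge fun h => hle ⟨x₁, hx₁, hx₁D, h⟩
      have ha₁x : a₁ < x₁ := (top_x0 hN hD hD' hv hm' hK' hne' hx₁ hx₁D).2 a₁ ha₁
      have hadj : G.Adj a m := hN.adj hNK haK hmK ham.ne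
      rcases hmm.eq_or_lt with h | h
      · rw [h] at hmK'
        exact haK' (hN.int1 (hN.swap hNK') (x := m) (y := x₁) (y' := v) (z := a) hmK' hx₁ hvK'1 hadj.symm hx₁a hav
          (Or.inr hvm))
      · obtain ⟨K₀, hK₀, hc⟩ := hN.cross (ha₁x.trans hx₁a) hav hvm ha₁.2.1.symm hadj
        rcases hc with ⟨c1, c2, c3, c4⟩ | ⟨c1, c2, c3, c4⟩
        · rcases hN.chain hK₀ (hN.swap hNK') ha₁v.ne c1 ha₁K' c3 hvK'1 with ⟨e1, -⟩ | ⟨e1, -⟩
          · exact hN.noninter hNK' (x := x₁) (x' := v) (y := a) (y' := m') hx₁ hvK'1 (e1 c2) hmK' hx₁a hav hvm'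
          · exact hN.noninter hK₀ (x := a) (x' := m') (y := v) (y' := m) c2 (e1 hmK') c3 c4 hav hvm' h
        · rcases hN.chain hK₀ (hN.swap hNK') ha₁v.ne c1 ha₁K' c4 hvK'1 with ⟨e1, -⟩ | ⟨-, e2⟩
          · exact haK' (hN.int1 (hN.swap hNK') (x := m) (y := x₁) (y' := v) (z := a) (e1 c2) hx₁ hvK'1 hadj.symm
              hx₁a hav (Or.inr hvm))
          · exact haK' (e2 c3)
  · have hp' : Priv G N D v K'.swap :=
      ⟨hN.swap hNK', hvK'1, fun y hy hyD => hd' ⟨y, hy, hyD⟩, Or.inr ⟨a₁, ha₁K', ha₁.1⟩⟩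
    by_cases hold : ∃ y ∈ K.2, y ∈ D
    · have hT := top_old hK hold
      obtain ⟨h, hh⟩ := top_exists hN ha₁.1 hv ha₁.2.1.symm
      rw [hX.old (top_st hT ha), ← hX.sw' K']
      exact (bound hN hD hD' hv hO ha hm hT hK ha₁ hh).trans (hX.left ha₁ hh hp' ha₁K').le
    · obtain ⟨hp, hvK, ha₁K, h1, -⟩ := hpriv hold
      rw [← hX.sw' K']
      rcases h1.eq_or_ssubset with h | h
      · have he : K = K'.swap := hN.strict hNK (hN.swap hNK') h ha₁v.ne ha₁K hvK hvK'1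
        rw [← he]
      · exact (hX.mono ha₁ hp hp' ha₁K h).le

end Pool.Agent.SOD
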