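import Pool.Agent.SOD.TopCases

/-! Project SOD, module R2 (size 3): the invariant r2 at stage `insert v D`. -/

set_option autoImplicit false

open Set

namespace Pool.Agent.SOD

variable {V : Type} [LinearOrder V] [Fintype V] {G : SimpleGraph V} {N : Nd V → Prop} {D : Finset V}

/-- PROOF (a' ∈ D). K' is old, i.e. K'.2 meets D: otherwise v ∈ K'.2; hN.chain (K', K₀.swap; a', m'): K₀.1 ⊆ K'.2 is
impossible (a ∈ D); so K₀.2 ⊆ K'.1, K'.2 ⊆ K₀.1: v ∈ K₀.1, a < a' < v < m with a, v ∈ K₀.1; a', m ∈ K₀.2: noninter.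
If K is old: hO.r2. If K is private (v ∈ K.2, no element of D in K.2): x K' ≤ x h by `bound`, x h < x' K by hX.left
(a₁ ∈ K.1 by priv_left; h by top_exists). -/
theorem r2_old (hN : Nds G N) {v : V} (hD : Low D) (hD' : Low (insert v D)) (hv : v ∉ D) {x x' : Nd V → ℝ}
    (hO : Ord N D x) (hX : XStep G N D v x x') {a a' m m' : V} {K K' K₀ : Nd V} (ha' : a' ∈ D) (haa : a < a')
    (hm : m ∉ insert v D) (hm' : m' ∉ insert v D) (hmm : m < m') (hK₀ : N K₀) (h1 : a ∈ K₀.1) (h2 : m' ∈ K₀.1)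
    (h3 : a' ∈ K₀.2) (h4 : m ∈ K₀.2)
    (hK : Top N (insert v D) a m K) (hK' : Top N (insert v D) a' m' K') : x' K' ≤ x' K := by
  have ha : a ∈ D := by
    by_contra h
    exact lt_asymm haa (hD a' ha' a h)
  have hmD : m ∉ D := fun h => hm (Finset.mem_insert_of_mem h)
  have hmD' : m' ∉ D := fun h => hm' (Finset.mem_insert_of_mem h)
  have hav : a' < v := hD a' ha' v hv
  have hvm : v < m := hD' v (Finset.mem_insert_self _ _) m hm
  have ham' : a' ≠ m' := fun h => hmD' (h ▸ ha')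
  have hmeet : ∃ y ∈ K'.2, y ∈ D := by
    by_contra hno
    push Not at hno
    obtain ⟨y, hy, hyD⟩ := hK'.2.2.2.1
    have hyv : y = v := by
      rcases Finset.mem_insert.1 hyD with h | h
      · exact h
      · exact absurd h (hno y hy)
    have hvK : v ∈ K'.2 := hyv ▸ hy
    rcases hN.chain hK'.1 (hN.swap hK₀) ham' hK'.2.1 h3 hK'.2.2.1 h2 with h | h
    · exact hno a (h.2 h1) ha
    · exact hN.noninter hK₀ h1 (h.2 hvK) h3 h4 haa hav hvm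
  have hT' : Top N D a' m' K' := top_old hK' hmeet
  have e' : x' K' = x K' := hX.old (top_st hT' ha')
  rw [e']
  by_cases hKm : ∃ y ∈ K.2, y ∈ D
  · have hT : Top N D a m K := top_old hK hKm
    rw [hX.old (top_st hT ha)]
    exact hO.r2 ha ha' hmD hmD' haa hmm hK₀ h1 h2 h3 h4 hT hT'
  · push Not at hKm
    obtain ⟨y, hy, hyD⟩ := hK.2.2.2.1
    have hyv : y = v := by
      rcases Finset.mem_insert.1 hyD with h | h
      · exact h
      · exact absurd h (hKm y hy)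
    have hvK : v ∈ K.2 := hyv ▸ hy
    have hP : Priv G N D v K := ⟨hK.1, hvK, hKm, Or.inr ⟨a, hK.2.1, ha⟩⟩
    obtain ⟨a₁, ha₁, ha₁K⟩ := priv_left hN hD hD' hv ha hm hK hvK
    obtain ⟨h, hh⟩ := top_exists hN ha₁.1 hv ha₁.2.1.symm
    exact (bound hN hD hD' hv hO ha' hm' hT' hK' ha₁ hh).trans (hX.left ha₁ hh hP ha₁K).le

/-- PROOF (a' = v; a ∈ D as a < v). K₀.swap contains (v; m') and a ∈ K₀.swap.2 = K₀.1: K₀.2 ⊆ K'.1 by hK'. So m ∈ K'.1,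
K' ≠ out v. hN.chain (K₀.swap, K'; v, m'): K'.2 ⊆ K₀.1 (in the other case K'.1 = K₀.2 and K' = K₀.swap by strict).
a₁ ∈ K'.2 (top_right), so a₁ ∈ K₀.1. K₀ contains (a; m), v ∈ K₀.2: K₀.1 ⊆ K.1 by hK; hN.chain (K₀, K; a, m): K.2 ⊆ K₀.2
(in the other case K = K₀). So a₁, m' ∈ K.1. K.2 meets insert v D.
(A) K'.1 does not meet D (K'.swap private): K.2 ⊆ K₀.2 ⊆ K'.1 does not meet D, so v ∈ K.2, K is private, K'.swap.1 =
 K'.2 ⊆ K₀.1 ⊆ K.1: equal (K'.swap = K by strict (a₁, v)) or hX.mono; hX.sw'.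
(B) K'.1 meets D: K' is old, x K' ≤ x h by bound_v. If K is private: x h < x' K by hX.left. If K is old (x₀ ∈ K.2 ∩ D):
 x₀ ∈ K₀.2 ⊆ K'.1; by top_x0 Top N D x₀ m' K' and a₁ < x₀. Top N D a₁ m K by top_transfer of top_old. hO.r2 with a := a₁,
 a' := x₀, m, m', K₀ := K (a₁, m' ∈ K.1; x₀, m ∈ K.2). -/
theorem r2_v (hN : Nds G N) {v : V} (hD : Low D) (hD' : Low (insert v D)) (hv : v ∉ D) {x x' : Nd V → ℝ}
    (hO : Ord N D x) (hX : XStep G N D v x x') {a m m' : V} {K K' K₀ : Nd V} (ha : a ∈ D)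
    (hm : m ∉ insert v D) (hm' : m' ∉ insert v D) (hmm : m < m') (hK₀ : N K₀) (h1 : a ∈ K₀.1) (h2 : m' ∈ K₀.1)
    (h3 : v ∈ K₀.2) (h4 : m ∈ K₀.2)
    (hK : Top N (insert v D) a m K) (hK' : Top N (insert v D) v m' K') : x' K' ≤ x' K := by
  have hmD : m ∉ D := fun h => hm (Finset.mem_insert_of_mem h)
  have hmD' : m' ∉ D := fun h => hm' (Finset.mem_insert_of_mem h)
  have hvm : v < m := hD' v (Finset.mem_insert_self _ _) m hm
  have hvm' : v ≠ m' := (hD' v (Finset.mem_insert_self _ _) m' hm').ne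
  have ham : a ≠ m := fun h => hmD (h ▸ ha)
  have hs1 : K₀.2 ⊆ K'.1 :=
    hK'.2.2.2.2 K₀.swap (hN.swap hK₀) h3 h2 ⟨a, h1, Finset.mem_insert_of_mem ha⟩
  have hne : K' ≠ out G v := by
    intro h
    have h5 : m ∈ K'.1 := hs1 h4
    rw [h] at h5
    have h6 : m = v := Finset.mem_singleton.1 h5
    exact hvm.ne h6.symm
  have hs2 : K'.2 ⊆ K₀.1 := by
    rcases hN.chain (hN.swap hK₀) hK'.1 hvm' h3 hK'.2.1 h2 hK'.2.2.1 with h | h
    · exact h.2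
    · have he : K₀.swap.1 = K'.1 := Finset.Subset.antisymm hs1 h.1
      have h6 := hN.strict (hN.swap hK₀) hK'.1 he hvm' h3 h2 hK'.2.2.1
      rw [← h6]
      exact Finset.Subset.refl _
  obtain ⟨hvK', a₁, ha₁, ha₁K'⟩ := top_right hN hD hD' hv hm' hK' hne
  have hs3 : K₀.1 ⊆ K.1 :=
    hK.2.2.2.2 K₀ hK₀ h1 h4 ⟨v, h3, Finset.mem_insert_self _ _⟩
  have hs4 : K.2 ⊆ K₀.2 := by
    rcases hN.chain hK₀ hK.1 ham h1 hK.2.1 h4 hK.2.2.1 with h | h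
    · exact h.2
    · have he : K₀.1 = K.1 := Finset.Subset.antisymm hs3 h.1
      have h6 := hN.strict hK₀ hK.1 he ham h1 h4 hK.2.2.1
      rw [← h6]
  have ha₁K : a₁ ∈ K.1 := hs3 (hs2 ha₁K')
  have hm'K : m' ∈ K.1 := hs3 h2
  have ha₁v : a₁ ≠ v := fun h => hv (h ▸ ha₁.1)
  have ha₁m : a₁ ≠ m := fun h => hmD (h ▸ ha₁.1)
  obtain ⟨h, hh⟩ := top_exists hN ha₁.1 hv ha₁.2.1.symm
  by_cases hA : ∃ x₀ ∈ K'.1, x₀ ∈ D
  · obtain ⟨x₀, hx₀, hx₀D⟩ := hA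
    have hSt : St N D K' := ⟨hK'.1, ⟨x₀, hx₀, hx₀D⟩, ⟨a₁, ha₁K', ha₁.1⟩⟩
    rw [hX.old hSt]
    by_cases hKm : ∃ y ∈ K.2, y ∈ D
    · obtain ⟨y, hy, hyD⟩ := hKm
      obtain ⟨hT', hlt⟩ := top_x0 hN hD hD' hv hm' hK' hne (hs1 (hs4 hy)) hyD
      have hTa : Top N D a m K := top_old hK ⟨y, hy, hyD⟩
      have hT : Top N D a₁ m K := top_transfer hN hTa ha₁K ha₁m
      rw [hX.old (top_st hT ha₁.1)]
      exact hO.r2 ha₁.1 hyD hmD hmD' (hlt a₁ ha₁) hmm hK.1 ha₁K hm'K hy hK.2.2.1 hT hT'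
    · push Not at hKm
      obtain ⟨y, hy, hyD⟩ := hK.2.2.2.1
      have hyv : y = v := by
        rcases Finset.mem_insert.1 hyD with h | h
        · exact h
        · exact absurd h (hKm y hy)
      have hvK : v ∈ K.2 := hyv ▸ hy
      have hP : Priv G N D v K := ⟨hK.1, hvK, hKm, Or.inr ⟨a, hK.2.1, ha⟩⟩
      exact (bound_v hN hD hD' hv hO hm' hK' hne hx₀ hx₀D ha₁ hh).trans (hX.left ha₁ hh hP ha₁K).le
  · push Not at hA
    have hKm : ∀ y ∈ K.2, y ∉ D := fun y hy => hA y (hs1 (hs4 hy))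
    obtain ⟨y, hy, hyD⟩ := hK.2.2.2.1
    have hyv : y = v := by
      rcases Finset.mem_insert.1 hyD with h | h
      · exact h
      · exact absurd h (hKm y hy)
    have hvK : v ∈ K.2 := hyv ▸ hy
    have hP : Priv G N D v K := ⟨hK.1, hvK, hKm, Or.inr ⟨a, hK.2.1, ha⟩⟩
    have hP' : Priv G N D v K'.swap := ⟨hN.swap hK'.1, hK'.2.1, hA, Or.inr ⟨a₁, ha₁K', ha₁.1⟩⟩
    rw [← hX.sw' K']
    have hsub : K'.swap.1 ⊆ K.1 := hs2.trans hs3
    rcases hsub.eq_or_ssubset with he | hss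
    · have h6 := hN.strict (hN.swap hK'.1) hK.1 he ha₁v ha₁K' hK'.2.1 hvK
      rw [h6]
    · exact (hX.mono ha₁ hP' hP ha₁K' hss).le

end Pool.Agent.SOD
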