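import Pool.Agent.SOD.R1a
import Pool.Agent.SOD.R1b
import Pool.Agent.SOD.R2

/-! Project SOD, module OrdStep (size 1): the order invariants at stage `insert v D`. -/

set_option autoImplicit false

open Set

namespace Pool.Agent.SOD

variable {V : Type} [LinearOrder V] [Fintype V] {G : SimpleGraph V} {N : Nd V → Prop} {D : Finset V}

/-- PROOF: r1a, r1b_eq, r1b_lt, r2_old, r2_v. (If a' ∈ D then a ≤ a' gives a ∈ D by Low; if a' = v and a ∈ insert v D
then a = v or a ∈ D. In r2, a' = v and a < v gives a ∈ D.) -/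
theorem ord_step (hN : Nds G N) {v : V} (hD : Low D) (hD' : Low (insert v D)) (hv : v ∉ D) {x x' : Nd V → ℝ}
    (hO : Ord N D x) (hX : XStep G N D v x x') : Ord N (insert v D) x' := by
  constructor
  · intro a a' m m' K K' ha ha' hm hm' haa hmm hK hK'
    rcases Finset.mem_insert.1 ha' with h | h
    · subst h
      rcases Finset.mem_insert.1 ha with h1 | h1
      · subst h1
        exact r1b_eq hN hD hD' hv hO hX hm hm' hmm hK hK'
      · exact r1b_lt hN hD hD' hv hO hX h1 hm hm' hmm hK hK'
    · exact r1a hN hD hD' hv hO hX h hm hm' haa hmm hK hK'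
  · intro a a' m m' K K' K₀ ha ha' hm hm' haa hmm hK₀ h1 h2 h3 h4 hK hK'
    rcases Finset.mem_insert.1 ha' with h | h
    · subst h
      rcases Finset.mem_insert.1 ha with h5 | h5
      · exact absurd h5 haa.ne
      · exact r2_v hN hD hD' hv hO hX h5 hm hm' hmm hK₀ h1 h2 h3 h4 hK hK'
    · exact r2_old hN hD hD' hv hO hX h haa hm hm' hmm hK₀ h1 h2 h3 h4 hK hK' 

end Pool.Agent.SOD
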