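import Pool.Agent.SOD.PhStep

/-! Project SOD, module PhFin (size 4): insertion of the vertex `v` itself, end of the phase of `v`. -/

set_option autoImplicit false

open Set

namespace Pool.Agent.SOD

variable {V : Type} [LinearOrder V] [Fintype V] {G : SimpleGraph V} {N : Nd V → Prop} {D : Finset V}

omit [LinearOrder V] [Fintype V] in
theorem phFin_vis {I : Nd V → Prop} {p q : Nd V → ℂ} (h : ∀ K, I K → q K = p K) {K : Nd V} (hK : I K)
    (hv : Vis N I p K) : Vis N I q K := by
  have h1 : pts I q = pts I p := by
    ext z
    constructor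
    · rintro ⟨M, hM, rfl⟩
      exact ⟨M, hM, h M hM⟩
    · rintro ⟨M, hM, rfl⟩
      exact ⟨M, hM, (h M hM).symm⟩
  have h2 : sgs N I q = sgs N I p := by
    ext s
    constructor
    · rintro ⟨M, M', hM, hM', hl, rfl⟩
      exact ⟨M, M', hM, hM', hl, by rw [h M hM, h M' hM']⟩
    · rintro ⟨M, M', hM, hM', hl, rfl⟩
      exact ⟨M, M', hM, hM', hl, by rw [h M hM, h M' hM']⟩
  unfold Vis
  rw [h1, h2, h K hK]
  exact hv

/-- PROOF. `Next G N D v I (inn v)` holds (small: Priv K ≠ inn v is in I by hall; K = inn v has not a smaller card; large: Priv K,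
I K: K.1 ⊆ nb v = (inn v).1 (hN.adj), so the card is not larger). κ from `ins` with c = inn v; z = t + i t² with t larger than
all (q K).re (I K), t > 0 and κ (1 + t) ≤ t². p' := insP q (inn v) z, I' := insI I (inn v).
St N (insert v D) K ↔ I' K: if St: old (base), or new (new_cases): Priv K or Priv K.swap, in I by hall or equal to inn v, out v.
Conversely by hM.only, priv_st, st_swap, st_mono. So Vis N (St N (insert v D)) p' is Vis N I' p' (the predicates are equal by
funext/propext), same for Pln.
 par: z. xmax: t is larger than all (q K).re. core: hM.core. visv: ins.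
 vis0: no neighbour of v in D: then there is no Priv node except inn v (K.1 meets D in x, v ∈ K.2, x ~ v), so I = St N D and
  q = p on I; there are no children M of inn v (Next.child gives a ∈ D, a ~ v): first alternative of ins (re ≤ t).
 vis1: K₁ := Tp I a₁ v (tp_exists): (p K).re ≤ (p h).re ≤ (q K₁).re (leftmost) ≤ all children (Next.child and hM.tmono): first
  alternative; Vis N I q K by hM.left1.
 left: K = inn v: visible, (p h).re < t, no K' with K.1 ⊂ K'.1 (K'.1 ⊆ nb v). K in I: hM.left2 and the first alternative ((q K).re ≤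
  (q K₁).re); K' = inn v: (q K).re < t; K' in I: hM.left3.
 htold, htnew, steep: as in PhStep. -/
theorem ph_fin (hN : Nds G N) {v : V} (hD : Low D) (hv : v ∉ D) {p q : Nd V → ℂ} {I : Nd V → Prop}
    (hM : PhMid G N D v p q I) (hall : ∀ c, Priv G N D v c → c ≠ inn G v → I c) :
    ∃ p', PhaseOut G N D v p p' := by
  have hinn : Priv G N D v (inn G v) := by
    refine ⟨hN.swap (hN.out v), Finset.mem_singleton_self v, ?_, Or.inl rfl⟩
    intro y hy
    have : y = v := by simpa [inn] using hy
    rw [this]
    exact hv
  have hnbs : ∀ {K : Nd V}, Priv G N D v K → K.1 ⊆ nb G v := by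
    intro K hK x hx
    rw [mem_nb]
    by_cases hxv : x = v
    · exact Or.inl hxv
    · exact Or.inr (hN.adj hK.1 hx hK.2.1 hxv).symm
  have hX : Next G N D v I (inn G v) :=
    { vD := hv
      isw := hM.isw
      base := hM.base
      only := hM.only
      noinn := hM.noinn
      priv := hinn
      cI := hM.noinn
      small := by
        intro K hK hlt
        by_cases hKi : K = inn G v
        · rw [hKi] at hlt
          exact absurd hlt (lt_irrefl _)
        · exact hall K hK hKi
      large := by
        intro K hK _ hlt
        exact absurd (Finset.card_le_card (hnbs hK)) (not_le.2 hlt) }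
  obtain ⟨κ, hκ0, hκ⟩ := ins (I := I) (q := q) (c := inn G v) hN (fun K hK => hM.isw hK) (fun K hK => phs_nod hN hM hK) hM.sw
    hM.pln hinn.1 hM.noinn (fun K hK => hX.noup hN hK) (fun K hK hl => by
      obtain ⟨⟨a, ha, haD⟩, hall'⟩ := hX.child hN hK hl
      obtain ⟨-, hav, htp⟩ := hall' a ha haD
      exact hM.tvis haD hav htp)
  obtain ⟨B, hB⟩ : ∃ B : ℝ, ∀ K, (q K).re ≤ B := by
    obtain ⟨B, hB⟩ := (Set.finite_range fun K : Nd V => (q K).re).bddAbove
    exact ⟨B, fun K => hB ⟨K, rfl⟩⟩
  obtain ⟨t, ht1, ht2⟩ : ∃ t : ℝ, B < t ∧ κ + 1 ≤ t :=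
    ⟨max (B + 1) (κ + 1), lt_of_lt_of_le (lt_add_one _) (le_max_left _ _), le_max_right _ _⟩
  have ht0 : 0 < t := by linarith
  have hlt : ∀ K, (q K).re < t := fun K => (hB K).trans_lt ht1
  obtain ⟨H1, H2, H3, H4, H5, H6, H7, H8⟩ := hκ ⟨t, t ^ 2⟩ (by
    change κ * (1 + |t|) ≤ t ^ 2
    rw [abs_of_pos ht0]
    nlinarith)
  have hfun : St N (insert v D) = insI I (inn G v) := by
    funext K
    apply propext
    constructor
    · intro hK
      by_cases h : St N D K
      · exact Or.inl (hM.base h)
      · rcases new_cases hN hv hK h with h1 | h1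
        · by_cases h2 : K = inn G v
          · exact Or.inr (Or.inl h2)
          · exact Or.inl (hall K h1 h2)
        · by_cases h2 : K.swap = inn G v
          · refine Or.inr (Or.inr ?_)
            rw [← h2, Prod.swap_swap]
          · have h3 := hM.isw (hall K.swap h1 h2)
            rw [Prod.swap_swap] at h3
            exact Or.inl h3
    · rintro (h | rfl | rfl)
      · rcases hM.only h with h1 | h1 | h1
        · exact st_mono (Finset.subset_insert _ _) h1
        · exact priv_st hN h1
        · have h2 := st_swap hN (priv_st hN h1)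
          rwa [Prod.swap_swap] at h2
      · exact priv_st hN hinn
      · exact st_swap hN (priv_st hN hinn)
  have hcases : ∀ {K : Nd V}, Priv G N D v K → K = inn G v ∨ I K := by
    intro K hK
    by_cases h : K = inn G v
    · exact Or.inl h
    · exact Or.inr (hall K hK h)
  have hfirst : ∀ {a₁ : V} {h K₁ : Nd V}, MinNb G D v a₁ → Top N D a₁ v h → Tp I a₁ v K₁ →
      ∀ M, I M → Lk N M (inn G v) → (q K₁).re ≤ (q M).re := by
    intro a₁ h K₁ ha hh hK₁ M hMI hl
    obtain ⟨⟨a, haM, haD⟩, hall'⟩ := hX.child hN hMI hl
    obtain ⟨-, hav, htp⟩ := hall' a haM haD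
    exact hM.tmono ha.1 haD (ha.2.2 a haD hav.symm) hK₁ htp
  have hleft : ∀ {a₁ : V} {h K₁ K : Nd V}, MinNb G D v a₁ → Top N D a₁ v h → Tp I a₁ v K₁ → I K → Vis N I q K →
      (q K).re ≤ (q K₁).re → Vis N (St N (insert v D)) (insP q (inn G v) ⟨t, t ^ 2⟩) K := by
    intro a₁ h K₁ K ha hh hK₁ hK hvis hle
    rw [hfun]
    exact H8 K hK hvis (hlt K).ne (Or.inl ⟨(hlt K).le, fun M hMI hl => hle.trans (hfirst ha hh hK₁ M hMI hl)⟩)
  have hex : ∀ {a₁ : V}, MinNb G D v a₁ → ∃ K₁, Tp I a₁ v K₁ := fun ha =>
    tp_exists hN hM.base (fun hK => phs_nod hN hM hK) ha.1 hv ha.2.1.symm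
  refine ⟨insP q (inn G v) ⟨t, t ^ 2⟩, ?_⟩
  exact
    { sw := H1
      old := by
        intro K hK
        rw [H2 K (hM.base hK), hM.old hK]
      pln := by
        rw [hfun]
        exact H5
      par := by
        rw [H3]
      core := by
        intro K hK hne
        rw [H2 K (hall K hK hne)]
        exact hM.core hK (hall K hK hne)
      xmax := by
        intro K hK h1 h2
        rw [hfun] at hK
        rw [H3]
        rcases hK with h | h | h
        · rw [H2 K h]
          exact hlt K
        · exact absurd h h1
        · exact absurd h h2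
      vis0 := by
        intro h0 K hK hvis
        have hI : I = St N D := by
          funext M
          apply propext
          constructor
          · intro hMI
            rcases hM.only hMI with h1 | h1 | h1
            · exact h1
            · rcases h1.2.2.2 with h2 | ⟨x, hx, hxD⟩
              · rw [h2] at hMI
                exact absurd hMI hM.noinn
              · exact absurd (hN.adj h1.1 hx h1.2.1 (fun h => hv (h ▸ hxD))).symm (h0 x hxD)
            · rcases h1.2.2.2 with h2 | ⟨x, hx, hxD⟩
              · have h3 := hM.isw hMI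
                rw [h2] at h3
                exact absurd h3 hM.noinn
              · exact absurd (hN.adj h1.1 hx h1.2.1 (fun h => hv (h ▸ hxD))).symm (h0 x hxD)
          · exact hM.base
        rw [hfun]
        have hvis' : Vis N I q K := by
          rw [hI]
          exact phFin_vis (fun M hM' => hM.old hM') hK hvis
        refine H8 K (hM.base hK) hvis' (hlt K).ne (Or.inl ⟨(hlt K).le, ?_⟩)
        intro M hMI hl
        obtain ⟨⟨a, haM, haD⟩, hall'⟩ := hX.child hN hMI hl
        obtain ⟨-, hav, -⟩ := hall' a haM haD
        exact absurd hav.symm (h0 a haD)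
      vis1 := by
        intro a₁ h ha hh K hK hvis hle
        obtain ⟨K₁, hK₁⟩ := hex ha
        refine hleft ha hh hK₁ (hM.base hK) (hM.left1 ha hh hK hvis hle) ?_
        rw [hM.old hK]
        exact hle.trans (PhMid.leftmost hN hv hM ha hh hK₁).1
      left := by
        intro a₁ h ha hh K hK haK
        obtain ⟨K₁, hK₁⟩ := hex ha
        have hL := PhMid.leftmost hN hv hM ha hh hK₁
        rcases hcases hK with rfl | hI
        · refine ⟨?_, ?_, ?_⟩
          · rw [hfun]
            exact H6
          · rw [H3]
            exact hL.1.trans_lt (hlt K₁)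
          · intro K' hK' hss
            exact absurd (hnbs hK') (fun h1 => hss.2 h1)
        · refine ⟨hleft ha hh hK₁ hI (hM.left2 ha hh hK hI haK).1 (hL.2 hK hI haK), ?_, ?_⟩
          · rw [H2 K hI]
            exact (hM.left2 ha hh hK hI haK).2
          · intro K' hK' hss
            rcases hcases hK' with rfl | hI'
            · rw [H2 K hI, H3]
              exact hlt K
            · rw [H2 K hI, H2 K' hI']
              exact hM.left3 ha hK hI haK hK' hI' hss
      visv := by
        rw [hfun]
        exact H6
      htold := by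
        intro K K' hK hK'
        rcases hcases hK' with rfl | hI'
        · rw [H2 K (hM.base hK), H3]
          exact H4 K (hM.base hK)
        · rw [H2 K (hM.base hK), H2 K' hI']
          exact hM.htold hK hK' hI'
      htnew := by
        intro K K' hK hK' hss
        rcases hcases hK with rfl | hI
        · exact absurd (hnbs hK') (fun h1 => hss.2 h1)
        · rcases hcases hK' with rfl | hI'
          · rw [H2 K hI, H3]
            exact H4 K hI
          · rw [H2 K hI, H2 K' hI']
            exact hM.htnew hK hI hK' hI' hss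
      steep := by
        intro K P R hK hP hl hR hne
        rcases hcases hP with rfl | hI
        · have h1 := H7 K R (hM.base hK) hl (hM.base hR) (by rw [hM.old hK, hM.old hR]; exact hne)
          rw [hM.old hK, hM.old hR] at h1
          rw [H3]
          exact h1
        · rw [H2 P hI]
          exact hM.steep hK hP hI hl hR hne }

end Pool.Agent.SOD
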