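import Pool.Agent.SOD.PhX

/-! Project SOD, module PhStep (size 4): insertion of the next new core in the phase of `v`. -/

set_option autoImplicit false

open Set

namespace Pool.Agent.SOD

variable {V : Type} [LinearOrder V] [Fintype V] {G : SimpleGraph V} {N : Nd V → Prop} {D : Finset V}

theorem phs_nod (hN : Nds G N) {v : V} {p q : Nd V → ℂ} {I : Nd V → Prop} (hM : PhMid G N D v p q I) {K : Nd V}
    (hK : I K) : N K := by
  rcases hM.only hK with h | h | h
  · exact h.1
  · exact h.1
  · have := hN.swap h.1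
    rwa [Prod.swap_swap] at this

theorem phs_notv (hN : Nds G N) {v : V} {p q : Nd V → ℂ} {I : Nd V → Prop} (hM : PhMid G N D v p q I) {K : Nd V}
    (hK : I K) (h1 : v ∈ K.1) (h2 : v ∈ K.2) : False := by
  rcases hN.both (phs_nod hN hM hK) h1 h2 with h | h
  · have h3 := hM.isw hK
    rw [h, out_swap] at h3
    exact hM.noinn h3
  · rw [h] at hK
    exact hM.noinn hK

/-- the leftmost position: if a₁ is the smallest neighbour of v in D and h its last node at stage D, K₁ its last node in I, then
(p h).re ≤ (q K₁).re, and every inserted new node K with a₁ ∈ K.1 satisfies (q K).re ≤ (q K₁).re. PROOF: K₁ ∈ St N D: then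
K₁ = h (Top/Tp: tp for I restricted to St; h ∈ I gives h.1 ⊆ K₁.1; K₁ ∈ St gives K₁.1 ⊆ h.1; strict), q = p on St (hM.old). K₁
new: v ∈ K₁.2, so Priv K₁ (Priv K₁.swap: v on both sides, excluded), a₁ ∈ K₁.1: hM.left2. Second claim: K.1 ⊆ K₁.1 (Tp); K₁ is
new as K₁.2 ⊆ K.2 (chain) does not meet D; equal or hM.left3. -/
theorem PhMid.leftmost (hN : Nds G N) {v : V} (hv : v ∉ D) {p q : Nd V → ℂ} {I : Nd V → Prop}
    (hM : PhMid G N D v p q I) {a₁ : V} {h K₁ : Nd V} (ha : MinNb G D v a₁) (hh : Top N D a₁ v h) (hK : Tp I a₁ v K₁) :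
    (p h).re ≤ (q K₁).re ∧ ∀ {K}, Priv G N D v K → I K → a₁ ∈ K.1 → (q K).re ≤ (q K₁).re := by
  have hne : a₁ ≠ v := fun h => hv (h ▸ ha.1)
  have hsw : ¬ Priv G N D v K₁.swap := fun h3 => phs_notv hN hM hK.1 h3.2.1 hK.2.2.1
  have hSt : St N D h := top_st hh ha.1
  refine ⟨?_, ?_⟩
  · rcases hM.only hK.1 with h3 | h3 | h3
    · have e1 : h.1 ⊆ K₁.1 := hK.2.2.2 h (hM.base hSt) hh.2.1 hh.2.2.1
      have e2 : K₁.1 ⊆ h.1 := hh.2.2.2.2 K₁ h3.1 hK.2.1 hK.2.2.1 h3.2.2
      have e3 : K₁ = h := hN.strict h3.1 hh.1 (Finset.Subset.antisymm e2 e1) hne hK.2.1 hK.2.2.1 hh.2.2.1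
      rw [e3, hM.old hSt]
    · exact (hM.left2 ha hh h3 hK.1 hK.2.1).2.le
    · exact absurd h3 hsw
  · intro K hP hI haK
    have hNK := hP.1
    have hNK₁ := phs_nod hN hM hK.1
    have hsub : K.1 ⊆ K₁.1 := hK.2.2.2 K hI haK hP.2.1
    by_cases heq : K.1 = K₁.1
    · have e3 : K = K₁ := hN.strict hNK hNK₁ heq hne haK hP.2.1 hK.2.2.1
      rw [e3]
    · have hss : K.1 ⊂ K₁.1 := hsub.ssubset_of_ne heq
      have h2 : K₁.2 ⊆ K.2 := by
        rcases hN.chain hNK hNK₁ hne haK hK.2.1 hP.2.1 hK.2.2.1 with h4 | h4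
        · exact h4.2
        · exact absurd (Finset.Subset.antisymm hsub h4.1) heq
      rcases hM.only hK.1 with h3 | h3 | h3
      · obtain ⟨y, hy, hyD⟩ := h3.2.2
        exact absurd hyD (hP.2.2.1 y (h2 hy))
      · exact (hM.left3 ha hP hI haK h3 hK.1 hss).le
      · exact absurd h3 hsw

/-- PROOF. Among the Priv nodes not in I (finite, nonempty set, without inn v) choose c with minimal card of c.1: `Next G N D v I
c` holds (small: by minimality; note K = inn v has the largest left side: for K = inn v, K.1 = nb v ⊇ c.1 so its card is not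
smaller than that of c.1; large: by hM.low, as ¬ I c).
Take a₀, K₀, ξ from xchoice, κ from `ins` (hup: Next.noup; hvis: Next.child gives Tp I a v K with a ∈ D, hM.tvis), z := ξ +
i max (κ(1+|ξ|)) (ξ² + 1), q' = insP q c z, I' = insI I c. Fields of PhMid for q', I':
 sw, isw, base, noinn (c ≠ inn v; c.swap ≠ inn v since otherwise c = out v, c.1 = {v} does not meet D), only: c is Priv.
 low: Priv K, Priv K', I' K', K.1.card < K'.1.card: if I K' then hM.low; K' = c: Next.small; K' = c.swap: v ∈ c.1 and v ∈ c.2,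
   impossible as c is a core.
 old: ins; pln: ins; core: K = c: z.re² < z.im; others unchanged (K = c.swap is impossible as before).
 tvis: tp_ins: K = c: visible by ins. Otherwise Tp I a v K, a ∉ c.1: XChoice.cases: a < a₀, (q K).re ≤ (q K₀).re < ξ and ≤ all
   children (XChoice.first): first alternative of ins; or ξ < (q K).re and ≥ all children: second alternative.
 tmono (a ≤ a'): both unchanged: hM.tmono. a ∈ c.1, a' ∉ c.1: a' ≥ a ≥ a₀, so a₀ < a' (a' ≠ a₀), XChoice.cases: ξ < (q K').re.
   a ∉ c.1, a' ∈ c.1: not (a₀ < a): otherwise a₀ < a < a' and priv_int gives a ∈ c.1; so a < a₀: (q K).re ≤ (q K₀).re < ξ.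
   Both in c.1: equal.
 left1: K old, visible, (p K).re ≤ (p h).re: Vis N I q K by hM.left1; with K₁ := Tp I a₁ v: (p h).re ≤ (q K₁).re (leftmost) ≤
   (q K₀).re (tmono, a₁ ≤ a₀) < ξ and ≤ all children: first alternative of ins.
 left2: K = c: a₁ = a₀ (a₁ ∈ c.1 ∩ D, minimal): visible by ins, (p h).re ≤ (q K₁).re, K₁ = K₀, < ξ. K in I: (q K).re ≤ (q K₁).re
   ≤ (q K₀).re < ξ (leftmost): first alternative of ins.
 left3: K' = c, K in I: (q K).re ≤ (q K₁).re ≤ (q K₀).re < ξ (a₁ ∈ K.1 ⊆ c.1). K = c, K' in I, c.1 ⊂ K'.1: excluded by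
   Next.large. Both in I: hM.left3.
 htold, htnew: all old im are < z.im; K = c, K' in I with c.1 ⊂ K'.1: excluded by Next.large.
 steep: P = c: from ins (K, R ∈ St, positions p = q). P in I: hM.steep. -/
theorem ph_step (hN : Nds G N) {v : V} (hD : Low D) (hv : v ∉ D) {p q : Nd V → ℂ} {I : Nd V → Prop}
    (hM : PhMid G N D v p q I) (hex : ∃ c, Priv G N D v c ∧ ¬ I c ∧ c ≠ inn G v) :
    ∃ c z, Priv G N D v c ∧ ¬ I c ∧ PhMid G N D v p (insP q c z) (insI I c) := by
  obtain ⟨c, ⟨hcP, hcI, hcne⟩, hmin⟩ := Set.exists_min_image {c : Nd V | Priv G N D v c ∧ ¬ I c ∧ c ≠ inn G v}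
    (fun c => c.1.card) (Set.toFinite _) hex
  have hvc2 : v ∈ c.2 := hcP.2.1
  have hvc1 : v ∉ c.1 := by
    intro h
    rcases hN.both hcP.1 h hvc2 with h1 | h1
    · rcases hcP.2.2.2 with h2 | ⟨x, hx, hxD⟩
      · exact hcne h2
      · rw [h1] at hx
        have : x = v := by simpa [out] using hx
        exact hv (this ▸ hxD)
    · exact hcne h1
  have hcnb : c.1 ⊆ nb G v := by
    intro x hx
    rw [mem_nb]
    by_cases hxv : x = v
    · exact Or.inl hxv
    · exact Or.inr (hN.adj hcP.1 hx hvc2 hxv).symm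
  have hX : Next G N D v I c :=
    { vD := hv
      isw := hM.isw
      base := hM.base
      only := hM.only
      noinn := hM.noinn
      priv := hcP
      cI := hcI
      small := by
        intro K hK hlt
        by_contra hI
        by_cases hKi : K = inn G v
        · have h1 : c.1.card ≤ K.1.card := by
            rw [hKi]
            exact Finset.card_le_card hcnb
          omega
        · have h1 : c.1.card ≤ K.1.card := hmin K ⟨hK, hI, hKi⟩
          omega
      large := fun hK hKI hlt => hcI (hM.low hcP hK hKI hlt) }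
  obtain ⟨a₀, K₀, ξ, hx⟩ := xchoice hN hM hX hcne
  obtain ⟨κ, -, hκ⟩ := ins (I := I) (q := q) (c := c) hN (fun K hK => hM.isw hK) (fun K hK => phs_nod hN hM hK) hM.sw hM.pln hcP.1 hcI
    (fun K hK => hX.noup hN hK) (fun K hK hl => by
      obtain ⟨⟨a, ha, haD⟩, hall⟩ := hX.child hN hK hl
      obtain ⟨-, hav, htp⟩ := hall a ha haD
      exact hM.tvis haD hav htp)
  obtain ⟨z, hzre, hz1, hz2⟩ : ∃ z : ℂ, z.re = ξ ∧ κ * (1 + |z.re|) ≤ z.im ∧ z.re ^ 2 < z.im := by
    refine ⟨⟨ξ, max (κ * (1 + |ξ|)) (ξ ^ 2 + 1)⟩, rfl, le_max_left _ _, ?_⟩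
    exact lt_of_lt_of_le (lt_add_one _) (le_max_right _ _)
  obtain ⟨H1, H2, H3, H4, H5, H6, H7, H8⟩ := hκ z hz1
  refine ⟨c, z, hcP, hcI, ?_⟩
  have hncs : ∀ {K : Nd V}, Priv G N D v K → K ≠ c.swap := by
    rintro K hK rfl
    exact hvc1 hK.2.1
  have hnod : ∀ {K : Nd V}, insI I c K → N K := by
    rintro K (h | rfl | rfl)
    · exact phs_nod hN hM h
    · exact hcP.1
    · exact hN.swap hcP.1
  have hadj : ∀ {a : V} {K : Nd V}, a ∈ D → N K → a ∈ K.1 → v ∈ K.2 → G.Adj a v := by
    intro a K ha hK haK hvK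
    exact hN.adj hK haK hvK (fun h => hv (h ▸ ha))
  have ha₀v : G.Adj a₀ v := hadj hx.aD hcP.1 hx.ac hvc2
  -- everything left of the chosen position stays visible
  have hleft : ∀ {K : Nd V}, I K → Vis N I q K → (q K).re ≤ (q K₀).re → Vis N (insI I c) (insP q c z) K := by
    intro K hK hvis hle
    refine H8 K hK hvis ?_ (Or.inl ⟨?_, fun M hM' hl => hle.trans (hx.first hM' hl)⟩)
    · rw [hzre]
      exact (hle.trans_lt hx.lt).ne
    · rw [hzre]
      exact (hle.trans_lt hx.lt).le
  have hmin' : ∀ {a₁ : V} {h : Nd V}, MinNb G D v a₁ → Top N D a₁ v h → (p h).re ≤ (q K₀).re ∧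
      ∀ {K}, Priv G N D v K → I K → a₁ ∈ K.1 → (q K).re ≤ (q K₀).re := by
    intro a₁ h ha hh
    obtain ⟨K₁, hK₁⟩ := tp_exists hN hM.base (fun hK => phs_nod hN hM hK) ha.1 hv ha.2.1.symm
    have hL := PhMid.leftmost hN hv hM ha hh hK₁
    have h1 : (q K₁).re ≤ (q K₀).re := hM.tmono ha.1 hx.aD (ha.2.2 a₀ hx.aD ha₀v.symm) hK₁ hx.tp
    exact ⟨hL.1.trans h1, fun hP hI haK => (hL.2 hP hI haK).trans h1⟩
  exact
    { sw := H1
      isw := by
        rintro K (h | rfl | rfl)
        · exact Or.inl (hM.isw h)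
        · exact Or.inr (Or.inr rfl)
        · exact Or.inr (Or.inl (Prod.swap_swap _))
      base := fun h => Or.inl (hM.base h)
      only := by
        rintro K (h | rfl | rfl)
        · exact hM.only h
        · exact Or.inr (Or.inl hcP)
        · refine Or.inr (Or.inr ?_)
          rw [Prod.swap_swap]
          exact hcP
      noinn := by
        rintro (h | h | h)
        · exact hM.noinn h
        · exact hcne h.symm
        · apply hvc1
          have h1 : c.1 = {v} := by
            have := congrArg Prod.snd h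
            simpa [inn] using this.symm
          rw [h1]
          exact Finset.mem_singleton_self v
      low := by
        rintro K K' hK hK' (h | rfl | rfl) hlt
        · exact Or.inl (hM.low hK hK' h hlt)
        · exact Or.inl (hX.small hK hlt)
        · exact absurd rfl (hncs hK')
      old := by
        intro K hK
        rw [H2 K (hM.base hK), hM.old hK]
      pln := H5
      core := by
        rintro K hK (h | rfl | rfl)
        · rw [H2 K h]
          exact hM.core hK h
        · rw [H3]
          exact hz2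
        · exact absurd rfl (hncs hK)
      tvis := by
        intro a K ha hav hK
        rcases (tp_ins hN hX hcne ha hav).1 hK with ⟨-, rfl⟩ | ⟨hac, hK'⟩
        · exact H6
        · rcases hx.cases hN hD hM hX ha hav hac hK' with ⟨-, h1⟩ | ⟨-, h1, h2⟩
          · exact hleft hK'.1 (hM.tvis ha hav hK') h1
          · refine H8 K hK'.1 (hM.tvis ha hav hK') ?_ (Or.inr ⟨?_, h2⟩)
            · rw [hzre]
              exact h1.ne'
            · rw [hzre]
              exact h1.le
      tmono := by
        intro a a' K K' ha ha' hle hK hK'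
        have hav := hadj ha (hnod hK.1) hK.2.1 hK.2.2.1
        have hav' := hadj ha' (hnod hK'.1) hK'.2.1 hK'.2.2.1
        rcases (tp_ins hN hX hcne ha hav).1 hK with ⟨hac, rfl⟩ | ⟨hac, h1⟩
        · rcases (tp_ins hN hX hcne ha' hav').1 hK' with ⟨hac', rfl⟩ | ⟨hac', h1'⟩
          · exact le_rfl
          · rcases hx.cases hN hD hM hX ha' hav' hac' h1' with ⟨h2, -⟩ | ⟨-, h2, -⟩
            · exact absurd (h2.trans_le (hx.amin hac ha)) (not_lt.2 hle)
            · rw [H3, H2 K' h1'.1, hzre]
              exact h2.le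
        · rcases (tp_ins hN hX hcne ha' hav').1 hK' with ⟨hac', rfl⟩ | ⟨hac', h1'⟩
          · rcases hx.cases hN hD hM hX ha hav hac h1 with ⟨-, h2⟩ | ⟨h2, -, -⟩
            · rw [H3, H2 K h1.1, hzre]
              exact (h2.trans_lt hx.lt).le
            · have hlt : a < a' := lt_of_le_of_ne hle (fun h => hac (h ▸ hac'))
              exact absurd (priv_int hN hD hv hcP.1 hvc2 hx.ac hac' ha' hav.symm h2 hlt) hac
          · rw [H2 K h1.1, H2 K' h1'.1]
            exact hM.tmono ha ha' hle h1 h1'
      left1 := by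
        intro a₁ h K ha hh hK hvis hle
        refine hleft (hM.base hK) (hM.left1 ha hh hK hvis hle) ?_
        rw [hM.old hK]
        exact hle.trans (hmin' ha hh).1
      left2 := by
        rintro a₁ h K ha hh hK (hI | rfl | rfl) haK
        · rw [H2 K hI]
          exact ⟨hleft hI (hM.left2 ha hh hK hI haK).1 ((hmin' ha hh).2 hK hI haK), (hM.left2 ha hh hK hI haK).2⟩
        · rw [H3, hzre]
          exact ⟨H6, (hmin' ha hh).1.trans_lt hx.lt⟩
        · exact absurd rfl (hncs hK)
      left3 := by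
        rintro a₁ K K' ha hK (hI | rfl | rfl) haK hK' hI' hss
        · rcases hI' with hI' | rfl | rfl
          · rw [H2 K hI, H2 K' hI']
            exact hM.left3 ha hK hI haK hK' hI' hss
          · obtain ⟨h, hh⟩ := top_exists (D := D) hN ha.1 hv ha.2.1.symm
            rw [H2 K hI, H3, hzre]
            exact ((hmin' ha hh).2 hK hI haK).trans_lt hx.lt
          · exact absurd rfl (hncs hK')
        · rcases hI' with hI' | rfl | rfl
          · exact absurd (Finset.card_lt_card hss) (hX.large hK' hI')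
          · exact absurd hss (ssubset_irrefl _)
          · exact absurd rfl (hncs hK')
        · exact absurd rfl (hncs hK)
      htold := by
        rintro K K' hK hK' (hI | rfl | rfl)
        · rw [H2 K (hM.base hK), H2 K' hI]
          exact hM.htold hK hK' hI
        · rw [H2 K (hM.base hK), H3]
          exact H4 K (hM.base hK)
        · exact absurd rfl (hncs hK')
      htnew := by
        rintro K K' hK (hI | rfl | rfl) hK' hI' hss
        · rcases hI' with hI' | rfl | rfl
          · rw [H2 K hI, H2 K' hI']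
            exact hM.htnew hK hI hK' hI' hss
          · rw [H2 K hI, H3]
            exact H4 K hI
          · exact absurd rfl (hncs hK')
        · rcases hI' with hI' | rfl | rfl
          · exact absurd (Finset.card_lt_card hss) (hX.large hK' hI')
          · exact absurd hss (ssubset_irrefl _)
          · exact absurd rfl (hncs hK')
        · exact absurd rfl (hncs hK)
      steep := by
        rintro K P R hK hP (hI | rfl | rfl) hl hR hne
        · rw [H2 P hI]
          exact hM.steep hK hP hI hl hR hne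
        · have h1 := H7 K R (hM.base hK) hl (hM.base hR) (by rw [hM.old hK, hM.old hR]; exact hne)
          rw [hM.old hK, hM.old hR] at h1
          rw [H3]
          exact h1
        · exact absurd rfl (hncs hP) }

end Pool.Agent.SOD
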