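import Pool.Agent.SOD.Child
import Pool.Agent.SOD.Ins

/-! Project SOD, module PhX (size 3): the first coordinate of the next new node `c` of the phase of `v`. -/

set_option autoImplicit false

open Set

namespace Pool.Agent.SOD

variable {V : Type} [LinearOrder V] [Fintype V] {G : SimpleGraph V} {N : Nd V → Prop} {D : Finset V}

/-- the first coordinate `ξ` of the next node `c`: slightly to the right of its leftmost child `K₀` -/
structure XChoice (N : Nd V → Prop) (D : Finset V) (v : V) (q : Nd V → ℂ) (I : Nd V → Prop) (c : Nd V)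
    (a₀ : V) (K₀ : Nd V) (ξ : ℝ) : Prop where
  aD : a₀ ∈ D
  ac : a₀ ∈ c.1
  amin : ∀ {a}, a ∈ c.1 → a ∈ D → a₀ ≤ a
  tp : Tp I a₀ v K₀
  lt : (q K₀).re < ξ
  gap : ∀ {K}, I K → (q K₀).re < (q K).re → ξ < (q K).re
  first : ∀ {M}, I M → Lk N M c → (q K₀).re ≤ (q M).re

/-- `c` is a core: c.1 meets D. PROOF: Priv: c = inn v or c.1 meets D. -/
theorem Next.meets {v : V} {I : Nd V → Prop} {c : Nd V} (h : Next G N D v I c) (hc : c ≠ inn G v) :
    ∃ a ∈ c.1, a ∈ D := h.priv.2.2.2.resolve_left hc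

/-- PROOF: a₀ := the minimum of c.1 ∩ D (Next.meets); a₀ ≠ v, a₀ ~ v (v ∈ c.2); K₀ by tp_exists; ξ: the finitely many
nodes K with I K and (q K₀).re < (q K).re: take ξ in between (Nd V is finite). `first`: by Next.child, M = Tp of some a ∈ D ∩ c.1,
a₀ ≤ a, hM.tmono. -/
theorem xchoice (hN : Nds G N) {v : V} {p q : Nd V → ℂ} {I : Nd V → Prop} {c : Nd V} (hM : PhMid G N D v p q I)
    (h : Next G N D v I c) (hc : c ≠ inn G v) : ∃ a₀ K₀ ξ, XChoice N D v q I c a₀ K₀ ξ := by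
  classical
  obtain ⟨b, hbc, hbD⟩ := h.meets hc
  have hne : (c.1 ∩ D).Nonempty := ⟨b, Finset.mem_inter.2 ⟨hbc, hbD⟩⟩
  have hmem := Finset.mem_inter.1 ((c.1 ∩ D).min'_mem hne)
  set a₀ := (c.1 ∩ D).min' hne with ha₀
  have hav : a₀ ≠ v := fun h' => h.vD (h' ▸ hmem.2)
  have hadj : G.Adj a₀ v := hN.adj h.priv.1 hmem.1 h.priv.2.1 hav
  have hmin : ∀ {a}, a ∈ c.1 → a ∈ D → a₀ ≤ a := fun h1 h2 =>
    Finset.min'_le _ _ (Finset.mem_inter.2 ⟨h1, h2⟩)
  obtain ⟨K₀, hK₀⟩ := tp_exists hN (fun hK => h.base hK) (fun hK => h.nod hN hK) hmem.2 h.vD hadj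
  have hev : ∀ᶠ ξ in nhdsWithin (q K₀).re (Ioi (q K₀).re), ∀ K : Nd V, I K → (q K₀).re < (q K).re →
      ξ < (q K).re := by
    rw [Filter.eventually_all]
    intro K
    by_cases hK : I K ∧ (q K₀).re < (q K).re
    · have h1 : Iio (q K).re ∈ nhds (q K₀).re := Iio_mem_nhds hK.2
      exact (Filter.Eventually.filter_mono nhdsWithin_le_nhds h1).mono fun ξ hξ _ _ => hξ
    · exact Filter.Eventually.of_forall fun ξ h1 h2 => absurd ⟨h1, h2⟩ hK
  obtain ⟨ξ, hξ1, hξ2⟩ := (hev.and self_mem_nhdsWithin).exists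
  refine ⟨a₀, K₀, ξ, ⟨hmem.2, hmem.1, hmin, hK₀, hξ2, fun hK hlt => hξ1 _ hK hlt, ?_⟩⟩
  intro M hIM hl
  obtain ⟨⟨a, haM, haD⟩, hall⟩ := h.child hN hIM hl
  obtain ⟨hac, -, hTp⟩ := hall a haM haD
  exact hM.tmono hmem.2 haD (hmin hac haD) hK₀ hTp

/-- PROOF. Not a₀ < a < b for some b ∈ c.1 ∩ D (priv_int would give a ∈ c.1). If a < a₀: hM.tmono. (a ≠ a₀.) If a₀ < a: all
b ∈ c.1 ∩ D satisfy b < a (b ≠ a as a ∉ c.1); for a child M: M = Tp of some b ∈ D ∩ c.1 (Next.child), (q M).re ≤ (q K).re by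
hM.tmono; in particular (q K₀).re ≤ (q K).re. If equality: K₀ and K are visible (hM.tvis) with the same re, so q K₀ = q K (both
im are ≤ each other), so K = K₀ or K₀.swap by hM.pln.inj; K = K₀: a ∈ K₀.1 ⊆ c.1 (Next.link): contradiction; K = K₀.swap: v ∈
K.2 = K₀.1 and v ∈ K₀.2: Next.notv. So (q K₀).re < (q K).re and `gap`. -/
theorem XChoice.cases (hN : Nds G N) {v : V} {p q : Nd V → ℂ} {I : Nd V → Prop} {c : Nd V} (hD : Low D)
    (hM : PhMid G N D v p q I) (h : Next G N D v I c) {a₀ : V} {K₀ : Nd V} {ξ : ℝ} (hx : XChoice N D v q I c a₀ K₀ ξ)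
    {a : V} (ha : a ∈ D) (hav : G.Adj a v) (hac : a ∉ c.1) {K : Nd V} (hK : Tp I a v K) :
    (a < a₀ ∧ (q K).re ≤ (q K₀).re) ∨
      (a₀ < a ∧ ξ < (q K).re ∧ ∀ M, I M → Lk N M c → (q M).re ≤ (q K).re) := by
  rcases lt_trichotomy a a₀ with hlt | heq | hlt
  · exact Or.inl ⟨hlt, hM.tmono ha hx.aD hlt.le hK hx.tp⟩
  · exact absurd (heq ▸ hx.ac) hac
  · have hsmall : ∀ {b}, b ∈ c.1 → b ∈ D → b < a := by
      intro b hb hbD
      by_contra hnot
      have hab : a < b := lt_of_le_of_ne (not_lt.1 hnot) fun h' => hac (h' ▸ hb)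
      exact hac (priv_int hN hD h.vD h.priv.1 h.priv.2.1 hx.ac hb hbD hav.symm hlt hab)
    have hch : ∀ M, I M → Lk N M c → (q M).re ≤ (q K).re := by
      intro M hIM hl
      obtain ⟨⟨b, hbM, hbD⟩, hall⟩ := h.child hN hIM hl
      obtain ⟨hbc, -, hTp⟩ := hall b hbM hbD
      exact hM.tmono hbD ha (hsmall hbc hbD).le hTp hK
    have hav₀ : a₀ ≠ v := fun h' => h.vD (h' ▸ hx.aD)
    have hadj : G.Adj a₀ v := hN.adj h.priv.1 hx.ac h.priv.2.1 hav₀
    have hle : (q K₀).re ≤ (q K).re := hM.tmono hx.aD ha hlt.le hx.tp hK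
    have hstrict : (q K₀).re < (q K).re := by
      refine lt_of_le_of_ne hle fun heq => ?_
      have hv0 := hM.tvis hx.aD hadj hx.tp
      have hv1 := hM.tvis ha hav hK
      have i1 : (q K).im ≤ (q K₀).im := hv0.1 (q K) ⟨K, hK.1, rfl⟩ heq.symm
      have i2 : (q K₀).im ≤ (q K).im := hv1.1 (q K₀) ⟨K₀, hx.tp.1, rfl⟩ heq
      have he : q K₀ = q K := Complex.ext heq (le_antisymm i2 i1)
      rcases hM.pln.inj hx.tp.1 hK.1 he with h1 | h1
      · have hl : Lk N K₀ c := h.link hN hx.aD hx.ac hx.tp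
        apply hac
        have h2 : a ∈ K₀.1 := h1 ▸ hK.2.1
        exact hl.2.2.1.subset h2
      · have h2 : v ∈ K.2 := hK.2.2.1
        rw [h1] at h2
        exact h.notv hN hx.tp.1 h2 hx.tp.2.2.1
    exact Or.inr ⟨hlt, hx.gap hK.1 hstrict, hch⟩

/-- PROOF: if a ∈ c.1: c is in insI I c and contains (a; v); an element K' of I with (a; v) satisfies K'.1 ⊆ c.1 (chain and
Next.notabove); c.swap does not contain v on the right unless v ∈ c.1, then c = inn v (hN.both; c = out v is impossible as a ∈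
c.1), excluded. So Tp gives K.1 = c.1 and K = c. If a ∉ c.1: K ≠ c; K ≠ c.swap in the same way (v ∈ c.swap.2 = c.1); so I K. -/
theorem tp_ins (hN : Nds G N) {v : V} {I : Nd V → Prop} {c : Nd V} (h : Next G N D v I c) (hc : c ≠ inn G v)
    {a : V} (ha : a ∈ D) (hav : G.Adj a v) {K : Nd V} :
    Tp (insI I c) a v K ↔ (a ∈ c.1 ∧ K = c) ∨ (a ∉ c.1 ∧ Tp I a v K) := by
  have hane : a ≠ v := fun h' => h.vD (h' ▸ ha)
  have hvc : v ∉ c.1 := by
    intro hv
    rcases hN.both h.priv.1 hv h.priv.2.1 with h1 | h1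
    · obtain ⟨x, hx, hxD⟩ := h.meets hc
      rw [h1] at hx
      have h2 : x = v := Finset.mem_singleton.1 hx
      exact h.vD (h2 ▸ hxD)
    · exact hc h1
  constructor
  · intro hT
    by_cases hac : a ∈ c.1
    · have hsub : c.1 ⊆ K.1 := hT.2.2.2 c (Or.inr (Or.inl rfl)) hac h.priv.2.1
      rcases hT.1 with h1 | h1 | h1
      · exact absurd hsub (h.notabove hN h1 hT.2.1 hac hane hT.2.2.1)
      · exact Or.inl ⟨hac, h1⟩
      · have h2 : v ∈ K.2 := hT.2.2.1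
        rw [h1] at h2
        exact absurd h2 hvc
    · rcases hT.1 with h1 | h1 | h1
      · exact Or.inr ⟨hac, h1, hT.2.1, hT.2.2.1, fun K' hK' h2 h3 => hT.2.2.2 K' (Or.inl hK') h2 h3⟩
      · exact absurd (h1 ▸ hT.2.1) hac
      · have h2 : v ∈ K.2 := hT.2.2.1
        rw [h1] at h2
        exact absurd h2 hvc
  · rintro (⟨hac, rfl⟩ | ⟨hac, hT⟩)
    · refine ⟨Or.inr (Or.inl rfl), hac, h.priv.2.1, ?_⟩
      intro K' hK' h2 h3
      rcases hK' with h1 | h1 | h1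
      · rcases hN.chain (h.nod hN h1) h.priv.1 hane h2 hac h3 h.priv.2.1 with h4 | h4
        · exact h4.1
        · exact absurd h4.1 (h.notabove hN h1 h2 hac hane h3)
      · rw [h1]
      · rw [h1] at h3
        exact absurd h3 hvc
    · refine ⟨Or.inl hT.1, hT.2.1, hT.2.2.1, ?_⟩
      intro K' hK' h2 h3
      rcases hK' with h1 | h1 | h1
      · exact hT.2.2.2 K' h1 h2 h3
      · rw [h1] at h2
        exact absurd h2 hac
      · rw [h1] at h3
        exact absurd h3 hvc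

end Pool.Agent.SOD
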