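import Pool.Agent.SOD.PhFin

/-! Project SOD, module Phase (size 2): the phase of the vertex `v`. -/

set_option autoImplicit false

open Set

namespace Pool.Agent.SOD

variable {V : Type} [LinearOrder V] [Fintype V] {G : SimpleGraph V} {N : Nd V → Prop} {D : Finset V}

/-- PROOF: direct. noinn: (inn v).2 = {v}, v ∉ D. low, core, left2, left3, ht, steep: a Priv node is not in St N D
(priv_not_st). tvis: tp_iff_top and hS.vis. tmono: hS.ord.r1 with m = m' = v. -/
theorem ph_init (hN : Nds G N) {v : V} (hv : v ∉ D) {p : Nd V → ℂ} (hS : Stage G N D p) :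
    PhMid G N D v p p (St N D) where
  sw := hS.sw
  isw := fun h => st_swap hN h
  base := id
  only := Or.inl
  noinn := by
    rintro ⟨-, -, y, hy, hyD⟩
    have : y = v := by simpa [inn] using hy
    exact hv (this ▸ hyD)
  low := fun _ h2 h3 _ => absurd h3 (priv_not_st h2)
  old := fun _ => rfl
  pln := hS.pln
  core := fun h1 h2 => absurd h2 (priv_not_st h1)
  tvis := fun ha _ hK => hS.vis ha hv ((tp_iff_top ha).1 hK)
  tmono := fun ha ha' hle hK hK' => hS.ord.r1 ha ha' hv hv hle le_rfl ((tp_iff_top ha).1 hK) ((tp_iff_top ha').1 hK')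
  left1 := fun _ _ _ h _ => h
  left2 := fun _ _ h1 h2 _ => absurd h2 (priv_not_st h1)
  left3 := fun _ h1 h2 _ _ _ _ => absurd h2 (priv_not_st h1)
  htold := fun _ h1 h2 => absurd h2 (priv_not_st h1)
  htnew := fun h1 h2 _ _ _ => absurd h2 (priv_not_st h1)
  steep := fun _ h1 h2 _ _ _ => absurd h2 (priv_not_st h1)

/-- PROOF: ph_init; then ph_step as long as there is a Priv node c ≠ inn v outside of I (the number of nodes outside of I
decreases; Nd V is finite: strong induction on the cardinality of {K | ¬ I K}); then ph_fin. -/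
theorem phase (hN : Nds G N) {v : V} (hD : Low D) (hv : v ∉ D) {p : Nd V → ℂ} (hS : Stage G N D p) :
    ∃ p', PhaseOut G N D v p p' := by
  have key : ∀ n : ℕ, ∀ (q : Nd V → ℂ) (I : Nd V → Prop), PhMid G N D v p q I → {K : Nd V | ¬ I K}.ncard ≤ n →
      ∃ p', PhaseOut G N D v p p' := by
    intro n
    induction n with
    | zero =>
      intro q I hM hn
      refine ph_fin hN hD hv hM (fun c _ _ => ?_)
      by_contra hc
      have h0 : {K : Nd V | ¬ I K} = ∅ := (Set.ncard_eq_zero (Set.toFinite _)).1 (Nat.le_zero.1 hn)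
      have h1 : c ∈ {K : Nd V | ¬ I K} := hc
      rw [h0] at h1
      exact h1
    | succ n ih =>
      intro q I hM hn
      by_cases hex : ∃ c, Priv G N D v c ∧ ¬ I c ∧ c ≠ inn G v
      · obtain ⟨c, z, hc, hcI, hM'⟩ := ph_step hN hD hv hM hex
        refine ih _ _ hM' ?_
        have h0 : {K : Nd V | ¬ insI I c K} ⊆ {K : Nd V | ¬ I K} := by
          intro K hK hI
          exact hK (Or.inl hI)
        have h1 : {K : Nd V | ¬ insI I c K} ⊂ {K : Nd V | ¬ I K} := by
          rw [Set.ssubset_iff_of_subset h0]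
          exact ⟨c, hcI, fun h => h (Or.inr (Or.inl rfl))⟩
        have h2 := Set.ncard_lt_ncard h1 (Set.toFinite _)
        omega
      · refine ph_fin hN hD hv hM (fun c hc hne => ?_)
        by_contra hI
        exact hex ⟨c, hc, hI, hne⟩
  exact key _ p (St N D) (ph_init hN hv hS) le_rfl

end Pool.Agent.SOD
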