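import Pool.Agent.SOD.Defs

/-! Project SOD, module QtCor (size 5): from quartets to cores, for a linear order. -/

set_option autoImplicit false

open Set

namespace Pool.Agent.SOD

variable {V : Type} [LinearOrder V] [Fintype V] {G : SimpleGraph V} {T : V → V → V → V → Prop}

/-- all quartets between `X` and `Y` are in `T` -/
def TB (T : V → V → V → V → Prop) (K : Nd V) : Prop :=
  K.1.Nontrivial ∧ K.2.Nontrivial ∧
    ∀ x ∈ K.1, ∀ x' ∈ K.1, x ≠ x' → ∀ y ∈ K.2, ∀ y' ∈ K.2, y ≠ y' → T x x' y y'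

/-- the cores: the maximal systems of this kind -/
def TC (T : V → V → V → V → Prop) (K : Nd V) : Prop :=
  TB T K ∧ ∀ K', TB T K' → K.1 ⊆ K'.1 → K.2 ⊆ K'.2 → K' = K

/-- the symmetries of a quartet and adjacency of all four pairs -/
theorem QT.adj' (h : QT G (crL (V := V)) T) {a b c d : V} (hT : T a b c d) :
    G.Adj a c ∧ G.Adj a d ∧ G.Adj b c ∧ G.Adj b d ∧ a ≠ b ∧ c ≠ d := by
  have h1 : T b a c d := h.swap₁ hT
  have h2 : T c d a b := h.swap₂ hT
  have h3 : T a b d c := h.swap₂ (h.swap₁ h2)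
  have h4 : T b a d c := h.swap₁ h3
  exact ⟨h.adj hT, h.adj h3, h.adj h1, h.adj h4, h.ne hT, h.ne h2⟩

/-- four points in order: PROOF: crL for a < b < c < d: crL a c b d (b is between a and c, d is not), crL b d a c; not crL a b c d
etc. -/
theorem crL_of_lt {a b c d : V} (h1 : a < b) (h2 : b < c) (h3 : c < d) : crL a c b d ∧ crL b d a c ∧ ¬ crL a b c d ∧
    ¬ crL a d b c := by
  have h4 := lt_trans h1 h2
  have h5 := lt_trans h2 h3
  have h6 := lt_trans h4 h3
  unfold crL
  simp [h1, h2, h3, h4, h5, h6, h1.not_gt, h2.not_gt, h3.not_gt, h4.not_gt, h5.not_gt, h6.not_gt]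

/-- property (d) from the crossings -/
theorem qtcor_d0 (h : QT G (crL (V := V)) T) {u w x y z : V} (hT : T u w x z) (hy : G.Adj u y) (hyw : y ≠ w)
    (hxy : x ≠ y) (hyz : y ≠ z) (h1 : crL u y x z) (h2 : crL w y x z) : T u w x y := by
  have s2 : ∀ {p q r s : V}, T p q r s → T p q s r := fun hh => h.swap₂ (h.swap₁ (h.swap₂ hh))
  obtain ⟨hux, huz, hwx, hwz, huw, hxz⟩ := QT.adj' h hT
  have h3 : crL u y w z ∨ crL u y w x := by
    by_contra hc
    rw [not_or] at hc
    exact h1 ((not_not.1 hc.2).symm.trans (not_not.1 hc.1))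
  rcases h3 with h3 | h3
  · rcases h.some hy hwz huw huz.ne hyw.symm hyz h3 with h4 | h4
    · exact h.trans hT (s2 h4) hxy
    · exfalso
      rcases h.ferrers (s2 (h.swap₂ h4)) (s2 (h.swap₁ hT)) with h5 | h5
      · exact h.nocross h5 fun hh => h2 hh.symm
      · exact G.irrefl (QT.adj' h h5).2.2.2.1
  · rcases h.some hy hwx huw hux.ne hyw.symm hxy.symm h3 with h4 | h4
    · exact s2 h4
    · exfalso
      rcases h.ferrers (s2 (h.swap₂ h4)) (h.swap₁ hT) with h5 | h5
      · exact h.nocross h5 h2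
      · exact G.irrefl (QT.adj' h h5).2.2.2.1

/-- property (d): {uw|xz} ∈ T, y ∈ N(u) in the arc between x and z which does not contain u, w: then {uw|xy} ∈ T.
PROOF. Cyclic order B: (u, w, x, y, z) [i.e. one of: w < x < y < z < u, x < y < z < u < w, u < w < x < y < z]: the chord u-y
crosses the chord w-z: `some` (edges u-y, w-z): T u w y z: `trans` with T u w x z gives T u w x y. T u z w y: `ferrers` with
(a, b) = (w, z): T w u z x and T w y z u give T w u z u (impossible: adjacency of u to itself) or T w y z x: impossible by nocross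
(w, x, y, z is the cyclic order). Cyclic order A: (w, u, x, y, z): w-x crosses u-y: `some`: T w u x y: done. T w y u x: `ferrers`
with (a, b) = (w, x): T w y x u and T w u x z give T w y x z (nocross: cyclic order w, x, y, z) or T w u x u (impossible).
Hint: prove it once in the form: crL u y w z → crL w y x z → .. → T u w x y and once for crL w x u y, and then check the positions
by `crL` unfolding and `order`/`grind`. -/
theorem QT.d1 (h : QT G (crL (V := V)) T) {u w x y z : V} (hT : T u w x z) (hy : G.Adj u y) (hyw : y ≠ w) (h1 : x < y)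
    (h2 : y < z) (hu : u < x ∨ z < u) (hw : w < x ∨ z < w) : T u w x y := by
  have h3 := lt_trans h1 h2
  refine qtcor_d0 h hT hy hyw h1.ne h2.ne ?_ ?_
  · unfold crL
    rcases hu with hu | hu
    · have h4 := lt_trans hu h1
      have h5 := lt_trans hu h3
      simp [hu, h1, h2, h3, h4, h5, hu.not_gt, h1.not_gt, h2.not_gt, h3.not_gt, h4.not_gt, h5.not_gt]
    · have h4 := lt_trans h2 hu
      have h5 := lt_trans h3 hu
      simp [hu, h1, h2, h3, h4, h5, hu.not_gt, h1.not_gt, h2.not_gt, h3.not_gt, h4.not_gt, h5.not_gt]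
  · unfold crL
    rcases hw with hu | hu
    · have h4 := lt_trans hu h1
      have h5 := lt_trans hu h3
      simp [hu, h1, h2, h3, h4, h5, hu.not_gt, h1.not_gt, h2.not_gt, h3.not_gt, h4.not_gt, h5.not_gt]
    · have h4 := lt_trans h2 hu
      have h5 := lt_trans h3 hu
      simp [hu, h1, h2, h3, h4, h5, hu.not_gt, h1.not_gt, h2.not_gt, h3.not_gt, h4.not_gt, h5.not_gt]

/-- (d) for the other arc -/
theorem QT.d2 (h : QT G (crL (V := V)) T) {u w x y z : V} (hT : T u w x z) (hy : G.Adj u y) (hyw : y ≠ w)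
    (h2 : y < x ∨ z < y) (hu : x < u ∧ u < z) (hw : x < w ∧ w < z) : T u w x y := by
  have h3 : x < z := lt_trans hu.1 hu.2
  have h4 : x ≠ y := by
    rintro rfl
    rcases h2 with h2 | h2
    · exact lt_irrefl _ h2
    · exact lt_irrefl _ (lt_trans h2 h3)
  have h5 : y ≠ z := by
    rintro rfl
    rcases h2 with h2 | h2
    · exact lt_irrefl _ (lt_trans h2 h3)
    · exact lt_irrefl _ h2
  refine qtcor_d0 h hT hy hyw h4 h5 ?_ ?_
  · unfold crL
    obtain ⟨hu1, hu2⟩ := hu
    rcases h2 with h2 | h2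
    · have h6 := lt_trans h2 h3
      have h7 := lt_trans h2 hu1
      simp [hu1, hu2, h2, h3, h6, h7, hu1.not_gt, hu2.not_gt, h2.not_gt, h3.not_gt, h6.not_gt, h7.not_gt]
    · have h6 := lt_trans h3 h2
      have h7 := lt_trans hu2 h2
      simp [hu1, hu2, h2, h3, h6, h7, hu1.not_gt, hu2.not_gt, h2.not_gt, h3.not_gt, h6.not_gt, h7.not_gt]
  · unfold crL
    obtain ⟨hu1, hu2⟩ := hw
    rcases h2 with h2 | h2
    · have h6 := lt_trans h2 h3
      have h7 := lt_trans h2 hu1
      simp [hu1, hu2, h2, h3, h6, h7, hu1.not_gt, hu2.not_gt, h2.not_gt, h3.not_gt, h6.not_gt, h7.not_gt]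
    · have h6 := lt_trans h3 h2
      have h7 := lt_trans hu2 h2
      simp [hu1, hu2, h2, h3, h6, h7, hu1.not_gt, hu2.not_gt, h2.not_gt, h3.not_gt, h6.not_gt, h7.not_gt]

/-- it is enough to have the quartets which contain a fixed pair (a, b). PROOF: for x, x' ∈ K.1, y, y' ∈ K.2: (trans) {a x | b y},
{a x | b y'} give {a x | y y'} (y ≠ y'); then {y y' | a x}, {y y' | a x'} give {y y' | x x'}. -/
theorem tb_of_edge (h : QT G (crL (V := V)) T) {K : Nd V} {a b : V} (ha : a ∈ K.1) (hb : b ∈ K.2)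
    (h1 : K.1.Nontrivial) (h2 : K.2.Nontrivial)
    (hT : ∀ x ∈ K.1, x ≠ a → ∀ y ∈ K.2, y ≠ b → T a x b y) : TB T K := by
  have s2 : ∀ {p q r s : V}, T p q r s → T p q s r := fun hh => h.swap₂ (h.swap₁ (h.swap₂ hh))
  have k1 : ∀ x ∈ K.1, x ≠ a → ∀ y ∈ K.2, ∀ y' ∈ K.2, y ≠ y' → T a x y y' := by
    intro x hx hxa y hy y' hy' hyy
    by_cases hb1 : y = b
    · rw [hb1]
      exact hT x hx hxa y' hy' (fun hh => hyy (hb1.trans hh.symm))
    · by_cases hb2 : y' = b
      · rw [hb2]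
        exact s2 (hT x hx hxa y hy hb1)
      · exact h.trans (s2 (hT x hx hxa y hy hb1)) (hT x hx hxa y' hy' hb2) hyy
  refine ⟨h1, h2, ?_⟩
  intro x hx x' hx' hxx y hy y' hy' hyy
  by_cases ha1 : x = a
  · rw [ha1]
    exact k1 x' hx' (fun hh => hxx (ha1.trans hh.symm)) y hy y' hy' hyy
  · by_cases ha2 : x' = a
    · rw [ha2]
      exact h.swap₁ (k1 x hx ha1 y hy y' hy' hyy)
    · exact h.swap₂ (h.trans (s2 (h.swap₂ (k1 x hx ha1 y hy y' hy' hyy)))
        (h.swap₂ (k1 x' hx' ha2 y hy y' hy' hyy)) hxx)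

/-- PROOF: among the finitely many K' with TB T K', K.1 ⊆ K'.1, K.2 ⊆ K'.2 take one with K'.1.card + K'.2.card maximal. -/
theorem tc_exists {K : Nd V} (hK : TB T K) : ∃ K', TC T K' ∧ K.1 ⊆ K'.1 ∧ K.2 ⊆ K'.2 := by
  obtain ⟨m, hm, hm2⟩ := (Set.toFinite {K : Nd V | TB T K}).exists_le_maximal hK
  refine ⟨m, ⟨hm2.1, ?_⟩, hm.1, hm.2⟩
  intro K' hK' h1 h2
  have h3 : m ≤ K' := ⟨h1, h2⟩
  exact le_antisymm (hm2.2 hK' h3) h3

/-- closure: z with {a z | b y} ∈ T for all y ∈ K.2, y ≠ b, belongs to K.1. PROOF: (insert z K.1, K.2) is TB by tb_of_edge; maximality.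
-/
theorem tc_mem (h : QT G (crL (V := V)) T) {K : Nd V} (hK : TC T K) {a b z : V} (ha : a ∈ K.1) (hb : b ∈ K.2)
    (hz : ∀ y ∈ K.2, y ≠ b → T a z b y) : z ∈ K.1 := by
  classical
  have h1 : TB T ((insert z K.1, K.2) : Nd V) := by
    refine tb_of_edge h (a := a) (b := b) (Finset.mem_insert_of_mem ha) hb ?_ hK.1.2.1 ?_
    · exact hK.1.1.mono (Finset.subset_insert z K.1)
    · intro x hx hxa y hy hyb
      rcases Finset.mem_insert.1 hx with rfl | hx
      · exact hz y hy hyb
      · exact hK.1.2.2 a ha x hx (Ne.symm hxa) b hb y hy (Ne.symm hyb)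
  have h2 := hK.2 _ h1 (Finset.subset_insert z K.1) (Finset.Subset.refl _)
  have h3 : insert z K.1 = K.1 := congrArg Prod.fst h2
  rw [← h3]
  exact Finset.mem_insert_self z K.1

/-- PROOF of the fields. swap: TB, TC are symmetric (swap₂). adj: K.1 nontrivial, K.2 nontrivial: every x, y are in a quartet. nt.
chain: suppose x ∈ K.1 \ K'.1 and x' ∈ K'.1 \ K.1. By tc_mem for K' there is y' ∈ K'.2, y' ≠ b, with ¬ T a x b y' and for K there is
y ∈ K.2, y ≠ b with ¬ T a x' b y. (x, x' ≠ a.) But T a x b y and T a x' b y': ferrers: contradiction. So K.1 ⊆ K'.1 or K'.1 ⊆ K.1;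
if K.1 ⊆ K'.1 then K'.2 ⊆ K.2: for y ∈ K'.2 use tc_mem for K.swap with (b, a): for all x ∈ K.1, x ≠ a: T b y a x holds as x ∈ K'.1.
strict: K.1 = K'.1: chain (with a ∈ K.1) gives K.2 = K'.2 by the previous sentence in both directions.
noninter: x < y < x' < y': T x x' y y' and nocross with crL_of_lt (crL x x' y y'). int1, int2: K, x ∈ K.1, y, y' ∈ K.2, z: by tc_mem
for K.swap with (y, x): for all x' ∈ K.1, x' ≠ x: T y z x x': by (d) (QT.d1, QT.d2 for u = x, w = x', x := y, y := z, z := y': T x x' y z;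
x' is not in the arc between y and y' that contains z, because {x,x'}, {y,y'} do not interleave; z ≠ x' as T x x' would.. if z = x'
then z ∈ K.1 and G.Adj x z; then x, y, z = x', y' interleave: contradiction by nocross). cross: `some` with crL_of_lt gives a quartet;
TB for the pairs; tc_exists. -/
theorem cor_of_qt (h : QT G (crL (V := V)) T) : Cor G (TC T) := by
  have s2 : ∀ {p q r s : V}, T p q r s → T p q s r := fun hh => h.swap₂ (h.swap₁ (h.swap₂ hh))
  have hswB : ∀ {K : Nd V}, TB T K → TB T K.swap := by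
    intro K hK
    exact ⟨hK.2.1, hK.1, fun x hx x' hx' hxx y hy y' hy' hyy => h.swap₂ (hK.2.2 y hy y' hy' hyy x hx x' hx' hxx)⟩
  have hsw : ∀ {K : Nd V}, TC T K → TC T K.swap := by
    intro K hK
    refine ⟨hswB hK.1, ?_⟩
    intro K' hK' h1 h2
    have h3 := hK.2 K'.swap (hswB hK') h2 h1
    rw [← h3]
    exact (Prod.swap_swap K').symm
  have hadj : ∀ {K : Nd V}, TC T K → ∀ {x y}, x ∈ K.1 → y ∈ K.2 → G.Adj x y := by
    intro K hK x y hx hy
    obtain ⟨x', hx', hxx⟩ := hK.1.1.exists_ne x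
    obtain ⟨y', hy', hyy⟩ := hK.1.2.1.exists_ne y
    exact h.adj (hK.1.2.2 x hx x' hx' (Ne.symm hxx) y hy y' hy' (Ne.symm hyy))
  have hch : ∀ {K K' : Nd V}, TC T K → TC T K' → ∀ {a b}, a ∈ K.1 → a ∈ K'.1 → b ∈ K.2 → b ∈ K'.2 →
      K.1 ⊆ K'.1 → K'.2 ⊆ K.2 := by
    intro K K' hK hK' a b ha ha' hb hb' hsub y hy
    by_cases hyb : y = b
    · rw [hyb]
      exact hb
    · refine tc_mem h (hsw hK) (a := b) (b := a) hb ha ?_
      intro x hx hxa
      exact h.swap₂ (hK'.1.2.2 a ha' x (hsub hx) (Ne.symm hxa) b hb' y hy (Ne.symm hyb))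
  have hni : ∀ {K : Nd V}, TC T K → ∀ {x x' y y'}, x ∈ K.1 → x' ∈ K.1 → y ∈ K.2 → y' ∈ K.2 → x < y → y < x' →
      x' < y' → False := by
    intro K hK x x' y y' hx hx' hy hy' h1 h2 h3
    exact h.nocross (hK.1.2.2 x hx x' hx' (lt_trans h1 h2).ne y hy y' hy' (lt_trans h2 h3).ne)
      (crL_of_lt h1 h2 h3).1
  refine ⟨hsw, hadj, fun hK => hK.1.1, ?_, ?_, hni, ?_, ?_, ?_⟩
  · intro K K' hK hK' a b ha ha' hb hb'
    have h1 : K.1 ⊆ K'.1 ∨ K'.1 ⊆ K.1 := by
      by_contra hcon
      push Not at hcon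
      obtain ⟨x, hx, hx'⟩ := Finset.not_subset.1 hcon.1
      obtain ⟨w, hw, hw'⟩ := Finset.not_subset.1 hcon.2
      have hxa : x ≠ a := by
        rintro rfl
        exact hx' ha'
      have hwa : w ≠ a := by
        rintro rfl
        exact hw' ha
      have h2 : ∃ y ∈ K'.2, y ≠ b ∧ ¬ T a x b y := by
        by_contra hc
        push Not at hc
        exact hx' (tc_mem h hK' ha' hb' hc)
      have h3 : ∃ y ∈ K.2, y ≠ b ∧ ¬ T a w b y := by
        by_contra hc
        push Not at hc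
        exact hw' (tc_mem h hK ha hb hc)
      obtain ⟨y', hy', hyb', hT'⟩ := h2
      obtain ⟨y, hy, hyb, hT⟩ := h3
      rcases h.ferrers (hK.1.2.2 a ha x hx (Ne.symm hxa) b hb y hy (Ne.symm hyb))
        (hK'.1.2.2 a ha' w hw (Ne.symm hwa) b hb' y' hy' (Ne.symm hyb')) with h4 | h4
      · exact hT' h4
      · exact hT h4
    rcases h1 with h1 | h1
    · exact Or.inl ⟨h1, hch hK hK' ha ha' hb hb' h1⟩
    · exact Or.inr ⟨h1, hch hK' hK ha' ha hb' hb h1⟩
  · intro K K' hK hK' h1 b hb hb'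
    obtain ⟨a, ha⟩ := hK.1.1.nonempty
    have ha' : a ∈ K'.1 := h1 ▸ ha
    refine Prod.ext h1 (Finset.Subset.antisymm ?_ ?_)
    · exact hch hK' hK ha' ha hb' hb (h1 ▸ Finset.Subset.refl _)
    · exact hch hK hK' ha ha' hb hb' (h1 ▸ Finset.Subset.refl _)
  · intro K hK x y y' z hx hy hy' hxz h1 h2 h3
    have hyy : y ≠ y' := (lt_trans h1 h2).ne
    have hout : ∀ x' ∈ K.1, x' < y ∨ y' < x' := by
      intro x' hx'
      rcases lt_trichotomy x' y with h4 | h4 | h4
      · exact Or.inl h4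
      · exact absurd (hadj hK hx' hy) (h4 ▸ G.irrefl)
      · rcases lt_trichotomy x' y' with h5 | h5 | h5
        · exfalso
          rcases h3 with h3 | h3
          · exact hni hK hx hx' hy hy' h3 h4 h5
          · exact hni (hsw hK) hy hy' hx' hx h4 h5 h3
        · exact absurd (hadj hK hx' hy') (h5 ▸ G.irrefl)
        · exact Or.inr h5
    refine tc_mem h (hsw hK) (a := y) (b := x) hy hx ?_
    intro x' hx' hxx
    have h4 : z ≠ x' := by
      rintro rfl
      rcases hout z hx' with h5 | h5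
      · exact lt_asymm h5 h1
      · exact lt_asymm h5 h2
    exact h.swap₂ (QT.d1 h (hK.1.2.2 x hx x' hx' (Ne.symm hxx) y hy y' hy' hyy) hxz h4 h1 h2 h3 (hout x' hx'))
  · intro K hK x y y' z hx hy hy' hxz h1 h2 h3
    have hyy : y ≠ y' := (lt_trans h1 h2).ne
    have hin : ∀ x' ∈ K.1, y < x' ∧ x' < y' := by
      intro x' hx'
      rcases lt_trichotomy x' y with h4 | h4 | h4
      · exact absurd (hni hK hx' hx hy hy' h4 h1 h2) not_false
      · exact absurd (hadj hK hx' hy) (h4 ▸ G.irrefl)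
      · rcases lt_trichotomy x' y' with h5 | h5 | h5
        · exact ⟨h4, h5⟩
        · exact absurd (hadj hK hx' hy') (h5 ▸ G.irrefl)
        · exact absurd (hni (hsw hK) hy hy' hx hx' h1 h2 h5) not_false
    refine tc_mem h (hsw hK) (a := y) (b := x) hy hx ?_
    intro x' hx' hxx
    have h4 : z ≠ x' := by
      rintro rfl
      have h5 := hin z hx'
      rcases h3 with h3 | h3
      · exact lt_asymm h3 h5.1
      · exact lt_asymm h3 h5.2
    exact h.swap₂ (QT.d2 h (hK.1.2.2 x hx x' hx' (Ne.symm hxx) y hy y' hy' hyy) hxz h4 h3 ⟨h1, h2⟩ (hin x' hx'))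
  · intro a b c d h1 h2 h3 hac hbd
    have hbuild : ∀ {p q r s : V}, T p q r s → ∃ K, TC T K ∧ p ∈ K.1 ∧ q ∈ K.1 ∧ r ∈ K.2 ∧ s ∈ K.2 := by
      intro p q r s hpq
      have hne := QT.adj' h hpq
      have hTB : TB T ((({p, q} : Finset V), ({r, s} : Finset V)) : Nd V) := by
        refine tb_of_edge h (a := p) (b := r) (Finset.mem_insert_self _ _) (Finset.mem_insert_self _ _)
          (Finset.nontrivial_iff_ne_singleton (Finset.mem_insert_self _ _) |>.2 ?_)
          (Finset.nontrivial_iff_ne_singleton (Finset.mem_insert_self _ _) |>.2 ?_) ?_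
        · intro hh
          have h4 : q ∈ ({p} : Finset V) := hh ▸ (Finset.mem_insert_of_mem (Finset.mem_singleton_self q))
          exact hne.2.2.2.2.1 (Finset.mem_singleton.1 h4).symm
        · intro hh
          have h4 : s ∈ ({r} : Finset V) := hh ▸ (Finset.mem_insert_of_mem (Finset.mem_singleton_self s))
          exact hne.2.2.2.2.2 (Finset.mem_singleton.1 h4).symm
        · intro x hx hxp y hy hyr
          rcases Finset.mem_insert.1 hx with hx | hx
          · exact absurd hx hxp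
          · rcases Finset.mem_insert.1 hy with hy | hy
            · exact absurd hy hyr
            · rw [Finset.mem_singleton.1 hx, Finset.mem_singleton.1 hy]
              exact hpq
      obtain ⟨K, hK, hK1, hK2⟩ := tc_exists hTB
      exact ⟨K, hK, hK1 (Finset.mem_insert_self _ _), hK1 (Finset.mem_insert_of_mem (Finset.mem_singleton_self q)),
        hK2 (Finset.mem_insert_self _ _), hK2 (Finset.mem_insert_of_mem (Finset.mem_singleton_self s))⟩
    have h4 := lt_trans h1 h2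
    have h5 := lt_trans h2 h3
    have h6 := lt_trans h4 h3
    rcases h.some hac hbd h1.ne h6.ne h2.ne h3.ne (crL_of_lt h1 h2 h3).1 with hT | hT
    · obtain ⟨K, hK, k1, k2, k3, k4⟩ := hbuild hT
      exact ⟨K, hK, Or.inl ⟨k1, k2, k3, k4⟩⟩
    · obtain ⟨K, hK, k1, k2, k3, k4⟩ := hbuild hT
      exact ⟨K, hK, Or.inr ⟨k1, k2, k3, k4⟩⟩

end Pool.Agent.SOD
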