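import Pool.Agent.SOD.TopCases

/-! Project SOD, module R1a (size 3): the invariant r1 at stage `insert v D`, case a' ∈ D. -/

set_option autoImplicit false

open Set

namespace Pool.Agent.SOD

variable {V : Type} [LinearOrder V] [Fintype V] {G : SimpleGraph V} {N : Nd V → Prop} {D : Finset V}

/-- PROOF. a ∈ D as a ≤ a' (Low). Write K old if K.2 meets D (then Top N D a m K by top_old, St N D K, x' K = x K), and
private otherwise (then v ∈ K.2, Priv K, and a₁ ∈ K.1 by priv_left); same for K'. Note v < m' ≤ m.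
(1a) both old: hO.r1.
(1b) K old, K' private: x K ≤ x h by `bound` (h with Top N D a₁ v h by top_exists), x h < x' K' by hX.left.
(1c) K private, K' old: contradiction. Note a ~ v, a' ~ m'.
   First, if a ~ m' then m' ∈ K.2: m' = m, or v < m' < m and hN.int1 (x = a, y = v, y' = m, z = m').
   If a = a': m' ∈ K.2, so K contains (a; m') and v: K.1 ⊆ K'.1 by the maximality of K'. hN.chain (K, K'; a, m'):
     K'.2 ⊆ K.2 is impossible (K'.2 meets D), so K'.1 ⊆ K.1, K.1 = K'.1, K = K' (hN.strict): contradiction.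
   If a < a': hN.cross for a < a' < v < m' (a ~ v, a' ~ m'): K₀.
     Type 1 (a, a' ∈ K₀.1; v, m' ∈ K₀.2): a ~ m', so m' ∈ K.2. K₀ contains (a'; m') and v, so K₀.1 ⊆ K'.1, a ∈ K'.1.
     hN.chain (K, K'; a, m'): K'.2 ⊆ K.2 impossible; so K'.1 ⊆ K.1, a' ∈ K.1, K contains (a'; m') and v: K.1 ⊆ K'.1,
     K.1 = K'.1, K = K': contradiction.
     Type 2 (a, m' ∈ K₀.1; a', v ∈ K₀.2): hN.chain (K₀, K; a, v): K₀.2 ⊆ K.2 is impossible (a' ∈ D); so K₀.1 ⊆ K.1,
     m' ∈ K.1. If m' = m: not_both. If m' < m: a < v < m' < m, a, m' ∈ K.1, v, m ∈ K.2: hN.noninter.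
(1d) both private: a₁ ∈ K.1, K'.1. hN.chain (K, K'; a₁, v). If K.1 ⊆ K'.1: if K.1 = K'.1 then K = K' (strict), otherwise
   hX.mono. If K'.1 ⊆ K.1: a' ∈ K.1; m' ∈ K.2 (m' = m or hN.int1 with x = a' ∈ K.1, y = v, y' = m, z = m', a' ~ m');
   so K contains (a'; m') and v: K.1 ⊆ K'.1, K = K'. -/
theorem r1a (hN : Nds G N) {v : V} (hD : Low D) (hD' : Low (insert v D)) (hv : v ∉ D) {x x' : Nd V → ℝ}
    (hO : Ord N D x) (hX : XStep G N D v x x') {a a' m m' : V} {K K' : Nd V} (ha' : a' ∈ D)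
    (hm : m ∉ insert v D) (hm' : m' ∉ insert v D) (haa : a ≤ a') (hmm : m' ≤ m)
    (hK : Top N (insert v D) a m K) (hK' : Top N (insert v D) a' m' K') : x' K ≤ x' K' := by
  have ha : a ∈ D := by
    by_contra h
    exact absurd (hD a' ha' a h) (not_lt.mpr haa)
  have hmD : m ∉ D := fun h => hm (Finset.mem_insert_of_mem h)
  have hmD' : m' ∉ D := fun h => hm' (Finset.mem_insert_of_mem h)
  have hav : a < v := hD a ha v hv
  have hav' : a' < v := hD a' ha' v hv
  have hvm : v < m := hD' v (Finset.mem_insert_self _ _) m hm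
  have hvm' : v < m' := hD' v (Finset.mem_insert_self _ _) m' hm'
  have NK : N K := hK.1
  have NK' : N K' := hK'.1
  have haK : a ∈ K.1 := hK.2.1
  have hmK : m ∈ K.2 := hK.2.2.1
  have haK' : a' ∈ K'.1 := hK'.2.1
  have hmK' : m' ∈ K'.2 := hK'.2.2.1
  -- consequences of being private
  have priv : ∀ {b n : V} {L : Nd V}, b ∈ D → Top N (insert v D) b n L → (¬ ∃ y ∈ L.2, y ∈ D) →
      v ∈ L.2 ∧ Priv G N D v L := by
    intro b n L hb hL hno
    obtain ⟨y, hy, hy'⟩ := hL.2.2.2.1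
    have hvL : v ∈ L.2 := by
      rcases Finset.mem_insert.mp hy' with h | h
      · rw [← h]
        exact hy
      · exact absurd ⟨y, hy, h⟩ hno
    exact ⟨hvL, hL.1, hvL, fun y hy h => hno ⟨y, hy, h⟩, Or.inr ⟨b, hL.2.1, hb⟩⟩
  by_cases h1 : ∃ y ∈ K.2, y ∈ D
  · have hT : Top N D a m K := top_old hK h1
    have hS : St N D K := top_st hT ha
    rw [hX.old hS]
    by_cases h2 : ∃ y ∈ K'.2, y ∈ D
    · -- both old
      have hT' : Top N D a' m' K' := top_old hK' h2
      rw [hX.old (top_st hT' ha')]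
      exact hO.r1 ha ha' hmD hmD' haa hmm hT hT'
    · -- `K` old, `K'` private
      obtain ⟨hvK', hP'⟩ := priv ha' hK' h2
      obtain ⟨a₁, hm1, ha1⟩ := priv_left hN hD hD' hv ha' hm' hK' hvK'
      obtain ⟨h, hh⟩ := top_exists hN hm1.1 hv hm1.2.1.symm
      exact (bound hN hD hD' hv hO ha hm hT hK hm1 hh).trans (hX.left hm1 hh hP' ha1).le
  · obtain ⟨hvK, hP⟩ := priv ha hK h1
    obtain ⟨a₁, hm1, ha1⟩ := priv_left hN hD hD' hv ha hm hK hvK
    by_cases h2 : ∃ y ∈ K'.2, y ∈ D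
    · -- `K` private, `K'` old
      exfalso
      have Aav : G.Adj a v := hN.adj NK haK hvK hav.ne
      have Aam' : G.Adj a' m' := hN.adj NK' haK' hmK' (hav'.trans hvm').ne
      have step1 : G.Adj a m' → m' ∈ K.2 := by
        intro hadj
        rcases eq_or_lt_of_le hmm with h | h
        · rw [h]
          exact hmK
        · exact hN.int1 NK haK hvK hmK hadj hvm' h (Or.inl hav)
      -- `K` and `K'` through `(b; m')`, with the same left side
      have eqK : ∀ {b : V}, b < m' → b ∈ K.1 → b ∈ K'.1 → m' ∈ K.2 → K.1 ⊆ K'.1 → K'.1 ⊆ K.1 → False := by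
        intro b hb hbK hbK' hmK2 s1 s2
        have e : K = K' := hN.strict NK NK' (Finset.Subset.antisymm s1 s2) hb.ne hbK hmK2 hmK'
        rw [← e] at h2
        exact h1 h2
      have chainK : ∀ {b : V}, b < m' → b ∈ K.1 → b ∈ K'.1 → m' ∈ K.2 → K'.1 ⊆ K.1 := by
        intro b hb hbK hbK' hmK2
        rcases hN.chain NK NK' hb.ne hbK hbK' hmK2 hmK' with ⟨_, s⟩ | ⟨s, _⟩
        · exfalso
          obtain ⟨y, hy, hyD⟩ := h2
          exact h1 ⟨y, s hy, hyD⟩
        · exact s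
      rcases eq_or_lt_of_le haa with haeq | halt
      · subst haeq
        have hmK2 : m' ∈ K.2 := step1 Aam'
        have s1 : K.1 ⊆ K'.1 := hK'.2.2.2.2 K NK haK hmK2 ⟨v, hvK, Finset.mem_insert_self _ _⟩
        exact eqK (hav.trans hvm') haK haK' hmK2 s1 (chainK (hav.trans hvm') haK haK' hmK2)
      · obtain ⟨K₀, NK₀, h | h⟩ := hN.cross halt hav' hvm' Aav Aam'
        · obtain ⟨p1, p2, p3, p4⟩ := h
          have hadj : G.Adj a m' := hN.adj NK₀ p1 p4 (hav.trans hvm').ne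
          have hmK2 : m' ∈ K.2 := step1 hadj
          have s0 : K₀.1 ⊆ K'.1 := hK'.2.2.2.2 K₀ NK₀ p2 p4 ⟨v, p3, Finset.mem_insert_self _ _⟩
          have haK'2 : a ∈ K'.1 := s0 p1
          have s2 : K'.1 ⊆ K.1 := chainK (hav.trans hvm') haK haK'2 hmK2
          have ha'K : a' ∈ K.1 := s2 haK'
          have s1 : K.1 ⊆ K'.1 := hK'.2.2.2.2 K NK ha'K hmK2 ⟨v, hvK, Finset.mem_insert_self _ _⟩
          exact eqK (hav.trans hvm') haK haK'2 hmK2 s1 s2
        · obtain ⟨p1, p2, p3, p4⟩ := h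
          rcases hN.chain NK₀ NK hav.ne p1 haK p4 hvK with ⟨s, _⟩ | ⟨_, s⟩
          · have hm'K : m' ∈ K.1 := s p2
            rcases eq_or_lt_of_le hmm with e | e
            · subst e
              exact not_both hN NK haK (hav.trans hvm').ne hvK hvm'.ne ⟨hm'K, hmK⟩
            · exact hN.noninter NK haK hm'K hvK hmK hav hvm' e
          · exact h1 ⟨a', s p3, ha'⟩
    · -- both private
      obtain ⟨hvK', hP'⟩ := priv ha' hK' h2
      obtain ⟨a₂, hm2, ha2⟩ := priv_left hN hD hD' hv ha' hm' hK' hvK'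
      have e12 : a₁ = a₂ := minNb_unique hm1 hm2
      subst e12
      have h1v : a₁ < v := hD a₁ hm1.1 v hv
      have fin : K.1 ⊆ K'.1 → x' K ≤ x' K' := by
        intro s
        by_cases e : K.1 = K'.1
        · rw [hN.strict NK NK' e h1v.ne ha1 hvK hvK']
        · exact (hX.mono hm1 hP hP' ha1 (Finset.ssubset_iff_subset_ne.mpr ⟨s, e⟩)).le
      rcases hN.chain NK NK' h1v.ne ha1 ha2 hvK hvK' with ⟨s, _⟩ | ⟨s, _⟩
      · exact fin s
      · have ha'K : a' ∈ K.1 := s haK'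
        have hmK2 : m' ∈ K.2 := by
          rcases eq_or_lt_of_le hmm with e | e
          · rw [e]
            exact hmK
          · exact hN.int1 NK ha'K hvK hmK (hN.adj NK' haK' hmK' (hav'.trans hvm').ne) hvm' e (Or.inl hav')
        exact fin (hK'.2.2.2.2 K NK ha'K hmK2 ⟨v, hvK, Finset.mem_insert_self _ _⟩)

end Pool.Agent.SOD
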