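import Pool.Agent.SOD.LinkUniq

/-! Project SOD, module Rad (size 3): the radius of the discs in which the segments are bent. -/

set_option autoImplicit false

open Set

namespace Pool.Agent.SOD

variable {V : Type} [LinearOrder V] [Fintype V] {G : SimpleGraph V} {N : Nd V → Prop}

/-- a good radius -/
structure RadOK (G : SimpleGraph V) (N : Nd V → Prop) (p : Nd V → ℂ) (r : ℝ) : Prop where
  pos : 0 < r
  two : ∀ {K K'}, N K → N K' → p K ≠ p K' → 2 * r < ‖p K' - p K‖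
  seg : ∀ {M A B}, N M → Lk N A B → p M ≠ p A → p M ≠ p B → ∀ {z}, OnSeg (p A) (p B) z → r < ‖z - p M‖
  epi : ∀ {K}, N K → ¬ IsV G K → ∀ {z : ℂ}, ‖z - p K‖ ≤ r → z.re ^ 2 < z.im

/-- PROOF: finitely many conditions (Nd V is finite), each holds for all small r > 0. `seg`: p M is not on the segment by
hp.pln.conf.pt; the segment is compact, the distance is positive. `epi`: the region z.re² < z.im is open. -/
theorem rad_exists (hN : Nds G N) {p : Nd V → ℂ} (hp : SLine G N p) : ∃ r, RadOK G N p r := by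
  have e0 : ∀ᶠ r : ℝ in nhdsWithin 0 (Ioi 0), 0 < r := eventually_mem_nhdsWithin
  have elt : ∀ δ : ℝ, 0 < δ → ∀ᶠ r : ℝ in nhdsWithin 0 (Ioi 0), r < δ := fun δ hδ =>
    (eventually_lt_nhds hδ).filter_mono nhdsWithin_le_nhds
  have e1 : ∀ᶠ r : ℝ in nhdsWithin 0 (Ioi 0), ∀ K K', N K → N K' → p K ≠ p K' → 2 * r < ‖p K' - p K‖ := by
    refine Filter.eventually_all.2 fun K => Filter.eventually_all.2 fun K' => ?_
    by_cases h : p K = p K'
    · exact Filter.Eventually.of_forall fun r _ _ h' => absurd h h'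
    · have hpos : 0 < ‖p K' - p K‖ := norm_pos_iff.2 (sub_ne_zero.2 fun h' => h h'.symm)
      refine (elt (‖p K' - p K‖ / 2) (half_pos hpos)).mono fun r hr _ _ _ => ?_
      linarith
  have e2 : ∀ᶠ r : ℝ in nhdsWithin 0 (Ioi 0), ∀ M A B, N M → Lk N A B → p M ≠ p A → p M ≠ p B →
      ∀ z, OnSeg (p A) (p B) z → r < ‖z - p M‖ := by
    refine Filter.eventually_all.2 fun M => Filter.eventually_all.2 fun A => Filter.eventually_all.2 fun B => ?_
    by_cases h : N M ∧ Lk N A B ∧ p M ≠ p A ∧ p M ≠ p B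
    · obtain ⟨h1, h2, h3, h4⟩ := h
      have hcp : IsCompact ((fun t : ℝ => p A + (t : ℂ) * (p B - p A)) '' Icc 0 1) := by
        apply isCompact_Icc.image
        fun_prop
      have hnot : p M ∈ ((fun t : ℝ => p A + (t : ℂ) * (p B - p A)) '' Icc 0 1)ᶜ := by
        rintro ⟨t, ⟨ht0, ht1⟩, ht⟩
        rcases hp.pln.conf.pt (s := (p A, p B)) (z := p M) ⟨A, B, h2.1, h2.2.1, h2, rfl⟩ ⟨M, h1, rfl⟩
          ⟨t, ht0, ht1, ht.symm⟩ with h5 | h5
        · exact h3 h5
        · exact h4 h5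
      obtain ⟨δ, hδ, hδ'⟩ := Metric.isOpen_iff.1 hcp.isClosed.isOpen_compl _ hnot
      refine (elt δ hδ).mono fun r hr _ _ _ _ z hz => ?_
      obtain ⟨t, ht0, ht1, rfl⟩ := hz
      refine hr.trans_le ?_
      by_contra hlt
      rw [not_le] at hlt
      exact hδ' (show p A + (t : ℂ) * (p B - p A) ∈ Metric.ball (p M) δ by
        rw [Metric.mem_ball, dist_eq_norm]
        exact hlt) ⟨t, ⟨ht0, ht1⟩, rfl⟩
    · exact Filter.Eventually.of_forall fun r h1 h2 h3 h4 => absurd ⟨h1, h2, h3, h4⟩ h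
  have e3 : ∀ᶠ r : ℝ in nhdsWithin 0 (Ioi 0), ∀ K, N K → ¬ IsV G K → ∀ z : ℂ, ‖z - p K‖ ≤ r → z.re ^ 2 < z.im := by
    refine Filter.eventually_all.2 fun K => ?_
    by_cases h : N K ∧ ¬ IsV G K
    · obtain ⟨h1, h2⟩ := h
      have ho : IsOpen {z : ℂ | z.re ^ 2 < z.im} := isOpen_lt (by fun_prop) (by fun_prop)
      obtain ⟨δ, hδ, hδ'⟩ := Metric.isOpen_iff.1 ho (p K) (hp.core h1 h2)
      refine (elt δ hδ).mono fun r hr _ _ z hz => ?_
      refine hδ' (show z ∈ Metric.ball (p K) δ from ?_)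
      rw [Metric.mem_ball, dist_eq_norm]
      exact hz.trans_lt hr
    · exact Filter.Eventually.of_forall fun r h1 h2 => absurd ⟨h1, h2⟩ h
  obtain ⟨r, h0, h1, h2, h3⟩ := (e0.and (e1.and (e2.and e3))).exists
  exact ⟨r, h0, fun {K K'} => h1 K K', fun {M A B} hM hl hA hB {z} hz => h2 M A B hM hl hA hB z hz,
    fun {K} hK hV {z} hz => h3 K hK hV z hz⟩

end Pool.Agent.SOD
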