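import Pool.Agent.SOD.Defs
import Pool.Agent.SOC.Walk

/-! Project SOD, module WSimple (size 3): in a drawing which is strict with respect to smooth walks, smooth walks are simple. -/

set_option autoImplicit false

open Set

namespace Pool.Agent.SOD

open Pool.Agent.SOC Pool.Agent.SOC.Drawing

variable {V : Type} {G : SimpleGraph V} {D : Drawing V}

theorem WSimple_dup {α β : Type*} (f : α → β) : ∀ l : List α, ¬ (l.map f).Nodup →
    ∃ l1 a l2 b l3, l = l1 ++ a :: (l2 ++ b :: l3) ∧ f a = f b
  | [], h => absurd List.nodup_nil h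
  | x :: t, h => by
    by_cases hx : f x ∈ t.map f
    · obtain ⟨b, hb, hfb⟩ := List.mem_map.1 hx
      obtain ⟨l2, l3, rfl⟩ := List.append_of_mem hb
      exact ⟨[], x, l2, b, l3, rfl, hfb.symm⟩
    · have ht : ¬ (t.map f).Nodup := by
        intro ht
        apply h
        rw [List.map_cons, List.nodup_cons]
        exact ⟨hx, ht⟩
      obtain ⟨l1, a, l2, b, l3, rfl, hab⟩ := WSimple_dup f t ht
      exact ⟨x :: l1, a, l2, b, l3, rfl, hab⟩

theorem WSimple_iff (hN : D.NoRevisit) (u v : V) (p : List D.Dart) :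
    IsSmoothWalk u v p ↔ IsSmoothPath u v p :=
  ⟨fun h => ⟨h.1, h.2.1, h.2.2, hN u v p h⟩, fun h => ⟨h.1, h.2.1, h.2.2.1⟩⟩

/-- PROOF. Suppose the junction j is passed twice: p = p₁ ++ d :: e :: p₂ ++ .. i.e. there are two positions: darts d, e consecutive
with beg e = j and later d', e' consecutive with beg e' = j (d' = e or later). vin d ∥ vout e, vin d' ∥ vout e', all multiples of
D.line j (Walk_vin, Walk_vout, Walk_ray). If vout e and vout e' are on the same ray: cut out the part between: .. d, e' .. is a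
smooth walk from u to v (Follows d e') which is shorter: if u ≠ v (then G.Adj u v by hR) contradiction to uniqueness, if u = v to
hS.2. If they are opposite: go along p up to d', then back along the reversed initial part (Walk_rv d, ..): Follows d' (Walk_rv d) as
vout (Walk_rv d) = - vin d: a smooth walk from u to u: contradiction to hS.2. (Walk_rev, Walk_rev_chain from SOC/Walk.lean.) -/
theorem norevisit (hR : D.RepresentsW G) (hS : D.StrictW G) : D.NoRevisit := by
  intro u v p hp
  by_contra hnd
  obtain ⟨h1, h2, h3⟩ := hp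
  obtain ⟨d0, p', rfl⟩ : ∃ d0 p', p = d0 :: p' := by
    cases p with
    | nil => exact absurd h2 (by simp)
    | cons d0 p' => exact ⟨d0, p', rfl⟩
  obtain ⟨l1, e, l2, e', l3, hpe, hbee⟩ := WSimple_dup (beg (D := D)) p' hnd
  subst hpe
  obtain ⟨d, hd⟩ : ∃ d, (d0 :: l1).getLast? = some d :=
    ⟨_, List.getLast?_eq_getLast_of_ne_nil (List.cons_ne_nil _ _)⟩
  obtain ⟨d', hd'⟩ : ∃ d', (e :: l2).getLast? = some d' :=
    ⟨_, List.getLast?_eq_getLast_of_ne_nil (List.cons_ne_nil _ _)⟩
  have hc : ((d0 :: l1) ++ ((e :: l2) ++ (e' :: l3))).IsChain Follows := h1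
  have hc0 := hc
  rw [List.isChain_append] at hc
  obtain ⟨c1, c2, c3⟩ := hc
  rw [List.isChain_append] at c2
  obtain ⟨c4, c5, c6⟩ := c2
  have f1 : Follows d e := c3 d hd e rfl
  have f2 : Follows d' e' := c6 d' hd' e' rfl
  obtain ⟨j, hj⟩ := f1.2.1
  have hfd : fin d = Sum.inr j := f1.1.trans hj
  have hbe' : beg e' = Sum.inr j := hbee.symm.trans hj
  have hfd' : fin d' = Sum.inr j := f2.1.trans hbe'
  have hwalk : IsSmoothWalk u v ((d0 :: l1) ++ ((e :: l2) ++ (e' :: l3))) := ⟨h1, h2, h3⟩
  rcases Walk_ray hfd hbe' with hray | hray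
  · have hf : Follows d e' := ⟨hfd.trans hbe'.symm, ⟨j, hbe'⟩, hray⟩
    have hq : IsSmoothWalk u v ((d0 :: l1) ++ (e' :: l3)) := by
      refine ⟨?_, h2, ?_⟩
      · rw [List.isChain_append]
        refine ⟨c1, c5, ?_⟩
        intro x hx y hy
        have h6 : x = d := Option.some_injective _ (hx.symm.trans hd)
        have h7 : y = e' := Option.some_injective _ (Eq.symm hy)
        rw [h6, h7]
        exact hf
      · have h8 := hwalk.2.2
        rw [List.getLast?_append_of_ne_nil _ (by simp),
          List.getLast?_append_of_ne_nil _ (List.cons_ne_nil _ _)] at h8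
        rw [List.getLast?_append_of_ne_nil _ (List.cons_ne_nil _ _)]
        exact h8
    by_cases huv : u = v
    · subst huv
      exact hS.2 u _ hwalk
    · have hadj : G.Adj u v := (hR u v huv).2 ⟨_, hwalk⟩
      obtain ⟨r, _, hr2⟩ := hS.1 u v hadj
      have e1 := hr2 _ hwalk
      have e2 := hr2 _ hq
      have e3 := congrArg List.length (e1.trans e2.symm)
      simp only [List.length_append, List.length_cons] at e3
      omega
  · have hray2 : SameRay ℝ (vin d') (- vin d) := by
      have h5 : SameRay ℝ (vout e') (- vin d) := by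
        have h6 : SameRay ℝ (- vin d) (- - vout e') := by
          rw [sameRay_neg_iff]
          exact hray
        rw [neg_neg] at h6
        exact h6.symm
      refine f2.2.2.trans h5 ?_
      intro h6
      exact absurd h6 (Walk_vout hbe').1
    have hf : Follows d' (Walk_rv d) := by
      refine ⟨?_, ⟨j, ?_⟩, ?_⟩
      · rw [Walk_beg_rv, hfd, hfd']
      · rw [Walk_beg_rv, hfd]
      · rw [Walk_vout_rv]
        exact hray2
    have hhead : (Walk_rev (d0 :: l1)).head? = some (Walk_rv d) := by
      unfold Walk_rev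
      rw [List.head?_reverse, List.getLast?_map, hd]
      rfl
    have hne : Walk_rev (d0 :: l1) ≠ [] := by
      intro h5
      rw [h5] at hhead
      exact absurd hhead (by simp)
    have hAB : ((d0 :: l1) ++ (e :: l2)).IsChain Follows := by
      rw [← List.append_assoc, List.isChain_append] at hc0
      exact hc0.1
    have hlast : ((d0 :: l1) ++ (e :: l2)).getLast? = some d' := by
      rw [List.getLast?_append_of_ne_nil _ (List.cons_ne_nil _ _)]
      exact hd'
    refine hS.2 u (((d0 :: l1) ++ (e :: l2)) ++ Walk_rev (d0 :: l1)) ⟨?_, ?_, ?_⟩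
    · rw [List.isChain_append]
      refine ⟨hAB, Walk_rev_chain c1, ?_⟩
      intro x hx y hy
      have h6 : x = d' := Option.some_injective _ (hx.symm.trans hlast)
      have h7 : y = Walk_rv d := Option.some_injective _ (Eq.trans (Eq.symm hy) hhead)
      rw [h6, h7]
      exact hf
    · exact h2
    · rw [List.getLast?_append_of_ne_nil _ hne, Walk_rev_last]
      exact h2

/-- PROOF: with NoRevisit smooth walks and smooth paths are the same lists. -/
theorem w_to_p (hR : D.RepresentsW G) (hS : D.StrictW G) : D.Represents G ∧ D.Strict G ∧ D.NoRevisit := by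
  have hN := norevisit hR hS
  refine ⟨?_, ⟨?_, ?_⟩, hN⟩
  · intro u v huv
    rw [hR u v huv]
    exact exists_congr fun p => WSimple_iff hN u v p
  · intro u v h
    obtain ⟨p, hp1, hp2⟩ := hS.1 u v h
    exact ⟨p, (WSimple_iff hN u v p).1 hp1, fun q hq => hp2 q ((WSimple_iff hN u v q).2 hq)⟩
  · intro u p hp
    exact hS.2 u p ((WSimple_iff hN u u p).2 hp)

theorem p_to_w (hR : D.Represents G) (hS : D.Strict G) (hN : D.NoRevisit) : D.RepresentsW G ∧ D.StrictW G := by
  refine ⟨?_, ?_, ?_⟩
  · intro u v huv
    rw [hR u v huv]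
    exact exists_congr fun p => (WSimple_iff hN u v p).symm
  · intro u v h
    obtain ⟨p, hp1, hp2⟩ := hS.1 u v h
    exact ⟨p, (WSimple_iff hN u v p).2 hp1, fun q hq => hp2 q ((WSimple_iff hN u v q).1 hq)⟩
  · intro u p hp
    exact hS.2 u p ((WSimple_iff hN u u p).1 hp)

end Pool.Agent.SOD
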