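import Pool.Agent.SOD.TrackOf
import Pool.Agent.SOD.CorNds
import Pool.Agent.SOD.LinkUniq

/-! Project SOD, module WalkC (size 3): smooth walks of the track are the paths P_ab. -/

set_option autoImplicit false

open Set

namespace Pool.Agent.SOD

open Pool.Agent.SOC

variable {V : Type} [LinearOrder V] [Fintype V] {G : SimpleGraph V}

theorem WalkC_left {C : Nd V → Prop} {D : Drawing V} {o : D.Dart → Nd V × Nd V} (hT : TrackOf G C D o) {u : V} :
    ∀ {d : D.Dart} {l : List D.Dart}, (d :: l).IsChain Drawing.Follows → u ∈ (o d).1.1 →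
      ∀ e ∈ d :: l, u ∈ (o e).1.1 ∧ u ∈ (o e).2.1
  | d, [], _, hu, e, he => by
    rw [List.mem_singleton] at he
    subst he
    exact ⟨hu, (hT.lk e).2.2.1.1 hu⟩
  | d, f :: l, hc, hu, e, he => by
    rw [List.isChain_cons_cons] at hc
    have h1 := hT.fol.1 hc.1
    have h2 : u ∈ (o d).2.1 := (hT.lk d).2.2.1.1 hu
    rcases List.mem_cons.1 he with rfl | h3
    · exact ⟨hu, h2⟩
    · exact WalkC_left hT hc.2 (by rw [← h1.1]; exact h2) e h3

theorem WalkC_right {C : Nd V → Prop} {D : Drawing V} {o : D.Dart → Nd V × Nd V} (hT : TrackOf G C D o) {v : V} :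
    ∀ {d : D.Dart} {l : List D.Dart}, (d :: l).IsChain Drawing.Follows →
      ((d :: l).getLast?.map Drawing.fin = some (Sum.inl v)) →
      ∀ e ∈ d :: l, v ∈ (o e).1.2 ∧ v ∈ (o e).2.2
  | d, [], _, hl, e, he => by
    rw [List.mem_singleton] at he
    subst he
    have h1 : some (Drawing.fin e) = some (Sum.inl v) := hl
    have h2 := hT.finv.1 (Option.some_injective _ h1)
    have h3 : v ∈ (o e).2.2 := by
      rw [h2]
      exact Finset.mem_singleton_self v
    exact ⟨(hT.lk e).2.2.2.1.1 h3, h3⟩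
  | d, f :: l, hc, hl, e, he => by
    rw [List.isChain_cons_cons] at hc
    have h1 := hT.fol.1 hc.1
    rw [List.getLast?_cons_cons] at hl
    have ih := WalkC_right hT hc.2 hl
    rcases List.mem_cons.1 he with rfl | h3
    · have h4 := (ih f (List.mem_cons_self ..)).1
      rw [← h1.1] at h4
      exact ⟨(hT.lk e).2.2.2.1.1 h4, h4⟩
    · exact ih e h3

omit [LinearOrder V] [Fintype V] in
theorem WalkC_cons {D : Drawing V} {u v : V} {p : List D.Dart} (hp : Drawing.IsSmoothWalk u v p) :
    ∃ (d : D.Dart) (l : List D.Dart), p = d :: l ∧ Drawing.beg d = Sum.inl u := by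
  obtain ⟨-, h, -⟩ := hp
  cases p with
  | nil => exact absurd h (by simp)
  | cons d l =>
    have h1 : some (Drawing.beg d) = some (Sum.inl u) := h
    exact ⟨d, l, rfl, Option.some_injective _ h1⟩

/-- consecutive darts: u stays on the left, v on the right. PROOF: induction on the list: the left side grows along a link, (o d).2 =
(o e).1 for consecutive darts; the right side shrinks. -/
theorem walk_sides {C : Nd V → Prop} {D : Drawing V} {o : D.Dart → Nd V × Nd V} (hT : TrackOf G C D o) {u v : V}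
    {p : List D.Dart} (hp : Drawing.IsSmoothWalk u v p) :
    ∀ d ∈ p, u ∈ (o d).1.1 ∧ u ∈ (o d).2.1 ∧ v ∈ (o d).1.2 ∧ v ∈ (o d).2.2 := by
  obtain ⟨d, l, rfl, hd⟩ := WalkC_cons hp
  intro e he
  have h1 : u ∈ (o d).1.1 := by
    rw [hT.begv.1 hd]
    exact Finset.mem_singleton_self u
  have h2 := WalkC_left hT hp.1 h1 e he
  have h3 := WalkC_right hT hp.1 hp.2.2 e he
  exact ⟨h2.1, h2.2, h3.1, h3.2⟩

/-- PROOF: walk_sides with v = u: the first dart d has (o d).1 = out u and u on both sides of (o d).2: (o d).2 = inn u (out u is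
impossible by lk_ne_inn): contradiction to lk_disj (u ∈ (out u).1, u ∈ (inn u).2). -/
theorem no_closed {C : Nd V → Prop} (hC : Cor G C) {D : Drawing V} {o : D.Dart → Nd V × Nd V} (hT : TrackOf G C D o)
    {u : V} {p : List D.Dart} : ¬ Drawing.IsSmoothWalk u u p := by
  intro hp
  have h1 := walk_sides hT hp
  obtain ⟨d, l, rfl, -⟩ := WalkC_cons hp
  obtain ⟨h2, -, -, h3⟩ := h1 d (List.mem_cons_self ..)
  exact lk_disj (nds_of_cor hC) (hT.lk d) h2 h3

theorem WalkC_next {N : Nd V → Prop} (hN : Nds G N) {u v : V} (h : u ≠ v) (hadj : G.Adj u v) {K : Nd V} (hK : N K)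
    (hu : u ∈ K.1) (hv : v ∈ K.2) (hne : K ≠ inn G v) : ∃ M, Lk N K M ∧ u ∈ M.1 ∧ v ∈ M.2 := by
  classical
  have hinn : N (inn G v) := hN.swap (hN.out v)
  have hvi : v ∈ (inn G v).2 := Finset.mem_singleton_self v
  have hui : u ∈ (inn G v).1 := by
    change u ∈ nb G v
    unfold nb
    rw [Finset.mem_filter]
    exact ⟨Finset.mem_univ _, Or.inr hadj.symm⟩
  have hsub : K.1 ⊆ (inn G v).1 := by
    intro x hx
    change x ∈ nb G v
    unfold nb
    rw [Finset.mem_filter]
    refine ⟨Finset.mem_univ _, ?_⟩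
    by_cases hxv : x = v
    · exact Or.inl hxv
    · exact Or.inr (hN.adj hK hx hv hxv).symm
  have hss : K.1 ⊂ (inn G v).1 := by
    refine lt_of_le_of_ne hsub (fun he => hne ?_)
    exact hN.strict hK hinn he h hu hv hvi
  obtain ⟨M, hM, hmin⟩ := Finset.exists_min_image
    (Finset.univ.filter (fun M : Nd V => N M ∧ u ∈ M.1 ∧ v ∈ M.2 ∧ K.1 ⊂ M.1)) (fun M => M.1.card)
    ⟨inn G v, by rw [Finset.mem_filter]; exact ⟨Finset.mem_univ _, hinn, hui, hvi, hss⟩⟩
  rw [Finset.mem_filter] at hM
  obtain ⟨-, hNM, huM, hvM, hKM⟩ := hM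
  have h2 : M.2 ⊆ K.2 := by
    rcases hN.chain hK hNM h hu huM hv hvM with h3 | h3
    · exact h3.2
    · exact absurd h3.1 hKM.2
  have h3 : M.2 ⊂ K.2 := by
    refine lt_of_le_of_ne h2 (fun he => ?_)
    have h4 := hN.strict (hN.swap hK) (hN.swap hNM) (show K.swap.1 = M.swap.1 from he.symm) h.symm
      (show v ∈ K.swap.1 from hv) (show u ∈ K.swap.2 from hu) (show u ∈ M.swap.2 from huM)
    have h5 : K = M := Prod.swap_injective h4
    rw [h5] at hKM
    exact hKM.2 (Finset.Subset.refl _)
  refine ⟨M, ⟨hK, hNM, hKM, h3, ⟨u, hu, v, hvM, h⟩, ?_⟩, huM, hvM⟩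
  intro P hP k1 k2 k3 k4
  have huP : u ∈ P.1 := k1 hu
  have hvP : v ∈ P.2 := k3 hvM
  by_cases he : K.1 = P.1
  · left
    exact (hN.strict hK hP he h hu hv hvP).symm
  · right
    have hKP : K.1 ⊂ P.1 := lt_of_le_of_ne k1 he
    have h6 := hmin P (by rw [Finset.mem_filter]; exact ⟨Finset.mem_univ _, hP, huP, hvP, hKP⟩)
    have h7 : P.1 = M.1 := Finset.eq_of_subset_of_card_le k2 h6
    exact hN.strict hP hNM h7 h huP hvP hvM

theorem WalkC_core {C : Nd V → Prop} {v : V} {K M : Nd V} (hN : Nds G (Nod G C)) (hL : Lk (Nod G C) K M)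
    (hv : v ∈ M.2) (hne : M ≠ inn G v) : C M := by
  rcases hL.2.1 with h | ⟨w, h | h⟩
  · exact h
  · exact absurd h (lk_ne_inn hN hL w).2
  · exfalso
    rw [h] at hv
    have h1 : v = w := Finset.mem_singleton.1 hv
    subst h1
    exact hne h

theorem WalkC_ex {C : Nd V → Prop} (hC : Cor G C) {D : Drawing V}
    {o : D.Dart → Nd V × Nd V} (hT : TrackOf G C D o) {u v : V} (h : G.Adj u v) :
    ∀ (n : ℕ) (K : Nd V), Fintype.card V - K.1.card ≤ n → Nod G C K → u ∈ K.1 → v ∈ K.2 → K ≠ inn G v →
      ∃ (d : D.Dart) (l : List D.Dart), (d :: l).IsChain Drawing.Follows ∧ (o d).1 = K ∧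
        ((d :: l).getLast?.map Drawing.fin = some (Sum.inl v)) := by
  have hN := nds_of_cor hC
  intro n
  induction n with
  | zero =>
    intro K hn hK hu hv hne
    obtain ⟨M, hL, -, -⟩ := WalkC_next hN h.ne h hK hu hv hne
    exfalso
    have h1 : K.1.card < M.1.card := Finset.card_lt_card hL.2.2.1
    have h2 : M.1.card ≤ Fintype.card V := Finset.card_le_univ _
    omega
  | succ n ih =>
    intro K hn hK hu hv hne
    obtain ⟨M, hL, huM, hvM⟩ := WalkC_next hN h.ne h hK hu hv hne
    obtain ⟨d, hd⟩ := hT.surj hL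
    by_cases hM : M = inn G v
    · refine ⟨d, [], List.isChain_singleton _, by rw [hd], ?_⟩
      change some (Drawing.fin d) = some (Sum.inl v)
      rw [hT.finv.2 (by rw [hd]; exact hM)]
    · have h1 : K.1.card < M.1.card := Finset.card_lt_card hL.2.2.1
      have h2 : M.1.card ≤ Fintype.card V := Finset.card_le_univ _
      obtain ⟨e, l, hc, he, hl⟩ := ih M (by omega) hL.2.1 huM hvM hM
      refine ⟨d, e :: l, ?_, by rw [hd], ?_⟩
      · rw [List.isChain_cons_cons]
        refine ⟨hT.fol.2 ⟨by rw [hd, he], ?_⟩, hc⟩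
        rw [he]
        exact WalkC_core hN hL hvM hM
      · rw [List.getLast?_cons_cons]
        exact hl

/-- PROOF: for a node K with (u; v) which is not inn v there is a next node: among the nodes M with (u; v), K.1 ⊂ M.1 (inn v is one:
K.1 ⊆ nb v by hN.adj, equality gives K = inn v by strict) take one with minimal card of M.1; Lk K M by chain. Starting from out u
repeat until inn v (strong induction on (nb v).card - K.1.card or on the complement); the darts by hT.surj; Follows by hT.fol:
intermediate nodes are cores (a node with (u; v) is out u, inn v or a core: out w, inn w contain only ..). -/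
theorem exists_walk {C : Nd V → Prop} (hC : Cor G C) {D : Drawing V}
    {o : D.Dart → Nd V × Nd V} (hT : TrackOf G C D o) {u v : V} (h : G.Adj u v) : ∃ p : List D.Dart, Drawing.IsSmoothWalk u v p := by
  classical
  have hN := nds_of_cor hC
  have hu : u ∈ (out G u).1 := Finset.mem_singleton_self u
  have hv : v ∈ (out G u).2 := by
    change v ∈ nb G u
    unfold nb
    rw [Finset.mem_filter]
    exact ⟨Finset.mem_univ _, Or.inr h⟩
  have hne : out G u ≠ inn G v := by
    intro he
    have h1 : v ∈ (inn G v).1 := by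
      change v ∈ nb G v
      unfold nb
      rw [Finset.mem_filter]
      exact ⟨Finset.mem_univ _, Or.inl rfl⟩
    rw [← he] at h1
    have h2 : v = u := Finset.mem_singleton.1 h1
    exact h.ne h2.symm
  obtain ⟨d, l, hc, hd, hl⟩ := WalkC_ex hC hT h _ (out G u) le_rfl (hN.out u) hu hv hne
  refine ⟨d :: l, hc, ?_, hl⟩
  change some (Drawing.beg d) = some (Sum.inl u)
  rw [hT.begv.2 hd]

theorem WalkC_uniq {C : Nd V → Prop} (hC : Cor G C) {D : Drawing V} {o : D.Dart → Nd V × Nd V}
    (hT : TrackOf G C D o) {u v : V} (h : u ≠ v) :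
    ∀ {d : D.Dart} {l : List D.Dart} {e : D.Dart} {m : List D.Dart}, (d :: l).IsChain Drawing.Follows →
      (e :: m).IsChain Drawing.Follows → ((d :: l).getLast?.map Drawing.fin = some (Sum.inl v)) →
      ((e :: m).getLast?.map Drawing.fin = some (Sum.inl v)) → u ∈ (o d).1.1 → (o d).1 = (o e).1 →
      d :: l = e :: m := by
  have hN := nds_of_cor hC
  have hlk : ∀ {K M M' : Nd V}, Lk (Nod G C) K M → Lk (Nod G C) K M' → u ∈ M.1 → u ∈ M'.1 → v ∈ M.2 → v ∈ M'.2 →
      M = M' := by
    intro K M M' h1 h2 a1 a2 b1 b2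
    rcases hN.chain h1.2.1 h2.2.1 h a1 a2 b1 b2 with h3 | h3
    · rcases h2.2.2.2.2.2 M h1.2.1 h1.2.2.1.1 h3.1 h3.2 h1.2.2.2.1.1 with h4 | h4
      · exfalso
        rw [h4] at h1
        exact h1.2.2.1.2 (Finset.Subset.refl _)
      · exact h4
    · rcases h1.2.2.2.2.2 M' h2.2.1 h2.2.2.1.1 h3.1 h3.2 h2.2.2.2.1.1 with h4 | h4
      · exfalso
        rw [h4] at h2
        exact h2.2.2.1.2 (Finset.Subset.refl _)
      · exact h4.symm
  have hcore : ∀ {K : Nd V}, C K → K ≠ inn G v := fun hK he => ((core_iff hC).1 hK).2 ⟨v, Or.inr he⟩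
  intro d l
  induction l generalizing d with
  | nil =>
    intro e m hc hc' hl hl' hu he
    have a1 := WalkC_left hT hc hu d (List.mem_cons_self ..)
    have a2 := WalkC_left hT hc' (by rw [← he]; exact hu) e (List.mem_cons_self ..)
    have b1 := WalkC_right hT hc hl d (List.mem_cons_self ..)
    have b2 := WalkC_right hT hc' hl' e (List.mem_cons_self ..)
    have h1 := hT.lk d
    have h2 := hT.lk e
    rw [← he] at h2
    have h3 := hlk h1 h2 a1.2 a2.2 b1.2 b2.2
    have h4 : d = e := hT.inj (Prod.ext he h3)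
    subst h4
    have h5 : some (Drawing.fin d) = some (Sum.inl v) := hl
    have h6 := hT.finv.1 (Option.some_injective _ h5)
    cases m with
    | nil => rfl
    | cons f m =>
      exfalso
      rw [List.isChain_cons_cons] at hc'
      have h7 := hT.fol.1 hc'.1
      exact hcore h7.2 (h7.1.symm.trans h6)
  | cons g l ih =>
    intro e m hc hc' hl hl' hu he
    have a1 := WalkC_left hT hc hu d (List.mem_cons_self ..)
    have a2 := WalkC_left hT hc' (by rw [← he]; exact hu) e (List.mem_cons_self ..)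
    have b1 := WalkC_right hT hc hl d (List.mem_cons_self ..)
    have b2 := WalkC_right hT hc' hl' e (List.mem_cons_self ..)
    have h1 := hT.lk d
    have h2 := hT.lk e
    rw [← he] at h2
    have h3 := hlk h1 h2 a1.2 a2.2 b1.2 b2.2
    have h4 : d = e := hT.inj (Prod.ext he h3)
    subst h4
    rw [List.isChain_cons_cons] at hc
    have h8 := hT.fol.1 hc.1
    cases m with
    | nil =>
      exfalso
      have h5 : some (Drawing.fin d) = some (Sum.inl v) := hl'
      have h6 := hT.finv.1 (Option.some_injective _ h5)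
      exact hcore h8.2 (h8.1.symm.trans h6)
    | cons f m =>
      rw [List.isChain_cons_cons] at hc'
      have h7 := hT.fol.1 hc'.1
      rw [List.getLast?_cons_cons] at hl hl'
      rw [ih hc.2 hc'.2 hl hl' (by rw [← h8.1]; exact a1.2) (h8.1.symm.trans h7.1)]

/-- PROOF: two lists of darts from the same oriented node K with (u; v) to inn v, consecutive by Follows: by induction: the heads d, e
have (o d).1 = (o e).1 = K, (o d).2, (o e).2 contain (u; v): chain and the link property give (o d).2 = (o e).2, d = e (inj). If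
(o d).2 = inn v both tails are empty (Follows needs C (inn v): false, core_iff), otherwise both are nonempty (the last dart ends in
inn v). -/
theorem unique_walk {C : Nd V → Prop} (hC : Cor G C) {D : Drawing V} {o : D.Dart → Nd V × Nd V}
    (hT : TrackOf G C D o) {u v : V} (h : u ≠ v) {p q : List D.Dart} (hp : Drawing.IsSmoothWalk u v p)
    (hq : Drawing.IsSmoothWalk u v q) : p = q := by
  obtain ⟨d, l, rfl, hd⟩ := WalkC_cons hp
  obtain ⟨e, m, rfl, he⟩ := WalkC_cons hq
  have h1 := hT.begv.1 hd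
  have h2 := hT.begv.1 he
  refine WalkC_uniq hC hT h hp.1 hq.1 hp.2.2 hq.2.2 ?_ (h1.trans h2.symm)
  rw [h1]
  exact Finset.mem_singleton_self u

/-- PROOF: a walk from u to v: v ∈ (out u).2 = nb u by walk_sides, so u ~ v as u ≠ v. -/
theorem track_represents {C : Nd V → Prop} (hC : Cor G C) {D : Drawing V} {o : D.Dart → Nd V × Nd V}
    (hT : TrackOf G C D o) : D.RepresentsW G ∧ D.StrictW G := by
  classical
  refine ⟨fun u v huv => ⟨fun h => exists_walk hC hT h, fun ⟨p, hp⟩ => ?_⟩, fun u v h => ?_, fun u p => no_closed hC hT⟩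
  · have h1 := walk_sides hT hp
    obtain ⟨d, l, rfl, hd⟩ := WalkC_cons hp
    obtain ⟨-, -, h2, -⟩ := h1 d (List.mem_cons_self ..)
    rw [hT.begv.1 hd] at h2
    change v ∈ nb G u at h2
    unfold nb at h2
    rw [Finset.mem_filter] at h2
    rcases h2.2 with h3 | h3
    · exact absurd h3.symm huv
    · exact h3
  · obtain ⟨p, hp⟩ := exists_walk hC hT h
    exact ⟨p, hp, fun q hq => unique_walk hC hT h.ne hq hp⟩

end Pool.Agent.SOD
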