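import Pool.Agent.SOD.Straight
import Pool.Agent.SOD.Build
import Pool.Agent.SOD.WalkC
import Pool.Agent.SOD.WSimple
import Pool.Agent.SOD.QtCor

/-! Project SOD, module Realize (size 3): from quartets to a drawing. -/

set_option autoImplicit false

open Set

namespace Pool.Agent.SOD

open Pool.Agent.SOC

/-- PROOF: cor_of_qt, nds_of_cor, straight, build, track_represents, w_to_p; θ v := 2 arctan (p (out v)).re (Phi_par, hp.par; hp.inc;
|arctan| < π/2). -/
theorem realize {V : Type} [LinearOrder V] [Fintype V] {G : SimpleGraph V} {T : V → V → V → V → Prop}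
    (h : QT G (crL (V := V)) T) :
    ∃ D : Drawing V, D.Represents G ∧ D.Strict G ∧ D.NoRevisit ∧
      (∀ a, ∀ t ∈ Icc (0 : ℝ) 1, ‖D.curve a t‖ ≤ 1) ∧
      ∃ θ : V → ℝ, (∀ v, D.pos (Sum.inl v) = Complex.exp (θ v * Complex.I)) ∧ StrictMono θ ∧
        ∀ u v, θ v < θ u + 2 * Real.pi := by
  have hC := cor_of_qt h
  obtain ⟨p, hp⟩ := straight (nds_of_cor hC)
  obtain ⟨D, o, hT, hn, hpos⟩ := build hC hp
  obtain ⟨hR, hS⟩ := track_represents hC hT
  obtain ⟨h1, h2, h3⟩ := w_to_p hR hS
  refine ⟨D, h1, h2, h3, hn, fun v => 2 * Real.arctan (p (out G v)).re, ?_, ?_, ?_⟩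
  · intro v
    rw [hpos v, Phi_par (hp.par v)]
  · intro v w hvw
    have h4 := Real.arctan_strictMono (hp.inc hvw)
    change 2 * Real.arctan (p (out G v)).re < 2 * Real.arctan (p (out G w)).re
    linarith
  · intro u v
    have h4 := Real.arctan_lt_pi_div_two (p (out G v)).re
    have h5 := Real.neg_pi_div_two_lt_arctan (p (out G u)).re
    change 2 * Real.arctan (p (out G v)).re < 2 * Real.arctan (p (out G u)).re + 2 * Real.pi
    linarith

/-- PROOF: Fintype V from the enumeration s (Fintype.ofFinset s.toFinset, or Fintype.ofSurjective from Fin s.length); LinearOrder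
by LinearOrder.lift' (fun v => s.idxOf v) (injective by List.idxOf_inj as all v ∈ s); Cross s = crL for this order (unfold,
definitionally up to `Btw`). InDisc: s is sorted: s.Pairwise (idxOf u < idxOf v) (nodup). -/
theorem realize_list {V : Type} [DecidableEq V] {G : SimpleGraph V} {s : List V} (hs : IsEnum s)
    {T : V → V → V → V → Prop} (h : QT G (Cross s) T) : FixedOrderW G s := by
  have hinj : Function.Injective (fun v : V => s.idxOf v) := by
    intro a b hab
    exact (List.idxOf_inj (hs.2 a)).1 hab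
  let iF : Fintype V := ⟨s.toFinset, fun v => List.mem_toFinset.2 (hs.2 v)⟩
  let iL : LinearOrder V := LinearOrder.lift' (fun v : V => s.idxOf v) hinj
  have hlt : ∀ a b : V, a < b ↔ s.idxOf a < s.idxOf b := fun a b => Iff.rfl
  have e : (crL (V := V)) = Cross s := by
    funext a b c d
    apply propext
    simp only [crL, Cross, SOC.Btw, hlt]
  have h' : QT G (crL (V := V)) T := by
    rw [e]
    exact h
  obtain ⟨D, h1, h2, h3, h4, θ, h5, h6, h7⟩ := realize h'
  refine ⟨D, h1, h2, h3, h4, hs, θ, h5, ?_, h7⟩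
  rw [List.pairwise_iff_getElem]
  intro i j hi hj hij
  apply h6
  rw [hlt, List.Nodup.idxOf_getElem hs.1, List.Nodup.idxOf_getElem hs.1]
  exact hij

end Pool.Agent.SOD
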