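import Pool.Agent.SOD.SndDefs

/-! Project SOD, module SndBasic (size 3): concatenation of smooth walks. -/

set_option autoImplicit false

open Set

namespace Pool.Agent.SOD

open Pool.Agent.SOC Pool.Agent.SOC.Drawing

variable {V : Type} {G : SimpleGraph V} {D : Drawing V}

theorem SndBasic_join {l m : List D.Dart} {d e : D.Dart} (h1 : l.IsChain Follows) (h2 : m.IsChain Follows)
    (hl : l.getLast? = some d) (hm : m.head? = some e) (h : Follows d e) : (l ++ m).IsChain Follows := by
  rw [List.isChain_append]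
  refine ⟨h1, h2, ?_⟩
  intro x hx y hy
  have h3 : x = d := Option.some_injective _ (hx.symm.trans hl)
  have h4 : y = e := Option.some_injective _ (hy.symm.trans hm)
  rw [h3, h4]
  exact h

theorem SndBasic_last {p : List D.Dart} {d : D.Dart} : (p ++ [d]).getLast? = some d := by
  rw [List.getLast?_append_of_ne_nil _ (List.cons_ne_nil _ _)]
  rfl

theorem SndBasic_head {p q : List D.Dart} {d : D.Dart} : ((p ++ [d]) ++ q).head? = (p ++ [d]).head? := by
  cases p <;> rfl

theorem concat {a c : V} {d e : D.Dart} (h1 : From a d) (h2 : To e c) (h : Follows d e) :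
    ∃ p q : List D.Dart, IsSmoothWalk a c (p ++ d :: e :: q) ∧
      (p ++ [d]).IsChain Follows ∧ (p ++ [d]).head?.map beg = some (Sum.inl a) ∧
      (e :: q).IsChain Follows ∧ (e :: q).getLast?.map fin = some (Sum.inl c) := by
  obtain ⟨p, c1, c2⟩ := h1
  obtain ⟨q, c3, c4⟩ := h2
  have he : p ++ d :: e :: q = (p ++ [d]) ++ (e :: q) := by simp
  refine ⟨p, q, ⟨?_, ?_, ?_⟩, c1, c2, c3, c4⟩
  · rw [he]
    exact SndBasic_join c1 c3 SndBasic_last rfl h
  · rw [he, SndBasic_head]
    exact c2
  · rw [he, List.getLast?_append_of_ne_nil _ (List.cons_ne_nil _ _)]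
    exact c4

theorem SndBasic_rev_snoc (p : List D.Dart) (d : D.Dart) : Walk_rev (p ++ [d]) = Walk_rv d :: Walk_rev p := by
  unfold Walk_rev
  simp

theorem SndBasic_rev_cons (p : List D.Dart) (d : D.Dart) : Walk_rev (d :: p) = Walk_rev p ++ [Walk_rv d] := by
  unfold Walk_rev
  simp

/-- PROOF: reversal of lists, Walk_rev, Walk_rev_chain, Walk_rev_head, Walk_rev_last. -/
theorem from_rv {a : V} {d : D.Dart} (h : From a d) : To (Walk_rv d) a := by
  obtain ⟨p, c1, c2⟩ := h
  refine ⟨Walk_rev p, ?_, ?_⟩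
  · rw [← SndBasic_rev_snoc]
    exact Walk_rev_chain c1
  · rw [← SndBasic_rev_snoc, Walk_rev_last]
    exact c2

theorem to_rv {c : V} {e : D.Dart} (h : To e c) : From c (Walk_rv e) := by
  obtain ⟨q, c1, c2⟩ := h
  refine ⟨Walk_rev q, ?_, ?_⟩
  · rw [← SndBasic_rev_cons]
    exact Walk_rev_chain c1
  · rw [← SndBasic_rev_cons, Walk_rev_head]
    exact c2

theorem from_conn {x : V} {d e d' : D.Dart} (h : From x d) (h1 : Follows d e) (h2 : Conn e d') : From x d' := by
  obtain ⟨p, c1, c2⟩ := h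
  obtain ⟨r, c3, c4⟩ := h2
  obtain ⟨r', hr'⟩ := List.getLast?_eq_some_iff.1 c4
  refine ⟨(p ++ [d]) ++ r', ?_, ?_⟩
  · rw [List.append_assoc, ← hr']
    exact SndBasic_join c1 c3 SndBasic_last rfl h1
  · rw [List.append_assoc, ← hr', SndBasic_head]
    exact c2

theorem conn_to {z : V} {e d' e' : D.Dart} (h : Conn e d') (h1 : Follows d' e') (h2 : To e' z) : To e z := by
  obtain ⟨r, c1, c2⟩ := h
  obtain ⟨q, c3, c4⟩ := h2
  refine ⟨r ++ e' :: q, ?_, ?_⟩
  · exact SndBasic_join c1 c3 c2 rfl h1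
  · change ((e :: r) ++ (e' :: q)).getLast?.map fin = _
    rw [List.getLast?_append_of_ne_nil _ (List.cons_ne_nil _ _)]
    exact c4

/-- darts which arrive in the same way. PROOF: the three darts d₁, d₂, e₁ and e₂ meet in one junction; vin d₂ ∥ vout e₁ ∥ vin d₁ ∥
vout e₂ (same rays, all nonzero: Walk_vin, Walk_vout; SameRay.trans). -/
theorem follows_trans {d₁ d₂ e₁ e₂ : D.Dart} (h1 : Follows d₂ e₁) (h2 : Follows d₁ e₁) (h3 : Follows d₁ e₂) :
    Follows d₂ e₂ := by
  obtain ⟨j, hj⟩ := h2.2.1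
  have n1 : vout e₁ ≠ 0 := (Walk_vout hj).1
  have n2 : vin d₁ ≠ 0 := (Walk_vin (h2.1.trans hj)).1
  refine ⟨h1.1.trans (h2.1.symm.trans h3.1), h3.2.1, ?_⟩
  have k1 : SameRay ℝ (vin d₂) (vin d₁) := h1.2.2.trans h2.2.2.symm (fun h0 => absurd h0 n1)
  exact k1.trans h3.2.2 (fun h0 => absurd h0 n2)

theorem SndBasic_cut {l m l' m' : List D.Dart} {d d' e e' : D.Dart} (h : l ++ m = l' ++ m') (hl : l.getLast? = some d)
    (hl' : l'.getLast? = some d') (hm : m.head? = some e) (hm' : m'.head? = some e') (hc : m.IsChain Follows)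
    (hc' : m'.IsChain Follows) : (d = d' ∧ e = e') ∨ Conn e d' ∨ Conn e' d := by
  rcases List.append_eq_append_iff.1 h with ⟨as, h1, h2⟩ | ⟨as, h1, h2⟩
  · cases as with
    | nil =>
      left
      rw [List.append_nil] at h1
      rw [List.nil_append] at h2
      refine ⟨?_, ?_⟩
      · rw [h1, hl] at hl'
        exact Option.some_injective _ hl'
      · rw [h2, hm'] at hm
        exact (Option.some_injective _ hm).symm
    | cons f as =>
      right; left
      have h3 : f = e := by
        rw [h2] at hm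
        exact Option.some_injective _ hm
      subst h3
      refine ⟨as, ?_, ?_⟩
      · rw [h2] at hc
        exact (List.isChain_append.1 hc).1
      · rw [h1, List.getLast?_append_of_ne_nil _ (List.cons_ne_nil _ _)] at hl'
        exact hl'
  · cases as with
    | nil =>
      left
      rw [List.append_nil] at h1
      rw [List.nil_append] at h2
      refine ⟨?_, ?_⟩
      · rw [h1, hl'] at hl
        exact (Option.some_injective _ hl).symm
      · rw [h2, hm] at hm'
        exact Option.some_injective _ hm'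
    | cons f as =>
      right; right
      have h3 : f = e' := by
        rw [h2] at hm'
        exact Option.some_injective _ hm'
      subst h3
      refine ⟨as, ?_, ?_⟩
      · rw [h2] at hc'
        exact (List.isChain_append.1 hc').1
      · rw [h1, List.getLast?_append_of_ne_nil _ (List.cons_ne_nil _ _)] at hl
        exact hl

/-- PROOF: both give smooth walks from u to y, equal by uniqueness (u ~ y by hR): (p ++ [d]) ++ (e :: q) = (p' ++ [d']) ++ (e' :: q');
List.append_eq_append_iff. If p' ++ [d'] = (p ++ [d]) ++ r and e :: q = r ++ e' :: q': r = []: d = d', e = e'; otherwise r = e :: r' and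
the last element of r is d': Conn e d' (r is a prefix of the chain e :: q). Other case symmetric. -/
theorem split_cases (hR : D.RepresentsW G) (hS : D.StrictW G) {u y : V} (huy : u ≠ y) {d e d' e' : D.Dart}
    (h1 : From u d) (h2 : To e y) (h3 : Follows d e) (h1' : From u d') (h2' : To e' y) (h3' : Follows d' e') :
    (d = d' ∧ e = e') ∨ Conn e d' ∨ Conn e' d := by
  obtain ⟨p, q, w, -, -, c3, -⟩ := concat h1 h2 h3
  obtain ⟨p', q', w', -, -, c3', -⟩ := concat h1' h2' h3'
  have hadj : G.Adj u y := (hR u y huy).2 ⟨_, w⟩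
  have he := (hS.1 u y hadj).unique w w'
  have he' : (p ++ [d]) ++ (e :: q) = (p' ++ [d']) ++ (e' :: q') := by simpa using he
  exact SndBasic_cut he' SndBasic_last SndBasic_last rfl rfl c3 c3'

theorem td_swap1 {a b c d : V} (h : TD D a b c d) : TD D b a c d := by
  obtain ⟨hab, hcd, d₁, d₂, e₁, e₂, f1, f2, t1, t2, k1, k2, k3, k4⟩ := h
  exact ⟨hab.symm, hcd, d₂, d₁, e₁, e₂, f2, f1, t1, t2, k3, k4, k1, k2⟩

/-- PROOF: reverse everything: Walk_follows_rv. -/
theorem td_swap2 {a b c d : V} (h : TD D a b c d) : TD D c d a b := by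
  obtain ⟨hab, hcd, d₁, d₂, e₁, e₂, f1, f2, t1, t2, k1, k2, k3, k4⟩ := h
  exact ⟨hcd, hab, Walk_rv e₁, Walk_rv e₂, Walk_rv d₁, Walk_rv d₂, to_rv t1, to_rv t2, from_rv f1, from_rv f2,
    Walk_follows_rv k1, Walk_follows_rv k3, Walk_follows_rv k2, Walk_follows_rv k4⟩

/-- PROOF: `concat` gives a walk from a to c; a ≠ c by hS.2; hR. -/
theorem td_adj (hR : D.RepresentsW G) (hS : D.StrictW G) {a b c d : V} (h : TD D a b c d) : G.Adj a c := by
  obtain ⟨-, -, d₁, -, e₁, -, f1, -, t1, -, k1, -, -, -⟩ := h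
  obtain ⟨p, q, w, -⟩ := concat f1 t1 k1
  have hac : a ≠ c := by
    intro he
    subst he
    exact hS.2 a _ w
  exact (hR a c hac).2 ⟨_, w⟩

end Pool.Agent.SOD
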