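import Pool.Agent.SOD.Defs
import Pool.Agent.SOC.Sound

/-! Project SOD, module SndDefs: the quartets of a drawing. -/

set_option autoImplicit false

open Set

namespace Pool.Agent.SOD

open Pool.Agent.SOC Pool.Agent.SOC.Drawing

variable {V : Type} {D : Drawing V}

/-- there is a smooth walk which starts in the vertex `a` and whose last dart is `d` -/
def From (a : V) (d : D.Dart) : Prop :=
  ∃ p : List D.Dart, (p ++ [d]).IsChain Follows ∧ (p ++ [d]).head?.map beg = some (Sum.inl a)

/-- there is a smooth walk whose first dart is `e` and which ends in the vertex `c` -/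
def To (e : D.Dart) (c : V) : Prop :=
  ∃ q : List D.Dart, (e :: q).IsChain Follows ∧ (e :: q).getLast?.map fin = some (Sum.inl c)

/-- there is a smooth sequence of darts from `e` to `d` -/
def Conn (e d : D.Dart) : Prop := ∃ r : List D.Dart, (e :: r).IsChain Follows ∧ (e :: r).getLast? = some d

/-- the quartets of the drawing: the walks from `a` and `b` arrive at a junction on the same side, and continue to `c` and
`d` on the other side -/
def TD (D : Drawing V) (a b c d : V) : Prop :=
  a ≠ b ∧ c ≠ d ∧ ∃ d₁ d₂ e₁ e₂ : D.Dart, From a d₁ ∧ From b d₂ ∧ To e₁ c ∧ To e₂ d ∧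
    Follows d₁ e₁ ∧ Follows d₁ e₂ ∧ Follows d₂ e₁ ∧ Follows d₂ e₂

/-- the dart `d` as a curve, from its start (parameter 0) to its end (parameter 1) -/
noncomputable def pt (d : D.Dart) (s : ℝ) : ℂ := if d.2 then D.curve d.1 s else D.curve d.1 (1 - s)

end Pool.Agent.SOD
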