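import Pool.Agent.SOD.SndDefs

/-! Project SOD, module SndPt (size 3): darts as curves, directions at the ends. -/

set_option autoImplicit false

open Set

namespace Pool.Agent.SOD

open Pool.Agent.SOC Pool.Agent.SOC.Drawing

variable {V : Type} {D : Drawing V}

theorem pt_zero (d : D.Dart) : pt d 0 = D.pos (beg d) := by
  unfold pt beg
  by_cases h : d.2 = true
  · rw [if_pos h, if_pos h, D.start]
  · rw [if_neg h, if_neg h, sub_zero, D.finish]

theorem pt_one (d : D.Dart) : pt d 1 = D.pos (fin d) := by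
  unfold pt fin
  by_cases h : d.2 = true
  · rw [if_pos h, if_pos h, D.finish]
  · rw [if_neg h, if_neg h, sub_self, D.start]

theorem sndpt_maps : MapsTo (fun s : ℝ => 1 - s) (Icc 0 1) (Icc 0 1) := by
  intro s hs
  exact ⟨by have := hs.2; linarith, by have := hs.1; linarith⟩

theorem pt_cont (d : D.Dart) : ContinuousOn (pt d) (Icc 0 1) := by
  unfold pt
  by_cases h : d.2 = true
  · simp only [if_pos h]
    exact (D.smooth d.1).continuousOn
  · simp only [if_neg h]
    exact (D.smooth d.1).continuousOn.comp (by fun_prop) sndpt_maps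

theorem pt_mem (d : D.Dart) {s : ℝ} (hs : s ∈ Icc (0 : ℝ) 1) : ∃ t ∈ Icc (0 : ℝ) 1, pt d s = D.curve d.1 t := by
  unfold pt
  by_cases h : d.2 = true
  · exact ⟨s, hs, by rw [if_pos h]⟩
  · exact ⟨1 - s, sndpt_maps hs, by rw [if_neg h]⟩

theorem mem_pt (d : D.Dart) {t : ℝ} (ht : t ∈ Icc (0 : ℝ) 1) : ∃ s ∈ Icc (0 : ℝ) 1, pt d s = D.curve d.1 t := by
  unfold pt
  by_cases h : d.2 = true
  · exact ⟨t, ht, by rw [if_pos h]⟩
  · exact ⟨1 - t, sndpt_maps ht, by rw [if_neg h, sub_sub_cancel]⟩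

theorem pt_avoid (d : D.Dart) {s : ℝ} (hs : s ∈ Ioo (0 : ℝ) 1) (x : V ⊕ D.J) : pt d s ≠ D.pos x := by
  unfold pt
  by_cases h : d.2 = true
  · rw [if_pos h]
    exact D.avoid _ _ hs _
  · rw [if_neg h]
    exact D.avoid _ _ ⟨by have := hs.2; linarith, by have := hs.1; linarith⟩ _

theorem vin_ne (d : D.Dart) : vin d ≠ 0 := by
  unfold vin
  by_cases h : d.2 = true
  · rw [if_pos h]
    exact D.regular _ _ ⟨by norm_num, le_rfl⟩
  · rw [if_neg h]
    exact neg_ne_zero.mpr (D.regular _ _ ⟨le_rfl, by norm_num⟩)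

theorem vout_ne (d : D.Dart) : vout d ≠ 0 := by
  unfold vout
  by_cases h : d.2 = true
  · rw [if_pos h]
    exact D.regular _ _ ⟨le_rfl, by norm_num⟩
  · rw [if_neg h]
    exact neg_ne_zero.mpr (D.regular _ _ ⟨by norm_num, le_rfl⟩)

theorem sndpt_hasDeriv (a : D.A) {t : ℝ} (ht : t ∈ Icc (0 : ℝ) 1) :
    HasDerivWithinAt (D.curve a) (derivWithin (D.curve a) (Icc 0 1) t) (Icc 0 1) t :=
  (((D.smooth a).differentiableOn (by norm_num)) t ht).hasDerivWithinAt

theorem sndpt_out (d : D.Dart) : HasDerivWithinAt (pt d) (vout d) (Icc 0 1) 0 := by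
  unfold pt vout
  by_cases h : d.2 = true
  · simp only [if_pos h]
    exact sndpt_hasDeriv _ ⟨le_rfl, by norm_num⟩
  · simp only [if_neg h]
    have h1 : HasDerivWithinAt (D.curve d.1) (derivWithin (D.curve d.1) (Icc 0 1) 1) (Icc 0 1)
        ((fun s : ℝ => 1 - s) 0) := by
      have := sndpt_hasDeriv (D := D) d.1 (t := 1) ⟨by norm_num, le_rfl⟩
      simpa using this
    have h2 : HasDerivWithinAt (fun s : ℝ => 1 - s) (-1) (Icc 0 1) 0 := by
      simpa using (hasDerivWithinAt_id (0 : ℝ) (Icc 0 1)).const_sub 1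
    have h3 := HasDerivWithinAt.scomp (0 : ℝ) h1 h2 sndpt_maps
    rw [neg_one_smul] at h3
    exact h3

theorem sndpt_in (d : D.Dart) : HasDerivWithinAt (pt d) (vin d) (Icc 0 1) 1 := by
  unfold pt vin
  by_cases h : d.2 = true
  · simp only [if_pos h]
    exact sndpt_hasDeriv _ ⟨by norm_num, le_rfl⟩
  · simp only [if_neg h]
    have h1 : HasDerivWithinAt (D.curve d.1) (derivWithin (D.curve d.1) (Icc 0 1) 0) (Icc 0 1)
        ((fun s : ℝ => 1 - s) 1) := by
      have := sndpt_hasDeriv (D := D) d.1 (t := 0) ⟨le_rfl, by norm_num⟩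
      simpa using this
    have h2 : HasDerivWithinAt (fun s : ℝ => 1 - s) (-1) (Icc 0 1) 1 := by
      simpa using (hasDerivWithinAt_id (1 : ℝ) (Icc 0 1)).const_sub 1
    have h3 := HasDerivWithinAt.scomp (1 : ℝ) h1 h2 sndpt_maps
    rw [neg_one_smul] at h3
    exact h3

theorem sndpt_dot_pos {w : ℂ} (hw : w ≠ 0) : 0 < Meet_dot w w := by
  unfold Meet_dot
  have : 0 < Complex.normSq w := Complex.normSq_pos.mpr hw
  rwa [Complex.normSq_apply] at this

theorem sndpt_dot {f : ℝ → ℂ} {w : ℂ} {x : ℝ} {s : Set ℝ} (h : HasDerivWithinAt f w s x) :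
    HasDerivWithinAt (fun t => Meet_dot (f t) w) (Meet_dot w w) s x := by
  have h1 := (Complex.reCLM.hasFDerivAt (x := f x)).comp_hasDerivWithinAt x h
  have h2 := (Complex.imCLM.hasFDerivAt (x := f x)).comp_hasDerivWithinAt x h
  exact (h1.mul_const w.re).add (h2.mul_const w.im)

/-- PROOF: (pt d s - pt d 1) / (s - 1) tends to vin d for s → 1, s < 1 (derivWithin of the C^1 curve; for the reversed dart chain
rule with 1 - s); so dot (pt d s - pos) (vin d) = (s - 1) (|vin d|² + o(1)) < 0. Meet_dot z w = z.re w.re + z.im w.im (SOC/Meet.lean). -/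
theorem dir_in (d : D.Dart) : ∃ δ : ℝ, 0 < δ ∧ δ ≤ 1 ∧ ∀ s, 1 - δ < s → s < 1 →
    Meet_dot (pt d s - D.pos (fin d)) (vin d) < 0 := by
  have h := sndpt_dot (sndpt_in d)
  rw [hasDerivWithinAt_iff_tendsto_slope] at h
  have h2 := h.eventually (lt_mem_nhds (sndpt_dot_pos (vin_ne d)))
  rw [Filter.Eventually, Metric.mem_nhdsWithin_iff] at h2
  obtain ⟨ε, hε, hsub⟩ := h2
  refine ⟨min ε 1, lt_min hε one_pos, min_le_right _ _, ?_⟩
  intro s hs1 hs2
  have h3 : s ∈ Metric.ball (1 : ℝ) ε ∩ (Icc 0 1 \ {1}) := by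
    refine ⟨?_, ⟨?_, hs2.le⟩, hs2.ne⟩
    · rw [Metric.mem_ball, Real.dist_eq, abs_lt]
      have := min_le_left ε 1
      constructor <;> linarith
    · have := min_le_right ε 1
      linarith
  have h4 := hsub h3
  simp only [mem_setOf_eq, slope_def_field] at h4
  have h5 : s - 1 < 0 := by linarith
  have h6 : Meet_dot (pt d s) (vin d) - Meet_dot (pt d 1) (vin d) < 0 := by
    by_contra hcon
    have := div_nonpos_of_nonneg_of_nonpos (not_lt.mp hcon) h5.le
    linarith
  rw [pt_one] at h6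
  unfold Meet_dot at h6 ⊢
  simp only [Complex.sub_re, Complex.sub_im]
  linarith

theorem dir_out (d : D.Dart) : ∃ δ : ℝ, 0 < δ ∧ δ ≤ 1 ∧ ∀ s, 0 < s → s < δ →
    0 < Meet_dot (pt d s - D.pos (beg d)) (vout d) := by
  have h := sndpt_dot (sndpt_out d)
  rw [hasDerivWithinAt_iff_tendsto_slope] at h
  have h2 := h.eventually (lt_mem_nhds (sndpt_dot_pos (vout_ne d)))
  rw [Filter.Eventually, Metric.mem_nhdsWithin_iff] at h2
  obtain ⟨ε, hε, hsub⟩ := h2
  refine ⟨min ε 1, lt_min hε one_pos, min_le_right _ _, ?_⟩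
  intro s hs1 hs2
  have h3 : s ∈ Metric.ball (0 : ℝ) ε ∩ (Icc 0 1 \ {0}) := by
    refine ⟨?_, ⟨hs1.le, ?_⟩, hs1.ne'⟩
    · rw [Metric.mem_ball, Real.dist_eq, abs_lt]
      have := min_le_left ε 1
      constructor <;> linarith
    · have := min_le_right ε 1
      linarith
  have h4 := hsub h3
  simp only [mem_setOf_eq, slope_def_field] at h4
  have h6 : 0 < Meet_dot (pt d s) (vout d) - Meet_dot (pt d 0) (vout d) := by
    by_contra hcon
    have := div_nonpos_of_nonpos_of_nonneg (not_lt.mp hcon) (by linarith : (0:ℝ) ≤ s - 0)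
    linarith
  rw [pt_zero] at h6
  unfold Meet_dot at h6 ⊢
  simp only [Complex.sub_re, Complex.sub_im]
  linarith

end Pool.Agent.SOD
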