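import Pool.Agent.SOD.TopCases

/-! Project SOD, module StepHt (size 3): heights, parabola, order and visibility at stage `insert v D`. -/

set_option autoImplicit false

open Set

namespace Pool.Agent.SOD

variable {V : Type} [LinearOrder V] [Fintype V] {G : SimpleGraph V} {N : Nd V → Prop} {D : Finset V}

private theorem StepHt_inn (hN : Nds G N) {v : V} (hv : v ∉ D) : Priv G N D v (inn G v) := by
  refine ⟨hN.swap (hN.out v), Finset.mem_singleton_self v, ?_, Or.inl rfl⟩
  intro y hy hyD
  exact hv ((Finset.mem_singleton.1 hy) ▸ hyD)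

private theorem StepHt_out (hN : Nds G N) {w : V} (hw : w ∈ D) : St N D (out G w) :=
  ⟨hN.out w, ⟨w, Finset.mem_singleton_self w, hw⟩, ⟨w, mem_nb.2 (Or.inl rfl), hw⟩⟩

/-- a new node `K` (Priv) and a node `Q` of stage `insert v D` with a link Q → K: Q is lower. PROOF: Q.1 ⊂ K.1, v ∈ K.2 ⊂ Q.2.
If Q.2 does not meet D: Q is not in St N D, new_cases: Priv Q: hP.htnew. Priv Q.swap: v ∈ Q.1, v ∈ Q.2: hN.both: Q = inn v:
Q.2 = {v}, K.2 ⊂ {v} is empty, impossible; Q = out v: v ∈ K.1 and v ∈ K.2, so K = inn v or out v; K = out v: Q.1 ⊂ {v}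
impossible (Q.1 = {v}); K = inn v: the link out v → inn v has no witnesses a ≠ b, a ∈ {v}, b ∈ {v}.
If Q.2 meets D: Q.1 meets insert v D: if Q.1 meets D: St N D Q: hP.htold. Otherwise v ∈ Q.1, v ∈ Q.2: as before. -/
theorem PhaseOut.below (hN : Nds G N) {v : V} (hv : v ∉ D) {p p' : Nd V → ℂ} (hP : PhaseOut G N D v p p')
    {K Q : Nd V} (hK : Priv G N D v K) (hQ : St N (insert v D) Q) (hl : Lk N Q K) : (p' Q).im < (p' K).im := by
  obtain ⟨hNQ, hNK, hs1, hs2, ⟨a, ha, b, hb, hab⟩, hlast⟩ := hl
  by_cases hQD : St N D Q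
  · exact hP.htold hQD hK
  · rcases new_cases hN hv hQ hQD with h | h
    · exact hP.htnew h hK hs1
    · exfalso
      have hv1 : v ∈ Q.1 := h.2.1
      have hv2 : v ∈ Q.2 := hs2.1 hK.2.1
      rcases hN.both hNQ hv1 hv2 with e | e
      · have hv3 : v ∈ K.1 := hs1.1 hv1
        rcases hN.both hNK hv3 hK.2.1 with e' | e'
        · rw [e, e'] at hs1
          exact hs1.2 hs1.1
        · rw [e] at ha
          rw [e'] at hb
          have h1 : a = v := Finset.mem_singleton.1 ha
          have h2 : b = v := Finset.mem_singleton.1 hb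
          exact hab (h1.trans h2.symm)
      · rw [e] at hs2
        have h1 : K.2 ⊂ {v} := hs2
        exact h1.2 (Finset.singleton_subset_iff.2 hK.2.1)

/-- PROOF. Both old: hS.ht, hP.old. K' not old: new_cases. Priv K': PhaseOut.below. Priv K'.swap: v ∈ K'.1, K'.1 does not meet D,
so K.1 ⊂ K'.1 does not meet D; x ∈ K.1 with x < all of K'.2; K'.2 contains some y₀ ∈ insert v D; if y₀ ∈ D then x ∈ D (Low D:
x ∉ D gives y₀ < x): contradiction. If y₀ = v: K' is out v or inn v; out v: K.1 ⊂ {v} impossible; inn v is Priv: first case.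
K' old, K not old: K.2 ⊃ K'.2 meets D, so K.1 does not meet D; x ∈ K.1, x < y₀ for y₀ ∈ K'.2 ∩ D, so x ∈ D: contradiction. -/
theorem step_ht (hN : Nds G N) {v : V} (hD : Low D) (hv : v ∉ D) {p p' : Nd V → ℂ} (hS : Stage G N D p)
    (hP : PhaseOut G N D v p p') {K K' : Nd V} (hK : St N (insert v D) K) (hK' : St N (insert v D) K')
    (hl : Lk N K K') (hx : ∃ x ∈ K.1, ∀ y ∈ K'.2, x < y) : (p' K).im < (p' K').im := by
  by_cases o' : St N D K'
  · by_cases o : St N D K
    · rw [hP.old o, hP.old o']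
      exact hS.ht o o' hl hx
    · exfalso
      obtain ⟨x, hxK, hxy⟩ := hx
      obtain ⟨y, hy, hyD⟩ := o'.2.2
      have hxD : x ∉ D := by
        intro hxD
        exact o ⟨hK.1, ⟨x, hxK, hxD⟩, ⟨y, hl.2.2.2.1.1 hy, hyD⟩⟩
      exact lt_asymm (hxy y hy) (hD y hyD x hxD)
  · rcases new_cases hN hv hK' o' with h | h
    · exact hP.below hN hv h hK hl
    · obtain ⟨x, hxK, hxy⟩ := hx
      obtain ⟨y, hy, hyD⟩ := hK'.2.2
      have hxD : x ∉ D := h.2.2.1 x (hl.2.2.1.1 hxK)
      rcases Finset.mem_insert.1 hyD with e | hyD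
      · have hv1 : v ∈ K'.1 := h.2.1
        have hv2 : v ∈ K'.2 := e ▸ hy
        rcases hN.both hl.2.1 hv1 hv2 with e' | e'
        · exfalso
          have h1 := hl.2.2.1
          rw [e'] at h1
          have h2 : K.1 ⊂ {v} := h1
          have h3 : K.1 = ∅ := Finset.ssubset_singleton_iff.1 h2
          obtain ⟨z, hz⟩ := hN.ne hl.1
          rw [h3] at hz
          exact absurd hz (Finset.notMem_empty z)
        · rw [e']
          rw [e'] at hl
          exact hP.below hN hv (StepHt_inn hN hv) hK hl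
      · exfalso
        exact lt_asymm (hxy y hy) (hD y hyD x hxD)

theorem step_par {v : V} {p p' : Nd V → ℂ} (hN : Nds G N) (hS : Stage G N D p) (hP : PhaseOut G N D v p p') {w : V}
    (hw : w ∈ insert v D) : (p' (out G w)).im = (p' (out G w)).re ^ 2 := by
  rcases Finset.mem_insert.1 hw with e | hw
  · rw [e, show p' (out G v) = p' (inn G v) from (hP.sw (inn G v))]
    exact hP.par
  · rw [hP.old (StepHt_out hN hw)]
    exact hS.par hw

/-- PROOF: w, w' ∈ D: hS.inc. w ∈ D, w' = v: hP.xmax for out w (≠ inn v, ≠ out v as w ≠ v; out w = inn v would give nb v = {w}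
∋ v). w = v < w' ∈ D: impossible by Low D. -/
theorem step_inc {v : V} (hN : Nds G N) (hD : Low D) (hv : v ∉ D) {p p' : Nd V → ℂ} (hS : Stage G N D p)
    (hP : PhaseOut G N D v p p') {w w' : V} (hw : w ∈ insert v D) (hw' : w' ∈ insert v D) (h : w < w') :
    (p' (out G w)).re < (p' (out G w')).re := by
  rcases Finset.mem_insert.1 hw with e | hwD
  · exfalso
    subst e
    rcases Finset.mem_insert.1 hw' with e | hwD'
    · exact absurd e h.ne'
    · exact lt_asymm h (hD w' hwD' w hv)
  · rcases Finset.mem_insert.1 hw' with e | hwD'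
    · subst e
      rw [show p' (out G w') = p' (inn G w') from (hP.sw (inn G w'))]
      refine hP.xmax (st_mono (Finset.subset_insert _ _) (StepHt_out hN hwD)) ?_ ?_
      · intro e
        have e1 : ({w} : Finset V) = nb G w' := congrArg Prod.fst e
        have e2 : w' ∈ ({w} : Finset V) := by
          rw [e1]
          exact mem_nb.2 (Or.inl rfl)
        exact h.ne' (Finset.mem_singleton.1 e2)
      · intro e
        have e1 : ({w} : Finset V) = {w'} := congrArg Prod.fst e
        exact h.ne (Finset.singleton_injective e1)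
    · rw [hP.old (StepHt_out hN hwD), hP.old (StepHt_out hN hwD')]
      exact hS.inc hwD hwD' h

/-- PROOF: old: hS.core; new: new_cases, K or K.swap is Priv and not inn v (not IsV): hP.core, hP.sw. -/
theorem step_core {v : V} (hN : Nds G N) (hv : v ∉ D) {p p' : Nd V → ℂ} (hS : Stage G N D p)
    (hP : PhaseOut G N D v p p') {K : Nd V} (hK : St N (insert v D) K) (h : ¬ IsV G K) :
    (p' K).re ^ 2 < (p' K).im := by
  by_cases o : St N D K
  · rw [hP.old o]
    exact hS.core o h
  · rcases new_cases hN hv hK o with g | g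
    · refine hP.core g ?_
      intro e
      exact h ⟨v, Or.inr e⟩
    · rw [← hP.sw K]
      refine hP.core g ?_
      intro e
      refine h ⟨v, Or.inl ?_⟩
      rw [← Prod.swap_swap K, e, inn_swap]

/-- PROOF: hP.sw, hS.sw; old; left, mono: hP.left (h exists by top_exists); max: hP.xmax, K = inn v or out v: hP.sw. -/
theorem step_x {v : V} (hN : Nds G N) (hv : v ∉ D) {p p' : Nd V → ℂ} (hS : Stage G N D p)
    (hP : PhaseOut G N D v p p') : XStep G N D v (fun K => (p K).re) (fun K => (p' K).re) := by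
  refine ⟨?_, ?_, ?_, ?_, ?_, ?_⟩
  · intro K
    show (p K.swap).re = (p K).re
    rw [hS.sw K]
  · intro K
    show (p' K.swap).re = (p' K).re
    rw [hP.sw K]
  · intro K hK
    show (p' K).re = (p K).re
    rw [hP.old hK]
  · intro a₁ h K hm ht hK ha
    exact (hP.left hm ht hK ha).2.1
  · intro a₁ K K' hm hK hK' ha hss
    obtain ⟨h, ht⟩ := top_exists hN hm.1 hv hm.2.1.symm
    exact (hP.left hm ht hK ha).2.2 hK' hss
  · intro K hK
    show (p' K).re ≤ (p' (inn G v)).re
    by_cases e : K = inn G v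
    · rw [e]
    · by_cases e' : K = out G v
      · rw [e', show p' (out G v) = p' (inn G v) from (hP.sw (inn G v))]
      · exact (hP.xmax hK e e').le

/-- PROOF: top_cases. First case: Vis N (St N D) p K by hS.vis (with a'); if v has no neighbour in D: hP.vis0; otherwise
minNb_exists, top_exists: hP.vis1 with the inequality of top_cases. Second and third case: hP.left (for K, K.swap; visibility
of K.swap is visibility of K since p' K.swap = p' K). Fourth case: hP.visv and p' (out v) = p' (inn v). -/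
theorem step_vis (hN : Nds G N) {v : V} (hD : Low D) (hD' : Low (insert v D)) (hv : v ∉ D) {p p' : Nd V → ℂ}
    (hS : Stage G N D p) (hP : PhaseOut G N D v p p') {a m : V} {K : Nd V} (ha : a ∈ insert v D)
    (hm : m ∉ insert v D) (hK : Top N (insert v D) a m K) : Vis N (St N (insert v D)) p' K := by
  have hmD : m ∉ D := fun h => hm (Finset.mem_insert_of_mem h)
  rcases top_cases hN hD hD' hv hS.ord ha hm hK with ⟨hSt, ⟨a', ha', hT'⟩, hle⟩ | ⟨hPr, a₁, ha₁, haK⟩ |
    ⟨hPr, a₁, ha₁, haK⟩ | ⟨e, _⟩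
  · have hvis : Vis N (St N D) p K := hS.vis ha' hmD hT'
    by_cases hne : ∀ a ∈ D, ¬ G.Adj v a
    · exact hP.vis0 hne hSt hvis
    · push Not at hne
      obtain ⟨b, hb, hvb⟩ := hne
      obtain ⟨a₁, ha₁, _⟩ := minNb_exists hb hvb
      obtain ⟨h, ht⟩ := top_exists hN ha₁.1 hv ha₁.2.1.symm
      exact hP.vis1 ha₁ ht hSt hvis (hle ha₁ ht)
  · obtain ⟨h, ht⟩ := top_exists hN ha₁.1 hv ha₁.2.1.symm
    exact (hP.left ha₁ ht hPr haK).1
  · obtain ⟨h, ht⟩ := top_exists hN ha₁.1 hv ha₁.2.1.symm
    have h1 := (hP.left ha₁ ht hPr haK).1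
    unfold Vis at h1 ⊢
    rw [hP.sw K] at h1
    exact h1
  · have h1 := hP.visv
    unfold Vis at h1 ⊢
    rw [e, show p' (out G v) = p' (inn G v) from (hP.sw (inn G v))]
    exact h1

end Pool.Agent.SOD
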