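import Pool.Agent.SOD.StepHt

/-! Project SOD, module StepR3 (size 3): the upward links of a last node go to the right. -/

set_option autoImplicit false

open Set

namespace Pool.Agent.SOD

variable {V : Type} [LinearOrder V] [Fintype V] {G : SimpleGraph V} {N : Nd V → Prop} {D : Finset V}

/-- an old node K with x K ≤ x h which gets a link to a new node P: then P is on the leftmost path. PROOF: K.1 meets D in a (St);
lk_top: Top N D a v K; a₁ ≤ a (a ~ v: a ∈ P.1, v ∈ P.2); hS.ord.r1 (a₁ ≤ a, m = m' = v): (p h).re ≤ (p K).re. So equal re; both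
are visible (hS.vis), so also equal im (each is ≤ the other), p K = p h, and h = K or h = K.swap (hS.pln.inj). h = K.swap: v ∈
h.2 = K.1 and v ∈ P.2 ⊆ K.2: K is out v or inn v by hN.both, which are not in St N D (v ∉ D). So h = K, a₁ ∈ K.1 ⊆ P.1,
and hP.left gives (p h).re < (p' P).re; (p K).re = (p h).re. -/
theorem right_of_link (hN : Nds G N) {v : V} (hD : Low D) (hv : v ∉ D) {p p' : Nd V → ℂ} (hS : Stage G N D p)
    (hP : PhaseOut G N D v p p') {K P : Nd V} (hK : St N D K) (hPr : Priv G N D v P) (hl : Lk N K P)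
    (hle : ∀ {a₁ h}, MinNb G D v a₁ → Top N D a₁ v h → (p K).re ≤ (p h).re) : (p K).re < (p' P).re := by
  obtain ⟨a, haK, haD⟩ := hK.2.1
  have hT : Top N D a v K := lk_top hN hv hK hPr hl haD haK
  have hav : a ≠ v := fun e => hv (e ▸ haD)
  have hadj : G.Adj a v := hN.adj hPr.1 (hl.2.2.1.1 haK) hPr.2.1 hav
  obtain ⟨a₁, ha₁, hle₁⟩ := minNb_exists haD hadj.symm
  obtain ⟨h, hh⟩ := top_exists hN ha₁.1 hv ha₁.2.1.symm
  have h1 : (p K).re ≤ (p h).re := hle ha₁ hh
  have h2 : (p h).re ≤ (p K).re := hS.ord.r1 ha₁.1 haD hv hv hle₁ le_rfl hh hT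
  have e : (p K).re = (p h).re := le_antisymm h1 h2
  have hvK : Vis N (St N D) p K := hS.vis haD hv hT
  have hvh : Vis N (St N D) p h := hS.vis ha₁.1 hv hh
  have hSh : St N D h := top_st hh ha₁.1
  have h3 : (p h).im ≤ (p K).im := hvK.1 (p h) ⟨h, hSh, rfl⟩ e.symm
  have h4 : (p K).im ≤ (p h).im := hvh.1 (p K) ⟨K, hK, rfl⟩ e
  have e2 : p K = p h := Complex.ext e (le_antisymm h4 h3)
  rcases hS.pln.inj hK hSh e2 with e3 | e3
  · subst e3
    rw [← hP.old hK]
    have := (hP.left ha₁ hh hPr (hl.2.2.1.1 hh.2.1)).2.1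
    rw [hP.old hK]
    exact this
  · exfalso
    have hv1 : v ∈ K.1 := by
      have := hh.2.2.1
      rw [e3] at this
      exact this
    have hv2 : v ∈ K.2 := hl.2.2.2.1.1 hPr.2.1
    rcases hN.both hK.1 hv1 hv2 with e4 | e4
    · obtain ⟨z, hz, hzD⟩ := hK.2.1
      rw [e4] at hz
      exact hv ((Finset.mem_singleton.1 hz) ▸ hzD)
    · obtain ⟨z, hz, hzD⟩ := hK.2.2
      rw [e4] at hz
      exact hv ((Finset.mem_singleton.1 hz) ▸ hzD)

private theorem StepR3_new (hN : Nds G N) {v : V} (hv : v ∉ D) {p p' : Nd V → ℂ}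
    (hP : PhaseOut G N D v p p') {K P : Nd V} (hPr : Priv G N D v K) {a₁ : V} (ha₁ : MinNb G D v a₁)
    (haK : a₁ ∈ K.1) (hSt : St N (insert v D) P) (hl : Lk N K P ∨ Lk N P K)
    (h : (p' K).im < (p' P).im) : (p' K).re < (p' P).re := by
  obtain ⟨t, ht⟩ := top_exists hN ha₁.1 hv ha₁.2.1.symm
  rcases hl with hl | hl
  · have hnD : ∀ y ∈ P.2, y ∉ D := fun y hy => hPr.2.2.1 y (hl.2.2.2.1.1 hy)
    have hvP : v ∈ P.2 := by
      obtain ⟨y, hy, hyD⟩ := hSt.2.2
      rcases Finset.mem_insert.1 hyD with e | hyD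
      · exact e ▸ hy
      · exact absurd hyD (hnD y hy)
    have hPP : Priv G N D v P := ⟨hSt.1, hvP, hnD, Or.inr ⟨a₁, hl.2.2.1.1 haK, ha₁.1⟩⟩
    exact (hP.left ha₁ ht hPr haK).2.2 hPP hl.2.2.1
  · exfalso
    exact lt_asymm h (hP.below hN hv hPr hSt hl)

/-- PROOF. top_cases for K (x = re of p).
(i) K old with Top N D a' m K. P old: hS.r3 (p' = p on old nodes). P new, Priv P: Lk K P: right_of_link. Lk P K: P.2 ⊃ K.2 meets D:
 contradiction to Priv P. P new, Priv P.swap: Lk K P: K.1 ⊂ P.1 does not meet D (P.swap.2 = P.1): contradiction to St N D K.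
 Lk P K: Lk K.swap P.swap (lk_swap): right_of_link for K.swap, P.swap (p K.swap = p K, p' P.swap = p' P; St N D K.swap).
(ii) Priv K, a₁ ∈ K.1: Lk K P: P.2 ⊂ K.2 does not meet D, P.2 meets insert v D, so v ∈ P.2; K.1 ⊂ P.1; P is Priv: K = inn v is
 impossible (P.2 ⊂ {v} nonempty), so K.1 meets D and P.1 meets D. hP.left with K.1 ⊂ P.1. Lk P K: PhaseOut.below: P is lower,
 contradiction to the hypothesis.
(iii) Priv K.swap: the same for K.swap and P.swap (lk_swap, st_swap, hP.sw).
(iv) K = out v: K.swap = inn v is Priv; Lk (out v) P gives Lk P.swap (inn v): PhaseOut.below: contradiction. Lk P (out v): P.1 ⊂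
 {v} is empty: impossible (hN.ne). -/
theorem step_r3 (hN : Nds G N) {v : V} (hD : Low D) (hD' : Low (insert v D)) (hv : v ∉ D) {p p' : Nd V → ℂ}
    (hS : Stage G N D p) (hP : PhaseOut G N D v p p') {a m : V} {K P : Nd V} (ha : a ∈ insert v D)
    (hm : m ∉ insert v D) (hK : Top N (insert v D) a m K) (hSt : St N (insert v D) P) (hl : Lk N K P ∨ Lk N P K)
    (h : (p' K).im < (p' P).im) : (p' K).re < (p' P).re := by
  have hmD : m ∉ D := fun h => hm (Finset.mem_insert_of_mem h)
  rcases top_cases hN hD hD' hv hS.ord ha hm hK with ⟨hStK, ⟨a', ha', hT'⟩, hle⟩ | ⟨hPr, a₁, ha₁, haK⟩ |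
    ⟨hPr, a₁, ha₁, haK⟩ | ⟨e, _⟩
  · by_cases hStP : St N D P
    · rw [hP.old hStK, hP.old hStP] at h ⊢
      exact hS.r3 ha' hmD hT' hStP hl h
    · rw [hP.old hStK]
      rcases new_cases hN hv hSt hStP with hPr | hPr
      · rcases hl with hl | hl
        · exact right_of_link hN hD hv hS hP hStK hPr hl (fun h1 h2 => hle h1 h2)
        · exfalso
          obtain ⟨y, hy, hyD⟩ := hStK.2.2
          exact hPr.2.2.1 y (hl.2.2.2.1.1 hy) hyD
      · rcases hl with hl | hl
        · exfalso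
          obtain ⟨y, hy, hyD⟩ := hStK.2.1
          exact hPr.2.2.1 y (hl.2.2.1.1 hy) hyD
        · have := right_of_link hN hD hv hS hP (st_swap hN hStK) hPr (lk_swap (fun h => hN.swap h) hl)
            (fun {a₁ h} h1 h2 => by rw [hS.sw K]; exact hle h1 h2)
          rw [hS.sw K, hP.sw P] at this
          exact this
  · exact StepR3_new hN hv hP hPr ha₁ haK hSt hl h
  · have h1 := StepR3_new hN hv hP (K := K.swap) (P := P.swap) hPr ha₁ haK (st_swap hN hSt)
      (by
        rcases hl with hl | hl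
        · exact Or.inr (lk_swap (fun h => hN.swap h) hl)
        · exact Or.inl (lk_swap (fun h => hN.swap h) hl))
      (by rw [hP.sw K, hP.sw P]; exact h)
    rw [hP.sw K, hP.sw P] at h1
    exact h1
  · exfalso
    rcases hl with hl | hl
    · have hl' := lk_swap (fun h => hN.swap h) hl
      rw [e, out_swap] at hl'
      have hinn : Priv G N D v (inn G v) := by
        refine ⟨hN.swap (hN.out v), Finset.mem_singleton_self v, ?_, Or.inl rfl⟩
        intro y hy hyD
        exact hv ((Finset.mem_singleton.1 hy) ▸ hyD)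
      have h2 := hP.below hN hv hinn (st_swap hN hSt) hl'
      rw [hP.sw P, ← show p' (out G v) = p' (inn G v) from (hP.sw (inn G v)), ← e] at h2
      exact lt_asymm h h2
    · have h1 := hl.2.2.1
      rw [e] at h1
      have h2 : P.1 ⊂ {v} := h1
      have h3 : P.1 = ∅ := Finset.ssubset_singleton_iff.1 h2
      obtain ⟨z, hz⟩ := hN.ne hl.1
      rw [h3] at hz
      exact absurd hz (Finset.notMem_empty z)

end Pool.Agent.SOD
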