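import Pool.Agent.SOD.StepHt

/-! Project SOD, module StepSep (size 3): separation of the two sides at a core. -/

set_option autoImplicit false

open Set

namespace Pool.Agent.SOD

variable {V : Type} [LinearOrder V] [Fintype V] {G : SimpleGraph V} {N : Nd V → Prop} {D : Finset V}

/-- PROOF. K is a core: no element is on both sides (hN.both and ¬ IsV). Can K: l ∈ K.1, l < all of K.2.
First part: (p' K).im < (p' P).im by step_ht (P.2 ⊆ K.2, x = l).
(1) K not old: new_cases. Priv K.swap is impossible: v ∈ K.1, K.1 does not meet D; K.2 meets insert v D, v ∉ K.2, so y ∈ K.2 ∩ D,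
 l < y, so l ∈ D by Low D: contradiction. So Priv K, and PhaseOut.below: (p' Q).im < (p' K).im.
(2) K old. P, Q old: hS.sep and hP.old.
 (2a) P old, Q not old: Priv Q impossible (Q.2 ⊃ K.2 meets D). So Priv Q.swap =: P̃, Lk K.swap P̃ (lk_swap). (p' K).im < (p' Q).im
  by hP.htold. K.swap.1 = K.2 meets D in a; lk_top: Top N D a v K.swap; hS.r3 (m = v) for P.swap (Lk P.swap K.swap; St N D P.swap)
  and (p K).im < (p P).im gives (p K).re < (p P).re. hP.steep for K.swap, P̃, R = P: ((p P).im - (p K).im) |(p' Q).re - (p K).re| <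
  |(p P).re - (p K).re| ((p' Q).im - (p K).im). So ((p P).re - (p K).re)((p' Q).im - (p K).im) - ((p P).im - (p K).im)((p' Q).re - (p K).re) > 0.
 (2b) P not old: Priv P (Priv P.swap: P.1 does not meet D, but K.1 ⊂ P.1 meets D). v ∈ P.2 ⊂ K.2, v ∉ K.1.
  Q old: if ∃ q ∈ Q.1, q < all of K.2: hS.ht for Q → K: (p Q).im < (p K).im. Otherwise take q ∈ Q.1 ∩ D; there is b ∈ K.2 with
  b ≤ q; q ∈ K.1, so b ≠ q, b < q; l < b < q < v with l, q ∈ K.1 and b, v ∈ K.2: hN.noninter, contradiction.
  Q not old: Priv Q: Q.2 ⊃ K.2 meets D: impossible; Priv Q.swap: v ∈ Q.1 ⊂ K.1: contradiction. -/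
theorem step_sep (hN : Nds G N) {v : V} (hD : Low D) (hv : v ∉ D) {p p' : Nd V → ℂ} (hS : Stage G N D p)
    (hP : PhaseOut G N D v p p') {K P Q : Nd V} (hK : St N (insert v D) K) (hSP : St N (insert v D) P)
    (hSQ : St N (insert v D) Q) (hc : ¬ IsV G K) (hcan : Can K) (hl : Lk N K P) (hl' : Lk N Q K) :
    Sep (p' K) (p' P) (p' Q) := by
  have hcore : ∀ w, w ∈ K.1 → w ∈ K.2 → False := fun w h1 h2 => hc ⟨w, hN.both hK.1 h1 h2⟩
  obtain ⟨l, hl1, hl2⟩ := hcan
  have hKP1 : K.1 ⊆ P.1 := hl.2.2.1.1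
  have hPK2 : P.2 ⊆ K.2 := hl.2.2.2.1.1
  have hQK1 : Q.1 ⊆ K.1 := hl'.2.2.1.1
  have hKQ2 : K.2 ⊆ Q.2 := hl'.2.2.2.1.1
  have h1 : (p' K).im < (p' P).im :=
    step_ht hN hD hv hS hP hK hSP hl ⟨l, hl1, fun y hy => hl2 y (hPK2 hy)⟩
  refine ⟨h1, ?_⟩
  by_cases hKo : St N D K
  · -- `K` is old
    obtain ⟨a, ha, haD⟩ := hKo.2.2
    obtain ⟨a', ha', haD'⟩ := hKo.2.1
    have hQn : ¬ Priv G N D v Q := fun h => h.2.2.1 a (hKQ2 ha) haD
    by_cases hPo : St N D P
    · by_cases hQo : St N D Q
      · have h2 := (hS.sep hKo hPo hQo hc ⟨l, hl1, hl2⟩ hl hl').2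
        rw [hP.old hKo, hP.old hPo, hP.old hQo]
        exact h2
      · -- `P` old, `Q` new
        rcases new_cases hN hv hSQ hQo with h2 | h2
        · exact absurd h2 hQn
        · right
          have h3 : (p' K).im < (p' Q.swap).im := hP.htold hKo h2
          rw [hP.sw] at h3
          refine ⟨h3, ?_⟩
          have hlk : Lk N K.swap Q.swap := lk_swap hN.swap hl'
          have hKs : St N D K.swap := st_swap hN hKo
          have ht : Top N D a v K.swap := lk_top hN hv hKs h2 hlk haD ha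
          have hlk2 : Lk N P.swap K.swap := lk_swap hN.swap hl
          have h1' : (p K).im < (p P).im := by
            rw [hP.old hKo, hP.old hPo] at h1
            exact h1
          have h4 : (p K.swap).re < (p P.swap).re :=
            hS.r3 haD hv ht (st_swap hN hPo) (Or.inr hlk2) (by rw [hS.sw, hS.sw]; exact h1')
          rw [hS.sw, hS.sw] at h4
          have h5 := hP.steep hKs h2 hlk hPo (by rw [hS.sw]; exact ne_of_gt h4)
          rw [hS.sw, hP.sw] at h5
          rw [hP.old hKo] at h3 ⊢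
          rw [hP.old hPo]
          have h6 : |(p P).re - (p K).re| = (p P).re - (p K).re :=
            abs_of_pos (sub_pos.2 h4)
          rw [h6] at h5
          have h7 : ((p P).im - (p K).im) * ((p' Q).re - (p K).re) ≤
              ((p P).im - (p K).im) * |(p' Q).re - (p K).re| :=
            mul_le_mul_of_nonneg_left (le_abs_self _) (sub_nonneg.2 h1'.le)
          linarith
    · -- `P` new
      rcases new_cases hN hv hSP hPo with h2 | h2
      · have hvK : v ∈ K.2 := hPK2 h2.2.1
        by_cases hQo : St N D Q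
        · by_cases hq : ∃ q ∈ Q.1, ∀ y ∈ K.2, q < y
          · left
            rw [hP.old hKo, hP.old hQo]
            exact hS.ht hQo hKo hl' hq
          · exfalso
            obtain ⟨q, hq1, hqD⟩ := hQo.2.1
            have h3 : ¬ ∀ y ∈ K.2, q < y := fun h => hq ⟨q, hq1, h⟩
            push Not at h3
            obtain ⟨b, hb, hbq⟩ := h3
            have hqK := hQK1 hq1
            have hbq' : b < q := lt_of_le_of_ne hbq (fun h => hcore q hqK (h ▸ hb))
            exact hN.noninter hK.1 hl1 hqK hb hvK (hl2 b hb) hbq' (hD q hqD v hv)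
        · exfalso
          rcases new_cases hN hv hSQ hQo with h3 | h3
          · exact hQn h3
          · exact hcore v (hQK1 h3.2.1) hvK
      · exact absurd haD' (h2.2.2.1 a' (hKP1 ha'))
  · -- `K` is new
    left
    rcases new_cases hN hv hK hKo with h2 | h2
    · exact PhaseOut.below hN hv hP h2 hSQ hl'
    · exfalso
      have hvK : v ∈ K.1 := h2.2.1
      obtain ⟨y, hy, hyD⟩ := hK.2.2
      rcases Finset.mem_insert.1 hyD with h3 | h3
      · exact hcore v hvK (h3 ▸ hy)
      · exact lt_asymm (hl2 y hy) (hD y h3 l (h2.2.2.1 l hl1))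

end Pool.Agent.SOD
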