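import Pool.Agent.SOD.OrdStep
import Pool.Agent.SOD.Phase
import Pool.Agent.SOD.StepR3
import Pool.Agent.SOD.StepSep

/-! Project SOD, module Straight (size 3): existence of the straight line drawing. -/

set_option autoImplicit false

open Set

namespace Pool.Agent.SOD

variable {V : Type} [LinearOrder V] [Fintype V] {G : SimpleGraph V} {N : Nd V → Prop} {D : Finset V}

/-- PROOF: `phase` gives p' with PhaseOut; the fields: step_par, step_inc, step_core, step_ht, ord_step (step_x), step_vis,
step_r3, step_sep. -/
theorem stage_step (hN : Nds G N) {v : V} (hD : Low D) (hD' : Low (insert v D)) (hv : v ∉ D) {p : Nd V → ℂ}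
    (hS : Stage G N D p) : ∃ p', Stage G N (insert v D) p' := by
  obtain ⟨p', hP⟩ := phase hN hD hv hS
  exact ⟨p', {
    sw := hP.sw
    pln := hP.pln
    par := fun hw => step_par hN hS hP hw
    inc := fun hw hw' h => step_inc hN hD hv hS hP hw hw' h
    core := fun hK h => step_core hN hv hS hP hK h
    ht := fun hK hK' hl hx => step_ht hN hD hv hS hP hK hK' hl hx
    ord := ord_step hN hD hD' hv hS.ord (step_x hN hv hS hP)
    vis := fun ha hm hK => step_vis hN hD hD' hv hS hP ha hm hK
    r3 := fun ha hm hK hSt hl h => step_r3 hN hD hD' hv hS hP ha hm hK hSt hl h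
    sep := fun hK hSP hSQ hc hcan hl hl' => step_sep hN hD hv hS hP hK hSP hSQ hc hcan hl hl' }⟩

private theorem Straight_empty {K : Nd V} (h : St N ∅ K) : False := by
  obtain ⟨_, ⟨x, _, hx⟩, _⟩ := h
  exact absurd hx (Finset.notMem_empty x)

private theorem Straight_zero (G : SimpleGraph V) : Stage G N ∅ (fun _ => 0) where
  sw := fun _ => rfl
  pln :=
    { inj := fun h => (Straight_empty h).elim
      conf :=
        { finP := by
            have : pts (St N ∅) (fun _ : Nd V => (0 : ℂ)) = ∅ := by
              ext z
              simp only [pts, mem_setOf_eq, mem_empty_iff_false, iff_false]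
              rintro ⟨K, hK, _⟩
              exact Straight_empty hK
            rw [this]
            exact Set.finite_empty
          finS := by
            have : sgs N (St N ∅) (fun _ : Nd V => (0 : ℂ)) = ∅ := by
              ext z
              simp only [sgs, mem_setOf_eq, mem_empty_iff_false, iff_false]
              rintro ⟨K, K', hK, _⟩
              exact Straight_empty hK
            rw [this]
            exact Set.finite_empty
          mem := by
            rintro s ⟨K, K', hK, _⟩
            exact (Straight_empty hK).elim
          pt := by
            rintro s z ⟨K, K', hK, _⟩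
            exact (Straight_empty hK).elim
          seg := by
            rintro s s' z ⟨K, K', hK, _⟩
            exact (Straight_empty hK).elim } }
  par := fun h => absurd h (Finset.notMem_empty _)
  inc := fun h => absurd h (Finset.notMem_empty _)
  core := fun h => (Straight_empty h).elim
  ht := fun h => (Straight_empty h).elim
  ord :=
    { r1 := fun h => absurd h (Finset.notMem_empty _)
      r2 := fun h => absurd h (Finset.notMem_empty _) }
  vis := fun h => absurd h (Finset.notMem_empty _)
  r3 := fun h => absurd h (Finset.notMem_empty _)
  sep := fun h => (Straight_empty h).elim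

private theorem Straight_all (hN : Nds G N) (D : Finset V) : Low D → ∃ p, Stage G N D p := by
  induction D using Finset.induction_on_max with
  | empty => exact fun _ => ⟨_, Straight_zero G⟩
  | insert v D hmax ih =>
    intro hD'
    have hv : v ∉ D := fun h => lt_irrefl _ (hmax v h)
    have hD : Low D := by
      intro a ha m hm
      by_cases h : m = v
      · rw [h]
        exact hmax a ha
      · refine hD' a (Finset.mem_insert_of_mem ha) m ?_
        rw [Finset.mem_insert]
        rintro (h' | h')
        · exact h h'
        · exact hm h'
    obtain ⟨p, hS⟩ := ih hD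
    exact stage_step hN hD hD' hv hS

/-- PROOF: stage D for all lower sets D by induction (Finset.induction_on_max: D empty: all statements are vacuous, Conf of the
empty configuration, take p = 0; insert v D with v larger than all elements of D: if insert v D is a lower set then D is:
m ∉ D, a ∈ D: if m = v then a < v; otherwise m ∉ insert v D). For D = univ: St N univ K ↔ N K (K.1, K.2 nonempty by hN.ne for K
and K.swap). -/
theorem straight (hN : Nds G N) : ∃ p, SLine G N p := by
  obtain ⟨p, hS⟩ := Straight_all hN Finset.univ (fun a _ m hm => absurd (Finset.mem_univ m) hm)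
  have hst : ∀ {K}, N K → St N Finset.univ K := by
    intro K hK
    obtain ⟨x, hx⟩ := hN.ne hK
    obtain ⟨y, hy⟩ := hN.ne (hN.swap hK)
    exact ⟨hK, ⟨x, hx, Finset.mem_univ x⟩, ⟨y, hy, Finset.mem_univ y⟩⟩
  have heq : St N Finset.univ = N := by
    funext K
    exact propext ⟨fun h => h.1, hst⟩
  refine ⟨p, {
    sw := hS.sw
    pln := ?_
    par := fun v => hS.par (Finset.mem_univ v)
    inc := fun h => hS.inc (Finset.mem_univ _) (Finset.mem_univ _) h
    core := fun hK h => hS.core (hst hK) h
    ht := fun hl hx => hS.ht (hst hl.1) (hst hl.2.1) hl hx
    sep := fun hK hc hcan hl hl' => hS.sep (hst hK) (hst hl.2.1) (hst hl'.1) hc hcan hl hl' }⟩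
  have h := hS.pln
  rw [heq] at h
  exact h

end Pool.Agent.SOD
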