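import Pool.Agent.SOD.TopBasic

/-! Project SOD, module TopCases (size 3): the last nodes of stage `insert v D`, compared with stage `D`.
In all proofs: `Low D` and `v ∉ D` give a < v for a ∈ D, `Low (insert v D)` and m ∉ insert v D give v < m; adjacency
comes from hN.adj for different elements; (not in both sides) comes from `not_both`. -/

set_option autoImplicit false

open Set

namespace Pool.Agent.SOD

variable {V : Type} [LinearOrder V] [Fintype V] {G : SimpleGraph V} {N : Nd V → Prop} {D : Finset V}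

private theorem TopCases_lt (hD : Low D) {v : V} (hv : v ∉ D) {a : V} (ha : a ∈ D) : a < v := hD a ha v hv

private theorem TopCases_vm {v m : V} (hD' : Low (insert v D)) (hm : m ∉ insert v D) : v < m :=
  hD' v (Finset.mem_insert_self v D) m hm

private theorem TopCases_notD {v m : V} (hm : m ∉ insert v D) : m ∉ D :=
  fun h => hm (Finset.mem_insert_of_mem h)

/-- PROOF: a ~ v since a ∈ K.1, v ∈ K.2, a ≠ v; so a₁ exists (minNb_exists) with a₁ ≤ a. If a₁ = a done. Let a₁ < a; then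
a₁ < a < v < m, a₁ ~ v, a ~ m: hN.cross gives K₀.
 Type 1: a₁, a ∈ K₀.1; v, m ∈ K₀.2: K₀ contains (a; m) and K₀.2 meets insert v D in v: K₀.1 ⊆ K.1 by `hK`, so a₁ ∈ K.1.
 Type 2: a₁, m ∈ K₀.1; a, v ∈ K₀.2: K₀.swap contains (a; m) and its second side K₀.1 contains a₁ ∈ D: so K₀.2 ⊆ K.1, hence
 v ∈ K.1 and v ∈ K.2: impossible by not_both (a ∈ K.1, a ≠ v, m ∈ K.2, m ≠ v). -/
theorem priv_left (hN : Nds G N) {v : V} (hD : Low D) (hD' : Low (insert v D)) (hv : v ∉ D) {a m : V} {K : Nd V}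
    (ha : a ∈ D) (hm : m ∉ insert v D) (hK : Top N (insert v D) a m K) (hvK : v ∈ K.2) :
    ∃ a₁, MinNb G D v a₁ ∧ a₁ ∈ K.1 := by
  obtain ⟨hNK, haK, hmK, hyK, htop⟩ := hK
  have hav : a < v := TopCases_lt hD hv ha
  have hvm : v < m := TopCases_vm hD' hm
  have ham : a < m := hav.trans hvm
  have hadj : G.Adj a v := hN.adj hNK haK hvK hav.ne
  have hadjm : G.Adj a m := hN.adj hNK haK hmK ham.ne
  obtain ⟨a₁, ha₁, hle⟩ := minNb_exists ha hadj.symm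
  refine ⟨a₁, ha₁, ?_⟩
  rcases hle.eq_or_lt with e | hlt
  · rw [e]; exact haK
  · obtain ⟨K₀, hK₀, h | h⟩ := hN.cross hlt hav hvm ha₁.2.1.symm hadjm
    · obtain ⟨h1, h2, h3, h4⟩ := h
      exact htop K₀ hK₀ h2 h4 ⟨v, h3, Finset.mem_insert_self v D⟩ h1
    · obtain ⟨h1, h2, h3, h4⟩ := h
      exfalso
      have := htop K₀.swap (hN.swap hK₀) h3 h2 ⟨a₁, h1, Finset.mem_insert_of_mem ha₁.1⟩
      have hv1 : v ∈ K.1 := this h4
      exact not_both hN hNK haK hav.ne hmK hvm.ne' ⟨hv1, hvK⟩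

/-- PROOF: v ∉ K.2, otherwise K = out v or inn v by hN.both, and K = inn v has K.2 = {v}, m ∉ {v}. So there is y ∈ K.2,
y ∈ D; y ~ v; take a₁ (minNb_exists), a₁ ≤ y. If a₁ = y done; if a₁ < y then hN.int2 (x = v ∈ K.1, y = y, y' = m, z = a₁,
y < v < m, z < y) gives a₁ ∈ K.2. -/
theorem top_right (hN : Nds G N) {v : V} (hD : Low D) (hD' : Low (insert v D)) (hv : v ∉ D) {m : V} {K : Nd V}
    (hm : m ∉ insert v D) (hK : Top N (insert v D) v m K) (hne : K ≠ out G v) :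
    v ∉ K.2 ∧ ∃ a₁, MinNb G D v a₁ ∧ a₁ ∈ K.2 := by
  obtain ⟨hNK, hvK, hmK, hyK, htop⟩ := hK
  have hvm : v < m := TopCases_vm hD' hm
  have hv2 : v ∉ K.2 := by
    intro hv2
    rcases hN.both hNK hvK hv2 with e | e
    · exact hne e
    · rw [e] at hmK
      have : m = v := by simpa [inn] using hmK
      exact hvm.ne' this
  refine ⟨hv2, ?_⟩
  obtain ⟨y, hy, hyD⟩ := hyK
  have hyv : y ≠ v := fun e => hv2 (e ▸ hy)
  have hyD' : y ∈ D := by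
    rcases Finset.mem_insert.1 hyD with e | e
    · exact absurd e hyv
    · exact e
  have hadj : G.Adj v y := hN.adj hNK hvK hy (Ne.symm hyv)
  obtain ⟨a₁, ha₁, hle⟩ := minNb_exists hyD' hadj
  refine ⟨a₁, ha₁, ?_⟩
  rcases hle.eq_or_lt with e | hlt
  · rw [e]; exact hy
  · exact hN.int2 hNK hvK hy hmK ha₁.2.1 (TopCases_lt hD hv hyD') hvm (Or.inl hlt)

theorem top_old {v a m : V} {K : Nd V} (hK : Top N (insert v D) a m K) (h : ∃ y ∈ K.2, y ∈ D) :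
    Top N D a m K := by
  obtain ⟨h1, h2, h3, h4, h5⟩ := hK
  refine ⟨h1, h2, h3, h, ?_⟩
  intro K' hK' ha' hm' hy'
  obtain ⟨y, hy, hyD⟩ := hy'
  exact h5 K' hK' ha' hm' ⟨y, hy, Finset.mem_insert_of_mem hyD⟩

/-- PROOF: if a ≤ a₁: hO.r1 for (a, m), (a₁, v) (a ≤ a₁, v ≤ m). If a₁ < a: a₁ < a < v < m, a₁ ~ v, a ~ m, hN.cross: K₀.
 Type 1: a₁, a ∈ K₀.1; v, m ∈ K₀.2: by hK', K₀.1 ⊆ K.1, so a₁ ∈ K.1 and Top N D a₁ m K (top_transfer of hK): hO.r1 for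
 (a₁, m), (a₁, v). Type 2: a₁, m ∈ K₀.1; a, v ∈ K₀.2: hO.r2 with a := a₁, a' := a, m := v, m' := m, K₀ gives
 x K ≤ x h. -/
theorem bound (hN : Nds G N) {v : V} (hD : Low D) (hD' : Low (insert v D)) (hv : v ∉ D) {x : Nd V → ℝ} (hO : Ord N D x)
    {a m a₁ : V} {K h : Nd V} (ha : a ∈ D) (hm : m ∉ insert v D) (hK : Top N D a m K) (hK' : Top N (insert v D) a m K)
    (ha₁ : MinNb G D v a₁) (hh : Top N D a₁ v h) : x K ≤ x h := by
  have hvm : v < m := TopCases_vm hD' hm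
  have hmD : m ∉ D := TopCases_notD hm
  have hav : a < v := TopCases_lt hD hv ha
  have ham : a < m := hav.trans hvm
  rcases le_or_gt a a₁ with hle | hlt
  · exact hO.r1 ha ha₁.1 hmD hv hle hvm.le hK hh
  · have hadjm : G.Adj a m := hN.adj hK.1 hK.2.1 hK.2.2.1 ham.ne
    obtain ⟨K₀, hK₀, h' | h'⟩ := hN.cross hlt hav hvm ha₁.2.1.symm hadjm
    · obtain ⟨h1, h2, h3, h4⟩ := h'
      have h5 : a₁ ∈ K.1 := hK'.2.2.2.2 K₀ hK₀ h2 h4 ⟨v, h3, Finset.mem_insert_self v D⟩ h1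
      have h6 : Top N D a₁ m K := top_transfer hN hK h5 ((hlt.trans ham).ne)
      exact hO.r1 ha₁.1 ha₁.1 hmD hv le_rfl hvm.le h6 hh
    · obtain ⟨h1, h2, h3, h4⟩ := h'
      exact hO.r2 ha₁.1 ha hv hmD hlt hvm hK₀ h1 h2 h3 h4 hh hK

/-- PROOF of Top: let K' contain (x₀; m), K'.2 meet D. hN.chain (K, K'; x₀, m): either K'.1 ⊆ K.1 or K.1 ⊆ K'.1; in the
second case v ∈ K'.1, so K' contains (v; m) and hK gives K'.1 ⊆ K.1. (v ∉ K.2 by top_right, so K.2 meets D.)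
PROOF of a₁ < x₀: a₁ ∈ K.2 (top_right, minNb_unique). x₀ ≠ a₁ by not_both (v ∈ K.1, m ∈ K.2). If x₀ < a₁:
x₀ < a₁ < v < m with x₀, v ∈ K.1; a₁, m ∈ K.2: hN.noninter. -/
theorem top_x0 (hN : Nds G N) {v : V} (hD : Low D) (hD' : Low (insert v D)) (hv : v ∉ D) {m x₀ : V} {K : Nd V}
    (hm : m ∉ insert v D) (hK : Top N (insert v D) v m K) (hne : K ≠ out G v) (hx : x₀ ∈ K.1) (hx' : x₀ ∈ D) :
    Top N D x₀ m K ∧ ∀ a₁, MinNb G D v a₁ → a₁ < x₀ := by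
  obtain ⟨hv2, a₁, ha₁, ha₁K⟩ := top_right hN hD hD' hv hm hK hne
  obtain ⟨hNK, hvK, hmK, hyK, htop⟩ := hK
  have hvm : v < m := TopCases_vm hD' hm
  have hxv : x₀ < v := TopCases_lt hD hv hx'
  constructor
  · refine ⟨hNK, hx, hmK, ?_, ?_⟩
    · exact ⟨a₁, ha₁K, ha₁.1⟩
    · intro K' hK' hx'' hm' hy'
      rcases hN.chain hNK hK' (hxv.trans hvm).ne hx hx'' hmK hm' with h | h
      · obtain ⟨y, hy, hyD⟩ := hy'
        exact htop K' hK' (h.1 hvK) hm' ⟨y, hy, Finset.mem_insert_of_mem hyD⟩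
      · exact h.1
  · intro b hb
    have hba : b = a₁ := minNb_unique hb ha₁
    rw [hba]
    by_contra hcon
    rcases (not_lt.1 hcon).eq_or_lt with e | hlt
    · exact not_both hN hNK (v := x₀) hvK hxv.ne' hmK (hxv.trans hvm).ne' ⟨hx, e ▸ ha₁K⟩
    · exact hN.noninter hNK hx hvK ha₁K hmK hlt (TopCases_lt hD hv ha₁.1) hvm

/-- PROOF: by top_x0 and top_right: a₁ < x₀, a₁ ∈ K.2, Top N D x₀ m K. hO.r2 with a := a₁, a' := x₀, m := v, m' := m,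
K₀ := K.swap (a₁, m ∈ K.2 = K₀.1; x₀, v ∈ K.1 = K₀.2) gives x K ≤ x h. -/
theorem bound_v (hN : Nds G N) {v : V} (hD : Low D) (hD' : Low (insert v D)) (hv : v ∉ D) {x : Nd V → ℝ}
    (hO : Ord N D x) {m x₀ a₁ : V} {K h : Nd V} (hm : m ∉ insert v D) (hK : Top N (insert v D) v m K)
    (hne : K ≠ out G v) (hx : x₀ ∈ K.1) (hx' : x₀ ∈ D) (ha₁ : MinNb G D v a₁) (hh : Top N D a₁ v h) :
    x K ≤ x h := by
  obtain ⟨hv2, a₂, ha₂, ha₂K⟩ := top_right hN hD hD' hv hm hK hne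
  have e : a₂ = a₁ := minNb_unique ha₂ ha₁
  rw [e] at ha₂K
  obtain ⟨h1, h2⟩ := top_x0 hN hD hD' hv hm hK hne hx hx'
  have hvm : v < m := TopCases_vm hD' hm
  exact hO.r2 ha₁.1 hx' hv (TopCases_notD hm) (h2 a₁ ha₁) hvm (hN.swap hK.1) ha₂K hK.2.2.1 hx hK.2.1 hh h1

/-- PROOF: a ∈ D: K.2 meets D: first case by top_old (a'' = a) and `bound`; otherwise v ∈ K.2: second case by priv_left.
a = v: K = out v: fourth case. Otherwise top_right: v ∉ K.2, a₁ ∈ K.2. If K.1 meets D in x₀: first case with a'' = x₀ by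
top_x0, bound_v. If not: third case (K.swap.2 = K.1 contains v, does not meet D; K.swap.1 = K.2 contains a₁ ∈ D). -/
theorem top_cases (hN : Nds G N) {v : V} (hD : Low D) (hD' : Low (insert v D)) (hv : v ∉ D) {x : Nd V → ℝ}
    (hO : Ord N D x) {a m : V} {K : Nd V} (ha : a ∈ insert v D) (hm : m ∉ insert v D)
    (hK : Top N (insert v D) a m K) :
    (St N D K ∧ (∃ a' ∈ D, Top N D a' m K) ∧ ∀ {a₁ h}, MinNb G D v a₁ → Top N D a₁ v h → x K ≤ x h) ∨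
    (Priv G N D v K ∧ ∃ a₁, MinNb G D v a₁ ∧ a₁ ∈ K.1) ∨
    (Priv G N D v K.swap ∧ ∃ a₁, MinNb G D v a₁ ∧ a₁ ∈ K.2) ∨
    (K = out G v ∧ a = v) := by
  rcases Finset.mem_insert.1 ha with hav | haD
  · subst hav
    by_cases hne : K = out G a
    · exact Or.inr (Or.inr (Or.inr ⟨hne, rfl⟩))
    · obtain ⟨hv2, a₁, ha₁, ha₁K⟩ := top_right hN hD hD' hv hm hK hne
      by_cases hmeet : ∃ x₀ ∈ K.1, x₀ ∈ D
      · obtain ⟨x₀, hx, hx'⟩ := hmeet
        obtain ⟨h1, h2⟩ := top_x0 hN hD hD' hv hm hK hne hx hx'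
        refine Or.inl ⟨top_st h1 hx', ⟨x₀, hx', h1⟩, ?_⟩
        intro b h hb hh
        exact bound_v hN hD hD' hv hO hm hK hne hx hx' hb hh
      · refine Or.inr (Or.inr (Or.inl ⟨⟨hN.swap hK.1, hK.2.1, ?_, Or.inr ⟨a₁, ha₁K, ha₁.1⟩⟩, a₁, ha₁, ha₁K⟩))
        intro y hy hyD
        exact hmeet ⟨y, hy, hyD⟩
  · by_cases hmeet : ∃ y ∈ K.2, y ∈ D
    · have h1 : Top N D a m K := top_old hK hmeet
      refine Or.inl ⟨top_st h1 haD, ⟨a, haD, h1⟩, ?_⟩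
      intro b h hb hh
      exact bound hN hD hD' hv hO haD hm h1 hK hb hh
    · have hvK : v ∈ K.2 := by
        obtain ⟨y, hy, hyD⟩ := hK.2.2.2.1
        rcases Finset.mem_insert.1 hyD with e | e
        · exact e ▸ hy
        · exact absurd ⟨y, hy, e⟩ hmeet
      refine Or.inr (Or.inl ⟨⟨hK.1, hvK, ?_, Or.inr ⟨a, hK.2.1, haD⟩⟩, priv_left hN hD hD' hv haD hm hK hvK⟩)
      intro y hy hyD
      exact hmeet ⟨y, hy, hyD⟩

/-- a node of stage D which is linked to a new node is a last node. PROOF: a ∈ K.1 ∩ D. Let K'' contain (a; v) with K''.2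
meeting D. hN.chain (K'', P; a, v) (a ∈ K.1 ⊆ P.1, v ∈ P.2, a ≠ v): P.1 ⊆ K''.1, K''.2 ⊆ P.2 is impossible (P.2 does
not meet D). So K''.1 ⊆ P.1, P.2 ⊆ K''.2. hN.chain (K, K''; a, v): K''.1 ⊆ K.1 done; or K.1 ⊆ K''.1, K''.2 ⊆ K.2: then
K'' is K or P by the last clause of the link; P is impossible. -/
theorem lk_top (hN : Nds G N) {v : V} (hv : v ∉ D) {K P : Nd V} (hK : St N D K) (hP : Priv G N D v P)
    (h : Lk N K P) : ∀ {a}, a ∈ D → a ∈ K.1 → Top N D a v K := by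
  intro a haD haK
  obtain ⟨hNK, hNP, hs1, hs2, _, hlast⟩ := h
  have hav : a ≠ v := fun e => hv (e ▸ haD)
  refine ⟨hNK, haK, hs2.1 hP.2.1, hK.2.2, ?_⟩
  intro K' hK' ha' hv' hy'
  rcases hN.chain hK' hNP hav ha' (hs1.1 haK) hv' hP.2.1 with h | h
  · rcases hN.chain hNK hK' hav haK ha' (hs2.1 hP.2.1) hv' with g | g
    · rcases hlast K' hK' g.1 h.1 h.2 g.2 with e | e
      · rw [e]
      · exfalso
        obtain ⟨y, hy, hyD⟩ := hy'
        rw [e] at hy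
        exact hP.2.2.1 y hy hyD
    · exact g.1
  · exfalso
    obtain ⟨y, hy, hyD⟩ := hy'
    exact hP.2.2.1 y (h.2 hy) hyD

theorem tp_iff_top {v a : V} (ha : a ∈ D) {K : Nd V} : Tp (St N D) a v K ↔ Top N D a v K := by
  constructor
  · rintro ⟨h1, h2, h3, h4⟩
    refine ⟨h1.1, h2, h3, h1.2.2, ?_⟩
    intro K' hK' ha' hv' hy'
    exact h4 K' ⟨hK', ⟨a, ha', ha⟩, hy'⟩ ha' hv'
  · rintro ⟨h1, h2, h3, h4, h5⟩
    refine ⟨⟨h1, ⟨a, h2, ha⟩, h4⟩, h2, h3, ?_⟩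
    intro K' hK' ha' hv'
    exact h5 K' hK'.1 ha' hv' hK'.2.2

end Pool.Agent.SOD
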