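import Pool.Agent.SOD.Curve
import Pool.Agent.SOD.Rad

/-! Project SOD, module Track (size 3): the bent curves of the links. -/

set_option autoImplicit false

open Set

namespace Pool.Agent.SOD

variable {V : Type} [LinearOrder V] [Fintype V] {G : SimpleGraph V} {N : Nd V → Prop}

open Classical in
/-- the direction in which a link leaves the oriented node `K`, if the straight link has direction `θ`: vertices are not bent,
cores are left upwards on their canonical right side, downwards on the other side -/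
noncomputable def tau (G : SimpleGraph V) (K : Nd V) (θ : ℝ) : ℝ :=
  if IsV G K then θ else if Can K then Real.pi / 2 else 3 * Real.pi / 2

/-- the curve of the link from `K` to `P` -/
noncomputable def gam (G : SimpleGraph V) (p : Nd V → ℂ) (r : ℝ) (K P : Nd V) (t : ℝ) : ℂ :=
  crv (p K) (p P) (tau G K (ang (p P - p K))) (tau G P.swap (ang (p K - p P))) r t

theorem gam_rev {p : Nd V → ℂ} (hp : ∀ K, p K.swap = p K) (r : ℝ) (K P : Nd V) (t : ℝ) :
    gam G p r P.swap K.swap (1 - t) = gam G p r K P t := by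
  unfold gam
  rw [hp, hp, Prod.swap_swap]
  exact crv_symm _ _ _ _ _ _

/-- basic data of a link -/
theorem lk_data (hN : Nds G N) {p : Nd V → ℂ} {r : ℝ} (hp : SLine G N p) (hr : RadOK G N p r) {K P : Nd V}
    (h : Lk N K P) : (p P - p K).im ≠ 0 ∧ 2 * r ≤ ‖p P - p K‖ ∧ p K ≠ p P := by
  have h1 := lk_im hN hp h
  have h2 : p K ≠ p P := by
    intro e
    apply h1
    rw [e, sub_self, Complex.zero_im]
  exact ⟨h1, (hr.two h.1 h.2.1 h2).le, h2⟩

/-- on the first half -/
theorem gam_left (hN : Nds G N) {p : Nd V → ℂ} {r : ℝ} (hp : SLine G N p) (hr : RadOK G N p r) {K P : Nd V}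
    (h : Lk N K P) {t : ℝ} (ht : t ≤ 1 / 2) :
    gam G p r K P t = hf (p K) (ang (p P - p K)) (tau G K (ang (p P - p K))) r (t * ‖p P - p K‖) := by
  obtain ⟨h1, h2, _⟩ := lk_data hN hp hr h
  exact crv_left _ _ h1 hr.pos h2 ht

private theorem Track_dist (hN : Nds G N) {p : Nd V → ℂ} {r : ℝ} (hp : SLine G N p) (hr : RadOK G N p r) {K P : Nd V}
    (h : Lk N K P) {t : ℝ} (h0 : 0 ≤ t) (ht : t ≤ 1 / 2) : ‖gam G p r K P t - p K‖ = t * ‖p P - p K‖ := by
  rw [gam_left hN hp hr h ht, hf_norm, abs_of_nonneg (mul_nonneg h0 (norm_nonneg _))]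

private theorem Track_dist' (hN : Nds G N) {p : Nd V → ℂ} {r : ℝ} (hp : SLine G N p) (hr : RadOK G N p r) {K P : Nd V}
    (h : Lk N K P) {t : ℝ} (h1 : t ≤ 1) (ht : 1 / 2 ≤ t) : ‖gam G p r K P t - p P‖ = (1 - t) * ‖p P - p K‖ := by
  have h' := Track_dist hN hp hr (lk_swap hN.swap h) (t := 1 - t) (by linarith) (by linarith)
  rw [gam_rev hp.sw, hp.sw, hp.sw, norm_sub_rev (p K) (p P)] at h'
  exact h'

private theorem Track_half {p : Nd V → ℂ} {r t : ℝ} {K P : Nd V} (hr : 0 < r)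
    (h2 : 2 * r ≤ ‖p P - p K‖) (ht : t * ‖p P - p K‖ < r) : t ≤ 1 / 2 := by
  by_contra hc
  push Not at hc
  nlinarith

private theorem Track_near (hN : Nds G N) {p : Nd V → ℂ} {r : ℝ} (hp : SLine G N p) (hr : RadOK G N p r) {K P M : Nd V}
    (h : Lk N K P) (hM : N M) {t : ℝ} (h0 : 0 ≤ t) (ht : t * ‖p P - p K‖ < r)
    (hz : ‖gam G p r K P t - p M‖ < r) :
    p M = p K ∧ t ≤ 1 / 2 ∧ t * ‖p P - p K‖ = ‖gam G p r K P t - p M‖ := by
  obtain ⟨h1, h2, h3⟩ := lk_data hN hp hr h
  have h5 : t ≤ 1 / 2 := Track_half hr.pos h2 ht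
  have h6 := Track_dist hN hp hr h h0 h5
  have h7 : p M = p K := by
    by_contra hne
    have h8 := hr.two hM h.1 hne
    have h9 : ‖p K - p M‖ ≤ ‖gam G p r K P t - p M‖ + ‖gam G p r K P t - p K‖ := by
      have : p K - p M = (gam G p r K P t - p M) - (gam G p r K P t - p K) := by ring
      rw [this]
      exact norm_sub_le _ _
    rw [h6] at h9
    linarith
  refine ⟨h7, h5, ?_⟩
  rw [h7, h6]

/-- PROOF. Case t ‖P-K‖ < r: then t < 1/2 (2r ≤ ‖P-K‖), the distance of the point to p K is t ‖P-K‖ < r (hf_norm), so ‖p M - p K‖ < 2r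
and p M = p K by hr.two. Case (1-t) ‖P-K‖ < r: same at P, by gam_rev. Otherwise crv_mid: the point is on the segment; hr.seg:
p M = p K or p M = p P (otherwise the distance is > r); then the distance t ‖P-K‖ resp. (1-t)‖P-K‖ is ≥ r: contradiction. -/
theorem gam_near (hN : Nds G N) {p : Nd V → ℂ} {r : ℝ} (hp : SLine G N p) (hr : RadOK G N p r) {K P M : Nd V}
    (h : Lk N K P) (hM : N M) {t : ℝ} (h0 : 0 ≤ t) (h1 : t ≤ 1) (hz : ‖gam G p r K P t - p M‖ < r) :
    (p M = p K ∧ t ≤ 1 / 2 ∧ t * ‖p P - p K‖ = ‖gam G p r K P t - p M‖) ∨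
      (p M = p P ∧ 1 / 2 ≤ t ∧ (1 - t) * ‖p P - p K‖ = ‖gam G p r K P t - p M‖) := by
  obtain ⟨d1, d2, d3⟩ := lk_data hN hp hr h
  by_cases c1 : t * ‖p P - p K‖ < r
  · exact Or.inl (Track_near hN hp hr h hM h0 c1 hz)
  · by_cases c2 : (1 - t) * ‖p P - p K‖ < r
    · right
      have e1 : ‖p K.swap - p P.swap‖ = ‖p P - p K‖ := by
        rw [hp.sw, hp.sw, norm_sub_rev]
      have h' := Track_near hN hp hr (lk_swap hN.swap h) hM (t := 1 - t) (by linarith) (by rw [e1]; exact c2)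
        (by rw [gam_rev hp.sw]; exact hz)
      rw [gam_rev hp.sw, e1, hp.sw] at h'
      exact ⟨h'.1, by linarith [h'.2.1], h'.2.2⟩
    · exfalso
      push Not at c1 c2
      have e : gam G p r K P t = p K + t * (p P - p K) := crv_mid _ _ d1 hr.pos c1 c2
      by_cases m1 : p M = p K
      · rw [m1, e, add_sub_cancel_left, norm_mul, Complex.norm_real, Real.norm_of_nonneg h0] at hz
        linarith
      · by_cases m2 : p M = p P
        · have e2 : p K + t * (p P - p K) - p P = -(((1 - t : ℝ) : ℂ) * (p P - p K)) := by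
            push_cast
            ring
          rw [m2, e, e2, norm_neg, norm_mul, Complex.norm_real, Real.norm_of_nonneg (by linarith)] at hz
          linarith
        · have := hr.seg hM h m1 m2 (z := gam G p r K P t) ⟨t, h0, h1, e⟩
          linarith

/-- PROOF: crv_mid; the distance to p K is t ‖P-K‖ on the first half (hf_norm), so t ‖P-K‖ ≥ r there, and then also
(1-t)‖P-K‖ ≥ ‖P-K‖/2 ≥ r; same on the second half by gam_rev. -/
theorem gam_far (hN : Nds G N) {p : Nd V → ℂ} {r : ℝ} (hp : SLine G N p) (hr : RadOK G N p r) {K P : Nd V}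
    (h : Lk N K P) {t : ℝ} (h0 : 0 ≤ t) (h1 : t ≤ 1) (hz1 : r ≤ ‖gam G p r K P t - p K‖)
    (hz2 : r ≤ ‖gam G p r K P t - p P‖) : gam G p r K P t = p K + t * (p P - p K) := by
  obtain ⟨d1, d2, d3⟩ := lk_data hN hp hr h
  have hd : 0 ≤ ‖p P - p K‖ := norm_nonneg _
  rcases le_total t (1 / 2) with ht | ht
  · rw [Track_dist hN hp hr h h0 ht] at hz1
    exact crv_mid _ _ d1 hr.pos hz1 (by nlinarith)
  · rw [Track_dist' hN hp hr h h1 ht] at hz2
    exact crv_mid _ _ d1 hr.pos (by nlinarith) hz2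

private theorem Track_end {p : Nd V → ℂ} (hp : SLine G N p) {K : Nd V} (hK : N K) :
    (p K).re ^ 2 ≤ (p K).im := by
  by_cases hv : IsV G K
  · obtain ⟨v, h | h⟩ := hv
    · rw [h, hp.par v]
    · rw [h, ← out_swap, hp.sw, hp.par v]
  · exact (hp.core hK hv).le

private theorem Track_seg {a b : ℂ} (ha : a.re ^ 2 ≤ a.im) (hb : b.re ^ 2 ≤ b.im) {t : ℝ} (h0 : 0 ≤ t) (h1 : t ≤ 1) :
    (a + t * (b - a)).re ^ 2 ≤ (a + t * (b - a)).im := by
  have e1 : (a + t * (b - a)).re = a.re + t * (b.re - a.re) := by simp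
  have e2 : (a + t * (b - a)).im = a.im + t * (b.im - a.im) := by simp
  rw [e1, e2]
  nlinarith [mul_nonneg h0 (sub_nonneg.mpr h1), sq_nonneg (b.re - a.re),
    mul_nonneg (mul_nonneg h0 (sub_nonneg.mpr h1)) (sq_nonneg (b.re - a.re)),
    mul_nonneg h0 (sub_nonneg.mpr hb), mul_nonneg (sub_nonneg.mpr h1) (sub_nonneg.mpr ha)]

private theorem Track_epi (hN : Nds G N) {p : Nd V → ℂ} {r : ℝ} (hp : SLine G N p) (hr : RadOK G N p r) {K P : Nd V}
    (h : Lk N K P) {t : ℝ} (h0 : 0 ≤ t) (h1 : t ≤ 1) (c1 : t * ‖p P - p K‖ < r) :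
    (gam G p r K P t).re ^ 2 ≤ (gam G p r K P t).im := by
  obtain ⟨d1, d2, d3⟩ := lk_data hN hp hr h
  have h5 : t ≤ 1 / 2 := Track_half hr.pos d2 c1
  by_cases hv : IsV G K
  · have e : gam G p r K P t = p K + t * (p P - p K) := by
      unfold gam tau
      rw [if_pos hv]
      exact crv_straight _ d1 hr.pos d2 h5
    rw [e]
    exact Track_seg (Track_end hp h.1) (Track_end hp h.2.1) h0 h1
  · refine (hr.epi h.1 hv ?_).le
    rw [Track_dist hN hp hr h h0 h5]
    exact c1.le

/-- PROOF. If t ‖P-K‖ < r: if K is a core: hr.epi (distance ≤ r); if K is a vertex: tau is the angle itself, crv_straight: the point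
is on the segment. Same at P (gam_rev). Otherwise on the segment. The segment is in the convex region z.re² ≤ z.im: the end
points are (hp.core; vertices: hp.par and N K, IsV K: K = out v or inn v, p (inn v) = p (out v)). -/
theorem gam_epi (hN : Nds G N) {p : Nd V → ℂ} {r : ℝ} (hp : SLine G N p) (hr : RadOK G N p r) {K P : Nd V}
    (h : Lk N K P) {t : ℝ} (h0 : 0 ≤ t) (h1 : t ≤ 1) :
    (gam G p r K P t).re ^ 2 ≤ (gam G p r K P t).im := by
  obtain ⟨d1, d2, d3⟩ := lk_data hN hp hr h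
  by_cases c1 : t * ‖p P - p K‖ < r
  · exact Track_epi hN hp hr h h0 h1 c1
  · by_cases c2 : (1 - t) * ‖p P - p K‖ < r
    · have e1 : ‖p K.swap - p P.swap‖ = ‖p P - p K‖ := by
        rw [hp.sw, hp.sw, norm_sub_rev]
      have h' := Track_epi hN hp hr (lk_swap hN.swap h) (t := 1 - t) (by linarith) (by linarith)
        (by rw [e1]; exact c2)
      rw [gam_rev hp.sw] at h'
      exact h'
    · push Not at c1 c2
      have e : gam G p r K P t = p K + t * (p P - p K) := crv_mid _ _ d1 hr.pos c1 c2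
      rw [e]
      exact Track_seg (Track_end hp h.1) (Track_end hp h.2.1) h0 h1

end Pool.Agent.SOD
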